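import Pool.Agent.W770.SA.Basic
import Pool.Agent.H805R3.Kk.Int

set_option autoImplicit false

/-!
Selections of zeros of polynomial systems near a given measurable map.
-/

open MeasureTheory Set Filter Topology ENNReal NNReal Metric

namespace Pool.Agent.R250.AC

open Pool.Agent.H803R2.Kak Pool.Agent.H803R2.KakFTO Pool.Agent.H805R3.Kk Pool.Agent.W770.SA

variable {n : ℕ}

/-- Selection of non-degenerate solutions near a measurable map. -/
theorem selectNear {G : Vec n × Vec n → Vec n} (hG : ContDiff ℝ 1 G) {B : Set (Vec n)}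
    (hB : MeasurableSet B) {b : Vec n → Vec n} (hb : Measurable b) (δ : ℝ) (ℓ : Vec n) :
    ∃ (B' : Set (Vec n)) (a : Vec n → Vec n), MeasurableSet B' ∧ LipPieces B' a ∧
      (∀ x ∈ B', x ∈ B ∧ ‖b x - a x‖ ≤ δ ∧ G (x, a x) = ℓ) ∧
      ∀ x ∈ B, ∀ z, ‖b x - z‖ ≤ δ → G (x, z) = ℓ → (dz G (x, z)).det ≠ 0 → x ∈ B' := by
  classical
  set C : Set (Vec n × Vec n) := {p | G p = ℓ ∧ (dz G p).det ≠ 0} with hC
  rcases C.eq_empty_or_nonempty with hCe | hCne
  · refine ⟨∅, fun _ => 0, MeasurableSet.empty, ⟨fun _ => ∅, fun _ => MeasurableSet.empty, by simp,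
      fun _ => ⟨0, by simp⟩⟩, by simp, ?_⟩
    intro x _ z _ h2 h3
    have : (x, z) ∈ C := ⟨h2, h3⟩
    rw [hCe] at this
    exact absurd this (notMem_empty _)
  have hloc : ∀ p : Vec n × Vec n, ∃ K : ℝ≥0, ∃ r > 0, p ∈ C → ∀ q ∈ closedBall p r,
      ∀ q' ∈ closedBall p r, G q = G q' → dist q.2 q'.2 ≤ K * dist q.1 q'.1 := by
    intro p
    by_cases hp : p ∈ C
    · obtain ⟨K, r, hr, h⟩ := local_lip hG p hp.2
      exact ⟨K, r, hr, fun _ => h⟩
    · exact ⟨0, 1, one_pos, fun h => absurd h hp⟩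
  choose K r hr hK using hloc
  obtain ⟨t, htC, htc, hcov⟩ := TopologicalSpace.countable_cover_nhdsWithin (s := C)
    (f := fun p => closedBall p (r p))
    (fun p _ => mem_nhdsWithin_of_mem_nhds (closedBall_mem_nhds p (hr p)))
  have htne : t.Nonempty := by
    obtain ⟨p, hp⟩ := hCne
    obtain ⟨q, hq, _⟩ := mem_iUnion₂.1 (hcov hp)
    exact ⟨q, hq⟩
  obtain ⟨c, hc⟩ := htc.exists_eq_range htne
  set O : ℕ → Set (Vec n × Vec n) := fun k => closedBall (c k) (r (c k)) with hO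
  have hcC : ∀ k, c k ∈ C := fun k => htC (hc ▸ mem_range_self k)
  have hcovO : ∀ p ∈ C, ∃ k, p ∈ O k := by
    intro p hp
    obtain ⟨q, hq, hpq⟩ := mem_iUnion₂.1 (hcov hp)
    rw [hc] at hq
    obtain ⟨k, rfl⟩ := hq
    exact ⟨k, hpq⟩
  have huniq : ∀ k x z z', (x, z) ∈ C ∩ O k → (x, z') ∈ C ∩ O k → z = z' := by
    intro k x z z' h1 h2
    have h3 := hK (c k) (hcC k) (x, z) h1.2 (x, z') h2.2 (by rw [h1.1.1, h2.1.1])
    simp only [dist_self, mul_zero] at h3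
    exact dist_le_zero.1 h3
  set D' : ℕ → Set (Vec n) := fun k => Prod.fst '' (C ∩ O k) with hD'
  have hDm' : ∀ k, MeasurableSet (D' k) := by
    intro k
    apply measurableSet_of_sigmaCompact
    apply IsSigmaCompact.image continuous_fst
    have : C ∩ O k = ({p | (dz G p).det ≠ 0}) ∩ ({p | G p = ℓ} ∩ O k) := by
      ext p
      simp only [hC, mem_inter_iff, mem_ofPred_eq]
      tauto
    rw [this]
    apply sigmaCompact_of_open_inter_closed
    · exact isOpen_ne_fun (continuous_det_dz hG) continuous_const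
    · exact (isClosed_eq hG.continuous continuous_const).inter isClosed_closedBall
  have hsel : ∀ k x, x ∈ D' k → ∃ z, (x, z) ∈ C ∩ O k := by
    rintro k x ⟨p, hp, rfl⟩
    exact ⟨p.2, hp⟩
  choose! ζ hζ using hsel
  have hlip : ∀ k, LipschitzOnWith (K (c k)) (ζ k) (D' k) := by
    intro k
    apply LipschitzOnWith.of_dist_le_mul
    intro x hx y hy
    have hx1 := hζ k x hx
    have hy1 := hζ k y hy
    have h5 : G (x, ζ k x) = G (y, ζ k y) := by
      rw [hx1.1.1, hy1.1.1]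
    have h6 := hK (c k) (hcC k) (x, ζ k x) hx1.2 (y, ζ k y) hy1.2 h5
    simpa using h6
  set η : ℕ → Vec n → Vec n := fun k => (D' k).piecewise (ζ k) (fun _ => 0) with hη
  have hηm : ∀ k, Measurable (η k) := fun k =>
    (hlip k).continuousOn.measurable_piecewise continuousOn_const (hDm' k)
  have hηe : ∀ k, ∀ x ∈ D' k, η k x = ζ k x := fun k x hx => Set.piecewise_eq_of_mem _ _ _ hx
  set D : ℕ → Set (Vec n) := fun k => (B ∩ D' k) ∩ {x | ‖b x - η k x‖ ≤ δ} with hD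
  have hDm : ∀ k, MeasurableSet (D k) := fun k =>
    (hB.inter (hDm' k)).inter (measurableSet_le (hb.sub (hηm k)).norm measurable_const)
  set B1 : Set (Vec n) := ⋃ k, D k with hB1
  have hBe : ∀ x ∈ B1, ∃ k, x ∈ D k := fun x hx => mem_iUnion.1 hx
  set a : Vec n → Vec n := fun x => if h : ∃ k, x ∈ D k then ζ (Nat.find h) x else 0 with ha
  refine ⟨B1, a, MeasurableSet.iUnion hDm, ?_, ?_, ?_⟩
  · refine ⟨fun k => D k \ ⋃ i ∈ Finset.range k, D i, fun k => (hDm k).diff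
      (Finset.measurableSet_biUnion _ fun i _ => hDm i), ?_, ?_⟩
    · have : B1 \ ⋃ k, D k \ ⋃ i ∈ Finset.range k, D i = ∅ := by
        rw [sdiff_eq_empty]
        intro x hx
        have h := hBe x hx
        refine mem_iUnion.2 ⟨Nat.find h, Nat.find_spec h, ?_⟩
        simp only [mem_iUnion, Finset.mem_range, not_exists]
        intro i hi hxi
        exact Nat.find_min h hi hxi
      rw [this, measure_empty]
    · intro k
      refine ⟨K (c k), ?_⟩
      have hfind : ∀ x ∈ D k \ ⋃ i ∈ Finset.range k, D i, a x = ζ k x := by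
        rintro x ⟨hxk, hxn⟩
        have h : ∃ k, x ∈ D k := ⟨k, hxk⟩
        have h1 : a x = ζ (Nat.find h) x := by simp only [ha, dif_pos h]
        have h2 : Nat.find h = k := by
          apply le_antisymm (Nat.find_min' h hxk)
          by_contra hlt
          push Not at hlt
          apply hxn
          simp only [mem_iUnion, Finset.mem_range]
          exact ⟨Nat.find h, hlt, Nat.find_spec h⟩
        rw [h1, h2]
      apply LipschitzOnWith.of_dist_le_mul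
      intro x hx y hy
      rw [hfind x hx, hfind y hy]
      exact (hlip k).dist_le_mul x hx.1.1.2 y hy.1.1.2
  · intro x hx
    have h := hBe x hx
    have h1 : a x = ζ (Nat.find h) x := by simp only [ha, dif_pos h]
    obtain ⟨⟨hxB, hxD⟩, hxn⟩ := Nat.find_spec h
    have h2 := hζ _ x hxD
    refine ⟨hxB, ?_, ?_⟩
    · rw [h1]
      have h3 : ‖b x - η (Nat.find h) x‖ ≤ δ := hxn
      rwa [hηe _ x hxD] at h3
    · rw [h1]; exact h2.1.1
  · intro x hxB z h1 h2 h3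
    obtain ⟨k, hk⟩ := hcovO (x, z) ⟨h2, h3⟩
    have hxD : x ∈ D' k := ⟨(x, z), ⟨⟨h2, h3⟩, hk⟩, rfl⟩
    have hz : ζ k x = z := huniq k x _ _ (hζ k x hxD) ⟨⟨h2, h3⟩, hk⟩
    refine mem_iUnion.2 ⟨k, ⟨hxB, hxD⟩, ?_⟩
    show ‖b x - η k x‖ ≤ δ
    rw [hηe k x hxD, hz]
    exact h1

/-- The zero `b x` of `G (x, ·)` is stable up to `δ`. -/
def StableAt (G : Vec n × Vec n → Vec n) (δ : ℝ) (x z₀ : Vec n) : Prop :=
  ∃ ε : ℝ, 0 < ε ∧ ∀ ℓ : Vec n, ‖ℓ‖ < ε → ∃ z, ‖z₀ - z‖ ≤ δ ∧ G (x, z) = ℓ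

/-- Reduction to families of bounded overlap. -/
theorem reduce {N : ℕ} {G : Vec n × Vec n → Vec n} (hG : ContDiff ℝ 1 G)
    (hN : ∀ (s : ℝ) (y : Vec n), ∀ᵐ ℓ : Vec n, {x | G (x, y - s • x) = ℓ}.encard ≤ N)
    {B : Set (Vec n)} (hB : MeasurableSet B) {b : Vec n → Vec n} (hb : Measurable b) {δ : ℝ}
    {S : Set (Vec n)} (hSB : S ⊆ B)
    (hs : ∀ x ∈ S, StableAt G δ x (b x)) (Φ : Vec n → ℝ≥0∞) (K : ℝ≥0∞)
    (hΦ : ∀ (B' : Set (Vec n)) (g : Vec n → Vec n), MeasurableSet B' → B' ⊆ B → LipPieces B' g →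
      (∀ T, OverlapLE N T B' g) → (∀ v ∈ B', ‖b v - g v‖ ≤ δ) → ∫⁻ v in B', Φ v ≤ K) :
    ∃ M : Set (Vec n), MeasurableSet M ∧ (∀ᵐ x : Vec n, x ∈ S → x ∈ M) ∧ ∫⁻ v in M, Φ v ≤ K := by
  classical
  have hgen : ∀ᵐ ℓ : Vec n, (∀ᵐ x : Vec n, ∀ z, G (x, z) = ℓ → (dz G (x, z)).det ≠ 0) ∧
      ∀ᵐ s : ℝ, ∀ᵐ y : Vec n, {x | G (x, y - s • x) = ℓ}.encard ≤ N :=
    (sard hG).and (fibre hG.continuous hN)
  have hex : ∀ j : ℕ, ∃ ℓ : Vec n, ‖ℓ‖ < 1 / ((j:ℝ) + 1) ∧
      (∀ᵐ x : Vec n, ∀ z, G (x, z) = ℓ → (dz G (x, z)).det ≠ 0) ∧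
      ∀ᵐ s : ℝ, ∀ᵐ y : Vec n, {x | G (x, y - s • x) = ℓ}.encard ≤ N := by
    intro j
    have hε : (0:ℝ) < 1 / ((j:ℝ) + 1) := by positivity
    by_contra hno
    have h1 : ball (0:Vec n) (1 / ((j:ℝ) + 1)) ⊆
        {ℓ | ¬ ((∀ᵐ x : Vec n, ∀ z, G (x, z) = ℓ → (dz G (x, z)).det ≠ 0) ∧
      ∀ᵐ s : ℝ, ∀ᵐ y : Vec n, {x | G (x, y - s • x) = ℓ}.encard ≤ N)} := by
      intro ℓ hℓ
      rw [mem_ball_zero_iff] at hℓ
      rintro ⟨h2, h3⟩
      exact hno ⟨ℓ, hℓ, h2, h3⟩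
    have h2 := measure_mono_null h1 hgen
    exact (measure_ball_pos volume (0:Vec n) hε).ne' h2
  choose ℓ hℓ hreg hfib using hex
  have hselj := fun j => selectNear hG hB hb δ (ℓ j)
  choose C g hCm hCL hCp hCB using hselj
  have hbound : ∀ j, ∫⁻ v in C j, Φ v ≤ K := by
    intro j
    refine hΦ (C j) (g j) (hCm j) (fun v hv => (hCp j v hv).1) (hCL j) ?_
      (fun v hv => (hCp j v hv).2.1)
    intro T
    show ∀ᵐ t : ℝ, t ∈ T → ∀ᵐ y : Vec n, {v | v ∈ C j ∧ g j v + t • v = y}.encard ≤ N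
    filter_upwards [hfib j] with t ht _
    filter_upwards [ht] with y hy
    refine le_trans (Set.encard_le_encard ?_) hy
    rintro v ⟨hv, hvy⟩
    have h1 := (hCp j v hv).2.2
    have h2 : y - t • v = g j v := by rw [← hvy]; abel
    show G (v, y - t • v) = ℓ j
    rw [h2, h1]
  set C' : ℕ → Set (Vec n) := fun j => ⋂ i ∈ Ici j, C i with hC'
  have hCm' : ∀ j, MeasurableSet (C' j) := fun j =>
    MeasurableSet.biInter (to_countable _) (fun i _ => hCm i)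
  have hmono : Monotone C' := by
    intro j j' hjj' x hx
    simp only [hC', mem_iInter] at hx ⊢
    intro i hi
    exact hx i (le_trans hjj' hi)
  have hsub : ∀ j, C' j ⊆ C j := by
    intro j x hx
    simp only [hC', mem_iInter] at hx
    exact hx j (mem_Ici.2 le_rfl)
  have hcover : ∀ᵐ x : Vec n, x ∈ S → x ∈ ⋃ j, C' j := by
    filter_upwards [ae_all_iff.2 hreg] with x hxr hxS
    have hxB := hSB hxS
    obtain ⟨ε, hε, hεs⟩ := hs x hxS
    obtain ⟨j, hj⟩ := exists_nat_one_div_lt hε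
    refine mem_iUnion.2 ⟨j, ?_⟩
    simp only [hC', mem_iInter]
    intro i hi
    have hij : (j:ℝ) ≤ i := by exact_mod_cast hi
    have h1 : ‖ℓ i‖ < ε := by
      refine (hℓ i).trans (lt_of_le_of_lt ?_ hj)
      apply one_div_le_one_div_of_le (by positivity)
      linarith
    obtain ⟨z, hz1, hz2⟩ := hεs (ℓ i) h1
    exact hCB i x hxB z hz1 hz2 (hxr i z hz2)
  refine ⟨⋃ j, C' j, MeasurableSet.iUnion hCm', hcover, ?_⟩
  calc ∫⁻ v in ⋃ j, C' j, Φ v
      = ⨆ j, ∫⁻ v in C' j, Φ v := setLIntegral_iUnion_of_directed Φ hmono.directed_le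
    _ ≤ K := iSup_le (fun j => (lintegral_mono_set (hsub j)).trans (hbound j))

end Pool.Agent.R250.AC
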