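import Pool.Agent.R250.AC

set_option autoImplicit false

/-!
Kakeya maximal estimates for stable zeros of polynomial systems and for algebraic choices.
-/

open MeasureTheory Set Filter Topology ENNReal NNReal Metric

namespace Pool.Agent.R250.AC

open Pool.Agent.H803R2.Kak Pool.Agent.H803R2.KakFTO Pool.Agent.H805R3.Kk Pool.Agent.W770.SA

variable {n : ℕ}

/-- The loss. -/
noncomputable def loss (d : ℕ) (p δ : ℝ) : ℝ :=
  if p = d + 1 then (1 + Real.log (1 / δ)) ^ d else 1

/-- The constant. -/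
noncomputable def cC (d : ℕ) (p : ℝ) : ℝ := if p = d + 1 then cst d else cstp d p

theorem cC_pos (hn : 1 ≤ n) {p : ℝ} (hp : (n : ℝ) + 1 ≤ p) : 0 < cC n p := by
  unfold cC
  split_ifs with h
  · exact cst_pos hn
  · exact (cstp_spec hn (lt_of_le_of_ne hp (fun h' => h h'.symm))).1

theorem loss_nonneg {p δ : ℝ} (hδ : 0 < δ) (hδ1 : δ < 1) : 0 ≤ loss n p δ := by
  unfold loss
  have : 0 ≤ Real.log (1/δ) := Real.log_nonneg (by rw [le_div_iff₀ hδ]; linarith)
  split_ifs
  · positivity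
  · exact zero_le_one

/-- The estimate for families of bounded overlap. -/
theorem bo (hn : 1 ≤ n) {p : ℝ} (hp : (n : ℝ) + 1 ≤ p) {N : ℕ} (hN : 1 ≤ N) {B : Set (Vec n)}
    (hB : MeasurableSet B) (hB1 : B ⊆ closedBall 0 1) {g b : Vec n → Vec n} (hg : LipPieces B g)
    (hgN : OverlapLE N univ B g) {δ : ℝ} (hbg : ∀ v ∈ B, ‖b v - g v‖ ≤ δ) (hδ : 0 < δ)
    (hδ1 : δ < 1) {f : Space n → ℝ} (hf : AEMeasurable f volume) :
    ∫⁻ v in B, lineMax δ b f v ^ p ≤
      ENNReal.ofReal (cC n p * N * loss n p δ) * ∫⁻ y, ‖f y‖ₑ ^ p := by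
  have hfT : ∀ (y : Vec n) (t : ℝ), t ∉ (univ : Set ℝ) → f (WithLp.toLp 2 (y, t)) = 0 :=
    fun y t ht => absurd (mem_univ t) ht
  by_cases hpd : p = n + 1
  · have h := overlap hn hN MeasurableSet.univ hB hB1 hg hgN hbg hδ hδ1 hf hfT
    have e : p = ((n + 1 : ℕ) : ℝ) := by rw [hpd]; push_cast; ring
    rw [loss, if_pos hpd, cC, if_pos hpd]
    simp only [e, ENNReal.rpow_natCast]
    exact h
  · have hp' : (n:ℝ) + 1 < p := lt_of_le_of_ne hp (fun h => hpd h.symm)
    have h := tubes_p hn hp' MeasurableSet.univ hB hB1 hg hgN hbg hδ hδ1 hf hfT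
    rw [loss, if_neg hpd, cC, if_neg hpd, mul_one]
    exact h

/-- The polynomial system. -/
noncomputable def sys (Q : Fin n → MvPolynomial (Fin n ⊕ Fin n) ℝ) (q : Vec n × Vec n) : Vec n :=
  WithLp.toLp 2 (fun i => ev (Q i) q)

theorem contDiff_sys (Q : Fin n → MvPolynomial (Fin n ⊕ Fin n) ℝ) : ContDiff ℝ 1 (sys Q) := by
  rw [contDiff_euclidean]
  intro l
  exact contDiff_ev _

/-- The bound for the number of zeros. -/
def bez (n k : ℕ) : ℕ := ((1 + n * k) ^ n) ^ n

theorem sys_fibre (hn : 1 ≤ n) {Q : Fin n → MvPolynomial (Fin n ⊕ Fin n) ℝ} {k : ℕ} (hk : 1 ≤ k)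
    (hQ : ∀ i, (Q i).totalDegree ≤ k) (s : ℝ) (y : Vec n) :
    ∀ᵐ ℓ : Vec n, {x | sys Q (x, y - s • x) = ℓ}.encard ≤ (bez n k : ℕ) :=
  ae_fibre_le hn k hk (fun x => sys Q (x, y - s • x)) (fun j => ev_mem_Pol (Q j) (hQ j) s y)

theorem one_le_bez (n k : ℕ) : 1 ≤ bez n k := by
  unfold bez
  exact Nat.one_le_pow _ _ (Nat.one_le_pow _ _ (by omega))

/-- Stable zeros of a polynomial system, on a set `S`. -/
theorem stable_est (hn : 1 ≤ n) {p : ℝ} (hp : (n : ℝ) + 1 ≤ p)
    {Q : Fin n → MvPolynomial (Fin n ⊕ Fin n) ℝ} {k : ℕ} (hk : 1 ≤ k)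
    (hQ : ∀ i, (Q i).totalDegree ≤ k) {B : Set (Vec n)} (hB : MeasurableSet B)
    (hB1 : B ⊆ closedBall 0 1) {b : Vec n → Vec n} (hb : Measurable b) {δ : ℝ} (hδ : 0 < δ)
    (hδ1 : δ < 1) {f : Space n → ℝ} (hf : AEMeasurable f volume) {S : Set (Vec n)} (hS : S ⊆ B)
    (hs : ∀ x ∈ S, StableAt (sys Q) δ x (b x)) :
    ∃ M : Set (Vec n), MeasurableSet M ∧ (∀ᵐ x : Vec n, x ∈ S → x ∈ M) ∧
      ∫⁻ v in M, lineMax δ b f v ^ p ≤
        ENNReal.ofReal (cC n p * (bez n k : ℕ) * loss n p δ) * ∫⁻ y, ‖f y‖ₑ ^ p :=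
  reduce (contDiff_sys Q) (sys_fibre hn hk hQ) hB hb hS hs _ _
    (fun _ _ hB'm hB'B hL hO hnear => bo hn hp (one_le_bez n k) hB'm (hB'B.trans hB1) hL
      (hO univ) hnear hδ hδ1 hf)

/-! ### Algebraic coordinates -/

/-- The value of a polynomial in `v` and one more variable `none`. -/
noncomputable def pe (P : MvPolynomial (Option (Fin n)) ℝ) (v : Vec n) (s : ℝ) : ℝ :=
  MvPolynomial.eval (fun o => o.elim s (fun j => v j)) P

/-- The polynomial as a polynomial in the last variable. -/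
noncomputable def uni (v : Vec n) : MvPolynomial (Option (Fin n)) ℝ →ₐ[ℝ] Polynomial ℝ :=
  MvPolynomial.aeval (fun o => o.elim Polynomial.X (fun j => Polynomial.C (v j)))

theorem eval_uni (P : MvPolynomial (Option (Fin n)) ℝ) (v : Vec n) (s : ℝ) :
    (uni v P).eval s = pe P v s := by
  unfold uni pe
  induction P using MvPolynomial.induction_on with
  | C a => simp
  | add p q hp hq => rw [map_add, Polynomial.eval_add, hp, hq, map_add]
  | mul_X p i hp =>
    rw [map_mul, Polynomial.eval_mul, hp, map_mul, MvPolynomial.aeval_X, MvPolynomial.eval_X]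
    cases i <;> simp

theorem uni_deriv (P : MvPolynomial (Option (Fin n)) ℝ) (v : Vec n) :
    Polynomial.derivative (uni v P) = uni v (MvPolynomial.pderiv none P) := by
  unfold uni
  induction P using MvPolynomial.induction_on with
  | C a => simp
  | add p q hp hq => rw [map_add, Polynomial.derivative_add, hp, hq, map_add, map_add]
  | mul_X p i hp =>
    rw [map_mul, Polynomial.derivative_mul, hp, MvPolynomial.pderiv_mul, map_add, map_mul, map_mul,
      MvPolynomial.aeval_X, MvPolynomial.pderiv_X]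
    cases i with
    | none => simp
    | some j => simp

theorem uni_iterate (P : MvPolynomial (Option (Fin n)) ℝ) (v : Vec n) (j : ℕ) :
    (Polynomial.derivative)^[j] (uni v P) = uni v ((MvPolynomial.pderiv none)^[j] P) := by
  induction j with
  | zero => rfl
  | succ j ih => rw [Function.iterate_succ_apply', ih, uni_deriv, Function.iterate_succ_apply']

theorem natDegree_uni_le (P : MvPolynomial (Option (Fin n)) ℝ) (v : Vec n) {k : ℕ}
    (hP : P.totalDegree ≤ k) : (uni v P).natDegree ≤ k := by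
  have h := MvPolynomial.aeval_natDegree_le (n := 1) P hP
    (fun o => o.elim Polynomial.X (fun j => Polynomial.C (v j))) (by
      intro o
      cases o with
      | none => simp
      | some j => simp)
  rw [mul_one] at h
  exact h

/-- The order of a zero. -/
theorem exists_order {P : MvPolynomial (Option (Fin n)) ℝ} {k : ℕ} (hP : P.totalDegree ≤ k)
    {v : Vec n} (hv : ∃ s, pe P v s ≠ 0) {s : ℝ} (hs : pe P v s = 0) :
    ∃ j : Fin (k + 1), pe ((MvPolynomial.pderiv none)^[j] P) v s = 0 ∧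
      pe ((MvPolynomial.pderiv none)^[j + 1] P) v s ≠ 0 := by
  set r := uni v P with hr
  have hr0 : r ≠ 0 := by
    intro h
    obtain ⟨s0, hs0⟩ := hv
    rw [← eval_uni, ← hr, h] at hs0
    simp at hs0
  have hroot : r.IsRoot s := by
    show r.eval s = 0
    rw [hr, eval_uni, hs]
  have hm : 0 < r.rootMultiplicity s := (Polynomial.rootMultiplicity_pos hr0).2 hroot
  have hmk0 : r.rootMultiplicity s ≤ r.natDegree := by
    rw [← Polynomial.count_roots]
    exact (Multiset.count_le_card _ _).trans (Polynomial.card_roots' r)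
  have hmk : r.rootMultiplicity s ≤ k := hmk0.trans (natDegree_uni_le P v hP)
  refine ⟨⟨r.rootMultiplicity s - 1, by omega⟩, ?_, ?_⟩
  · rw [← eval_uni, ← uni_iterate]
    exact Polynomial.isRoot_iterate_derivative_of_lt_rootMultiplicity (by
      show r.rootMultiplicity s - 1 < r.rootMultiplicity s
      omega)
  · rw [← eval_uni, ← uni_iterate]
    have e : r.rootMultiplicity s - 1 + 1 = r.rootMultiplicity s := by omega
    show ((Polynomial.derivative)^[r.rootMultiplicity s - 1 + 1] r).eval s ≠ 0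
    rw [e, Polynomial.eval_iterate_derivative_rootMultiplicity]
    simp only [nsmul_eq_mul]
    apply mul_ne_zero
    · exact_mod_cast (Nat.factorial_pos _).ne'
    · exact Polynomial.eval_divByMonic_pow_rootMultiplicity_ne_zero s hr0

theorem eval_subst (P : MvPolynomial (Option (Fin n)) ℝ) (c : ℝ) (x : Fin n → ℝ) :
    MvPolynomial.eval x (MvPolynomial.aeval
      (fun o : Option (Fin n) => o.elim (MvPolynomial.C c) MvPolynomial.X) P) =
      MvPolynomial.eval (fun o => o.elim c x) P := by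
  induction P using MvPolynomial.induction_on with
  | C a => simp
  | add p q hp hq => rw [map_add, map_add, hp, hq, map_add]
  | mul_X p i hp =>
    rw [map_mul, map_mul, hp, map_mul, MvPolynomial.aeval_X, MvPolynomial.eval_X]
    cases i <;> simp

/-- Nonzero polynomials vanish identically in the last variable only for a null set of `v`. -/
theorem ae_exists_ne {P : MvPolynomial (Option (Fin n)) ℝ} (hP : P ≠ 0) :
    ∀ᵐ v : Vec n, ∃ s, pe P v s ≠ 0 := by
  obtain ⟨w, hw⟩ : ∃ w : Option (Fin n) → ℝ, MvPolynomial.eval w P ≠ 0 := by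
    by_contra hcon
    push Not at hcon
    exact hP (MvPolynomial.funext (fun w => by rw [hcon w, map_zero]))
  set R : MvPolynomial (Fin n) ℝ := MvPolynomial.aeval
    (fun o : Option (Fin n) => o.elim (MvPolynomial.C (w none)) MvPolynomial.X) P with hR
  have hRe : ∀ x : Fin n → ℝ, MvPolynomial.eval x R =
      MvPolynomial.eval (fun o => o.elim (w none) x) P := by
    intro x
    exact eval_subst P (w none) x
  have hR0 : R ≠ 0 := by
    intro h
    apply hw
    have h1 := hRe (fun j => w (some j))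
    rw [h, map_zero] at h1
    have e : w = fun o => Option.elim o (w none) (fun j => w (some j)) := by
      funext o
      cases o <;> rfl
    rw [e]
    exact h1.symm
  filter_upwards [ae_eval_ne_zero hR0] with v hv
  exact ⟨w none, by
    unfold pe
    rw [← hRe (fun j => v j)]
    exact hv⟩

/-- The polynomial in the variables `v`, `a` that depends on `v` and `a i`. -/
noncomputable def lift (i : Fin n) (P : MvPolynomial (Option (Fin n)) ℝ) :
    MvPolynomial (Fin n ⊕ Fin n) ℝ :=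
  MvPolynomial.rename (fun o => o.elim (Sum.inr i) Sum.inl) P

theorem ev_lift (i : Fin n) (P : MvPolynomial (Option (Fin n)) ℝ) (v a : Vec n) :
    ev (lift i P) (v, a) = pe P v (a i) := by
  unfold ev lift pe
  rw [MvPolynomial.eval_rename]
  have e : (Sum.elim (fun l => (v, a).1 l) (fun l => (v, a).2 l)) ∘
      (fun o : Option (Fin n) => o.elim (Sum.inr i) Sum.inl) =
      fun o => Option.elim o (a i) (fun j => v j) := by
    funext o
    cases o <;> rfl
  rw [e]

theorem totalDegree_iterate_le (P : MvPolynomial (Option (Fin n)) ℝ) (j : ℕ) :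
    ((MvPolynomial.pderiv none)^[j] P).totalDegree ≤ P.totalDegree := by
  induction j with
  | zero => exact le_rfl
  | succ j ih =>
    rw [Function.iterate_succ_apply']
    exact (totalDegree_pderiv_le _ _).trans ih

/-- One-dimensional stability of a simple zero. -/
theorem stable_one {q : Polynomial ℝ} {s : ℝ} (h0 : q.eval s = 0)
    (h1 : (Polynomial.derivative q).eval s ≠ 0) {η : ℝ} (hη : 0 < η) :
    ∃ ε : ℝ, 0 < ε ∧ ∀ l : ℝ, |l| < ε → ∃ s', |s - s'| ≤ η ∧ q.eval s' = l := by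
  have hstrict : HasStrictDerivAt (fun x => q.eval x) ((Polynomial.derivative q).eval s) s :=
    q.hasStrictDerivAt s
  have hmap := hstrict.map_nhds_eq h1
  have hball : closedBall s η ∈ 𝓝 s := closedBall_mem_nhds s hη
  have himg : (fun x => q.eval x) '' closedBall s η ∈ 𝓝 (q.eval s) := by
    rw [← hmap]
    exact image_mem_map hball
  rw [h0, Metric.mem_nhds_iff] at himg
  obtain ⟨ε, hε, hsub⟩ := himg
  refine ⟨ε, hε, fun l hl => ?_⟩
  obtain ⟨s', hs', he⟩ := hsub (show l ∈ ball (0:ℝ) ε by simpa using hl)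
  refine ⟨s', ?_, he⟩
  rw [mem_closedBall, Real.dist_eq] at hs'
  rwa [abs_sub_comm]

theorem norm_le_of_coord {x : Vec n} {η : ℝ} (hη : 0 ≤ η) (h : ∀ i, |x i| ≤ η) :
    ‖x‖ ≤ n * η := by
  rw [EuclideanSpace.norm_eq]
  calc √(∑ i, ‖x i‖ ^ 2) ≤ √((n * η) ^ 2) := by
        apply Real.sqrt_le_sqrt
        rcases Nat.eq_zero_or_pos n with h0 | h0
        · subst h0; simp
        · have hn : (1:ℝ) ≤ n := by exact_mod_cast h0
          calc ∑ i, ‖x i‖ ^ 2 ≤ ∑ _i : Fin n, η ^ 2 := by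
                apply Finset.sum_le_sum
                intro i _
                have := h i
                rw [Real.norm_eq_abs]
                gcongr
            _ = n * η ^ 2 := by simp
            _ ≤ (n * η) ^ 2 := by
                rw [mul_pow]
                have : (n:ℝ) ≤ n ^ 2 := by nlinarith
                gcongr
    _ = n * η := Real.sqrt_sq (by positivity)

/-- The systems of derivatives. -/
noncomputable def dsys (P : Fin n → MvPolynomial (Option (Fin n)) ℝ) (J : Fin n → ℕ) :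
    Fin n → MvPolynomial (Fin n ⊕ Fin n) ℝ :=
  fun i => lift i ((MvPolynomial.pderiv none)^[J i] (P i))

theorem stable_dsys {P : Fin n → MvPolynomial (Option (Fin n)) ℝ} {J : Fin n → ℕ} {v a z₀ : Vec n}
    {δ : ℝ} (hz : ‖z₀ - a‖ < δ)
    (h0 : ∀ i, pe ((MvPolynomial.pderiv none)^[J i] (P i)) v (a i) = 0)
    (h1 : ∀ i, pe ((MvPolynomial.pderiv none)^[J i + 1] (P i)) v (a i) ≠ 0) :
    StableAt (sys (dsys P J)) δ v z₀ := by
  set η : ℝ := (δ - ‖z₀ - a‖) / (n + 1) with hη
  have hη0 : 0 < η := by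
    rw [hη]
    have : 0 < δ - ‖z₀ - a‖ := by linarith
    positivity
  have hex : ∀ i, ∃ ε : ℝ, 0 < ε ∧ ∀ l : ℝ, |l| < ε → ∃ s', |a i - s'| ≤ η ∧
      (uni v ((MvPolynomial.pderiv none)^[J i] (P i))).eval s' = l := by
    intro i
    apply stable_one _ _ hη0
    · rw [eval_uni]; exact h0 i
    · rw [uni_deriv, eval_uni]
      have h2 := h1 i
      rwa [Function.iterate_succ_apply'] at h2
  choose ε hε hεs using hex
  obtain ⟨ε0, hε0, hε0le⟩ : ∃ ε0 : ℝ, 0 < ε0 ∧ ∀ i, ε0 ≤ ε i := by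
    rcases isEmpty_or_nonempty (Fin n) with he | hne
    · exact ⟨1, one_pos, fun i => (he.false i).elim⟩
    · obtain ⟨i0, hi0⟩ := Finite.exists_min ε
      exact ⟨ε i0, hε i0, hi0⟩
  refine ⟨ε0, hε0, fun ℓ hℓ => ?_⟩
  have hl : ∀ i, |ℓ i| < ε i := by
    intro i
    have := PiLp.norm_apply_le ℓ i
    rw [Real.norm_eq_abs] at this
    exact lt_of_le_of_lt this (lt_of_lt_of_le hℓ (hε0le i))
  choose s' hs' hse using fun i => hεs i (ℓ i) (hl i)
  refine ⟨WithLp.toLp 2 s', ?_, ?_⟩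
  · have h2 : ‖a - WithLp.toLp 2 s'‖ ≤ n * η := norm_le_of_coord hη0.le (fun i => hs' i)
    have h3 : n * η ≤ δ - ‖z₀ - a‖ := by
      rw [hη, mul_div_assoc', div_le_iff₀ (by positivity)]
      have : 0 < δ - ‖z₀ - a‖ := by linarith
      nlinarith
    calc ‖z₀ - WithLp.toLp 2 s'‖ = ‖(z₀ - a) + (a - WithLp.toLp 2 s')‖ := by congr 1; abel
      _ ≤ ‖z₀ - a‖ + ‖a - WithLp.toLp 2 s'‖ := norm_add_le _ _
      _ ≤ δ := by linarith
  · ext i
    show ev (dsys P J i) (v, WithLp.toLp 2 s') = ℓ i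
    rw [dsys, ev_lift, ← hse i, eval_uni]

/-- The estimate for algebraic choices. -/
theorem alg_est (hn : 1 ≤ n) {p : ℝ} (hp : (n : ℝ) + 1 ≤ p)
    {P : Fin n → MvPolynomial (Option (Fin n)) ℝ} {k : ℕ} (hk : 1 ≤ k) (hP0 : ∀ i, P i ≠ 0)
    (hP : ∀ i, (P i).totalDegree ≤ k) {B : Set (Vec n)} (hB : MeasurableSet B)
    (hB1 : B ⊆ closedBall 0 1) {b : Vec n → Vec n} (hb : Measurable b) {δ : ℝ} (hδ : 0 < δ)
    (hδ1 : δ < 1) {f : Space n → ℝ} (hf : AEMeasurable f volume)
    (hs : ∀ᵐ v : Vec n, v ∈ B → ∃ a : Vec n, ‖b v - a‖ < δ ∧ ∀ i, pe (P i) v (a i) = 0) :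
    ∫⁻ v in B, lineMax δ b f v ^ p ≤
      ENNReal.ofReal (cC n p * ((k + 1) ^ n * bez n k : ℕ) * loss n p δ) * ∫⁻ y, ‖f y‖ₑ ^ p := by
  classical
  set K : ℝ≥0∞ := ENNReal.ofReal (cC n p * (bez n k : ℕ) * loss n p δ) * ∫⁻ y, ‖f y‖ₑ ^ p with hK
  set S : (Fin n → Fin (k + 1)) → Set (Vec n) := fun J => {v | v ∈ B ∧ ∃ a : Vec n, ‖b v - a‖ < δ ∧
    (∀ i, pe ((MvPolynomial.pderiv none)^[(J i : ℕ)] (P i)) v (a i) = 0) ∧
    ∀ i, pe ((MvPolynomial.pderiv none)^[(J i : ℕ) + 1] (P i)) v (a i) ≠ 0} with hS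
  have hM : ∀ J, ∃ M : Set (Vec n), MeasurableSet M ∧ (∀ᵐ x : Vec n, x ∈ S J → x ∈ M) ∧
      ∫⁻ v in M, lineMax δ b f v ^ p ≤ K := by
    intro J
    refine stable_est hn hp (Q := dsys P (fun i => (J i : ℕ))) hk ?_ hB hB1 hb hδ hδ1 hf
      (S := S J) (fun v hv => hv.1) ?_
    · intro i
      refine (MvPolynomial.totalDegree_rename_le _ _).trans ?_
      exact (totalDegree_iterate_le _ _).trans (hP i)
    · rintro v ⟨_, a, ha, h0, h1⟩
      exact stable_dsys ha h0 h1
  choose M hMm hMS hMK using hM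
  have hcov : ∀ᵐ v : Vec n, v ∈ B → v ∈ ⋃ J, M J := by
    filter_upwards [hs, ae_all_iff.2 hMS, ae_all_iff.2 (fun i => ae_exists_ne (hP0 i))]
      with v hv hvM hne hvB
    obtain ⟨a, ha, ha0⟩ := hv hvB
    choose J hJ0 hJ1 using fun i => exists_order (hP i) (hne i) (ha0 i)
    exact mem_iUnion.2 ⟨J, hvM J ⟨hvB, a, ha, hJ0, hJ1⟩⟩
  calc ∫⁻ v in B, lineMax δ b f v ^ p ≤ ∫⁻ v in ⋃ J, M J, lineMax δ b f v ^ p := by
        apply lintegral_mono' _ le_rfl
        apply Measure.restrict_mono_ae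
        filter_upwards [hcov] with x hx
        exact hx
    _ ≤ ∑' J, ∫⁻ v in M J, lineMax δ b f v ^ p := lintegral_iUnion_le M _
    _ = ∑ J, ∫⁻ v in M J, lineMax δ b f v ^ p := tsum_fintype _
    _ ≤ ∑ _J : Fin n → Fin (k + 1), K := Finset.sum_le_sum (fun J _ => hMK J)
    _ = _ := by
        rw [Finset.sum_const, Finset.card_univ, Fintype.card_fun, Fintype.card_fin, Fintype.card_fin,
          nsmul_eq_mul, hK, ← mul_assoc]
        congr 1
        have hc := (cC_pos hn hp).le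
        have hl := loss_nonneg (n := n) (p := p) hδ hδ1
        rw [← ENNReal.ofReal_natCast, ← ENNReal.ofReal_mul (by positivity)]
        congr 1
        push_cast
        ring

end Pool.Agent.R250.AC
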