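import Pool.Agent.R250.AC2

set_option autoImplicit false

/-!
Semialgebraic classes of lines.
-/

open MeasureTheory Set Filter Topology ENNReal NNReal Metric

namespace Pool.Agent.R250.AC

open Pool.Agent.H803R2.Kak Pool.Agent.H803R2.KakFTO Pool.Agent.H805R3.Kk Pool.Agent.W770.SA

variable {n : ℕ}

theorem contDiff_sys_right (Q : Fin n → MvPolynomial (Fin n ⊕ Fin n) ℝ) (v : Vec n) :
    ContDiff ℝ 1 (fun a : Vec n => sys Q (v, a)) := by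
  have h : ContDiff ℝ 1 (fun a : Vec n => (v, a)) := contDiff_const.prodMk contDiff_id
  have h2 := (contDiff_sys Q).comp h
  simpa only [Function.comp_def] using h2

/-- Regular zeros are stable. -/
theorem stable_of_regular {Q : Fin n → MvPolynomial (Fin n ⊕ Fin n) ℝ} {v z₀ a : Vec n} {δ : ℝ}
    (hz : ‖z₀ - a‖ < δ) (h0 : sys Q (v, a) = 0)
    (h1 : (fderiv ℝ (fun a : Vec n => sys Q (v, a)) a).det ≠ 0) :
    StableAt (sys Q) δ v z₀ := by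
  set F : Vec n → Vec n := fun a => sys Q (v, a) with hF
  have hc : ContDiff ℝ 1 F := contDiff_sys_right Q v
  have hs : HasStrictFDerivAt F (fderiv ℝ F a) a :=
    hc.contDiffAt.hasStrictFDerivAt (by norm_num)
  set e : Vec n ≃L[ℝ] Vec n :=
    ContinuousLinearMap.toContinuousLinearEquivOfDetNeZero (fderiv ℝ F a) h1 with he
  have hmap : map F (𝓝 a) = 𝓝 (F a) :=
    HasStrictFDerivAt.map_nhds_eq_of_equiv (f' := e) hs
  set η : ℝ := δ - ‖z₀ - a‖ with hη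
  have hη0 : 0 < η := by rw [hη]; linarith
  have himg : F '' closedBall a η ∈ 𝓝 (F a) := by
    rw [← hmap]
    exact image_mem_map (closedBall_mem_nhds a hη0)
  have hF0 : F a = 0 := h0
  rw [hF0, Metric.mem_nhds_iff] at himg
  obtain ⟨ε, hε, hsub⟩ := himg
  refine ⟨ε, hε, fun ℓ hℓ => ?_⟩
  obtain ⟨z, hz1, hz2⟩ := hsub (show ℓ ∈ ball (0 : Vec n) ε by simpa using hℓ)
  refine ⟨z, ?_, hz2⟩
  rw [mem_closedBall, dist_eq_norm] at hz1
  calc ‖z₀ - z‖ = ‖(z₀ - a) - (z - a)‖ := by congr 1; abel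
    _ ≤ ‖z₀ - a‖ + ‖z - a‖ := norm_sub_le _ _
    _ ≤ δ := by linarith

/-- The product of the polynomials and of `R² - |z|²`. -/
noncomputable def bigQ {M : ℕ} (Q : Fin M → MvPolynomial (Fin n ⊕ Fin n) ℝ) (R : ℝ) :
    MvPolynomial (Fin n ⊕ Fin n) ℝ := rad R * ∏ k, Q k

theorem ev_bigQ {M : ℕ} (Q : Fin M → MvPolynomial (Fin n ⊕ Fin n) ℝ) (R : ℝ) (x z : Vec n) :
    ev (bigQ Q R) (x, z) = (R ^ 2 - ‖z‖ ^ 2) * ∏ k, ev (Q k) (x, z) := by
  have h : ev (bigQ Q R) (x, z) = ev (rad R) (x, z) * ∏ k, ev (Q k) (x, z) := by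
    unfold bigQ ev
    rw [map_mul, map_prod]
  rw [h, ev_rad]

theorem totalDegree_bigQ_le {M : ℕ} (Q : Fin M → MvPolynomial (Fin n ⊕ Fin n) ℝ) (R : ℝ) {E : ℕ}
    (hE : ∑ k, (Q k).totalDegree ≤ E) : (bigQ Q R).totalDegree ≤ 2 + E := by
  unfold bigQ
  refine (MvPolynomial.totalDegree_mul _ _).trans (add_le_add (totalDegree_rad_le R) ?_)
  exact (MvPolynomial.totalDegree_finsetProd _ _).trans hE

/-- The set of pairs. -/
def goodQ {M : ℕ} (Q : Fin M → MvPolynomial (Fin n ⊕ Fin n) ℝ) (R : ℝ) : Set (Vec n × Vec n) :=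
  {p | ‖p.2‖ < R ∧ ∀ k, 0 < ev (Q k) p}

theorem isOpen_goodQ {M : ℕ} (Q : Fin M → MvPolynomial (Fin n ⊕ Fin n) ℝ) (R : ℝ) :
    IsOpen (goodQ Q R) := by
  have : goodQ Q R = {p : Vec n × Vec n | ‖p.2‖ < R} ∩ ⋂ k, {p : Vec n × Vec n | 0 < ev (Q k) p} := by
    ext p; simp [goodQ]
  rw [this]
  apply IsOpen.inter (isOpen_lt (by fun_prop) continuous_const)
  exact isOpen_iInter_of_finite fun k => isOpen_lt continuous_const (contDiff_ev _).continuous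

theorem exists_critQ {M : ℕ} (Q : Fin M → MvPolynomial (Fin n ⊕ Fin n) ℝ) {R η : ℝ} (hR : 0 < R)
    {x : Vec n} (hx : ∃ z, (x, z) ∈ goodQ Q R ∧ η < ev (bigQ Q R) (x, z)) {ℓ : Vec n}
    (hℓ : ‖ℓ‖ < η / (2 * R)) :
    ∃ z, (x, z) ∈ goodQ Q R ∧ gz (bigQ Q R) (x, z) = ℓ := by
  obtain ⟨z1, hz1, hη⟩ := hx
  set q := bigQ Q R with hq
  set K : Set (Vec n) := {z | ‖z‖ ≤ R ∧ ∀ k, 0 ≤ ev (Q k) (x, z)} with hK
  have hKc : IsCompact K := by
    apply Metric.isCompact_of_isClosed_isBounded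
    · have : K = {z : Vec n | ‖z‖ ≤ R} ∩ ⋂ k, {z : Vec n | 0 ≤ ev (Q k) (x, z)} := by
        ext z; simp [hK]
      rw [this]
      apply IsClosed.inter (isClosed_le (by fun_prop) continuous_const)
      refine isClosed_iInter fun k => ?_
      exact isClosed_le continuous_const ((contDiff_ev _).continuous.comp (by fun_prop))
    · refine (isBounded_closedBall (x := (0:Vec n)) (r := R)).subset ?_
      intro z hz
      rw [mem_closedBall_zero_iff]; exact hz.1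
  have hlin : ∀ z : Vec n, ‖z‖ ≤ R → |∑ l, ℓ l * z l| ≤ ‖ℓ‖ * R := by
    intro z hz
    have h1 : ∑ l, ℓ l * z l = inner ℝ ℓ z := by
      rw [PiLp.inner_apply]
      simp [mul_comm]
    rw [h1]
    exact (abs_real_inner_le_norm _ _).trans (by gcongr)
  have hcont : Continuous (fun z : Vec n => ev q (x, z) - ∑ l, ℓ l * z l) := by
    apply Continuous.sub
    · exact (contDiff_ev q).continuous.comp (by fun_prop)
    · fun_prop
  have hgK : ∀ z, (x, z) ∈ goodQ Q R → z ∈ K := by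
    rintro z ⟨h1, h2⟩
    exact ⟨le_of_lt h1, fun k => (h2 k).le⟩
  obtain ⟨z, hzK, hz⟩ := hKc.exists_isMaxOn ⟨z1, hgK z1 hz1⟩ hcont.continuousOn
  have hR2 : ‖ℓ‖ * R < η / 2 := by
    rw [lt_div_iff₀ (by positivity)] at hℓ
    linarith
  have hval : η / 2 < ev q (x, z) - ∑ l, ℓ l * z l := by
    have h1 : ev q (x, z1) - ∑ l, ℓ l * z1 l ≤ ev q (x, z) - ∑ l, ℓ l * z l := hz (hgK z1 hz1)
    have h2 := hlin z1 (le_of_lt hz1.1)
    have h3 := abs_le.1 h2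
    linarith [h3.2]
  have hqpos : ev q (x, z) ≠ 0 := by
    intro h0
    have h2 := hlin z hzK.1
    have h3 := abs_le.1 h2
    linarith [h3.1]
  have hgood : (x, z) ∈ goodQ Q R := by
    rw [hq, ev_bigQ] at hqpos
    have h1 := left_ne_zero_of_mul hqpos
    have h2 := right_ne_zero_of_mul hqpos
    rw [Finset.prod_ne_zero_iff] at h2
    refine ⟨?_, ?_⟩
    · apply lt_of_le_of_ne hzK.1
      intro h3
      have h3' : ‖z‖ = R := h3
      rw [h3'] at h1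
      exact h1 (by ring)
    · intro k
      exact lt_of_le_of_ne (hzK.2 k) (h2 k (Finset.mem_univ k)).symm
  refine ⟨z, hgood, gz_of_isLocalMax q x z ℓ ?_⟩
  have hopen : IsOpen {z : Vec n | (x, z) ∈ goodQ Q R} := (isOpen_goodQ Q R).preimage (by fun_prop)
  filter_upwards [hopen.mem_nhds hgood] with z' hz'
  exact hz (hgK z' hz')

/-- Reduction for classes of lines. -/
theorem classes (hn : 1 ≤ n) {M : ℕ} (Q : Fin M → MvPolynomial (Fin n ⊕ Fin n) ℝ) {E : ℕ}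
    (hE : ∑ k, (Q k).totalDegree ≤ E) {B₀ : Set (Vec n)} (hB₀ : MeasurableSet B₀)
    (Φ : Vec n → ℝ≥0∞) (K : ℝ≥0∞)
    (hΦ : ∀ (B' : Set (Vec n)) (g : Vec n → Vec n), MeasurableSet B' → B' ⊆ B₀ → LipPieces B' g →
      (∀ T, OverlapLE (bez n (2 + E)) T B' g) → (∀ v ∈ B', ∀ k, 0 < ev (Q k) (v, g v)) →
      ∫⁻ v in B', Φ v ≤ K) :
    ∫⁻ v in {v | v ∈ B₀ ∧ ∃ z, ∀ k, 0 < ev (Q k) (v, z)}, Φ v ≤ K := by
  set B : ℕ → Set (Vec n) := fun j => {x | ∃ z, (x, z) ∈ goodQ Q (j + 1) ∧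
    1 / ((j:ℝ) + 1) < ev (bigQ Q (j + 1)) (x, z)} with hB
  have hBk : ∀ j, ∫⁻ v in B j ∩ B₀, Φ v ≤ K := by
    intro j
    have hj0 : (0:ℝ) < (j:ℝ) + 1 := by positivity
    set G := gz (bigQ Q ((j:ℝ) + 1)) with hG
    have hGc : ContDiff ℝ 1 G := contDiff_gz _
    have hN : ∀ (s : ℝ) (y : Vec n), ∀ᵐ ℓ : Vec n,
        {x | G (x, y - s • x) = ℓ}.encard ≤ (bez n (2 + E) : ℕ) := by
      intro s y
      exact gz_fibre hn _ (by omega) (totalDegree_bigQ_le Q _ hE) s y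
    have hgen : ∀ᵐ ℓ : Vec n, (∀ᵐ x : Vec n, ∀ z, G (x, z) = ℓ → (dz G (x, z)).det ≠ 0) ∧
        ∀ᵐ s : ℝ, ∀ᵐ y : Vec n, {x | G (x, y - s • x) = ℓ}.encard ≤ (bez n (2 + E) : ℕ) :=
      (sard hGc).and (fibre hGc.continuous hN)
    set ε : ℝ := 1 / ((j:ℝ) + 1) / (2 * ((j:ℝ) + 1)) with hε
    have hε0 : 0 < ε := by positivity
    obtain ⟨ℓ, hℓε, hreg, hfib⟩ : ∃ ℓ : Vec n, ‖ℓ‖ < ε ∧
        (∀ᵐ x : Vec n, ∀ z, G (x, z) = ℓ → (dz G (x, z)).det ≠ 0) ∧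
        ∀ᵐ s : ℝ, ∀ᵐ y : Vec n, {x | G (x, y - s • x) = ℓ}.encard ≤ (bez n (2 + E) : ℕ) := by
      by_contra hno
      have h1 : ball (0:Vec n) ε ⊆ {ℓ | ¬ ((∀ᵐ x : Vec n, ∀ z, G (x, z) = ℓ →
          (dz G (x, z)).det ≠ 0) ∧
        ∀ᵐ s : ℝ, ∀ᵐ y : Vec n, {x | G (x, y - s • x) = ℓ}.encard ≤ (bez n (2 + E) : ℕ))} := by
        intro ℓ hℓ
        rw [mem_ball_zero_iff] at hℓ
        rintro ⟨h2, h3⟩
        exact hno ⟨ℓ, hℓ, h2, h3⟩
      have h2 := measure_mono_null h1 hgen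
      exact (measure_ball_pos volume (0:Vec n) hε0).ne' h2
    obtain ⟨B1, a, hB1m, ⟨P, hPm, hPn, hPl⟩, haU, hB1⟩ :=
      selection hGc (isOpen_goodQ Q ((j:ℝ) + 1)) ℓ
    have hsub : ∫⁻ v in B j ∩ B₀, Φ v ≤ ∫⁻ v in B1 ∩ B₀, Φ v := by
      apply lintegral_mono' _ le_rfl
      apply Measure.restrict_mono_ae
      filter_upwards [hreg] with x hx hxB
      obtain ⟨z, hz, hz2⟩ := exists_critQ Q hj0 hxB.1 hℓε
      exact ⟨hB1 x z hz hz2 (hx z hz2), hxB.2⟩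
    refine hsub.trans (hΦ _ a (hB1m.inter hB₀) inter_subset_right
      ⟨P, hPm, measure_mono_null (sdiff_subset_sdiff_left inter_subset_left) hPn, hPl⟩ ?_ ?_)
    · intro T
      show ∀ᵐ t : ℝ, t ∈ T → ∀ᵐ y : Vec n, {v | v ∈ B1 ∩ B₀ ∧ a v + t • v = y}.encard ≤ _
      filter_upwards [hfib] with t ht _
      filter_upwards [ht] with y hy
      refine le_trans (Set.encard_le_encard ?_) hy
      rintro v ⟨hv, hvy⟩
      have h1 := (haU v hv.1).2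
      have h2 : y - t • v = a v := by rw [← hvy]; abel
      show G (v, y - t • v) = ℓ
      rw [h2, h1]
    · intro v hv k
      exact (haU v hv.1).1.2 k
  have hmono : Monotone B := by
    intro k k' hkk'
    rintro x ⟨z, hz, hη⟩
    have hkk : (k:ℝ) + 1 ≤ (k':ℝ) + 1 := by
      have : (k:ℝ) ≤ k' := by exact_mod_cast hkk'
      linarith
    have hz' : (x, z) ∈ goodQ Q (k' + 1) := ⟨lt_of_lt_of_le hz.1 hkk, hz.2⟩
    refine ⟨z, hz', ?_⟩
    have h1 : 1 / ((k':ℝ) + 1) ≤ 1 / ((k:ℝ) + 1) :=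
      one_div_le_one_div_of_le (by positivity) hkk
    refine lt_of_le_of_lt h1 (lt_of_lt_of_le hη ?_)
    rw [ev_bigQ, ev_bigQ]
    apply mul_le_mul_of_nonneg_right
    · have : ((k:ℝ) + 1) ^ 2 ≤ ((k':ℝ) + 1) ^ 2 := by gcongr
      linarith
    · exact Finset.prod_nonneg (fun k _ => (hz.2 k).le)
  have hunion : {v | v ∈ B₀ ∧ ∃ z, ∀ k, 0 < ev (Q k) (v, z)} ⊆ ⋃ k, B k ∩ B₀ := by
    rintro x ⟨hx0, z, hz⟩
    obtain ⟨k0, hk0⟩ := exists_nat_gt ‖z‖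
    have hpos : 0 < ev (bigQ Q ((k0:ℝ) + 1)) (x, z) := by
      rw [ev_bigQ]
      apply _root_.mul_pos
      · have := norm_nonneg z
        nlinarith
      · exact Finset.prod_pos (fun k _ => hz k)
    obtain ⟨k1, hk1⟩ := exists_nat_gt (1 / ev (bigQ Q ((k0:ℝ) + 1)) (x, z))
    refine mem_iUnion.2 ⟨max k0 k1, ⟨z, ?_, ?_⟩, hx0⟩
    · refine ⟨?_, hz⟩
      show ‖z‖ < ((max k0 k1 : ℕ):ℝ) + 1
      have : (k0:ℝ) ≤ ((max k0 k1 : ℕ):ℝ) := by exact_mod_cast le_max_left _ _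
      linarith
    · have hk0' : (k0:ℝ) ≤ ((max k0 k1 : ℕ):ℝ) := by exact_mod_cast le_max_left _ _
      have hk1' : (k1:ℝ) ≤ ((max k0 k1 : ℕ):ℝ) := by exact_mod_cast le_max_right _ _
      set k := max k0 k1 with hk
      have h1 : ev (bigQ Q ((k0:ℝ) + 1)) (x, z) ≤ ev (bigQ Q ((k:ℝ) + 1)) (x, z) := by
        rw [ev_bigQ, ev_bigQ]
        apply mul_le_mul_of_nonneg_right
        · have : ((k0:ℝ) + 1) ^ 2 ≤ ((k:ℝ) + 1) ^ 2 := by gcongr
          linarith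
        · exact Finset.prod_nonneg (fun k _ => (hz k).le)
      refine lt_of_lt_of_le ?_ h1
      rw [div_lt_iff₀ (by positivity)]
      rw [div_lt_iff₀ hpos] at hk1
      nlinarith
  have hmono' : Monotone (fun k => B k ∩ B₀) := fun i j hij =>
    inter_subset_inter_left _ (hmono hij)
  calc ∫⁻ v in {v | v ∈ B₀ ∧ ∃ z, ∀ k, 0 < ev (Q k) (v, z)}, Φ v
      ≤ ∫⁻ v in ⋃ k, B k ∩ B₀, Φ v := lintegral_mono_set hunion
    _ = ⨆ k, ∫⁻ v in B k ∩ B₀, Φ v := setLIntegral_iUnion_of_directed Φ hmono'.directed_le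
    _ ≤ K := iSup_le hBk

/-- The estimate for classes. -/
theorem class_est (hn : 1 ≤ n) {p : ℝ} (hp : (n : ℝ) + 1 ≤ p) {M : ℕ}
    (Q : Fin M → MvPolynomial (Fin n ⊕ Fin n) ℝ) {E : ℕ} (hE : ∑ k, (Q k).totalDegree ≤ E)
    {δ : ℝ} (hδ : 0 < δ) (hδ1 : δ < 1) {f : Space n → ℝ} (hf : AEMeasurable f volume) :
    ∫⁻ v in {v | v ∈ closedBall (0 : Vec n) 1 ∧ ∃ z, ∀ k, 0 < ev (Q k) (v, z)},
      (⨅ z : {z : Vec n // ∀ k, 0 < ev (Q k) (v, z)}, lineMax δ (fun _ => (z : Vec n)) f v) ^ p ≤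
      ENNReal.ofReal (cC n p * (bez n (2 + E) : ℕ) * loss n p δ) * ∫⁻ y, ‖f y‖ₑ ^ p := by
  have hp0 : 0 ≤ p := by
    have : (0:ℝ) ≤ n := Nat.cast_nonneg n
    linarith
  refine classes hn Q hE measurableSet_closedBall _ _ ?_
  intro B' g hB'm hB' hL hO hU
  refine le_trans ?_ (bo hn hp (one_le_bez n (2 + E)) hB'm hB' hL (hO univ) (b := g) (δ := δ)
    (fun v _ => by rw [sub_self, norm_zero]; exact hδ.le) hδ hδ1 hf)
  apply setLIntegral_mono' hB'm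
  intro v hv
  apply ENNReal.rpow_le_rpow _ hp0
  refine (iInf_le _ (⟨g v, hU v hv⟩ : {z : Vec n // ∀ k, 0 < ev (Q k) (v, z)})).trans ?_
  exact le_rfl

end Pool.Agent.R250.AC
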