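import Pool.Agent.R250.AC3
import Pool.Agent.TH426.Kt.Final

set_option autoImplicit false

/-!
Towers over the rough stages and over exact algebraic choices: the comparison with the centred
family with a logarithmic loss.
-/

open MeasureTheory Set Filter Topology ENNReal NNReal Metric

namespace Pool.Agent.R250.AC

open Pool.Agent.H803R2.Kak Pool.Agent.H803R2.KakFTO Pool.Agent.H805R3.Kk
open Pool.Agent.TH426.Kt (KTower RegBase BaseBd Rough rough_reg rough_bd Wb win Lg LMb)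

variable {n : ℕ}

/-- Zeros of the system which are stable at all distances. -/
def Stab (Q : Fin n → MvPolynomial (Fin n ⊕ Fin n) ℝ) (v a : Vec n) : Prop :=
  ∀ δ : ℝ, 0 < δ → StableAt (sys Q) δ v a

/-- The exact algebraic stages. -/
inductive AlgB : (d : ℕ) → ℝ → ℝ≥0 → Set (Vec d) → (Vec d → Vec d) → Prop
  | alg {d k : ℕ} {B : Set (Vec d)} {b : Vec d → Vec d} (hd : 1 ≤ d) (hB : MeasurableSet B)
      (hB1 : B ⊆ closedBall 0 1) (hb : Measurable b) (hk : 1 ≤ k)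
      (P : Fin d → MvPolynomial (Option (Fin d)) ℝ) (hP : ∀ i, P i ≠ 0 ∧ (P i).totalDegree ≤ k)
      (h : ∀ᵐ v : Vec d, v ∈ B → ∀ i, pe (P i) v (b v i) = 0) :
      AlgB d (d + 1) (((k + 1) ^ d * bez d k : ℕ) : ℝ≥0) B b
  | cong {d k : ℕ} {B : Set (Vec d)} {b : Vec d → Vec d} (hd : 1 ≤ d) (hB : MeasurableSet B)
      (hB1 : B ⊆ closedBall 0 1) (hb : Measurable b) (hk : 1 ≤ k)
      (Q : Fin d → MvPolynomial (Fin d ⊕ Fin d) ℝ) (hQ : ∀ i, (Q i).totalDegree ≤ k)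
      (h : ∀ᵐ v : Vec d, v ∈ B → Stab Q v (b v)) :
      AlgB d (d + 1) ((bez d k : ℕ) : ℝ≥0) B b

/-- The rough stages and the algebraic ones. -/
def RAB (d : ℕ) (p : ℝ) (M : ℝ≥0) (B : Set (Vec d)) (b : Vec d → Vec d) : Prop :=
  Rough univ d p M B b ∨ AlgB d p M B b

theorem rab_reg : RegBase RAB := by
  constructor
  · intro d p N B b h
    rcases h with h | h
    · exact (rough_reg univ).meas h
    · cases h with
      | alg hd hB hB1 hb hk P hP h => exact ⟨hB, hB1, hb⟩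
      | cong hd hB hB1 hb hk Q hQ h => exact ⟨hB, hB1, hb⟩
  · intro d p N B b h
    rcases h with h | h
    · exact (rough_reg univ).expo h
    · have h0 : (0 : ℝ) ≤ d := Nat.cast_nonneg d
      cases h with
      | alg hd hB hB1 hb hk P hP h => constructor <;> linarith
      | cong hd hB hB1 hb hk Q hQ h => constructor <;> linarith

/-- The constants. -/
noncomputable def c4 (d : ℕ) : ℝ≥0∞ :=
  Pool.Agent.TH426.Kt.c0 d + (2 ^ d) ^ ((1 : ℝ) * (d + 1)) * ((3 * 8 ^ d) ^ ((1 : ℝ) * (d + 1)) *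
    ENNReal.ofReal (cC d ((d : ℝ) + 1)))

theorem c4_ne_top (d : ℕ) : c4 d ≠ ∞ := by
  unfold c4
  apply ENNReal.add_ne_top.2
  refine ⟨Pool.Agent.TH426.Kt.c0_ne_top d, ?_⟩
  have h0 : (0 : ℝ) ≤ 1 * ((d : ℝ) + 1) := by positivity
  apply ENNReal.mul_ne_top
  · exact ENNReal.rpow_ne_top_of_nonneg h0 (ENNReal.pow_ne_top (by simp))
  · apply ENNReal.mul_ne_top _ ENNReal.ofReal_ne_top
    exact ENNReal.rpow_ne_top_of_nonneg h0 (ENNReal.mul_ne_top (by simp) (ENNReal.pow_ne_top (by simp)))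

theorem loss_eq (d : ℕ) {δ : ℝ} (hδ : 0 < δ) (hδ1 : δ < 1) :
    ENNReal.ofReal (loss d ((d : ℝ) + 1) δ) = Lg δ ^ d := by
  have h1 : 0 ≤ 1 + Real.log (1 / δ) := by
    have : 0 ≤ Real.log (1 / δ) := Real.log_nonneg (by rw [le_div_iff₀ hδ]; linarith)
    linarith
  unfold loss Pool.Agent.TH426.Kt.Lg
  rw [if_pos rfl, ENNReal.ofReal_pow h1]

theorem lmb_of_est {d : ℕ} (hd : 1 ≤ d) {δ : ℝ} (hδ : 0 < δ) (hδ1 : δ < 1) {m : ℕ} {B : Set (Vec d)}
    {b : Vec d → Vec d}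
    (h : ∀ f : Space d → ℝ, Measurable f → ∫⁻ v in B, lineMax δ b f v ^ ((d : ℝ) + 1) ≤
      ENNReal.ofReal (cC d ((d : ℝ) + 1) * m * loss d ((d : ℝ) + 1) δ) *
        ∫⁻ y, ‖f y‖ₑ ^ ((d : ℝ) + 1)) :
    LMb δ univ 1 ((d : ℝ) + 1) (ENNReal.ofReal (cC d ((d : ℝ) + 1)) * m * Lg δ ^ d) B b := by
  intro f hf _
  rw [one_mul, ENNReal.rpow_one]
  refine (h f hf).trans (le_of_eq ?_)
  have hc := (cC_pos hd (le_refl ((d : ℝ) + 1))).le
  rw [ENNReal.ofReal_mul (by positivity), ENNReal.ofReal_mul hc, ENNReal.ofReal_natCast,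
    loss_eq d hδ hδ1]

theorem algB_lmb {d : ℕ} {p : ℝ} {M : ℝ≥0} {B : Set (Vec d)} {b : Vec d → Vec d}
    (h : AlgB d p M B b) {δ : ℝ} (hδ : 0 < δ) (hδ1 : δ < 1) :
    LMb δ univ 1 p (ENNReal.ofReal (cC d ((d : ℝ) + 1)) * M * Lg δ ^ d) B b := by
  cases h with
  | alg hd hB hB1 hb hk P hP h =>
    rw [ENNReal.coe_natCast]
    apply lmb_of_est hd hδ hδ1
    intro f hf
    have h1 := alg_est hd (le_refl ((d : ℝ) + 1)) hk (fun i => (hP i).1) (fun i => (hP i).2) hB hB1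
      hb hδ hδ1 hf.aemeasurable (by
        filter_upwards [h] with v hv hvB
        exact ⟨b v, by simpa using hδ, hv hvB⟩)
    exact_mod_cast h1
  | cong hd hB hB1 hb hk Q hQ h =>
    rw [ENNReal.coe_natCast]
    apply lmb_of_est hd hδ hδ1
    intro f hf
    obtain ⟨S, hS, hSM, hest⟩ := stable_est hd (le_refl ((d : ℝ) + 1)) hk hQ hB hB1 hb hδ hδ1
      hf.aemeasurable (S := {v | v ∈ B ∧ StableAt (sys Q) δ v (b v)})
      (fun v hv => hv.1) (fun v hv => hv.2)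
    refine le_trans ?_ hest
    apply lintegral_mono' _ le_rfl
    apply Measure.restrict_mono_ae
    filter_upwards [h, hSM] with v hv hvM hvB
    exact hvM ⟨hvB, hv hvB δ hδ⟩

theorem rab_bd {δ : ℝ} (hδ : 0 < δ) (hδ1 : δ < 1) (k : ℤ) :
    BaseBd RAB (3 * δ) (win univ k) 1 c4 (Lg δ) 1 := by
  intro d p N B b h
  rcases h with h | h
  · refine (rough_bd MeasurableSet.univ hδ hδ1 k h).mono ?_ subset_rfl
    unfold c4
    gcongr
    exact le_self_add
  · obtain ⟨hB, hB1, hb⟩ := rab_reg.meas (Or.inr h)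
    have hp : p = d + 1 := by cases h <;> rfl
    subst hp
    have h0 : (0 : ℝ) ≤ d := Nat.cast_nonneg d
    refine (Pool.Agent.TH426.Kt.wb_of_lmb hδ hδ1 MeasurableSet.univ zero_le_one (by linarith)
      (by linarith) hB hB1 hb (algB_lmb h hδ hδ1) k).mono ?_ subset_rfl
    rw [ENNReal.one_rpow, mul_one]
    calc (2 ^ d) ^ ((1 : ℝ) * (d + 1)) * ((3 * 8 ^ d) ^ ((1 : ℝ) * (d + 1)) *
          (ENNReal.ofReal (cC d ((d : ℝ) + 1)) * N * Lg δ ^ d))
        = ((2 ^ d) ^ ((1 : ℝ) * (d + 1)) * ((3 * 8 ^ d) ^ ((1 : ℝ) * (d + 1)) *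
          ENNReal.ofReal (cC d ((d : ℝ) + 1)))) * N * Lg δ ^ d := by ring
      _ ≤ c4 d * N * Lg δ ^ d := by
          unfold c4
          gcongr
          exact le_add_self

end Pool.Agent.R250.AC
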