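import Pool.Agent.R250.AC4

set_option autoImplicit false

/-!
Positions near the values of algebraic functions: measurable selection of exact values.
-/

open MeasureTheory Set Filter Topology ENNReal NNReal Metric

namespace Pool.Agent.R250.AC

open Pool.Agent.H803R2.Kak Pool.Agent.H803R2.KakFTO Pool.Agent.H805R3.Kk
open Pool.Agent.TH426.Kt (KTower RegBase BaseBd Rough rough_reg rough_bd Wb win Lg LMb)
open Pool.Agent.H810R3.Tub (nor box)

variable {n : ℕ}

theorem continuous_pe (P : MvPolynomial (Option (Fin n)) ℝ) :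
    Continuous (fun q : Vec n × ℝ => pe P q.1 q.2) := by
  unfold pe
  apply (MvPolynomial.continuous_eval P).comp
  apply continuous_pi
  intro o
  cases o with
  | none => exact continuous_snd
  | some j => exact (PiLp.continuous_apply 2 _ j).comp continuous_fst

/-- The polynomial multiplied by the last variable. -/
noncomputable def mulS (P : MvPolynomial (Option (Fin n)) ℝ) : MvPolynomial (Option (Fin n)) ℝ :=
  P * MvPolynomial.X none

theorem mulS_ne {P : MvPolynomial (Option (Fin n)) ℝ} (hP : P ≠ 0) : mulS P ≠ 0 :=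
  mul_ne_zero hP (MvPolynomial.X_ne_zero _)

theorem mulS_deg {P : MvPolynomial (Option (Fin n)) ℝ} {k : ℕ} (hP : P.totalDegree ≤ k) :
    (mulS P).totalDegree ≤ k + 1 := by
  refine (MvPolynomial.totalDegree_mul _ _).trans ?_
  have := MvPolynomial.totalDegree_X (R := ℝ) (none : Option (Fin n))
  omega

theorem pe_mulS (P : MvPolynomial (Option (Fin n)) ℝ) (v : Vec n) (s : ℝ) :
    pe (mulS P) v s = pe P v s * s := by
  unfold pe mulS
  rw [map_mul, MvPolynomial.eval_X]
  rfl

attribute [local irreducible] pe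

/-- The points `v` at which there is a zero in `[lo, hi]` form a closed set. -/
theorem isClosed_zero (P : MvPolynomial (Option (Fin n)) ℝ) (lo hi : ℝ) :
    IsClosed {v : Vec n | ∃ s ∈ Icc lo hi, pe P v s = 0} := by
  have hcpt : CompactSpace (Icc lo hi) := isCompact_iff_compactSpace.1 isCompact_Icc
  have hg : Continuous (fun q : (Icc lo hi) × Vec n => (q.2, (q.1 : ℝ))) :=
    continuous_snd.prodMk (continuous_subtype_val.comp continuous_fst)
  have hc : Continuous (fun q : (Icc lo hi) × Vec n => pe P q.2 (q.1 : ℝ)) :=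
    (continuous_pe P).comp hg
  have h1 : IsClosed ((fun q : (Icc lo hi) × Vec n => pe P q.2 (q.1 : ℝ)) ⁻¹' {0}) :=
    isClosed_singleton.preimage hc
  have h2 := isClosedMap_snd_of_compactSpace (X := Icc lo hi) (Y := Vec n) _ h1
  have e : {v : Vec n | ∃ s ∈ Icc lo hi, pe P v s = 0} =
      Prod.snd '' ((fun q : (Icc lo hi) × Vec n => pe P q.2 (q.1 : ℝ)) ⁻¹' {0}) := by
    ext v
    constructor
    · rintro ⟨s, hs, h0⟩
      exact ⟨(⟨s, hs⟩, v), h0, rfl⟩
    · rintro ⟨⟨s, w⟩, h0, rfl⟩
      exact ⟨s, s.2, h0⟩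
  rw [e]
  exact h2

/-- The smallest zero in `[lo, hi]`. -/
noncomputable def sel (P : MvPolynomial (Option (Fin n)) ℝ) (lo hi : ℝ) (v : Vec n) : ℝ :=
  sInf ({s | s ∈ Icc lo hi ∧ pe P v s = 0} ∪ {hi + 1})

theorem sel_spec (P : MvPolynomial (Option (Fin n)) ℝ) (lo hi : ℝ) {v : Vec n}
    (h : ∃ s ∈ Icc lo hi, pe P v s = 0) :
    sel P lo hi v ∈ Icc lo hi ∧ pe P v (sel P lo hi v) = 0 := by
  set S : Set ℝ := {s | s ∈ Icc lo hi ∧ pe P v s = 0} ∪ {hi + 1} with hS
  have hcl : IsClosed S := by
    apply IsClosed.union _ isClosed_singleton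
    have hg : Continuous (fun s : ℝ => (v, s)) := continuous_const.prodMk continuous_id
    have hc : Continuous (fun s : ℝ => pe P v s) := (continuous_pe P).comp hg
    have h1 : IsClosed ((fun s : ℝ => pe P v s) ⁻¹' {0}) := isClosed_singleton.preimage hc
    exact isClosed_Icc.inter h1
  have hne : S.Nonempty := ⟨hi + 1, Or.inr rfl⟩
  have hbd : BddBelow S := by
    refine ⟨min lo (hi + 1), ?_⟩
    rintro s (hs | hs)
    · exact (min_le_left _ _).trans hs.1.1
    · rw [mem_singleton_iff] at hs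
      rw [hs]; exact min_le_right _ _
  have hmem := hcl.csInf_mem hne hbd
  obtain ⟨s, hs, h0⟩ := h
  have hle : sInf S ≤ s := csInf_le hbd (Or.inl ⟨hs, h0⟩)
  rcases hmem with h1 | h1
  · exact h1
  · rw [mem_singleton_iff] at h1
    rw [h1] at hle
    linarith [hs.2]

theorem measurable_sel (P : MvPolynomial (Option (Fin n)) ℝ) (lo hi : ℝ) :
    Measurable (sel P lo hi) := by
  apply measurable_of_Iic
  intro t
  by_cases ht : hi + 1 ≤ t
  · convert MeasurableSet.univ
    rw [eq_univ_iff_forall]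
    intro v
    have hmem : hi + 1 ∈ {s | s ∈ Icc lo hi ∧ pe P v s = 0} ∪ {hi + 1} := Or.inr rfl
    refine le_trans (csInf_le ?_ hmem) ht
    refine ⟨min lo (hi + 1), ?_⟩
    rintro s (hs | hs)
    · exact (min_le_left _ _).trans hs.1.1
    · rw [mem_singleton_iff] at hs
      rw [hs]; exact min_le_right _ _
  · have e : sel P lo hi ⁻¹' Iic t = {v : Vec n | ∃ s ∈ Icc lo (min hi t), pe P v s = 0} := by
      ext v
      simp only [mem_preimage, mem_Iic, mem_setOf_eq]
      constructor
      · intro h1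
        by_cases hex : ∃ s ∈ Icc lo hi, pe P v s = 0
        · obtain ⟨h2, h3⟩ := sel_spec P lo hi hex
          exact ⟨_, ⟨h2.1, le_min h2.2 h1⟩, h3⟩
        · exfalso
          apply ht
          have : sel P lo hi v = hi + 1 := by
            unfold sel
            have h4 : {s | s ∈ Icc lo hi ∧ pe P v s = 0} = (∅ : Set ℝ) := by
              rw [eq_empty_iff_forall_notMem]
              rintro s ⟨h5, h6⟩
              exact hex ⟨s, h5, h6⟩
            rw [h4, empty_union, csInf_singleton]
          rw [← this]; exact h1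
      · rintro ⟨s, hs, h0⟩
        refine le_trans (csInf_le ?_ (Or.inl ⟨⟨hs.1, hs.2.trans (min_le_left _ _)⟩, h0⟩))
          (hs.2.trans (min_le_right _ _))
        refine ⟨min lo (hi + 1), ?_⟩
        rintro s (hs | hs)
        · exact (min_le_left _ _).trans hs.1.1
        · rw [mem_singleton_iff] at hs
          rw [hs]; exact min_le_right _ _
    rw [e]
    exact (isClosed_zero P _ _).measurableSet

/-- A measurable map with exact algebraic values, close to the given positions. -/
theorem exists_map {N K σ : ℝ} (hN : 1 ≤ N) (hK : 0 ≤ K) (hσ : 0 < σ) {ι : Type} [Fintype ι]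
    {ω β : ι → Vec n} (hsep : ∀ i j, i ≠ j → σ / N ≤ ‖ω i - ω j‖)
    {P : Fin n → MvPolynomial (Option (Fin n)) ℝ}
    (h : ∀ i v, ‖v‖ ≤ 1 → ‖v - ω i‖ ≤ σ / (3 * N) →
      ∃ a : Vec n, (∀ j, pe (P j) v (a j) = 0) ∧ ∀ j, |β i j - N ^ 2 * a j| ≤ K * N) :
    ∃ b : Vec n → Vec n, Measurable b ∧ (∀ v, ‖v‖ ≤ 1 → ∀ j, pe (mulS (P j)) v (b v j) = 0) ∧
      ∀ i v, ‖v‖ ≤ 1 → ‖v - ω i‖ ≤ σ / (3 * N) → ‖β i - N ^ 2 • b v‖ ≤ (n * K) * N := by
  classical
  have hN0 : 0 < N := by linarith
  set Q : ι → Set (Vec n) := fun i => closedBall (ω i) (σ / (3 * N)) with hQ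
  have hQm : ∀ i, MeasurableSet (Q i) := fun i => measurableSet_closedBall
  have hQd : ∀ i j v, v ∈ Q i → v ∈ Q j → i = j := by
    intro i j v h1 h2
    by_contra hij
    rw [hQ, mem_closedBall, dist_eq_norm] at h1 h2
    have h3 := hsep i j hij
    have h4 : ‖ω i - ω j‖ ≤ σ / (3 * N) + σ / (3 * N) := by
      calc ‖ω i - ω j‖ = ‖(v - ω j) - (v - ω i)‖ := by congr 1; abel
        _ ≤ ‖v - ω j‖ + ‖v - ω i‖ := norm_sub_le _ _
        _ ≤ _ := add_le_add h2 h1
    have h5 : σ / (3 * N) = σ / N / 3 := by field_simp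
    have h6 : 0 < σ / N := by positivity
    rw [h5] at h4
    linarith
  set aa : ι → Vec n → Vec n := fun i v => WithLp.toLp 2 (fun j =>
    sel (P j) (β i j / N ^ 2 - K / N) (β i j / N ^ 2 + K / N) v) with haa
  have ham : ∀ i, Measurable (aa i) := by
    intro i
    apply (WithLp.measurable_toLp 2 _).comp
    apply measurable_pi_lambda
    intro j
    exact measurable_sel _ _ _
  set b : Vec n → Vec n := fun v => ∑ i, (Q i).indicator (aa i) v with hb
  have hbm : Measurable b := by
    apply Finset.measurable_sum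
    intro i _
    exact (ham i).indicator (hQm i)
  have hbi : ∀ i v, v ∈ Q i → b v = aa i v := by
    intro i v hv
    rw [hb]
    simp only
    rw [Finset.sum_eq_single i]
    · rw [indicator_of_mem hv]
    · intro j _ hji
      rw [indicator_of_notMem]
      intro hvj
      exact hji (hQd j i v hvj hv)
    · intro hi
      exact absurd (Finset.mem_univ i) hi
  have hsp : ∀ i v, ‖v‖ ≤ 1 → v ∈ Q i → ∀ j, (aa i v) j ∈ Icc (β i j / N ^ 2 - K / N)
      (β i j / N ^ 2 + K / N) ∧ pe (P j) v (aa i v j) = 0 := by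
    intro i v hv hvi j
    rw [hQ, mem_closedBall, dist_eq_norm] at hvi
    obtain ⟨a, ha0, ha⟩ := h i v hv hvi
    refine sel_spec (P j) _ _ ⟨a j, ?_, ha0 j⟩
    have h1 := ha j
    have e : β i j - N ^ 2 * a j = N ^ 2 * (β i j / N ^ 2 - a j) := by field_simp
    rw [e, abs_mul, abs_of_pos (by positivity : 0 < N ^ 2)] at h1
    have h2 : |β i j / N ^ 2 - a j| ≤ K / N := by
      rw [le_div_iff₀ hN0]
      have : N * (|β i j / N ^ 2 - a j| * N) ≤ N * K := by
        calc N * (|β i j / N ^ 2 - a j| * N) = N ^ 2 * |β i j / N ^ 2 - a j| := by ring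
          _ ≤ K * N := h1
          _ = N * K := by ring
      exact le_of_mul_le_mul_left this hN0
    rw [abs_le] at h2
    constructor <;> linarith [h2.1, h2.2]
  refine ⟨b, hbm, ?_, ?_⟩
  · intro v hv j
    rw [pe_mulS]
    by_cases hex : ∃ i, v ∈ Q i
    · obtain ⟨i, hi⟩ := hex
      rw [hbi i v hi, (hsp i v hv hi j).2, zero_mul]
    · have : b v = 0 := by
        rw [hb]
        simp only
        apply Finset.sum_eq_zero
        intro i _
        rw [indicator_of_notMem]
        intro hi
        exact hex ⟨i, hi⟩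
      rw [this]
      simp
  · intro i v hv hvi
    have hvQ : v ∈ Q i := by
      rw [hQ, mem_closedBall, dist_eq_norm]; exact hvi
    have h2 := hsp i v hv hvQ
    rw [hbi i v hvQ]
    have h3 : ∀ j, |(β i - N ^ 2 • aa i v) j| ≤ K * N := by
      intro j
      have h4 := (h2 j).1
      have e : (β i - N ^ 2 • aa i v) j = N ^ 2 * (β i j / N ^ 2 - aa i v j) := by
        rw [PiLp.sub_apply, PiLp.smul_apply, smul_eq_mul]
        field_simp
      rw [e, abs_mul, abs_of_pos (by positivity : 0 < N ^ 2)]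
      have h5 : |β i j / N ^ 2 - aa i v j| ≤ K / N := by
        rw [abs_le]
        constructor <;> linarith [h4.1, h4.2]
      calc N ^ 2 * |β i j / N ^ 2 - aa i v j| ≤ N ^ 2 * (K / N) := by gcongr
        _ = K * N := by field_simp
    have h4 := norm_le_of_coord (by positivity) h3
    calc ‖β i - N ^ 2 • aa i v‖ ≤ n * (K * N) := h4
      _ = _ := by ring

end Pool.Agent.R250.AC
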