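import Pool.Agent.H147R3.KK.P2

set_option autoImplicit false

/-!
Tubes with parameters: the `L^q` norm of the counting function on average over the parameter, from
a spreading condition for pairs.
-/

open MeasureTheory Set Metric
open scoped ENNReal

namespace Pool.Agent.R250.AT

/-- Euclidean space. -/
abbrev E (d : ℕ) : Type := EuclideanSpace ℝ (Fin d)

/-- Sum of a summable power over a separated set. -/
theorem sep_pow (d : ℕ) (hd : 0 < d) (σ : ℝ) (hσ : (d:ℝ) < σ) : ∃ K : ℝ, 0 ≤ K ∧
    ∀ δ : ℝ, 0 < δ → ∀ V : Finset (E d), (∀ v ∈ V, ∀ w ∈ V, v ≠ w → δ ≤ ‖v - w‖) →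
      ∀ v ∈ V, ∑ w ∈ V.filter (fun w => v ≠ w), (δ / ‖v - w‖) ^ σ ≤ K := by
  classical
  have hd0 : (0:ℝ) < d := by exact_mod_cast hd
  have hσ0 : 0 < σ := hd0.trans hσ
  obtain ⟨K, hK, h⟩ := Pool.Agent.H147R3.KK.sep_sum d hd (σ / d)
    (by rw [lt_div_iff₀ hd0]; linarith)
  refine ⟨2 ^ σ * K, by positivity, ?_⟩
  intro δ hδ V hV v hv
  set φ : E d → (Fin d → ℝ) := fun v => (fun j => v j) with hφ
  have hinj : Function.Injective φ := by
    intro x y hxy
    ext j
    exact congrFun hxy j
  have h1 := h δ 1 hδ one_pos le_rfl (V.image φ) (by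
    intro x hx y hy hxy
    obtain ⟨a, ha, rfl⟩ := Finset.mem_image.1 hx
    obtain ⟨b, hb, rfl⟩ := Finset.mem_image.1 hy
    have hab : a ≠ b := fun h => hxy (by rw [h])
    have h2 := hV a ha b hb hab
    have h3 : ‖a - b‖ ^ 2 = ∑ j, (φ a j - φ b j) ^ 2 := by
      rw [EuclideanSpace.norm_sq_eq]
      simp [hφ]
    rw [← h3]
    gcongr) (φ v)
  rw [Finset.sum_image (fun x _ y _ h => hinj h), inv_one, one_pow, mul_one] at h1
  have h2 : ∀ w ∈ V.filter (fun w => v ≠ w), (δ / ‖v - w‖) ^ σ ≤
      2 ^ σ * ∏ j, (1 + 1 / δ * |φ w j - φ v j|) ^ (-(σ / d)) := by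
    intro w hw
    obtain ⟨hwV, hvw⟩ := Finset.mem_filter.1 hw
    have h3 := hV v hv w hwV hvw
    have hpos : 0 < ‖v - w‖ := hδ.trans_le h3
    set x : ℝ := ‖v - w‖ / δ with hx
    have hx1 : 1 ≤ x := by rw [hx, le_div_iff₀ hδ]; linarith
    have h4 : ∏ _j : Fin d, (1 + x) ^ (-(σ / d)) ≤
        ∏ j, (1 + 1 / δ * |φ w j - φ v j|) ^ (-(σ / d)) := by
      apply Finset.prod_le_prod
      · intro j _; positivity
      · intro j _
        apply Real.rpow_le_rpow_of_nonpos (by positivity)
        · have h5 : |φ w j - φ v j| ≤ ‖v - w‖ := by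
            have := PiLp.norm_apply_le (w - v) j
            rw [norm_sub_rev v w]
            simpa [hφ] using this
          have h6 : 1 / δ * |φ w j - φ v j| ≤ x := by
            rw [hx, div_mul_eq_mul_div, one_mul]
            gcongr
          linarith
        · have : 0 ≤ σ / d := by positivity
          linarith
    rw [Finset.prod_const, Finset.card_univ, Fintype.card_fin, ← Real.rpow_natCast,
      ← Real.rpow_mul (by positivity)] at h4
    have e1 : -(σ / d) * (d:ℝ) = -σ := by field_simp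
    rw [e1] at h4
    have h5 : (δ / ‖v - w‖) ^ σ ≤ 2 ^ σ * (1 + x) ^ (-σ) := by
      have e2 : δ / ‖v - w‖ = x⁻¹ := by rw [hx, inv_div]
      rw [e2, Real.rpow_neg (by positivity), ← Real.inv_rpow (by positivity),
        ← Real.mul_rpow (by norm_num) (by positivity)]
      apply Real.rpow_le_rpow (by positivity) _ hσ0.le
      rw [inv_le_iff_one_le_mul₀ (by positivity), mul_assoc]
      rw [← div_eq_inv_mul]
      rw [mul_div_assoc', le_div_iff₀ (by positivity)]
      linarith
    exact h5.trans (by gcongr)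
  calc ∑ w ∈ V.filter (fun w => v ≠ w), (δ / ‖v - w‖) ^ σ
      ≤ ∑ w ∈ V.filter (fun w => v ≠ w),
        2 ^ σ * ∏ j, (1 + 1 / δ * |φ w j - φ v j|) ^ (-(σ / d)) := Finset.sum_le_sum h2
    _ ≤ ∑ w ∈ V, 2 ^ σ * ∏ j, (1 + 1 / δ * |φ w j - φ v j|) ^ (-(σ / d)) := by
        apply Finset.sum_le_sum_of_subset_of_nonneg (Finset.filter_subset _ _)
        intro w _ _
        positivity
    _ = 2 ^ σ * ∑ w ∈ V, ∏ j, (1 + 1 / δ * |φ w j - φ v j|) ^ (-(σ / d)) := by
        rw [Finset.mul_sum]
    _ ≤ 2 ^ σ * K := by gcongr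

/-- Smaller powers. -/
theorem sep_small (d : ℕ) (hd : 0 < d) (s θ : ℝ) (hθ0 : 0 < θ) (hθ : θ * d < s)
    (hθ1 : θ ≤ 1) : ∃ K : ℝ, 0 ≤ K ∧
    ∀ δ : ℝ, 0 < δ → ∀ V : Finset (E d), (∀ v ∈ V, ∀ w ∈ V, v ≠ w → δ ≤ ‖v - w‖) →
      ∀ v ∈ V, ∑ w ∈ V.filter (fun w => v ≠ w), (δ / ‖v - w‖) ^ s ≤
        K * (V.card : ℝ) ^ (1 - θ) := by
  obtain ⟨K, hK, h⟩ := sep_pow d hd (s / θ) (by rw [lt_div_iff₀ hθ0]; linarith)
  refine ⟨1 + K, by positivity, ?_⟩
  intro δ hδ V hV v hv
  have hN : (0:ℝ) < V.card := by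
    exact_mod_cast Finset.card_pos.2 ⟨v, hv⟩
  set N : ℝ := (V.card : ℝ) with hNdef
  have hpt : ∀ a : ℝ, 0 ≤ a → a ≤ N ^ (-θ) + N ^ (1 - θ) * a ^ (1 / θ) := by
    intro a ha
    by_cases h1 : a ≤ N ^ (-θ)
    · have : 0 ≤ N ^ (1 - θ) * a ^ (1 / θ) := by positivity
      linarith
    · push Not at h1
      have ha0 : 0 < a := lt_of_le_of_lt (by positivity) h1
      have h2 : 0 ≤ N ^ (-θ) := by positivity
      have h3 : a ≤ N ^ (1 - θ) * a ^ (1 / θ) := by
        have e1 : N ^ (1 - θ) = (N ^ (-θ)) ^ (1 - 1 / θ) := by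
          rw [← Real.rpow_mul hN.le]
          congr 1
          field_simp
          ring
        have h4 : a ^ (1 - 1 / θ) ≤ (N ^ (-θ)) ^ (1 - 1 / θ) := by
          apply Real.rpow_le_rpow_of_nonpos (by positivity) h1.le
          have : 1 ≤ 1 / θ := by rw [le_div_iff₀ hθ0]; linarith
          linarith
        calc a = a ^ (1 - 1 / θ) * a ^ (1 / θ) := by
              rw [← Real.rpow_add ha0]
              simp
          _ ≤ (N ^ (-θ)) ^ (1 - 1 / θ) * a ^ (1 / θ) := by gcongr
          _ = _ := by rw [e1]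
      linarith
  calc ∑ w ∈ V.filter (fun w => v ≠ w), (δ / ‖v - w‖) ^ s
      ≤ ∑ w ∈ V.filter (fun w => v ≠ w), (N ^ (-θ) + N ^ (1 - θ) * (δ / ‖v - w‖) ^ (s / θ)) := by
        apply Finset.sum_le_sum
        intro w _
        refine (hpt _ (by positivity)).trans (le_of_eq ?_)
        rw [← Real.rpow_mul (by positivity)]
        congr 3
        ring
    _ = ((V.filter (fun w => v ≠ w)).card : ℝ) * N ^ (-θ) +
        N ^ (1 - θ) * ∑ w ∈ V.filter (fun w => v ≠ w), (δ / ‖v - w‖) ^ (s / θ) := by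
        rw [Finset.sum_add_distrib, Finset.sum_const, nsmul_eq_mul, Finset.mul_sum]
    _ ≤ N * N ^ (-θ) + N ^ (1 - θ) * K := by
        have h5 : ((V.filter (fun w => v ≠ w)).card : ℝ) ≤ N := by
          rw [hNdef]
          exact_mod_cast Finset.card_le_card (Finset.filter_subset (fun w => v ≠ w) V)
        have h6 := h δ hδ V hV v hv
        gcongr
    _ = (1 + K) * N ^ (1 - θ) := by
        have e2 : N * N ^ (-θ) = N ^ (1 - θ) := by
          rw [Real.rpow_sub hN, Real.rpow_one, Real.rpow_neg hN.le, div_eq_mul_inv]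
        rw [e2]; ring

/-- The tube of radius `δ` around the segment `{(a + t v, t) : |t| ≤ 1}`. -/
def tube {d : ℕ} (δ : ℝ) (a v : E d) : Set (E d × ℝ) :=
  {z | |z.2| ≤ 1 ∧ ‖z.1 - (a + z.2 • v)‖ ≤ δ}

/-- its indicator function -/
noncomputable def ti {d : ℕ} (δ : ℝ) (a v : E d) (z : E d × ℝ) : ℝ≥0∞ :=
  (tube δ a v).indicator (fun _ => 1) z

theorem ti_le_one {d : ℕ} (δ : ℝ) (a v : E d) (z : E d × ℝ) : ti δ a v z ≤ 1 := by
  unfold ti
  by_cases h : z ∈ tube δ a v
  · rw [indicator_of_mem h]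
  · rw [indicator_of_notMem h]; exact zero_le

variable {d : ℕ} {Λ : Type*} [MeasurableSpace Λ]

theorem measurable_ti (δ : ℝ) {p : Λ → E d → E d} {v : E d} (hp : Measurable (fun l => p l v)) :
    Measurable (fun x : Λ × (E d × ℝ) => ti δ (p x.1 v) v x.2) := by
  have hS : MeasurableSet {x : Λ × (E d × ℝ) | |x.2.2| ≤ 1 ∧
      ‖x.2.1 - (p x.1 v + x.2.2 • v)‖ ≤ δ} := by
    have m2 : Measurable (fun x : Λ × (E d × ℝ) => x.2.2) := measurable_snd.comp measurable_snd
    have m1 : Measurable (fun x : Λ × (E d × ℝ) => x.2.1) := measurable_fst.comp measurable_snd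
    have m0 : Measurable (fun x : Λ × (E d × ℝ) => p x.1 v) := hp.comp measurable_fst
    apply MeasurableSet.inter
    · exact measurableSet_le m2.norm measurable_const
    · exact measurableSet_le (m1.sub (m0.add (m2.smul_const v))).norm measurable_const
  set T : Set (Λ × (E d × ℝ)) := {x : Λ × (E d × ℝ) | |x.2.2| ≤ 1 ∧
      ‖x.2.1 - (p x.1 v + x.2.2 • v)‖ ≤ δ} with hT
  have : (fun x : Λ × (E d × ℝ) => ti δ (p x.1 v) v x.2) = T.indicator (fun _ => 1) := by
    ext x
    unfold ti
    by_cases h : x.2 ∈ tube δ (p x.1 v) v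
    · have h' : x ∈ T := h
      rw [indicator_of_mem h, indicator_of_mem h']
    · have h' : x ∉ T := h
      rw [indicator_of_notMem h, indicator_of_notMem h']
  rw [this]
  exact measurable_const.indicator hS

/-- The bound for a pair of tubes. -/
theorem pair (μ : Measure Λ) [SFinite μ] {p : Λ → E d → E d} {v w : E d}
    (hv : Measurable (fun l => p l v)) (hw : Measurable (fun l => p l w)) (δ : ℝ) :
    ∫⁻ l, (∫⁻ z : E d × ℝ, ti δ (p l v) v z * ti δ (p l w) w z) ∂μ ≤
      volume (closedBall (0 : E d) δ) * (μ.prod (volume.restrict (Icc (-1:ℝ) 1)))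
        {x : Λ × ℝ | ‖(p x.1 v + x.2 • v) - (p x.1 w + x.2 • w)‖ ≤ 2 * δ} := by
  set S : Set (Λ × ℝ) := {x : Λ × ℝ | ‖(p x.1 v + x.2 • v) - (p x.1 w + x.2 • w)‖ ≤ 2 * δ}
    with hS
  have hSm : MeasurableSet S := by
    apply measurableSet_le _ measurable_const
    exact (((hv.comp measurable_fst).add (measurable_snd.smul_const v)).sub
      ((hw.comp measurable_fst).add (measurable_snd.smul_const w))).norm
  have hone : ∀ l, ∫⁻ z : E d × ℝ, ti δ (p l v) v z * ti δ (p l w) w z ≤
      ∫⁻ t in Icc (-1:ℝ) 1, volume (closedBall (0 : E d) δ) * S.indicator (fun _ => 1) (l, t) := by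
    intro l
    set U : Set (E d × ℝ) := {z : E d × ℝ | ‖z.1 - (p l v + z.2 • v)‖ ≤ δ} with hU
    have hUm : MeasurableSet U := by
      apply measurableSet_le _ measurable_const
      exact (measurable_fst.sub (measurable_const.add (measurable_snd.smul_const v))).norm
    have hUi : Measurable (U.indicator (fun _ => (1:ℝ≥0∞))) := measurable_const.indicator hUm
    set g : E d × ℝ → ℝ≥0∞ := fun z =>
      U.indicator (fun _ => 1) z *
        (Icc (-1:ℝ) 1).indicator (fun t => S.indicator (fun _ => (1:ℝ≥0∞)) (l, t)) z.2 with hg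
    have hgm : Measurable g := by
      apply Measurable.mul
      · exact hUi
      · have h1 : Measurable (fun t : ℝ => S.indicator (fun _ => (1:ℝ≥0∞)) (l, t)) :=
          (measurable_const.indicator hSm).comp measurable_prodMk_left
        exact (h1.indicator measurableSet_Icc).comp measurable_snd
    have hle : ∀ z : E d × ℝ, ti δ (p l v) v z * ti δ (p l w) w z ≤ g z := by
      intro z
      by_cases h1 : z ∈ tube δ (p l v) v
      · by_cases h2 : z ∈ tube δ (p l w) w
        · have e1 : z ∈ U := h1.2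
          have e2 : z.2 ∈ Icc (-1:ℝ) 1 := abs_le.1 h1.1
          have e3 : (l, z.2) ∈ S := by
            show ‖(p l v + z.2 • v) - (p l w + z.2 • w)‖ ≤ 2 * δ
            have h3 : (p l v + z.2 • v) - (p l w + z.2 • w) =
                (z.1 - (p l w + z.2 • w)) - (z.1 - (p l v + z.2 • v)) := by abel
            rw [h3]
            refine (norm_sub_le _ _).trans ?_
            have h4 := h1.2
            have h5 := h2.2
            linarith
          simp only [hg]
          rw [indicator_of_mem e1, indicator_of_mem e2, indicator_of_mem e3, one_mul]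
          calc ti δ (p l v) v z * ti δ (p l w) w z ≤ 1 * 1 := by
                gcongr
                · exact ti_le_one _ _ _ _
                · exact ti_le_one _ _ _ _
            _ = 1 := one_mul 1
        · have : ti δ (p l w) w z = 0 := indicator_of_notMem h2 _
          rw [this, mul_zero]; exact zero_le
      · have : ti δ (p l v) v z = 0 := indicator_of_notMem h1 _
        rw [this, zero_mul]; exact zero_le
    calc ∫⁻ z : E d × ℝ, ti δ (p l v) v z * ti δ (p l w) w z ≤ ∫⁻ z, g z := lintegral_mono hle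
      _ = ∫⁻ t : ℝ, ∫⁻ x : E d, g (x, t) := by
          rw [Measure.volume_eq_prod, lintegral_prod_symm _ hgm.aemeasurable]
      _ = ∫⁻ t : ℝ, (Icc (-1:ℝ) 1).indicator (fun t => volume (closedBall (0 : E d) δ) *
          S.indicator (fun _ => 1) (l, t)) t := by
          congr 1
          ext t
          simp only [hg]
          have hm1 : Measurable (fun x : E d => U.indicator (fun _ => (1:ℝ≥0∞)) (x, t)) :=
            hUi.comp measurable_prodMk_right
          rw [lintegral_mul_const _ hm1]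
          have e4 : ∫⁻ x : E d, U.indicator (fun _ => (1:ℝ≥0∞)) (x, t) =
              volume (closedBall (0 : E d) δ) := by
            have e5 : ∀ x : E d, U.indicator (fun _ => (1:ℝ≥0∞)) (x, t) =
              (closedBall (p l v + t • v) δ).indicator (fun _ => (1:ℝ≥0∞)) x := by
              intro x
              by_cases h : ‖x - (p l v + t • v)‖ ≤ δ
              · have h1 : (x, t) ∈ U := h
                have h2 : x ∈ closedBall (p l v + t • v) δ := by
                  rw [mem_closedBall, dist_eq_norm]; exact h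
                rw [indicator_of_mem h1, indicator_of_mem h2]
              · have h1 : (x, t) ∉ U := h
                have h2 : x ∉ closedBall (p l v + t • v) δ := by
                  rw [mem_closedBall, dist_eq_norm]; exact h
                rw [indicator_of_notMem h1, indicator_of_notMem h2]
            simp only [e5]
            rw [lintegral_indicator_const measurableSet_closedBall, one_mul,
              Measure.addHaar_closedBall_center]
          rw [e4]
          by_cases ht : t ∈ Icc (-1:ℝ) 1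
          · rw [indicator_of_mem ht, indicator_of_mem ht]
          · rw [indicator_of_notMem ht, indicator_of_notMem ht, mul_zero]
      _ = _ := lintegral_indicator measurableSet_Icc _
  calc ∫⁻ l, (∫⁻ z : E d × ℝ, ti δ (p l v) v z * ti δ (p l w) w z) ∂μ
      ≤ ∫⁻ l, (∫⁻ t in Icc (-1:ℝ) 1, volume (closedBall (0 : E d) δ) *
        S.indicator (fun _ => 1) (l, t)) ∂μ := lintegral_mono hone
    _ = ∫⁻ x : Λ × ℝ, volume (closedBall (0 : E d) δ) * S.indicator (fun _ => 1) x
        ∂(μ.prod (volume.restrict (Icc (-1:ℝ) 1))) := by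
        rw [lintegral_prod]
        exact ((measurable_const.indicator hSm).const_mul _).aemeasurable
    _ = _ := by
        rw [lintegral_const_mul _ (measurable_const.indicator hSm),
          lintegral_indicator_const hSm, one_mul]

theorem ti_sq (δ : ℝ) (a v : E d) (z : E d × ℝ) : ti δ a v z * ti δ a v z = ti δ a v z := by
  unfold ti
  by_cases h : z ∈ tube δ a v
  · rw [indicator_of_mem h, mul_one]
  · rw [indicator_of_notMem h, mul_zero]

/-- The total measure. -/
theorem prod_univ (μ : Measure Λ) (S : Set (Λ × ℝ)) [SFinite μ] :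
    (μ.prod (volume.restrict (Icc (-1:ℝ) 1))) S ≤ μ univ * 2 := by
  refine (measure_mono (subset_univ S)).trans ?_
  rw [← univ_prod_univ, Measure.prod_prod, Measure.restrict_apply_univ, Real.volume_Icc]
  have : ENNReal.ofReal (1 - -1) = 2 := by norm_num
  rw [this]

/-- The counting function. -/
noncomputable def cnt (δ : ℝ) (V : Finset (E d)) (p : E d → E d) (z : E d × ℝ) : ℝ≥0∞ :=
  ∑ v ∈ V, ti δ (p v) v z

theorem cnt_le (δ : ℝ) (V : Finset (E d)) (p : E d → E d) (z : E d × ℝ) :
    cnt δ V p z ≤ V.card := by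
  unfold cnt
  calc ∑ v ∈ V, ti δ (p v) v z ≤ ∑ v ∈ V, (1:ℝ≥0∞) :=
        Finset.sum_le_sum (fun v _ => ti_le_one _ _ _ _)
    _ = _ := by simp

theorem measurable_cnt (δ : ℝ) (V : Finset (E d)) {p : Λ → E d → E d}
    (hp : ∀ v ∈ V, Measurable (fun l => p l v)) :
    Measurable (fun x : Λ × (E d × ℝ) => cnt δ V (p x.1) x.2) := by
  unfold cnt
  exact Finset.measurable_sum _ (fun v hv => measurable_ti δ (hp v hv))

theorem first (μ : Measure Λ) [SFinite μ] (δ : ℝ) (V : Finset (E d)) {p : Λ → E d → E d}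
    (hp : ∀ v ∈ V, Measurable (fun l => p l v)) :
    ∫⁻ l, (∫⁻ z, cnt δ V (p l) z) ∂μ ≤
      V.card * (volume (closedBall (0 : E d) δ) * (μ univ * 2)) := by
  have h1 : ∀ l, ∫⁻ z, cnt δ V (p l) z = ∑ v ∈ V, ∫⁻ z, ti δ (p l v) v z := by
    intro l
    unfold cnt
    exact lintegral_finsetSum' _ (fun v hv =>
      ((measurable_ti δ (hp v hv)).comp measurable_prodMk_left).aemeasurable)
  simp only [h1]
  rw [lintegral_finsetSum' _ (fun v hv =>
    ((measurable_ti δ (hp v hv)).lintegral_prod_right').aemeasurable)]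
  calc ∑ v ∈ V, ∫⁻ l, (∫⁻ z, ti δ (p l v) v z) ∂μ
      ≤ ∑ v ∈ V, volume (closedBall (0 : E d) δ) * (μ univ * 2) := by
        apply Finset.sum_le_sum
        intro v hv
        have h2 := pair μ (hp v hv) (hp v hv) δ
        simp only [ti_sq] at h2
        exact h2.trans (mul_le_mul_right (prod_univ μ _) _)
    _ = _ := by rw [Finset.sum_const, nsmul_eq_mul]

end Pool.Agent.R250.AT
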