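import Pool.Agent.R250.AT

set_option autoImplicit false

/-!
Tubes with parameters, second part: the averaged inequality from a bound for pairs.
-/

open MeasureTheory Set Metric
open scoped ENNReal

namespace Pool.Agent.R250.AT

variable {d : ℕ} {Λ : Type*} [MeasurableSpace Λ]

theorem measurable_ti1 (δ : ℝ) (a v : E d) : Measurable (ti δ a v) := by
  have hS : MeasurableSet (tube δ a v) := by
    apply MeasurableSet.inter
    · exact measurableSet_le measurable_snd.norm measurable_const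
    · exact measurableSet_le (measurable_fst.sub (measurable_const.add
        (measurable_snd.smul_const v))).norm measurable_const
  unfold ti
  exact measurable_const.indicator hS

theorem second (μ : Measure Λ) [SFinite μ] (δ : ℝ) (V : Finset (E d)) {p : Λ → E d → E d}
    (hp : ∀ v ∈ V, Measurable (fun l => p l v)) (k : E d → E d → ℝ)
    (hk0 : ∀ v ∈ V, ∀ w ∈ V, v ≠ w → 0 ≤ k v w)
    (hk : ∀ v ∈ V, ∀ w ∈ V, v ≠ w → (μ.prod (volume.restrict (Icc (-1:ℝ) 1)))
        {x : Λ × ℝ | ‖(p x.1 v + x.2 • v) - (p x.1 w + x.2 • w)‖ ≤ 2 * δ} ≤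
        ENNReal.ofReal (k v w)) {B : ℝ}
    (hB : ∀ v ∈ V, ∑ w ∈ V.filter (fun w => v ≠ w), k v w ≤ B) :
    ∫⁻ l, (∫⁻ z, cnt δ V (p l) z ^ 2) ∂μ ≤
      V.card * (volume (closedBall (0 : E d) δ) * (μ univ * 2 + ENNReal.ofReal B)) := by
  have hm : ∀ v ∈ V, ∀ w ∈ V, Measurable (fun x : Λ × (E d × ℝ) =>
      ti δ (p x.1 v) v x.2 * ti δ (p x.1 w) w x.2) := fun v hv w hw =>
    (measurable_ti (p := p) (v := v) δ (hp v hv)).mul (measurable_ti (p := p) (v := w) δ (hp w hw))
  have hm' : ∀ v w : E d, ∀ l : Λ, Measurable (fun z : E d × ℝ =>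
      ti δ (p l v) v z * ti δ (p l w) w z) := fun v w l =>
    (measurable_ti1 δ (p l v) v).mul (measurable_ti1 δ (p l w) w)
  have h0 : ∀ l z, cnt δ V (p l) z ^ 2 = ∑ v ∈ V, ∑ w ∈ V, ti δ (p l v) v z * ti δ (p l w) w z := by
    intro l z
    unfold cnt
    rw [sq, Finset.sum_mul_sum]
  have h1 : ∀ l, ∫⁻ z, cnt δ V (p l) z ^ 2 =
      ∑ v ∈ V, ∑ w ∈ V, ∫⁻ z, ti δ (p l v) v z * ti δ (p l w) w z := by
    intro l
    simp only [h0]
    rw [lintegral_finsetSum' _ (fun v hv => (Finset.measurable_fun_sum _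
      (fun w hw => hm' v w l)).aemeasurable)]
    refine Finset.sum_congr rfl (fun v hv => ?_)
    rw [lintegral_finsetSum' _ (fun w hw => (hm' v w l).aemeasurable)]
  simp only [h1]
  rw [lintegral_finsetSum' _ (fun v hv => (Finset.measurable_fun_sum _
      (fun w hw => (hm v hv w hw).lintegral_prod_right')).aemeasurable)]
  have h2 : ∀ v ∈ V, ∫⁻ l, (∑ w ∈ V, ∫⁻ z, ti δ (p l v) v z * ti δ (p l w) w z) ∂μ ≤
      volume (closedBall (0 : E d) δ) * (μ univ * 2 + ENNReal.ofReal B) := by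
    intro v hv
    rw [lintegral_finsetSum' _ (fun w hw => (hm v hv w hw).lintegral_prod_right'.aemeasurable)]
    have h3 : ∀ w ∈ V, ∫⁻ l, (∫⁻ z, ti δ (p l v) v z * ti δ (p l w) w z) ∂μ ≤
        volume (closedBall (0 : E d) δ) * (if v ≠ w then ENNReal.ofReal (k v w) else μ univ * 2) := by
      intro w hw
      refine (pair μ (hp v hv) (hp w hw) δ).trans (mul_le_mul_right ?_ _)
      split_ifs with h
      · exact hk v hv w hw h
      · exact prod_univ μ _
    refine (Finset.sum_le_sum h3).trans ?_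
    rw [← Finset.mul_sum]
    refine mul_le_mul_right ?_ _
    rw [Finset.sum_ite, add_comm]
    refine add_le_add ?_ ?_
    · have e1 : V.filter (fun w => ¬ v ≠ w) = {v} := by
        ext w
        simp only [Finset.mem_filter, not_not, Finset.mem_singleton]
        constructor
        · rintro ⟨_, h⟩; exact h.symm
        · rintro rfl; exact ⟨hv, rfl⟩
      rw [e1, Finset.sum_singleton]
    · rw [← ENNReal.ofReal_sum_of_nonneg]
      · exact ENNReal.ofReal_le_ofReal (hB v hv)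
      · intro w hw
        obtain ⟨hw1, hw2⟩ := Finset.mem_filter.1 hw
        exact hk0 v hv w hw1 hw2
  calc _ ≤ ∑ v ∈ V, volume (closedBall (0 : E d) δ) * (μ univ * 2 + ENNReal.ofReal B) :=
        Finset.sum_le_sum h2
    _ = _ := by rw [Finset.sum_const, nsmul_eq_mul]

/-- Interpolation between the first and the second moment. -/
theorem interp {α : Type*} [MeasurableSpace α] {ν : Measure α} {F : α → ℝ≥0∞} (hF : Measurable F)
    {N : ℝ} (hN : 1 ≤ N) (hFN : ∀ x, F x ≤ ENNReal.ofReal N) {X θ q c : ℝ} (hX : 0 ≤ X) (hq : 1 < q)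
    (h1 : ∫⁻ x, F x ∂ν ≤ ENNReal.ofReal (X * N))
    (h2 : ∫⁻ x, F x ^ 2 ∂ν ≤ ENNReal.ofReal (X * N ^ (2 - θ)))
    (hc1 : c ≤ θ) (hc2 : c ≤ θ * (q - 1)) :
    ∫⁻ x, F x ^ q ∂ν ≤ ENNReal.ofReal (X * N ^ (q - c)) := by
  have hN0 : 0 < N := by linarith
  rcases lt_or_ge q 2 with hq2 | hq2
  · have hp1 : 0 ≤ 2 - q := by linarith
    have hp2 : 0 ≤ q - 1 := by linarith
    have e1 : ∀ x, F x ^ q = F x ^ (2 - q) * (F x ^ 2) ^ (q - 1) := by
      intro x
      rw [← ENNReal.rpow_natCast, ← ENNReal.rpow_mul,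
        ← ENNReal.rpow_add_of_nonneg _ _ hp1 (by push_cast; linarith)]
      congr 1
      push_cast
      ring
    simp only [e1]
    refine (ENNReal.lintegral_mul_norm_pow_le hF.aemeasurable (hF.pow_const 2).aemeasurable hp1 hp2
      (by ring)).trans ?_
    calc (∫⁻ x, F x ∂ν) ^ (2 - q) * (∫⁻ x, F x ^ 2 ∂ν) ^ (q - 1)
        ≤ ENNReal.ofReal (X * N) ^ (2 - q) * ENNReal.ofReal (X * N ^ (2 - θ)) ^ (q - 1) := by
          gcongr
      _ = ENNReal.ofReal ((X * N) ^ (2 - q) * (X * N ^ (2 - θ)) ^ (q - 1)) := by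
          rw [ENNReal.ofReal_rpow_of_nonneg (by positivity) hp1,
            ENNReal.ofReal_rpow_of_nonneg (by positivity) hp2,
            ← ENNReal.ofReal_mul (by positivity)]
      _ ≤ _ := by
          apply ENNReal.ofReal_le_ofReal
          rw [Real.mul_rpow hX hN0.le, Real.mul_rpow hX (by positivity),
            ← Real.rpow_mul hN0.le]
          have e2 : X ^ (2 - q) * X ^ (q - 1) = X := by
            rw [← Real.rpow_add_of_nonneg hX hp1 hp2]
            have : 2 - q + (q - 1) = 1 := by ring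
            rw [this, Real.rpow_one]
          have e3 : N ^ (2 - q) * N ^ ((2 - θ) * (q - 1)) ≤ N ^ (q - c) := by
            rw [← Real.rpow_add hN0]
            apply Real.rpow_le_rpow_of_exponent_le hN
            nlinarith
          calc X ^ (2 - q) * N ^ (2 - q) * (X ^ (q - 1) * N ^ ((2 - θ) * (q - 1)))
              = (X ^ (2 - q) * X ^ (q - 1)) * (N ^ (2 - q) * N ^ ((2 - θ) * (q - 1))) := by ring
            _ ≤ X * N ^ (q - c) := by rw [e2]; gcongr
  · have hp1 : 0 ≤ q - 2 := by linarith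
    have e1 : ∀ x, F x ^ q ≤ ENNReal.ofReal (N ^ (q - 2)) * F x ^ 2 := by
      intro x
      have e2 : F x ^ q = F x ^ (q - 2) * F x ^ 2 := by
        rw [← ENNReal.rpow_natCast (F x) 2,
          ← ENNReal.rpow_add_of_nonneg _ _ hp1 (by norm_num)]
        congr 1
        push_cast
        ring
      rw [e2, ← ENNReal.ofReal_rpow_of_nonneg hN0.le hp1]
      gcongr
      exact hFN x
    calc ∫⁻ x, F x ^ q ∂ν ≤ ∫⁻ x, ENNReal.ofReal (N ^ (q - 2)) * F x ^ 2 ∂ν := lintegral_mono e1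
      _ = ENNReal.ofReal (N ^ (q - 2)) * ∫⁻ x, F x ^ 2 ∂ν :=
          lintegral_const_mul' _ _ ENNReal.ofReal_ne_top
      _ ≤ ENNReal.ofReal (N ^ (q - 2)) * ENNReal.ofReal (X * N ^ (2 - θ)) := by gcongr
      _ = ENNReal.ofReal (X * (N ^ (q - 2) * N ^ (2 - θ))) := by
          rw [← ENNReal.ofReal_mul (by positivity)]
          congr 1
          ring
      _ ≤ _ := by
          apply ENNReal.ofReal_le_ofReal
          gcongr
          rw [← Real.rpow_add hN0]
          apply Real.rpow_le_rpow_of_exponent_le hN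
          linarith

/-- Volume of the unit ball. -/
noncomputable def om (d : ℕ) : ℝ := (volume (closedBall (0 : E d) 1)).toReal

theorem vol_ball {δ : ℝ} (hδ : 0 < δ) :
    volume (closedBall (0 : E d) δ) = ENNReal.ofReal (om d * δ ^ d) := by
  unfold om
  rw [Measure.addHaar_closedBall' _ _ hδ.le, finrank_euclideanSpace, Fintype.card_fin,
    mul_comm (volume (closedBall (0 : E d) 1)).toReal, ENNReal.ofReal_mul (by positivity),
    ENNReal.ofReal_toReal measure_closedBall_lt_top.ne]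

/-- **The averaged inequality.** -/
theorem avg {q θ K M : ℝ} (hq : 1 < q) (hθ : 1 / (d : ℝ) ≤ θ) (hθ' : 1 / (d : ℝ) ≤ θ * (q - 1))
    (hθ1 : θ ≤ 1) (hK : 0 ≤ K) (hM : 0 ≤ M) (μ : Measure Λ) [SFinite μ]
    (hμ : μ univ ≤ ENNReal.ofReal M) {δ : ℝ} (hδ : 0 < δ) (V : Finset (E d))
    {p : Λ → E d → E d} (hp : ∀ v ∈ V, Measurable (fun l => p l v)) (k : E d → E d → ℝ)
    (hk0 : ∀ v ∈ V, ∀ w ∈ V, v ≠ w → 0 ≤ k v w)
    (hk : ∀ v ∈ V, ∀ w ∈ V, v ≠ w → (μ.prod (volume.restrict (Icc (-1:ℝ) 1)))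
        {x : Λ × ℝ | ‖(p x.1 v + x.2 • v) - (p x.1 w + x.2 • w)‖ ≤ 2 * δ} ≤
        ENNReal.ofReal (k v w))
    (hB : ∀ v ∈ V, ∑ w ∈ V.filter (fun w => v ≠ w), k v w ≤ K * (V.card : ℝ) ^ (1 - θ)) :
    ∫⁻ l, (∫⁻ z, cnt δ V (p l) z ^ q) ∂μ ≤
      ENNReal.ofReal (om d * (2 * M + K) * δ ^ d * (V.card : ℝ) ^ (q - 1 / (d : ℝ))) := by
  have hom : 0 ≤ om d := ENNReal.toReal_nonneg
  rcases V.eq_empty_or_nonempty with h0 | hne
  · subst h0
    unfold cnt
    simp only [Finset.sum_empty, ENNReal.zero_rpow_of_pos (by linarith : 0 < q), lintegral_const,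
      zero_mul]
    exact zero_le
  have hN : (1:ℝ) ≤ V.card := by exact_mod_cast Finset.card_pos.2 hne
  have hN0 : (0:ℝ) < V.card := by linarith
  set N : ℝ := (V.card : ℝ) with hNdef
  have hcard : (V.card : ℝ≥0∞) = ENNReal.ofReal N := by rw [hNdef]; simp
  set X : ℝ := om d * (2 * M + K) * δ ^ d with hX
  have hX0 : 0 ≤ X := by positivity
  have hNθ : 1 ≤ N ^ (1 - θ) := Real.one_le_rpow hN (by linarith)
  set F : Λ × (E d × ℝ) → ℝ≥0∞ := fun x => cnt δ V (p x.1) x.2 with hF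
  have hFm : Measurable F := measurable_cnt δ V hp
  have hμ2 : μ univ * 2 ≤ ENNReal.ofReal (2 * M) := by
    rw [mul_comm 2 M, ENNReal.ofReal_mul hM]
    have : ENNReal.ofReal 2 = 2 := by norm_num
    rw [this]
    gcongr
  have h1 : ∫⁻ x, F x ∂(μ.prod volume) ≤ ENNReal.ofReal (X * N) := by
    rw [lintegral_prod _ hFm.aemeasurable]
    refine (first μ δ V hp).trans ?_
    rw [vol_ball hδ, hcard]
    calc ENNReal.ofReal N * (ENNReal.ofReal (om d * δ ^ d) * (μ univ * 2))
        ≤ ENNReal.ofReal N * (ENNReal.ofReal (om d * δ ^ d) * ENNReal.ofReal (2 * M)) := by gcongr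
      _ = ENNReal.ofReal (N * (om d * δ ^ d * (2 * M))) := by
          rw [← ENNReal.ofReal_mul (by positivity), ← ENNReal.ofReal_mul hN0.le]
      _ ≤ _ := by
          apply ENNReal.ofReal_le_ofReal
          rw [hX]
          have : 0 ≤ om d * K * δ ^ d * N := by positivity
          nlinarith
  have h2 : ∫⁻ x, F x ^ 2 ∂(μ.prod volume) ≤ ENNReal.ofReal (X * N ^ (2 - θ)) := by
    rw [lintegral_prod _ (hFm.pow_const 2).aemeasurable]
    refine (second μ δ V hp k hk0 hk hB).trans ?_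
    rw [vol_ball hδ, hcard]
    calc ENNReal.ofReal N * (ENNReal.ofReal (om d * δ ^ d) *
          (μ univ * 2 + ENNReal.ofReal (K * N ^ (1 - θ))))
        ≤ ENNReal.ofReal N * (ENNReal.ofReal (om d * δ ^ d) *
          (ENNReal.ofReal (2 * M) + ENNReal.ofReal (K * N ^ (1 - θ)))) := by gcongr
      _ = ENNReal.ofReal (N * (om d * δ ^ d * (2 * M + K * N ^ (1 - θ)))) := by
          rw [← ENNReal.ofReal_add (by positivity) (by positivity),
            ← ENNReal.ofReal_mul (by positivity), ← ENNReal.ofReal_mul hN0.le]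
      _ ≤ _ := by
          apply ENNReal.ofReal_le_ofReal
          have e : N ^ (2 - θ) = N * N ^ (1 - θ) := by
            rw [← Real.rpow_one_add' hN0.le (by linarith)]
            congr 1
            ring
          rw [e, hX]
          have h3 : 2 * M ≤ 2 * M * N ^ (1 - θ) := le_mul_of_one_le_right (by positivity) hNθ
          calc N * (om d * δ ^ d * (2 * M + K * N ^ (1 - θ)))
              ≤ N * (om d * δ ^ d * (2 * M * N ^ (1 - θ) + K * N ^ (1 - θ))) := by gcongr
            _ = _ := by ring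
  have h3 := interp hFm hN (fun x => by
    rw [← hcard]
    exact cnt_le δ V (p x.1) x.2) hX0 hq h1 h2 hθ hθ'
  rwa [lintegral_prod _ (hFm.pow_const q).aemeasurable] at h3

/-- Measurability of the norms. -/
theorem measurable_size (q δ : ℝ) (V : Finset (E d)) {p : Λ → E d → E d}
    (hp : ∀ v ∈ V, Measurable (fun l => p l v)) :
    Measurable (fun l => ∫⁻ z, cnt δ V (p l) z ^ q) :=
  ((measurable_cnt δ V hp).pow_const q).lintegral_prod_right'

theorem sum_sq_ne : ∑' k : ℕ, (((k:ℝ≥0∞) + 1) ^ 2)⁻¹ ≠ ∞ := by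
  have h : Summable (fun n : ℕ => 1 / ((n : ℝ) + 1) ^ 2) := by
    have := (summable_nat_add_iff 1).2 (Real.summable_one_div_nat_pow.2 (by norm_num : 1 < 2))
    simpa using this
  have e : ∀ k : ℕ, (((k:ℝ≥0∞) + 1) ^ 2)⁻¹ = ENNReal.ofReal (1 / ((k : ℝ) + 1) ^ 2) := by
    intro k
    rw [one_div, ENNReal.ofReal_inv_of_pos (by positivity), ENNReal.ofReal_pow (by positivity),
      ENNReal.ofReal_add (by positivity) (by norm_num)]
    simp
  simp only [e]
  rw [← ENNReal.ofReal_tsum_of_nonneg (fun k => by positivity) h]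
  exact ENNReal.ofReal_ne_top

/-- From averages to almost every parameter, for a sequence of scales. -/
theorem all_scales (μ : Measure Λ) {f : ℕ → Λ → ℝ≥0∞} (hf : ∀ k, Measurable (f k)) {C : ℝ}
    (hC : 0 ≤ C) {R : ℕ → ℝ} (hR : ∀ k, 0 ≤ R k)
    (h : ∀ k, ∫⁻ l, f k l ∂μ ≤ ENNReal.ofReal (C * R k)) :
    ∀ᵐ l ∂μ, ∃ B : ℝ, ∀ k : ℕ, f k l ≤ ENNReal.ofReal (B * ((k : ℝ) + 1) ^ 2 * R k) := by
  set c : ℕ → ℝ≥0∞ := fun k => (ENNReal.ofReal (((k : ℝ) + 1) ^ 2 * R k))⁻¹ with hc
  set I : Set ℕ := {k | 0 < R k} with hI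
  classical
  set g : ℕ → Λ → ℝ≥0∞ := fun k l => if 0 < R k then c k * f k l else 0 with hg
  have hgm : ∀ k, Measurable (g k) := by
    intro k
    by_cases hk : 0 < R k
    · simp only [hg, hk, if_true]
      exact (hf k).const_mul _
    · simp only [hg, hk, if_false]
      exact measurable_const
  have hsum : ∫⁻ l, ∑' k, g k l ∂μ ≠ ∞ := by
    rw [lintegral_tsum (fun k => (hgm k).aemeasurable)]
    refine ne_top_of_le_ne_top ?_ (ENNReal.tsum_le_tsum (g := fun k : ℕ =>
      ENNReal.ofReal C * (((k:ℝ≥0∞) + 1) ^ 2)⁻¹) (fun k => ?_))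
    · rw [ENNReal.tsum_mul_left]
      exact ENNReal.mul_ne_top ENNReal.ofReal_ne_top Pool.Agent.R250.AT.sum_sq_ne
    · by_cases hk : 0 < R k
      · simp only [hg, hk, if_true]
        rw [lintegral_const_mul _ (hf k)]
        have e1 : ENNReal.ofReal (((k : ℝ) + 1) ^ 2 * R k) =
            ((k:ℝ≥0∞) + 1) ^ 2 * ENNReal.ofReal (R k) := by
          rw [ENNReal.ofReal_mul (by positivity), ENNReal.ofReal_pow (by positivity),
            ENNReal.ofReal_add (by positivity) (by norm_num)]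
          simp
        have hR0 : ENNReal.ofReal (R k) ≠ 0 := (ENNReal.ofReal_pos.2 hk).ne'
        calc c k * ∫⁻ l, f k l ∂μ ≤ c k * ENNReal.ofReal (C * R k) := by gcongr; exact h k
          _ = _ := by
            simp only [hc]
            rw [e1, ENNReal.ofReal_mul hC, ENNReal.mul_inv (Or.inr ENNReal.ofReal_ne_top)
              (Or.inr hR0)]
            calc (((k:ℝ≥0∞) + 1) ^ 2)⁻¹ * (ENNReal.ofReal (R k))⁻¹ *
                  (ENNReal.ofReal C * ENNReal.ofReal (R k))
                = ((ENNReal.ofReal (R k))⁻¹ * ENNReal.ofReal (R k)) *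
                  (ENNReal.ofReal C * (((k:ℝ≥0∞) + 1) ^ 2)⁻¹) := by ring
              _ = _ := by rw [ENNReal.inv_mul_cancel hR0 ENNReal.ofReal_ne_top, one_mul]
      · simp only [hg, hk, if_false, lintegral_zero]
        exact zero_le
  have hzero : ∀ᵐ l ∂μ, ∀ k, R k = 0 → f k l = 0 := by
    rw [ae_all_iff]
    intro k
    by_cases hk : R k = 0
    · have h1 := h k
      rw [hk, mul_zero, ENNReal.ofReal_zero, nonpos_iff_eq_zero, lintegral_eq_zero_iff (hf k)] at h1
      filter_upwards [h1] with l hl _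
      exact hl
    · exact Filter.Eventually.of_forall (fun l hl => absurd hl hk)
  filter_upwards [ae_lt_top (Measurable.tsum hgm) hsum, hzero] with l hl hz
  refine ⟨(∑' k, g k l).toReal, ?_⟩
  intro k
  rcases (hR k).eq_or_lt with hk | hk
  · rw [hz k hk.symm]
    exact zero_le
  · have h1 : g k l ≤ ∑' k, g k l := ENNReal.le_tsum (f := fun k => g k l) k
    have h2 : g k l = c k * f k l := by simp only [hg, hk, if_true]
    have hpos : 0 < ((k : ℝ) + 1) ^ 2 * R k := by positivity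
    have hc0 : ENNReal.ofReal (((k : ℝ) + 1) ^ 2 * R k) ≠ 0 := (ENNReal.ofReal_pos.2 hpos).ne'
    calc f k l = ENNReal.ofReal (((k : ℝ) + 1) ^ 2 * R k) * (c k * f k l) := by
          simp only [hc]
          rw [← mul_assoc, ENNReal.mul_inv_cancel hc0 ENNReal.ofReal_ne_top, one_mul]
      _ ≤ ENNReal.ofReal (((k : ℝ) + 1) ^ 2 * R k) * ∑' k, g k l := by
          rw [← h2]; gcongr
      _ = ENNReal.ofReal (((k : ℝ) + 1) ^ 2 * R k) * ENNReal.ofReal (∑' k, g k l).toReal := by
          rw [ENNReal.ofReal_toReal hl.ne]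
      _ = _ := by
          rw [← ENNReal.ofReal_mul hpos.le]
          congr 1
          ring

end Pool.Agent.R250.AT
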