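import Pool.Agent.R250.AT2

set_option autoImplicit false

/-!
Tubes with parameters, third part: spreading families, transversal families, diagonal families.
-/

open MeasureTheory Set Metric
open scoped ENNReal

namespace Pool.Agent.R250.AT

/-- The averaged inequality from the isotropic spreading condition. -/
theorem crit {d : ℕ} {s q M A : ℝ} (hs1 : 1 < s) (hsd : s ≤ d) (hq : 1 + 1 / s < q) (hM : 0 ≤ M)
    (hA : 0 ≤ A) : ∃ C : ℝ, 0 ≤ C ∧ ∀ (Λ : Type) [MeasurableSpace Λ] (μ : Measure Λ) [SFinite μ],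
      μ univ ≤ ENNReal.ofReal M → ∀ δ : ℝ, 0 < δ → ∀ V : Finset (E d),
      (∀ v ∈ V, ∀ w ∈ V, v ≠ w → δ ≤ ‖v - w‖) → ∀ p : Λ → E d → E d,
      (∀ v ∈ V, Measurable (fun l => p l v)) →
      (∀ v ∈ V, ∀ w ∈ V, v ≠ w → ∀ r : ℝ, 0 < r → (μ.prod (volume.restrict (Icc (-1:ℝ) 1)))
        {x : Λ × ℝ | ‖(p x.1 v + x.2 • v) - (p x.1 w + x.2 • w)‖ ≤ r} ≤
        ENNReal.ofReal (A * (r / ‖v - w‖) ^ s)) →
      ∫⁻ l, (∫⁻ z, cnt δ V (p l) z ^ q) ∂μ ≤
        ENNReal.ofReal (C * (δ ^ d * (V.card : ℝ) ^ (q - 1 / (d : ℝ)))) := by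
  have hd1 : (1:ℝ) < d := hs1.trans_le hsd
  have hd0 : (0:ℝ) < d := by linarith
  have hd : 0 < d := by exact_mod_cast hd0
  have hs0 : 0 < s := by linarith
  have hq1 : 1 < q := by
    have : 0 < 1 / s := by positivity
    linarith
  have hq0 : 0 < q - 1 := by linarith
  set θ : ℝ := max (1 / (d * (q - 1))) (1 / d) with hθ
  have hθ0 : 0 < θ := lt_max_of_lt_right (by positivity)
  have h1 : 1 / (q - 1) < s := by
    rw [div_lt_iff₀ hq0]
    have h2 : 1 / s < q - 1 := by linarith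
    rw [div_lt_iff₀ hs0] at h2
    linarith
  have hθs : θ * d < s := by
    rw [hθ, max_mul_of_nonneg _ _ hd0.le]
    apply max_lt
    · have : 1 / (d * (q - 1)) * d = 1 / (q - 1) := by field_simp
      rw [this]; exact h1
    · have : 1 / (d:ℝ) * d = 1 := by field_simp
      rw [this]; exact hs1
  have hθ1 : θ ≤ 1 := by
    by_contra hcon
    push Not at hcon
    nlinarith
  have hθ2 : 1 / (d : ℝ) ≤ θ := le_max_right _ _
  have hθ3 : 1 / (d : ℝ) ≤ θ * (q - 1) := by
    have h2 : 1 / (d * (q - 1)) ≤ θ := le_max_left _ _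
    calc 1 / (d : ℝ) = 1 / (d * (q - 1)) * (q - 1) := by field_simp
      _ ≤ θ * (q - 1) := by gcongr
  obtain ⟨K, hK, hKs⟩ := sep_small d hd s θ hθ0 hθs hθ1
  have hom : 0 ≤ om d := ENNReal.toReal_nonneg
  refine ⟨om d * (2 * M + A * 2 ^ s * K), by positivity, ?_⟩
  intro Λ _ μ _ hμ δ hδ V hV p hp hsp
  have h2 := avg hq1 hθ2 hθ3 hθ1 (K := A * 2 ^ s * K) (by positivity) hM μ hμ hδ V hp
    (fun v w => A * (2 * δ / ‖v - w‖) ^ s) (fun v _ w _ _ => by positivity)
    (fun v hv w hw hvw => hsp v hv w hw hvw (2 * δ) (by positivity))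
    (fun v hv => by
      have h3 := hKs δ hδ V hV v hv
      have h4 : ∀ w ∈ V.filter (fun w => v ≠ w), A * (2 * δ / ‖v - w‖) ^ s =
          A * 2 ^ s * (δ / ‖v - w‖) ^ s := by
        intro w _
        rw [mul_div_assoc, Real.mul_rpow (by norm_num) (by positivity)]
        ring
      rw [Finset.sum_congr rfl h4, ← Finset.mul_sum]
      calc A * 2 ^ s * ∑ w ∈ V.filter (fun w => v ≠ w), (δ / ‖v - w‖) ^ s
          ≤ A * 2 ^ s * (K * (V.card : ℝ) ^ (1 - θ)) := by gcongr
        _ = _ := by ring)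
  refine h2.trans (le_of_eq ?_)
  congr 1
  ring

/-- Spreading from transversality. -/
theorem spread_of_trans {d : ℕ} {Λ : Type} [PseudoMetricSpace Λ] [MeasurableSpace Λ]
    {μ : Measure Λ} [SFinite μ] {κ A α : ℝ} (hκ : 0 < κ) (hA : 0 ≤ A)
    (hμ : ∀ (x : Λ) (r : ℝ), 0 < r → μ (closedBall x r) ≤ ENNReal.ofReal (A * r ^ α))
    {g : Λ → E d → E d} (hg : ∀ (l m : Λ) (t u : ℝ) (v w : E d),
      κ * max (dist l m) |t - u| * ‖v - w‖ ≤
        ‖((g l v - g l w) + t • (v - w)) - ((g m v - g m w) + u • (v - w))‖) (a : E d → E d)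
    (v w : E d) (hvw : v ≠ w) (r : ℝ) (hr : 0 < r) :
    (μ.prod (volume.restrict (Icc (-1:ℝ) 1)))
      {x : Λ × ℝ | ‖((a v + g x.1 v) + x.2 • v) - ((a w + g x.1 w) + x.2 • w)‖ ≤ r} ≤
      ENNReal.ofReal (2 * A * (2 / κ) ^ (1 + α) * (r / ‖v - w‖) ^ (1 + α)) := by
  have hpos : 0 < ‖v - w‖ := norm_pos_iff.2 (sub_ne_zero.2 hvw)
  set S : Set (Λ × ℝ) :=
    {x : Λ × ℝ | ‖((a v + g x.1 v) + x.2 • v) - ((a w + g x.1 w) + x.2 • w)‖ ≤ r} with hS
  rcases S.eq_empty_or_nonempty with h0 | ⟨z0, hz0⟩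
  · rw [h0, measure_empty]; exact zero_le
  · set ρ : ℝ := 2 * r / (κ * ‖v - w‖) with hρ
    have hρ0 : 0 < ρ := by positivity
    have hsub : S ⊆ closedBall z0.1 ρ ×ˢ closedBall z0.2 ρ := by
      intro z hz
      have h1 := hg z.1 z0.1 z.2 z0.2 v w
      have e1 : ((g z.1 v - g z.1 w) + z.2 • (v - w)) - ((g z0.1 v - g z0.1 w) + z0.2 • (v - w)) =
          (((a v + g z.1 v) + z.2 • v) - ((a w + g z.1 w) + z.2 • w)) -
          (((a v + g z0.1 v) + z0.2 • v) - ((a w + g z0.1 w) + z0.2 • w)) := by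
        rw [smul_sub, smul_sub]
        abel
      rw [e1] at h1
      have h2 : κ * max (dist z.1 z0.1) |z.2 - z0.2| * ‖v - w‖ ≤ 2 * r := by
        refine h1.trans ((norm_sub_le _ _).trans ?_)
        have h3 : ‖((a v + g z.1 v) + z.2 • v) - ((a w + g z.1 w) + z.2 • w)‖ ≤ r := hz
        have h4 : ‖((a v + g z0.1 v) + z0.2 • v) - ((a w + g z0.1 w) + z0.2 • w)‖ ≤ r := hz0
        linarith
      have h5 : max (dist z.1 z0.1) |z.2 - z0.2| ≤ ρ := by
        rw [hρ, le_div_iff₀ (by positivity)]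
        calc max (dist z.1 z0.1) |z.2 - z0.2| * (κ * ‖v - w‖) =
            κ * max (dist z.1 z0.1) |z.2 - z0.2| * ‖v - w‖ := by ring
          _ ≤ 2 * r := h2
      refine ⟨?_, ?_⟩
      · rw [mem_closedBall]; exact (le_max_left _ _).trans h5
      · rw [mem_closedBall, Real.dist_eq]; exact (le_max_right _ _).trans h5
    calc (μ.prod (volume.restrict (Icc (-1:ℝ) 1))) S
        ≤ (μ.prod (volume.restrict (Icc (-1:ℝ) 1))) (closedBall z0.1 ρ ×ˢ closedBall z0.2 ρ) :=
          measure_mono hsub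
      _ = μ (closedBall z0.1 ρ) * (volume.restrict (Icc (-1:ℝ) 1)) (closedBall z0.2 ρ) :=
          Measure.prod_prod _ _
      _ ≤ ENNReal.ofReal (A * ρ ^ α) * ENNReal.ofReal (2 * ρ) := by
          gcongr
          · exact hμ _ _ hρ0
          · refine (Measure.restrict_apply_le _ _).trans ?_
            rw [Real.volume_closedBall]
      _ = ENNReal.ofReal (A * ρ ^ α * (2 * ρ)) := by
          rw [← ENNReal.ofReal_mul (by positivity)]
      _ = _ := by
          congr 1
          have e2 : ρ = 2 / κ * (r / ‖v - w‖) := by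
            rw [hρ]; field_simp
          have e3 : ρ ^ α * ρ = ρ ^ (1 + α) := by
            rw [Real.rpow_add hρ0, Real.rpow_one]; ring
          calc A * ρ ^ α * (2 * ρ) = 2 * A * (ρ ^ α * ρ) := by ring
            _ = 2 * A * ((2 / κ) ^ (1 + α) * (r / ‖v - w‖) ^ (1 + α)) := by
                rw [e3, e2, Real.mul_rpow (by positivity) (by positivity)]
            _ = _ := by ring

/-! ### Diagonal perturbations -/

open Pool.Agent.H147R3.KK (Reg)

theorem line1 {μ : Measure ℝ} {A α L : ℝ} (h : Reg μ A α L) (hL : 0 < L) (hA : 0 ≤ A) (hα : 0 < α)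
    (c x δ : ℝ) (hδ : 0 < δ) :
    μ {m : ℝ | |c + m * x| ≤ 2 * δ} ≤
      ENNReal.ofReal (A * (4 * L + 8) ^ α * (1 + 1 / δ * |x|) ^ (-α)) := by
  set y : ℝ := 1 / δ * |x| with hy
  have hy0 : 0 ≤ y := by positivity
  have key : ∀ b : ℝ, 0 ≤ b → b * (1 + y) ≤ 4 * L + 8 →
      A * b ^ α ≤ A * (4 * L + 8) ^ α * (1 + y) ^ (-α) := by
    intro b hb hb1
    rw [Real.rpow_neg (by positivity), ← div_eq_mul_inv, mul_div_assoc,
      ← Real.div_rpow (by positivity) (by positivity)]
    have h2 : b ≤ (4 * L + 8) / (1 + y) := by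
      rw [le_div_iff₀ (by positivity)]; exact hb1
    gcongr
  rcases le_or_gt y 1 with h1 | h1
  · refine (measure_mono (subset_univ _)).trans ((h.total hL).trans ?_)
    apply ENNReal.ofReal_le_ofReal
    exact key (2 * L) (by positivity) (by nlinarith)
  · have hx : 0 < |x| := by
      by_contra hcon
      have h3 : |x| = 0 := le_antisymm (not_lt.1 hcon) (abs_nonneg _)
      rw [hy, h3, mul_zero] at h1
      linarith
    have hx0 : x ≠ 0 := abs_pos.1 hx
    have hsub : {m : ℝ | |c + m * x| ≤ 2 * δ} ⊆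
        Icc (-c / x - 2 * δ / |x|) ((-c / x - 2 * δ / |x|) + 4 * δ / |x|) := by
      intro m hm
      rw [mem_ofPred_eq] at hm
      have h3 : |m - (-c / x)| ≤ 2 * δ / |x| := by
        rw [le_div_iff₀ hx, ← abs_mul]
        have : (m - -c / x) * x = c + m * x := by
          field_simp
          ring
        rw [this]
        exact hm
      rw [abs_le] at h3
      have h4 : 4 * δ / |x| = 2 * δ / |x| + 2 * δ / |x| := by ring
      constructor <;> linarith [h3.1, h3.2]
    refine (measure_mono hsub).trans ((h.2 _ _ (by positivity)).trans ?_)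
    apply ENNReal.ofReal_le_ofReal
    refine key _ (by positivity) ?_
    have h5 : |x| = y * δ := by rw [hy]; field_simp
    rw [h5]
    have h6 : 4 * δ / (y * δ) * (1 + y) = 4 * ((1 + y) / y) := by
      have : y ≠ 0 := by linarith
      field_simp
    rw [h6]
    have h7 : (1 + y) / y ≤ 2 := by
      rw [div_le_iff₀ (by linarith)]
      linarith
    linarith

theorem reg_time {α : ℝ} (hα : 0 < α) (hα1 : α ≤ 1) :
    Reg (volume.restrict (Icc (-1:ℝ) 1)) 2 α 1 := by
  refine ⟨?_, ?_⟩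
  · rw [Measure.restrict_apply measurableSet_Icc.compl]
    simp
  · intro a r hr
    rcases le_or_gt r 1 with h | h
    · refine (Measure.restrict_apply_le _ _).trans ?_
      rw [Real.volume_Icc]
      apply ENNReal.ofReal_le_ofReal
      have h1 : r ≤ r ^ α := Real.self_le_rpow_of_le_one hr h hα1
      linarith
    · refine (measure_mono (subset_univ _)).trans ?_
      rw [Measure.restrict_apply_univ, Real.volume_Icc]
      apply ENNReal.ofReal_le_ofReal
      have h1 : 1 ≤ r ^ α := Real.one_le_rpow h.le hα.le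
      linarith

/-- The diagonal perturbation. -/
noncomputable def diag {D : ℕ} (m : Fin D → ℝ) (v : E (D + 1)) : E (D + 1) :=
  WithLp.toLp 2 (fun j => (Fin.cons 0 m : Fin (D + 1) → ℝ) j * v j)

theorem diag_meas {D : ℕ} (v : E (D + 1)) : Measurable (fun m : Fin D → ℝ => diag m v) := by
  unfold diag
  apply (WithLp.measurable_toLp 2 (Fin (D + 1) → ℝ)).comp
  rw [measurable_pi_iff]
  intro j
  refine Fin.cases ?_ (fun i => ?_) j
  · simp only [Fin.cons_zero]
    exact measurable_const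
  · simp only [Fin.cons_succ]
    exact (measurable_pi_apply i).mul_const _

theorem diag_pair {D : ℕ} {μ : Fin D → Measure ℝ} {A α L : ℝ} (h : ∀ j, Reg (μ j) A α L)
    (hL : 0 < L) (hA : 0 ≤ A) (hα : 0 < α) (hα1 : α ≤ 1) (a : E (D + 1) → E (D + 1))
    (v w : E (D + 1)) (δ : ℝ) (hδ : 0 < δ) :
    ((Measure.pi μ).prod (volume.restrict (Icc (-1:ℝ) 1)))
      {x : (Fin D → ℝ) × ℝ | ‖((a v + diag x.1 v) + x.2 • v) - ((a w + diag x.1 w) + x.2 • w)‖
        ≤ 2 * δ} ≤
      ENNReal.ofReal (2 * 12 ^ α * (A * (4 * L + 8) ^ α) ^ D *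
        ∏ j, (1 + 1 / δ * |w j - v j|) ^ (-α)) := by
  have hfin : ∀ j, IsFiniteMeasure (μ j) := fun j => (h j).fin hL
  set S : Set ((Fin D → ℝ) × ℝ) :=
    {x : (Fin D → ℝ) × ℝ | ‖((a v + diag x.1 v) + x.2 • v) - ((a w + diag x.1 w) + x.2 • w)‖
        ≤ 2 * δ} with hS
  set b : E (D + 1) := a v - a w with hb
  set x : E (D + 1) := v - w with hx
  have hcoord : ∀ z ∈ S, ∀ j, |b j + ((Fin.cons 0 z.1 : Fin (D + 1) → ℝ) j + z.2) * x j| ≤ 2 * δ := by
    intro z hz j
    have h1 : ‖((a v + diag z.1 v) + z.2 • v) - ((a w + diag z.1 w) + z.2 • w)‖ ≤ 2 * δ := hz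
    have h2 := PiLp.norm_apply_le (((a v + diag z.1 v) + z.2 • v) - ((a w + diag z.1 w) + z.2 • w)) j
    rw [Real.norm_eq_abs] at h2
    refine le_trans (le_of_eq ?_) (h2.trans h1)
    congr 1
    simp [hb, hx, diag]
    ring
  set T : Set ℝ := {t : ℝ | |b 0 + t * x 0| ≤ 2 * δ} with hT
  have hTm : MeasurableSet T := by
    have : Measurable fun t : ℝ => |b 0 + t * x 0| := by fun_prop
    exact measurableSet_le this measurable_const
  set Q : ℝ → Set (Fin D → ℝ) := fun t => Set.univ.pi (fun j : Fin D =>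
    {m : ℝ | |(b j.succ + t * x j.succ) + m * x j.succ| ≤ 2 * δ}) with hQ
  have hQv : ∀ t, Measure.pi μ (Q t) ≤
      ∏ j : Fin D, ENNReal.ofReal (A * (4 * L + 8) ^ α * (1 + 1 / δ * |x j.succ|) ^ (-α)) := by
    intro t
    simp only [hQ]
    rw [Measure.pi_pi]
    exact Finset.prod_le_prod' (fun j _ => line1 (h j) hL hA hα _ _ δ hδ)
  have hSm : MeasurableSet S := by
    apply measurableSet_le _ measurable_const
    exact ((((measurable_const.add ((diag_meas v).comp measurable_fst)).add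
      (measurable_snd.smul_const v))).sub
      ((measurable_const.add ((diag_meas w).comp measurable_fst)).add
      (measurable_snd.smul_const w))).norm
  rw [Measure.prod_apply_symm hSm]
  have hsec : ∀ t : ℝ, Measure.pi μ ((fun m => (m, t)) ⁻¹' S) ≤ T.indicator (fun _ =>
      ∏ j : Fin D, ENNReal.ofReal (A * (4 * L + 8) ^ α * (1 + 1 / δ * |x j.succ|) ^ (-α))) t := by
    intro t
    by_cases ht : t ∈ T
    · rw [indicator_of_mem ht]
      refine (measure_mono ?_).trans (hQv t)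
      intro m hm j _
      have h1 := hcoord (m, t) hm j.succ
      simp only [Fin.cons_succ] at h1
      show |(b j.succ + t * x j.succ) + m j * x j.succ| ≤ 2 * δ
      have e : b j.succ + t * x j.succ + m j * x j.succ = b j.succ + (m j + t) * x j.succ := by ring
      rw [e]
      exact h1
    · rw [indicator_of_notMem ht]
      have h0 : (fun m => (m, t)) ⁻¹' S = (∅ : Set (Fin D → ℝ)) := by
        rw [Set.eq_empty_iff_forall_notMem]
        intro m hm
        apply ht
        have h1 := hcoord (m, t) hm 0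
        simp only [Fin.cons_zero, zero_add] at h1
        exact h1
      rw [h0, measure_empty]
  refine (lintegral_mono hsec).trans ?_
  rw [lintegral_indicator_const hTm]
  have hTv : (volume.restrict (Icc (-1:ℝ) 1)) T ≤
      ENNReal.ofReal (2 * 12 ^ α * (1 + 1 / δ * |x 0|) ^ (-α)) := by
    have h1 := line1 (reg_time hα hα1) one_pos (by norm_num) hα (b 0) (x 0) δ hδ
    refine h1.trans (le_of_eq ?_)
    norm_num
  refine (mul_le_mul_right hTv _).trans (le_of_eq ?_)
  rw [← ENNReal.ofReal_prod_of_nonneg (fun j _ => by positivity),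
    ← ENNReal.ofReal_mul (Finset.prod_nonneg (fun j _ => by positivity))]
  congr 1
  rw [Finset.prod_mul_distrib, Finset.prod_const, Finset.card_univ, Fintype.card_fin]
  rw [Fin.prod_univ_succ (fun j => (1 + 1 / δ * |w j - v j|) ^ (-α))]
  have e0 : |w 0 - v 0| = |x 0| := by rw [abs_sub_comm]; simp [hx]
  have ej : ∀ j : Fin D, |w j.succ - v j.succ| = |x j.succ| := by
    intro j; rw [abs_sub_comm]; simp [hx]
  rw [e0]
  simp only [ej]
  ring

/-- The averaged inequality for diagonal perturbations. -/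
theorem diag_avg (D : ℕ) {α q A L : ℝ} (hα : 1 < α * (D + 1)) (hα1 : α ≤ 1)
    (hq : 1 + 1 / (α * (D + 1)) < q) (hA : 0 ≤ A) (hL : 0 < L) :
    ∃ C : ℝ, 0 ≤ C ∧ ∀ μ : Fin D → Measure ℝ, (∀ j, Reg (μ j) A α L) → ∀ δ : ℝ, 0 < δ →
      ∀ V : Finset (E (D + 1)), (∀ v ∈ V, ∀ w ∈ V, v ≠ w → δ ≤ ‖v - w‖) →
      ∀ a : E (D + 1) → E (D + 1),
      ∫⁻ m, (∫⁻ z, cnt δ V (fun v => a v + diag m v) z ^ q) ∂(Measure.pi μ) ≤
        ENNReal.ofReal (C * (δ ^ (D + 1) * (V.card : ℝ) ^ (q - 1 / (((D + 1 : ℕ) : ℝ))))) := by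
  have hD0 : (0:ℝ) < D + 1 := by positivity
  have hα0 : 0 < α := by
    by_contra hcon
    have : α * (D + 1) ≤ 0 := mul_nonpos_of_nonpos_of_nonneg (not_lt.1 hcon) hD0.le
    linarith
  have hαD : 0 < α * (D + 1) := by positivity
  have hq1 : 1 < q := by
    have : 0 < 1 / (α * (D + 1)) := by positivity
    linarith
  have hq0 : 0 < q - 1 := by linarith
  set s : ℝ := min (α * (D + 1)) (α * (D + 1) * (q - 1)) with hs
  have hs1 : 1 < s := by
    rw [hs, lt_min_iff]
    refine ⟨hα, ?_⟩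
    have h2 : 1 / (α * (D + 1)) < q - 1 := by linarith
    rw [div_lt_iff₀ hαD] at h2
    linarith
  have hs0 : 0 < s := by linarith
  set θ : ℝ := α / s with hθ
  have hcast : (((D + 1 : ℕ) : ℝ)) = (D:ℝ) + 1 := by push_cast; ring
  have hθ1 : θ ≤ 1 := by rw [hθ, div_le_one hs0]; linarith
  have hθ2 : 1 / (((D + 1 : ℕ) : ℝ)) ≤ θ := by
    rw [hcast, hθ, div_le_div_iff₀ hD0 hs0, one_mul]
    exact min_le_left _ _
  have hθ3 : 1 / (((D + 1 : ℕ) : ℝ)) ≤ θ * (q - 1) := by
    rw [hcast, hθ, div_mul_eq_mul_div, div_le_div_iff₀ hD0 hs0, one_mul]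
    have := min_le_right (α * (D + 1)) (α * (D + 1) * (q - 1))
    calc s ≤ α * (D + 1) * (q - 1) := this
      _ = _ := by ring
  obtain ⟨K, hK, hKs⟩ := Pool.Agent.H147R3.KK.ker_sum (D + 1) (by omega) α hα0 hα1 s hs1
  have hom : 0 ≤ om (D + 1) := ENNReal.toReal_nonneg
  set M : ℝ := (A * (2 * L) ^ α) ^ D with hM
  have hM0 : 0 ≤ M := by positivity
  set c : ℝ := 2 * 12 ^ α * (A * (4 * L + 8) ^ α) ^ D with hc
  have hc0 : 0 ≤ c := by positivity
  refine ⟨om (D + 1) * (2 * M + c * K), by positivity, ?_⟩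
  intro μ h δ hδ V hV a
  have hfin : ∀ j, IsFiniteMeasure (μ j) := fun j => (h j).fin hL
  have hμ : (Measure.pi μ) univ ≤ ENNReal.ofReal M := by
    rw [Measure.pi_univ, hM, ENNReal.ofReal_pow (by positivity)]
    calc ∏ j, μ j Set.univ ≤ ∏ j : Fin D, ENNReal.ofReal (A * (2 * L) ^ α) :=
          Finset.prod_le_prod' (fun j _ => (h j).total hL)
      _ = _ := by simp
  have h2 := avg (d := D + 1) hq1 hθ2 hθ3 hθ1 (K := c * K) (by positivity) hM0 (Measure.pi μ) hμ hδ V
    (p := fun m v => a v + diag m v)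
    (fun v _ => measurable_const.add (diag_meas v))
    (fun v w => c * ∏ j, (1 + 1 / δ * |w j - v j|) ^ (-α))
    (fun v _ w _ _ => mul_nonneg hc0 (Finset.prod_nonneg (fun j _ => by positivity)))
    (fun v _ w _ _ => diag_pair h hL hA hα0 hα1 a v w δ hδ)
    (fun v hv => by
      classical
      have hN : 0 < V.card := Finset.card_pos.2 ⟨v, hv⟩
      set φ : E (D + 1) → (Fin (D + 1) → ℝ) := fun v => (fun j => v j) with hφ
      have hinj : Function.Injective φ := by
        intro x y hxy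
        ext j
        exact congrFun hxy j
      have hcard : (V.image φ).card = V.card := Finset.card_image_of_injective V hinj
      have h1 := hKs δ 1 hδ one_pos le_rfl (V.image φ) (by rw [hcard]; exact hN) (by
        intro x hx y hy hxy
        obtain ⟨a, ha, rfl⟩ := Finset.mem_image.1 hx
        obtain ⟨b, hb, rfl⟩ := Finset.mem_image.1 hy
        have hab : a ≠ b := fun h => hxy (by rw [h])
        have h2 := hV a ha b hb hab
        have h3 : ‖a - b‖ ^ 2 = ∑ j, (φ a j - φ b j) ^ 2 := by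
          rw [EuclideanSpace.norm_sq_eq]
          simp [hφ]
        rw [← h3]
        gcongr) (φ v)
      rw [Finset.sum_image (fun x _ y _ h => hinj h), inv_one, one_pow, Real.one_rpow, mul_one,
        hcard] at h1
      calc ∑ w ∈ V.filter (fun w => v ≠ w), c * ∏ j, (1 + 1 / δ * |w j - v j|) ^ (-α)
          ≤ ∑ w ∈ V, c * ∏ j, (1 + 1 / δ * |w j - v j|) ^ (-α) := by
            apply Finset.sum_le_sum_of_subset_of_nonneg (Finset.filter_subset _ _)
            intro w _ _
            exact mul_nonneg hc0 (Finset.prod_nonneg (fun j _ => by positivity))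
        _ = c * ∑ w ∈ V, ∏ j, (1 + 1 / δ * |φ w j - φ v j|) ^ (-α) := by rw [Finset.mul_sum]
        _ ≤ c * (K * (V.card : ℝ) ^ (1 - α / s)) := by gcongr
        _ = _ := by rw [hθ]; ring)
  refine h2.trans (le_of_eq ?_)
  congr 1
  ring

end Pool.Agent.R250.AT
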