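import Mathlib

/-!
# Disjoint centred intervals and the weak type constant: the mollified primitive

If `g` is monotone with values in an interval of length `s`, the function
`(g (y + ε) - g (y - ε)) / (2 ε)` has integral at most `s`, and its integral over
`[a - ε, b + ε]` is at least `g b - g a`.
-/

namespace Pool.Agent.R250.CI

open MeasureTheory Set Filter Topology

/-- The mollified derivative of `g`. -/
noncomputable def moll (g : ℝ → ℝ) (e : ℝ) (y : ℝ) : ℝ := (g (y + e) - g (y - e)) / (2 * e)

variable {g : ℝ → ℝ} {e : ℝ}

lemma moll_nonneg (hg : Monotone g) (he : 0 < e) (y : ℝ) : 0 ≤ moll g e y := by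
  unfold moll
  have := hg (show y - e ≤ y + e by linarith)
  exact div_nonneg (by linarith) (by linarith)

lemma ii_add (hg : Monotone g) (c a b : ℝ) :
    IntervalIntegrable (fun y => g (y + c)) volume a b :=
  Monotone.intervalIntegrable (fun x y h => hg (by linarith))

lemma ii_sub (hg : Monotone g) (c a b : ℝ) :
    IntervalIntegrable (fun y => g (y - c)) volume a b :=
  Monotone.intervalIntegrable (fun x y h => hg (by linarith))

lemma ii_moll (hg : Monotone g) (a b : ℝ) :
    IntervalIntegrable (moll g e) volume a b :=
  ((ii_add hg e a b).sub (ii_sub hg e a b)).div_const _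

lemma integral_moll (hg : Monotone g) (a b : ℝ) :
    ∫ y in a..b, moll g e y =
      ((∫ y in (b - e)..(b + e), g y) - ∫ y in (a - e)..(a + e), g y) / (2 * e) := by
  unfold moll
  rw [intervalIntegral.integral_div, intervalIntegral.integral_sub (ii_add hg e a b)
    (ii_sub hg e a b), intervalIntegral.integral_comp_add_right,
    intervalIntegral.integral_comp_sub_right]
  congr 1
  have h1 := intervalIntegral.integral_interval_sub_interval_comm'
    (f := g) (μ := volume) (a := a + e) (b := b + e) (c := a - e) (d := b - e)
    hg.intervalIntegrable hg.intervalIntegrable hg.intervalIntegrable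
  exact h1

lemma integral_le_of_le (hg : Monotone g) {a b M : ℝ} (hab : a ≤ b)
    (h : ∀ y ∈ Icc a b, g y ≤ M) : ∫ y in a..b, g y ≤ (b - a) * M := by
  have := intervalIntegral.integral_mono_on hab (hg.intervalIntegrable (a := a) (b := b)
    (μ := volume)) (intervalIntegrable_const (c := M)) h
  simpa using this

lemma le_integral_of_le (hg : Monotone g) {a b M : ℝ} (hab : a ≤ b)
    (h : ∀ y ∈ Icc a b, M ≤ g y) : (b - a) * M ≤ ∫ y in a..b, g y := by
  have := intervalIntegral.integral_mono_on hab (intervalIntegrable_const (c := M) (μ := volume))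
    (hg.intervalIntegrable (a := a) (b := b)) h
  simpa using this

/-- The integral over a large interval is at most `s`. -/
lemma integral_moll_le (hg : Monotone g) (he : 0 < e) {m s : ℝ} (h1 : ∀ t, m ≤ g t)
    (h2 : ∀ t, g t ≤ m + s) (a b : ℝ) : ∫ y in a..b, moll g e y ≤ s := by
  rw [integral_moll hg, div_le_iff₀ (by linarith)]
  have i1 := integral_le_of_le hg (a := b - e) (b := b + e) (M := m + s) (by linarith)
    (fun y _ => h2 y)
  have i2 := le_integral_of_le hg (a := a - e) (b := a + e) (M := m) (by linarith)
    (fun y _ => h1 y)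
  nlinarith

/-- The integral over `[a - e, b + e]` is at least `g b - g a`. -/
lemma le_integral_moll (hg : Monotone g) (he : 0 < e) (a b : ℝ) :
    g b - g a ≤ ∫ y in (a - e)..(b + e), moll g e y := by
  rw [integral_moll hg, le_div_iff₀ (by linarith)]
  have i1 := le_integral_of_le hg (a := b + e - e) (b := b + e + e) (M := g b) (by linarith)
    (fun y hy => hg (by have := hy.1; linarith))
  have i2 := integral_le_of_le hg (a := a - e - e) (b := a - e + e) (M := g a) (by linarith)
    (fun y hy => hg (by have := hy.2; linarith))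
  nlinarith

lemma integrable_moll (hg : Monotone g) (he : 0 < e) {m s : ℝ} (h1 : ∀ t, m ≤ g t)
    (h2 : ∀ t, g t ≤ m + s) : Integrable (moll g e) := by
  refine integrable_of_intervalIntegral_norm_bounded (l := atTop) (a := fun n : ℕ => -(n : ℝ))
    (b := fun n : ℕ => (n : ℝ)) s ?_ ?_ ?_ ?_
  · intro n
    have := ii_moll (e := e) hg (-(n : ℝ)) n
    rwa [intervalIntegrable_iff_integrableOn_Ioc_of_le (by
      have : (0 : ℝ) ≤ n := Nat.cast_nonneg n
      linarith)] at this
  · exact tendsto_neg_atTop_atBot.comp tendsto_natCast_atTop_atTop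
  · exact tendsto_natCast_atTop_atTop
  · filter_upwards with n
    have : (fun x => ‖moll g e x‖) = moll g e := by
      funext x
      rw [Real.norm_of_nonneg (moll_nonneg hg he x)]
    simp only [this]
    exact integral_moll_le hg he h1 h2 _ _

lemma integral_moll_le' (hg : Monotone g) (he : 0 < e) {m s : ℝ} (h1 : ∀ t, m ≤ g t)
    (h2 : ∀ t, g t ≤ m + s) : ∫ y, moll g e y ≤ s := by
  have ha : Tendsto (fun n : ℕ => -(n : ℝ)) atTop atBot :=
    tendsto_neg_atTop_atBot.comp tendsto_natCast_atTop_atTop
  have hb : Tendsto (fun n : ℕ => (n : ℝ)) atTop atTop := tendsto_natCast_atTop_atTop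
  exact le_of_tendsto (intervalIntegral_tendsto_integral (integrable_moll hg he h1 h2) ha hb)
    (Eventually.of_forall fun n => integral_moll_le hg he h1 h2 _ _)

end Pool.Agent.R250.CI
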