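import Pool.Agent.R250.CIa

/-!
# Disjoint centred intervals and the weak type constant: definitions and the main estimate
-/

namespace Pool.Agent.R250.CI

open MeasureTheory Set Filter Topology
open scoped ENNReal

/-- The open interval `(x - δ x, x + δ x)`. -/
def Icen (δ : ℝ → ℝ) (x : ℝ) : Set ℝ := Ioo (x - δ x) (x + δ x)

/-- `c` is admissible: for every compact `E` and every choice of radii `δ x > 0` for `x ∈ E` there
is a finite or countable set `S ⊆ E` such that the intervals `(x - δ x, x + δ x)`, `x ∈ S`, are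
pairwise disjoint and of total length at least `c |E|`. -/
def Admissible (c : ℝ) : Prop :=
  ∀ E : Set ℝ, IsCompact E → ∀ δ : ℝ → ℝ, (∀ x ∈ E, 0 < δ x) →
    ∃ S : Set ℝ, S ⊆ E ∧ S.Countable ∧ S.PairwiseDisjoint (Icen δ) ∧
      ENNReal.ofReal c * volume E ≤ ∑' x : S, volume (Icen δ x)

/-- The centred Hardy-Littlewood maximal function of `f`:
the supremum over `r > 0` of the averages of `|f|` over `[x - r, x + r]`. -/
noncomputable def maxFn (f : ℝ → ℝ) (x : ℝ) : ℝ≥0∞ :=
  ⨆ (r : ℝ) (_ : 0 < r), ENNReal.ofReal ((2 * r)⁻¹ * ∫ y in (x - r)..(x + r), |f y|)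

/-- The weak type (1,1) inequality with constant `C`. -/
def WeakType (C : ℝ) : Prop :=
  ∀ f : ℝ → ℝ, Integrable f → ∀ t : ℝ, 0 < t →
    ENNReal.ofReal t * volume {x | ENNReal.ofReal t < maxFn f x} ≤
      ENNReal.ofReal (C * ∫ y, |f y|)

/-- The best constant in the weak type (1,1) inequality for the centred maximal function. -/
noncomputable def weakConst : ℝ := sInf {C : ℝ | WeakType C}

lemma lt_maxFn_iff {f : ℝ → ℝ} {t x : ℝ} (ht : 0 < t) :
    ENNReal.ofReal t < maxFn f x ↔ ∃ r : ℝ, 0 < r ∧ t * (2 * r) < ∫ y in (x - r)..(x + r), |f y| := by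
  unfold maxFn
  simp only [lt_iSup_iff]
  constructor
  · rintro ⟨r, hr, h⟩
    refine ⟨r, hr, ?_⟩
    rw [ENNReal.ofReal_lt_ofReal_iff_of_nonneg ht.le] at h
    rw [inv_mul_eq_div, lt_div_iff₀ (by linarith)] at h
    exact h
  · rintro ⟨r, hr, h⟩
    refine ⟨r, hr, ?_⟩
    rw [ENNReal.ofReal_lt_ofReal_iff_of_nonneg ht.le]
    rw [inv_mul_eq_div, lt_div_iff₀ (by linarith)]
    exact h

/-- The superlevel sets of the maximal function are open. -/
lemma isOpen_superlevel {f : ℝ → ℝ} (hf : Integrable f) {t : ℝ} (ht : 0 < t) :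
    IsOpen {x | ENNReal.ofReal t < maxFn f x} := by
  have : {x | ENNReal.ofReal t < maxFn f x} =
      ⋃ (r : ℝ) (_ : 0 < r), {x | t * (2 * r) < ∫ y in (x - r)..(x + r), |f y|} := by
    ext x
    simp only [Set.mem_iUnion, Set.mem_ofPred_eq, lt_maxFn_iff ht, exists_prop]
  rw [this]
  refine isOpen_iUnion fun r => isOpen_iUnion fun hr => ?_
  have hii : ∀ a b : ℝ, IntervalIntegrable (fun y => |f y|) volume a b := fun a b =>
    hf.abs.intervalIntegrable
  have hc : Continuous fun x => ∫ y in (x - r)..(x + r), |f y| := by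
    have h1 : Continuous fun b => ∫ y in (0:ℝ)..b, |f y| :=
      intervalIntegral.continuous_primitive hii 0
    have h2 : (fun x => ∫ y in (x - r)..(x + r), |f y|) =
        fun x => (∫ y in (0:ℝ)..(x + r), |f y|) - ∫ y in (0:ℝ)..(x - r), |f y| := by
      funext x
      rw [intervalIntegral.integral_interval_sub_left (hii _ _) (hii _ _)]
    rw [h2]
    exact (h1.comp (continuous_id.add continuous_const)).sub
      (h1.comp (continuous_id.sub continuous_const))
  exact isOpen_lt continuous_const hc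

/-- Main estimate: if the weak type inequality holds with the constant `C`, and the increment of a
monotone function `g` of oscillation at most `s` over each of the intervals is at least the length
of the interval, then `|E| ≤ C s`. -/
lemma measure_le {C : ℝ} (hC : WeakType C) {g : ℝ → ℝ} (hg : Monotone g) {m s : ℝ}
    (h1 : ∀ t, m ≤ g t) (h2 : ∀ t, g t ≤ m + s) {E : Set ℝ} {δ : ℝ → ℝ}
    (hδ : ∀ x ∈ E, 0 < δ x) (h : ∀ x ∈ E, 2 * δ x ≤ g (x + δ x) - g (x - δ x)) (hC0 : 0 ≤ C) :
    volume E ≤ ENNReal.ofReal (C * s) := by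
  -- the estimate for a level `l < 1` and a mollification parameter `e`
  have step : ∀ l : ℝ, 0 < l → ∀ e : ℝ, 0 < e →
      ENNReal.ofReal l * volume {x ∈ E | l * (δ x + e) < δ x} ≤ ENNReal.ofReal (C * s) := by
    intro l hl e he
    have key := hC (moll g e) (integrable_moll hg he h1 h2) l hl
    have habs : (fun y => |moll g e y|) = moll g e := by
      funext y
      exact abs_of_nonneg (moll_nonneg hg he y)
    rw [habs] at key
    refine le_trans ?_ (key.trans (ENNReal.ofReal_le_ofReal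
      (mul_le_mul_of_nonneg_left (integral_moll_le' hg he h1 h2) hC0)))
    refine mul_le_mul_right (measure_mono ?_) _
    rintro x ⟨hxE, hx⟩
    rw [Set.mem_ofPred_eq, lt_maxFn_iff hl]
    have hd := hδ x hxE
    refine ⟨δ x + e, by linarith, ?_⟩
    rw [habs]
    have h3 := le_integral_moll hg he (x - δ x) (x + δ x)
    have e1 : x - δ x - e = x - (δ x + e) := by ring
    have e2 : x + δ x + e = x + (δ x + e) := by ring
    rw [e1, e2] at h3
    have := h x hxE
    linarith
  -- let `e → 0`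
  have step2 : ∀ l : ℝ, 0 < l → l < 1 → ENNReal.ofReal l * volume E ≤ ENNReal.ofReal (C * s) := by
    intro l hl hl1
    have hU : E ⊆ ⋃ n : ℕ, {x ∈ E | l * (δ x + 1 / ((n : ℝ) + 1)) < δ x} := by
      intro x hx
      have hd := hδ x hx
      obtain ⟨n, hn⟩ := exists_nat_one_div_lt (show 0 < (1 - l) * δ x by
        exact mul_pos (by linarith) hd)
      refine Set.mem_iUnion.2 ⟨n, hx, ?_⟩
      have hp : 0 < 1 / ((n : ℝ) + 1) := by positivity
      nlinarith
    have hmono : Monotone fun n : ℕ => {x ∈ E | l * (δ x + 1 / ((n : ℝ) + 1)) < δ x} := by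
      intro n k hnk x hx
      refine ⟨hx.1, lt_of_le_of_lt ?_ hx.2⟩
      have : 1 / ((k : ℝ) + 1) ≤ 1 / ((n : ℝ) + 1) := by
        apply one_div_le_one_div_of_le (by positivity)
        have : (n : ℝ) ≤ k := Nat.cast_le.2 hnk
        linarith
      nlinarith
    calc ENNReal.ofReal l * volume E
        ≤ ENNReal.ofReal l * volume (⋃ n : ℕ, {x ∈ E | l * (δ x + 1 / ((n : ℝ) + 1)) < δ x}) :=
          mul_le_mul_right (measure_mono hU) _
      _ = ENNReal.ofReal l * ⨆ n : ℕ, volume {x ∈ E | l * (δ x + 1 / ((n : ℝ) + 1)) < δ x} := by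
          rw [hmono.measure_iUnion]
      _ = ⨆ n : ℕ, ENNReal.ofReal l * volume {x ∈ E | l * (δ x + 1 / ((n : ℝ) + 1)) < δ x} :=
          ENNReal.mul_iSup _ _
      _ ≤ ENNReal.ofReal (C * s) := iSup_le fun n => step l hl _ (by positivity)
  -- let `l → 1`
  have hlim : Tendsto (fun l : ℝ => ENNReal.ofReal l * volume E) (𝓝[<] 1)
      (𝓝 (ENNReal.ofReal 1 * volume E)) := by
    refine ENNReal.Tendsto.mul_const ?_ (Or.inl (by simp))
    exact (ENNReal.tendsto_ofReal tendsto_id).mono_left nhdsWithin_le_nhds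
  have := le_of_tendsto hlim (b := ENNReal.ofReal (C * s)) (by
    have : Ioo (0 : ℝ) 1 ∈ 𝓝[<] (1 : ℝ) := Ioo_mem_nhdsLT one_pos
    filter_upwards [this] with l hl using step2 l hl.1 hl.2)
  simpa using this

end Pool.Agent.R250.CI
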