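import Pool.Agent.R250.CIb

/-!
# Disjoint centred intervals and the weak type constant: the best constant is attained
-/

namespace Pool.Agent.R250.CI

open MeasureTheory Set Filter Topology
open scoped ENNReal

/-- An admissible constant gives a weak type inequality. -/
lemma weakType_of_admissible {c : ℝ} (hc : 0 < c) (h : Admissible c) : WeakType c⁻¹ := by
  intro f hf t ht
  set A : Set ℝ := {x | ENNReal.ofReal t < maxFn f x} with hA
  have hopen : IsOpen A := isOpen_superlevel hf ht
  set μ : Measure ℝ := volume.withDensity (fun y => ENNReal.ofReal |f y|) with hμ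
  have hI : ∀ s : Set ℝ, MeasurableSet s → μ s = ENNReal.ofReal (∫ y in s, |f y|) := by
    intro s hs
    rw [hμ, withDensity_apply _ hs, ofReal_integral_eq_lintegral_ofReal hf.abs.integrableOn]
    exact Eventually.of_forall fun y => abs_nonneg _
  have hcpt : ∀ K : Set ℝ, K ⊆ A → IsCompact K →
      ENNReal.ofReal t * volume K ≤ ENNReal.ofReal (c⁻¹ * ∫ y, |f y|) := by
    intro K hKA hK
    have hr : ∀ x ∈ K, ∃ r : ℝ, 0 < r ∧ t * (2 * r) < ∫ y in (x - r)..(x + r), |f y| := by
      intro x hx
      exact (lt_maxFn_iff ht).1 (hKA hx)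
    choose! δ hδ hδ2 using hr
    obtain ⟨S, hSK, hSc, hSd, hS⟩ := h K hK δ hδ
    have h1 : ∀ x : S, ENNReal.ofReal t * volume (Icen δ x) ≤ μ (Icen δ x) := by
      intro x
      have hx := hSK x.2
      have hp := hδ x hx
      rw [hI _ (show MeasurableSet (Icen δ x) from measurableSet_Ioo), Icen, Real.volume_Ioo,
        ← ENNReal.ofReal_mul ht.le]
      apply ENNReal.ofReal_le_ofReal
      have h2 := hδ2 x hx
      rw [intervalIntegral.integral_of_le (by linarith), integral_Ioc_eq_integral_Ioo] at h2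
      have e1 : (x : ℝ) + δ x - (x - δ x) = 2 * δ x := by ring
      rw [e1]
      exact h2.le
    have h2 : ENNReal.ofReal t * (ENNReal.ofReal c * volume K) ≤
        ENNReal.ofReal (∫ y, |f y|) := by
      calc ENNReal.ofReal t * (ENNReal.ofReal c * volume K)
          ≤ ENNReal.ofReal t * ∑' x : S, volume (Icen δ x) := mul_le_mul_right hS _
        _ = ∑' x : S, ENNReal.ofReal t * volume (Icen δ x) := ENNReal.tsum_mul_left.symm
        _ ≤ ∑' x : S, μ (Icen δ x) := ENNReal.tsum_le_tsum h1
        _ = μ (⋃ x ∈ S, Icen δ x) :=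
            (measure_biUnion hSc hSd fun _ _ => measurableSet_Ioo).symm
        _ ≤ μ univ := measure_mono (subset_univ _)
        _ = ENNReal.ofReal (∫ y, |f y|) := by rw [hI _ MeasurableSet.univ, setIntegral_univ]
    rw [ENNReal.ofReal_mul (inv_nonneg.2 hc.le)]
    calc ENNReal.ofReal t * volume K
        = ENNReal.ofReal c⁻¹ * (ENNReal.ofReal t * (ENNReal.ofReal c * volume K)) := by
          rw [mul_left_comm (ENNReal.ofReal t), ← mul_assoc, ← ENNReal.ofReal_mul
            (inv_nonneg.2 hc.le), inv_mul_cancel₀ hc.ne', ENNReal.ofReal_one, one_mul]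
      _ ≤ ENNReal.ofReal c⁻¹ * ENNReal.ofReal (∫ y, |f y|) := mul_le_mul_right h2 _
  rw [hopen.measure_eq_iSup_isCompact, ENNReal.mul_iSup]
  refine iSup_le fun K => ?_
  rw [ENNReal.mul_iSup]
  refine iSup_le fun hKA => ?_
  rw [ENNReal.mul_iSup]
  exact iSup_le fun hK => hcpt K hKA hK

/-- By the Vitali covering lemma, `1 / 4` is admissible. -/
lemma admissible_quarter : Admissible (1 / 4) := by
  intro E hE δ hδ
  -- a finite subcover
  obtain ⟨F, hFE, hF⟩ := hE.elim_finite_subcover_image (b := E) (c := Icen δ)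
    (fun x _ => isOpen_Ioo) (fun x hx => by
      have := hδ x hx
      exact Set.mem_biUnion hx ⟨by linarith, by linarith⟩)
  obtain ⟨hFf, hcov⟩ := hF
  obtain ⟨R, hR⟩ : ∃ R : ℝ, ∀ a ∈ F, δ a ≤ R := by
    obtain ⟨R, hR⟩ := (hFf.image δ).bddAbove
    exact ⟨R, fun a ha => hR (Set.mem_image_of_mem _ ha)⟩
  obtain ⟨u, huF, hud, hu⟩ := Vitali.exists_disjoint_subfamily_covering_enlargement_closedBall
    F (fun x : ℝ => x) δ R hR 4 (by norm_num)
  have hfin : u.Finite := hFf.subset huF
  refine ⟨u, huF.trans hFE, hfin.countable, ?_, ?_⟩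
  · intro a ha b hb hab
    refine (hud ha hb hab).mono ?_ ?_ <;>
    · intro y hy
      simp only [Real.closedBall_eq_Icc]
      exact Ioo_subset_Icc_self hy
  · have hsub : E ⊆ ⋃ b ∈ u, Metric.closedBall b (4 * δ b) := by
      intro x hx
      obtain ⟨a, ha, hxa⟩ := Set.mem_iUnion₂.1 (hcov hx)
      obtain ⟨b, hb, hab⟩ := hu a ha
      refine Set.mem_biUnion hb (hab ?_)
      rw [Real.closedBall_eq_Icc]
      exact Ioo_subset_Icc_self hxa
    have h1 : volume E ≤ ∑' b : u, volume (Metric.closedBall (b : ℝ) (4 * δ b)) :=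
      (measure_mono hsub).trans (measure_biUnion_le _ hfin.countable _)
    have h2 : ∀ b : u, volume (Metric.closedBall (b : ℝ) (4 * δ b)) =
        ENNReal.ofReal 4 * volume (Icen δ b) := by
      intro b
      rw [Real.volume_closedBall, Icen, Real.volume_Ioo, ← ENNReal.ofReal_mul (by norm_num)]
      congr 1
      ring
    simp only [h2, ENNReal.tsum_mul_left] at h1
    calc ENNReal.ofReal (1 / 4) * volume E
        ≤ ENNReal.ofReal (1 / 4) * (ENNReal.ofReal 4 * ∑' b : u, volume (Icen δ b)) :=
          mul_le_mul_right h1 _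
      _ = ∑' b : u, volume (Icen δ b) := by
          rw [← mul_assoc, ← ENNReal.ofReal_mul (by norm_num)]
          norm_num

lemma weakType_four : WeakType 4 := by
  have := weakType_of_admissible (by norm_num) admissible_quarter
  norm_num at this
  exact this

/-- Every constant in the weak type inequality is at least `1 / 2`. -/
lemma half_le_of_weakType {C : ℝ} (h : WeakType C) : 1 / 2 ≤ C := by
  set f : ℝ → ℝ := (Icc (0 : ℝ) 1).indicator (fun _ => 1) with hf
  have hfi : Integrable f :=
    (integrable_indicator_iff measurableSet_Icc).2 (by simp [integrableOn_const_iff])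
  have habs : (fun y => |f y|) = f := by
    funext y
    refine abs_of_nonneg ?_
    rw [hf]
    exact Set.indicator_nonneg (fun _ _ => zero_le_one) _
  have key := h f hfi (1 / 2) (by norm_num)
  rw [habs] at key
  have hint : ∫ y, f y = 1 := by
    rw [hf, integral_indicator measurableSet_Icc]
    simp
  rw [hint, mul_one] at key
  have hsub : Ioo (0 : ℝ) 1 ⊆ {x | ENNReal.ofReal (1 / 2) < maxFn f x} := by
    intro x hx
    rw [Set.mem_ofPred_eq, lt_maxFn_iff (by norm_num), habs]
    have hp : 0 < min x (1 - x) := lt_min hx.1 (by linarith [hx.2])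
    refine ⟨min x (1 - x), hp, ?_⟩
    have hle : x - min x (1 - x) ≤ x + min x (1 - x) := by linarith
    have : ∫ y in (x - min x (1 - x))..(x + min x (1 - x)), f y =
        ∫ y in (x - min x (1 - x))..(x + min x (1 - x)), (1 : ℝ) := by
      refine intervalIntegral.integral_congr fun y hy => ?_
      rw [uIcc_of_le hle] at hy
      have h1 := min_le_left x (1 - x)
      have h2 := min_le_right x (1 - x)
      rw [hf]
      exact Set.indicator_of_mem (show y ∈ Icc (0 : ℝ) 1 from
        ⟨by linarith [hy.1], by linarith [hy.2]⟩) _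
    rw [this]
    simp only [intervalIntegral.integral_const, smul_eq_mul, mul_one]
    linarith
  have hvol : (1 : ℝ≥0∞) ≤ volume {x | ENNReal.ofReal (1 / 2) < maxFn f x} := by
    calc (1 : ℝ≥0∞) = volume (Ioo (0 : ℝ) 1) := by simp
      _ ≤ _ := measure_mono hsub
  have h3 : ENNReal.ofReal (1 / 2) ≤ ENNReal.ofReal C := by
    calc ENNReal.ofReal (1 / 2) = ENNReal.ofReal (1 / 2) * 1 := (mul_one _).symm
      _ ≤ _ := mul_le_mul_right hvol _
      _ ≤ _ := key
  exact (ENNReal.ofReal_le_ofReal_iff' ).1 h3 |>.resolve_right (by norm_num)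

lemma bddBelow_weak : BddBelow {C : ℝ | WeakType C} := ⟨1 / 2, fun _ h => half_le_of_weakType h⟩

lemma nonempty_weak : {C : ℝ | WeakType C}.Nonempty := ⟨4, weakType_four⟩

lemma half_le_weakConst : 1 / 2 ≤ weakConst :=
  le_csInf nonempty_weak fun _ h => half_le_of_weakType h

/-- The best constant is attained. -/
lemma weakType_weakConst : WeakType weakConst := by
  intro f hf t ht
  by_contra hlt
  push Not at hlt
  have hI : 0 ≤ ∫ y, |f y| := integral_nonneg fun y => abs_nonneg _
  -- choose `C` slightly larger than `weakConst`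
  have hcont : Tendsto (fun C : ℝ => ENNReal.ofReal (C * ∫ y, |f y|)) (𝓝[>] weakConst)
      (𝓝 (ENNReal.ofReal (weakConst * ∫ y, |f y|))) := by
    refine (ENNReal.tendsto_ofReal ?_).mono_left nhdsWithin_le_nhds
    exact (continuous_id.mul continuous_const).tendsto _
  have hev := hcont.eventually_lt_const hlt
  obtain ⟨C, hC1, hC2⟩ := (hev.and self_mem_nhdsWithin).exists
  obtain ⟨C', hC', hC'C⟩ := exists_lt_of_csInf_lt nonempty_weak (show sInf {C : ℝ | WeakType C} < C
    from hC2)
  have h1 := hC' f hf t ht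
  have h2 : ENNReal.ofReal (C' * ∫ y, |f y|) ≤ ENNReal.ofReal (C * ∫ y, |f y|) :=
    ENNReal.ofReal_le_ofReal (mul_le_mul_of_nonneg_right hC'C.le hI)
  exact absurd (lt_of_le_of_lt (h1.trans h2) hC1) (lt_irrefl _)

end Pool.Agent.R250.CI
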