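import Pool.Agent.R250.CIc

/-!
# Disjoint centred intervals and the weak type constant: strictness and the conclusion
-/

namespace Pool.Agent.R250.CI

open MeasureTheory Set Filter Topology
open scoped ENNReal

/-- A nearly extremal configuration for the weak type inequality, in terms of a monotone function. -/
lemma exists_near {C' : ℝ} (h : C' < weakConst) :
    ∃ (K : Set ℝ) (r : ℝ → ℝ) (H : ℝ → ℝ) (S : ℝ), 0 < S ∧ IsCompact K ∧ K.Nonempty ∧ Monotone H ∧
      (∀ y, 0 ≤ H y) ∧ (∀ y, H y ≤ S) ∧ (∀ x ∈ K, 0 < r x) ∧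
      (∀ x ∈ K, 2 * r x ≤ H (x + r x) - H (x - r x)) ∧
      ENNReal.ofReal (C' * S) ≤ volume K ∧
      ∃ R : ℝ, 0 ≤ R ∧ S / 2 ≤ H R - H (-R) := by
  have hn : ¬ WeakType C' := fun hw => absurd (csInf_le bddBelow_weak hw) (not_le.2 h)
  unfold WeakType at hn
  push Not at hn
  obtain ⟨f, hf, t, ht, hlt⟩ := hn
  set A : Set ℝ := {x | ENNReal.ofReal t < maxFn f x} with hA
  have hopen : IsOpen A := isOpen_superlevel hf ht
  have hI0 : 0 ≤ ∫ y, |f y| := integral_nonneg fun y => abs_nonneg _
  obtain ⟨K, hKA, hK, hKlt⟩ : ∃ K, K ⊆ A ∧ IsCompact K ∧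
      ENNReal.ofReal (C' * ∫ y, |f y|) < ENNReal.ofReal t * volume K := by
    rw [hopen.measure_eq_iSup_isCompact, ENNReal.mul_iSup] at hlt
    obtain ⟨K, hK⟩ := lt_iSup_iff.1 hlt
    rw [ENNReal.mul_iSup] at hK
    obtain ⟨hKA, hK⟩ := lt_iSup_iff.1 hK
    rw [ENNReal.mul_iSup] at hK
    obtain ⟨hKc, hK⟩ := lt_iSup_iff.1 hK
    exact ⟨K, hKA, hKc, hK⟩
  have hKne : K.Nonempty := by
    rw [Set.nonempty_iff_ne_empty]
    rintro rfl
    simp at hKlt
  have hr : ∀ x ∈ K, ∃ r : ℝ, 0 < r ∧ t * (2 * r) < ∫ y in (x - r)..(x + r), |f y| := by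
    intro x hx
    exact (lt_maxFn_iff ht).1 (hKA hx)
  choose! r hr0 hr1 using hr
  have hii : ∀ a b : ℝ, IntervalIntegrable (fun y => |f y|) volume a b := fun a b =>
    hf.abs.intervalIntegrable
  set H : ℝ → ℝ := fun y => t⁻¹ * ∫ z in Iic y, |f z| with hH
  have hsubH : ∀ a b : ℝ, H b - H a = t⁻¹ * ∫ z in a..b, |f z| := by
    intro a b
    rw [hH]
    simp only
    rw [← mul_sub, intervalIntegral.integral_Iic_sub_Iic hf.abs.integrableOn hf.abs.integrableOn]
  have hmono : Monotone H := by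
    intro a b hab
    have : 0 ≤ H b - H a := by
      rw [hsubH]
      exact mul_nonneg (inv_nonneg.2 ht.le)
        (intervalIntegral.integral_nonneg hab fun _ _ => abs_nonneg _)
    linarith
  have hIpos : 0 < ∫ y, |f y| := by
    obtain ⟨x, hx⟩ := hKne
    have h1 := hr1 x hx
    have h2 := hr0 x hx
    have h3 : ∫ y in (x - r x)..(x + r x), |f y| ≤ ∫ y, |f y| := by
      rw [intervalIntegral.integral_of_le (by linarith)]
      exact setIntegral_le_integral hf.abs (Eventually.of_forall fun y => abs_nonneg _)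
    have : 0 < t * (2 * r x) := by positivity
    linarith
  refine ⟨K, r, H, t⁻¹ * ∫ y, |f y|, mul_pos (inv_pos.2 ht) hIpos, hK, hKne, hmono, ?_, ?_, hr0,
    ?_, ?_, ?_⟩
  · intro y
    exact mul_nonneg (inv_nonneg.2 ht.le) (integral_nonneg fun _ => abs_nonneg _)
  · intro y
    exact mul_le_mul_of_nonneg_left (setIntegral_le_integral hf.abs
      (Eventually.of_forall fun y => abs_nonneg _)) (inv_nonneg.2 ht.le)
  · intro x hx
    rw [hsubH]
    have h1 := hr1 x hx
    rw [inv_mul_eq_div, le_div_iff₀ ht]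
    linarith
  · have h1 : ENNReal.ofReal (C' * (t⁻¹ * ∫ y, |f y|)) =
        ENNReal.ofReal t⁻¹ * ENNReal.ofReal (C' * ∫ y, |f y|) := by
      rw [← ENNReal.ofReal_mul (inv_nonneg.2 ht.le)]
      congr 1
      ring
    rw [h1]
    calc ENNReal.ofReal t⁻¹ * ENNReal.ofReal (C' * ∫ y, |f y|)
        ≤ ENNReal.ofReal t⁻¹ * (ENNReal.ofReal t * volume K) := mul_le_mul_right hKlt.le _
      _ = volume K := by
          rw [← mul_assoc, ← ENNReal.ofReal_mul (inv_nonneg.2 ht.le), inv_mul_cancel₀ ht.ne',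
            ENNReal.ofReal_one, one_mul]
  · have hb : Tendsto (fun n : ℕ => (n : ℝ)) atTop atTop := tendsto_natCast_atTop_atTop
    have ha : Tendsto (fun n : ℕ => -(n : ℝ)) atTop atBot := tendsto_neg_atTop_atBot.comp hb
    have hlim := intervalIntegral_tendsto_integral hf.abs ha hb
    have hlt : (∫ y, |f y|) / 2 < ∫ y, |f y| := by linarith
    obtain ⟨n, hn⟩ := (hlim.eventually_const_lt hlt).exists
    refine ⟨n, Nat.cast_nonneg n, ?_⟩
    rw [hsubH]
    have : 0 < t⁻¹ := inv_pos.2 ht
    calc t⁻¹ * (∫ y, |f y|) / 2 = t⁻¹ * ((∫ y, |f y|) / 2) := by ring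
      _ ≤ _ := mul_le_mul_of_nonneg_left hn.le this.le

/-- Strictness: the weak type inequality is never an equality for a nonempty compact set. -/
lemma measure_lt {g : ℝ → ℝ} (hg : Monotone g) {s : ℝ}
    (h1 : ∀ t, 0 ≤ g t) (h2 : ∀ t, g t ≤ s) {E : Set ℝ} (hE : IsCompact E) (hne : E.Nonempty)
    {δ : ℝ → ℝ} (hδ : ∀ x ∈ E, 0 < δ x) (h : ∀ x ∈ E, 2 * δ x ≤ g (x + δ x) - g (x - δ x)) :
    volume E < ENNReal.ofReal (weakConst * s) := by
  by_contra hcon
  push Not at hcon
  have hC := half_le_weakConst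
  obtain ⟨K, r, H, S, hS, hK, hKne, hHm, hH0, hHS, hr0, hr1, hKvol, R, hR0, hR⟩ :=
    exists_near (C' := weakConst - 1 / 8) (by linarith)
  have hs0 : 0 ≤ s := (h1 0).trans (h2 0)
  -- the right end of `E` and the left end of `K`
  set b := sSup E with hb
  have hbE : b ∈ E := hE.sSup_mem hne
  have hbmax : ∀ x ∈ E, x ≤ b := fun x hx => le_csSup hE.bddAbove hx
  set a := sInf K with ha
  have hamin : ∀ x ∈ K, a ≤ x := fun x hx => csInf_le hK.bddBelow hx
  set d := δ b with hd
  have hd0 : 0 < d := hδ b hbE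
  set ρ := d / (R + |a| + S) with hρ
  have hden : 0 < R + |a| + S := by positivity
  have hρ0 : 0 < ρ := div_pos hd0 hden
  have hρd : d = ρ * (R + |a| + S) := by
    rw [hρ]
    field_simp
  set ε := ρ * S with hε
  have hε0 : 0 < ε := mul_pos hρ0 hS
  set τ := b + ε / 4 - ρ * a with hτ
  set g2 : ℝ → ℝ := fun y => g y + ρ * H ((y - τ) / ρ) with hg2
  have hg2m : Monotone g2 := by
    intro x y hxy
    have e1 : (x - τ) / ρ ≤ (y - τ) / ρ := div_le_div_of_nonneg_right (by linarith) hρ0.le
    exact add_le_add (hg hxy) (mul_le_mul_of_nonneg_left (hHm e1) hρ0.le)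
  set K2 : Set ℝ := (fun y => ρ * y + τ) '' K with hK2
  set J : Set ℝ := Ioo b (b + ε / 4) with hJ
  set δ2 : ℝ → ℝ := fun x => if x ≤ b then δ x else if x < b + ε / 4 then d + (x - b) else
    ρ * r ((x - τ) / ρ) with hδ2
  have hK2ge : ∀ x ∈ K2, b + ε / 4 ≤ x := by
    rintro x ⟨y, hy, rfl⟩
    have := mul_le_mul_of_nonneg_left (hamin y hy) hρ0.le
    simp only [hτ]
    linarith
  have hδE : ∀ x ∈ E, δ2 x = δ x := by
    intro x hx
    simp only [hδ2, if_pos (hbmax x hx)]
  have hδJ : ∀ x ∈ J, δ2 x = d + (x - b) := by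
    intro x hx
    simp only [hδ2, if_neg (not_le.2 hx.1), if_pos hx.2]
  have hδK : ∀ x ∈ K2, δ2 x = ρ * r ((x - τ) / ρ) := by
    intro x hx
    have := hK2ge x hx
    have h3 : ¬ x ≤ b := by linarith
    have h4 : ¬ x < b + ε / 4 := by linarith
    simp only [hδ2, if_neg h3, if_neg h4]
  have hinv : ∀ y : ℝ, (ρ * y + τ - τ) / ρ = y := by
    intro y
    field_simp
    ring
  have hpos : ∀ x ∈ E ∪ J ∪ K2, 0 < δ2 x := by
    rintro x ((hx | hx) | hx)
    · rw [hδE x hx]
      exact hδ x hx
    · rw [hδJ x hx]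
      linarith [hx.1]
    · rw [hδK x hx]
      obtain ⟨y, hy, rfl⟩ := hx
      simp only [hinv]
      exact mul_pos hρ0 (hr0 y hy)
  have hinc : ∀ x ∈ E ∪ J ∪ K2, 2 * δ2 x ≤ g2 (x + δ2 x) - g2 (x - δ2 x) := by
    have hHinc : ∀ u v : ℝ, u ≤ v → 0 ≤ ρ * H ((v - τ) / ρ) - ρ * H ((u - τ) / ρ) := by
      intro u v huv
      have e1 : (u - τ) / ρ ≤ (v - τ) / ρ := div_le_div_of_nonneg_right (by linarith) hρ0.le
      have := mul_le_mul_of_nonneg_left (hHm e1) hρ0.le
      linarith
    rintro x ((hx | hx) | hx)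
    · rw [hδE x hx]
      have h3 := h x hx
      have h4 := hδ x hx
      have h5 := hHinc (x - δ x) (x + δ x) (by linarith)
      simp only [hg2]
      linarith
    · rw [hδJ x hx]
      have hx1 := hx.1
      have hx2 := hx.2
      have e1 : x - (d + (x - b)) = b - d := by ring
      have e2 : x + (d + (x - b)) = b + d + 2 * (x - b) := by ring
      rw [e1, e2]
      have h3 : 2 * d ≤ g (b + d) - g (b - d) := h b hbE
      have h4 : g (b + d) ≤ g (b + d + 2 * (x - b)) := hg (by linarith)
      have h5 : R ≤ (b + d + 2 * (x - b) - τ) / ρ := by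
        rw [le_div_iff₀ hρ0]
        have e3 : ρ * a ≥ - (ρ * |a|) := by
          have := neg_abs_le a
          nlinarith
        have e4 : d = ρ * R + ρ * |a| + ε := by rw [hρd, hε]; ring
        simp only [hτ]
        nlinarith
      have h6 : (b - d - τ) / ρ ≤ -R := by
        rw [div_le_iff₀ hρ0]
        have e3 : ρ * a ≤ ρ * |a| := mul_le_mul_of_nonneg_left (le_abs_self a) hρ0.le
        have e4 : d = ρ * R + ρ * |a| + ε := by rw [hρd, hε]; ring
        simp only [hτ]
        nlinarith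
      have h7 := hHm h5
      have h8 := hHm h6
      have h9 : ρ * (S / 2) ≤ ρ * (H ((b + d + 2 * (x - b) - τ) / ρ) - H ((b - d - τ) / ρ)) :=
        mul_le_mul_of_nonneg_left (by linarith) hρ0.le
      have h10 : ρ * (S / 2) = ε / 2 := by rw [hε]; ring
      simp only [hg2]
      rw [mul_sub] at h9
      linarith
    · rw [hδK x hx]
      obtain ⟨y, hy, rfl⟩ := hx
      simp only [hinv, hg2]
      have h3 := mul_le_mul_of_nonneg_left (hr1 y hy) hρ0.le
      have h4 := hr0 y hy
      have e1 : (ρ * y + τ + ρ * r y - τ) / ρ = y + r y := by field_simp; ring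
      have e2 : (ρ * y + τ - ρ * r y - τ) / ρ = y - r y := by field_simp; ring
      rw [e1, e2]
      have h5 : g (ρ * y + τ - ρ * r y) ≤ g (ρ * y + τ + ρ * r y) := hg (by nlinarith)
      rw [mul_sub] at h3
      linarith
  -- apply the weak type inequality
  have hup := measure_le weakType_weakConst hg2m (m := 0) (s := s + ε)
    (fun y => add_nonneg (h1 y) (mul_nonneg hρ0.le (hH0 _)))
    (fun y => by
      have := mul_le_mul_of_nonneg_left (hHS ((y - τ) / ρ)) hρ0.le
      have := h2 y
      simp only [hg2, hε]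
      linarith) hpos hinc (by linarith)
  -- the measure of the union
  have hJm : MeasurableSet J := measurableSet_Ioo
  have hK2m : MeasurableSet K2 := by
    have : IsCompact K2 := hK.image (by fun_prop)
    exact this.measurableSet
  have hd1 : Disjoint E J := by
    rw [Set.disjoint_left]
    intro x hx hxJ
    exact absurd hxJ.1 (not_lt.2 (hbmax x hx))
  have hd2 : Disjoint (E ∪ J) K2 := by
    rw [Set.disjoint_left]
    rintro x (hx | hx) hxK
    · have := hK2ge x hxK
      have := hbmax x hx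
      linarith
    · have := hK2ge x hxK
      exact absurd hx.2 (not_lt.2 this)
  have hvolJ : volume J = ENNReal.ofReal (ε / 4) := by
    rw [hJ, Real.volume_Ioo]
    congr 1
    ring
  have hvolK : volume K2 = ENNReal.ofReal ρ * volume K := by
    have e1 : K2 = (fun y => y + τ) '' ((fun y => ρ • y) '' K) := by
      rw [hK2, Set.image_image]
      rfl
    have e2 : volume ((fun y => y + τ) '' ((fun y => ρ • y) '' K)) =
        volume ((fun y => ρ • y) '' K) := by
      have := measure_preimage_add_right (volume : Measure ℝ) (-τ) ((fun y => ρ • y) '' K)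
      rw [← this]
      congr 1
      ext z
      simp only [Set.mem_image, Set.mem_preimage]
      constructor
      · rintro ⟨w, ⟨y, hy, rfl⟩, rfl⟩
        exact ⟨y, hy, by ring⟩
      · rintro ⟨y, hy, hyz⟩
        exact ⟨ρ • y, ⟨y, hy, rfl⟩, by rw [hyz]; ring⟩
    rw [e1, e2]
    have e3 := Measure.addHaar_smul (volume : Measure ℝ) ρ K
    simp only [Module.finrank_self, pow_one, abs_of_pos hρ0] at e3
    exact e3
  have hlow : volume (E ∪ J ∪ K2) = volume E + ENNReal.ofReal (ε / 4) +
      ENNReal.ofReal ρ * volume K := by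
    rw [measure_union hd2 hK2m, measure_union hd1 hJm, hvolJ, hvolK]
  rw [hlow] at hup
  have hfin : ENNReal.ofReal (weakConst * s) + ENNReal.ofReal (ε / 4) +
      ENNReal.ofReal ρ * ENNReal.ofReal ((weakConst - 1 / 8) * S) ≤
      ENNReal.ofReal (weakConst * (s + ε)) := by
    refine le_trans ?_ hup
    exact add_le_add (add_le_add hcon le_rfl) (mul_le_mul_right hKvol _)
  rw [← ENNReal.ofReal_mul hρ0.le, ← ENNReal.ofReal_add (by positivity) (by positivity),
    ← ENNReal.ofReal_add (by positivity) (by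
      have : 0 ≤ weakConst - 1 / 8 := by linarith
      positivity), ENNReal.ofReal_le_ofReal_iff (by positivity)] at hfin
  have e5 : ρ * ((weakConst - 1 / 8) * S) = weakConst * ε - ε / 8 := by rw [hε]; ring
  rw [e5] at hfin
  nlinarith

/-- The value of a finite family. -/
lemma admissible_of_le {c : ℝ} (hc : c ≤ 1 / weakConst) : Admissible c := by
  intro E hE δ hδ
  have hC := half_le_weakConst
  have hC0 : 0 < weakConst := by linarith
  rcases E.eq_empty_or_nonempty with rfl | hne
  · exact ⟨∅, Set.empty_subset _, Set.countable_empty, Set.pairwiseDisjoint_empty, by simp⟩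
  by_contra hcon
  have hfinE : volume E ≠ ∞ := hE.measure_lt_top.ne
  -- `s = |E| / C`
  set s := (1 / weakConst) * (volume E).toReal with hs
  have hs0 : 0 ≤ s := by positivity
  have hval : ∀ F : Finset ℝ, (F : Set ℝ) ⊆ E → (F : Set ℝ).PairwiseDisjoint (Icen δ) →
      ∑ x ∈ F, 2 * δ x ≤ s := by
    intro F hFE hFd
    by_contra hlt
    push Not at hlt
    refine hcon ⟨F, hFE, F.countable_toSet, hFd, ?_⟩
    have e1 : ∑' x : (F : Set ℝ), volume (Icen δ x) = ∑ x ∈ F, volume (Icen δ x) := by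
      exact Finset.tsum_subtype' F fun x => volume (Icen δ x)
    have e2 : ∑ x ∈ F, volume (Icen δ x) = ENNReal.ofReal (∑ x ∈ F, 2 * δ x) := by
      rw [ENNReal.ofReal_sum_of_nonneg]
      · refine Finset.sum_congr rfl fun x _ => ?_
        rw [Icen, Real.volume_Ioo]
        congr 1
        ring
      · intro x hx
        have := hδ x (hFE hx)
        linarith
    rw [e1, e2]
    calc ENNReal.ofReal c * volume E
        ≤ ENNReal.ofReal (1 / weakConst) * volume E :=
          mul_le_mul_left (ENNReal.ofReal_le_ofReal hc) _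
      _ = ENNReal.ofReal (1 / weakConst) * ENNReal.ofReal (volume E).toReal := by
          rw [ENNReal.ofReal_toReal hfinE]
      _ = ENNReal.ofReal s := by rw [← ENNReal.ofReal_mul (by positivity)]
      _ ≤ _ := ENNReal.ofReal_le_ofReal hlt.le
  -- the potential
  set V : ℝ → Set ℝ := fun t => {v | ∃ F : Finset ℝ, (F : Set ℝ) ⊆ E ∧
    (F : Set ℝ).PairwiseDisjoint (Icen δ) ∧ (∀ x ∈ F, x + δ x ≤ t) ∧ v = ∑ x ∈ F, 2 * δ x} with hV
  have hVne : ∀ t, (V t).Nonempty := fun t => ⟨0, ∅, by simp, by simp, by simp, by simp⟩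
  have hVbd : ∀ t, BddAbove (V t) := by
    intro t
    refine ⟨s, ?_⟩
    rintro v ⟨F, hFE, hFd, -, rfl⟩
    exact hval F hFE hFd
  set g : ℝ → ℝ := fun t => sSup (V t) with hg
  have hgm : Monotone g := by
    intro t u htu
    refine csSup_le_csSup (hVbd u) (hVne t) ?_
    rintro v ⟨F, hFE, hFd, hFt, rfl⟩
    exact ⟨F, hFE, hFd, fun x hx => (hFt x hx).trans htu, rfl⟩
  have hg0 : ∀ t, 0 ≤ g t := fun t => le_csSup (hVbd t) ⟨∅, by simp, by simp, by simp, by simp⟩
  have hgs : ∀ t, g t ≤ s := by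
    intro t
    refine csSup_le (hVne t) ?_
    rintro v ⟨F, hFE, hFd, -, rfl⟩
    exact hval F hFE hFd
  have hinc : ∀ x ∈ E, 2 * δ x ≤ g (x + δ x) - g (x - δ x) := by
    intro x hx
    have hdx := hδ x hx
    have : g (x - δ x) ≤ g (x + δ x) - 2 * δ x := by
      refine csSup_le (hVne _) ?_
      rintro v ⟨F, hFE, hFd, hFt, rfl⟩
      have hxF : x ∉ F := fun hxF => by
        have := hFt x hxF
        linarith
      have : ∑ y ∈ insert x F, 2 * δ y ≤ g (x + δ x) := by
        refine le_csSup (hVbd _) ⟨insert x F, ?_, ?_, ?_, rfl⟩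
        · rw [Finset.coe_insert]
          exact Set.insert_subset hx hFE
        · rw [Finset.coe_insert, Set.pairwiseDisjoint_insert]
          refine ⟨hFd, fun y hy hxy => ?_⟩
          rw [Set.disjoint_left]
          intro z hz1 hz2
          have h3 := hFt y hy
          have h4 := hz1.1
          have h5 := hz2.2
          linarith
        · intro y hy
          rcases Finset.mem_insert.1 hy with rfl | hy
          · exact le_rfl
          · have := hFt y hy
            linarith
      rw [Finset.sum_insert hxF] at this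
      linarith
    linarith
  have hlt := measure_lt hgm hg0 hgs hE hne hδ hinc
  have e3 : weakConst * s = (volume E).toReal := by
    rw [hs]
    field_simp
  rw [e3, ENNReal.ofReal_toReal hfinE] at hlt
  exact absurd hlt (lt_irrefl _)

lemma le_of_admissible {c : ℝ} (h : Admissible c) : c ≤ 1 / weakConst := by
  have hC := half_le_weakConst
  have hC0 : 0 < weakConst := by linarith
  rcases le_or_gt c 0 with hc | hc
  · exact hc.trans (by positivity)
  · have h1 : weakConst ≤ c⁻¹ := csInf_le bddBelow_weak (weakType_of_admissible hc h)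
    rw [le_div_iff₀ hC0]
    calc c * weakConst ≤ c * c⁻¹ := mul_le_mul_of_nonneg_left h1 hc.le
      _ = 1 := mul_inv_cancel₀ hc.ne'

end Pool.Agent.R250.CI
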