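import Mathlib

set_option autoImplicit false

/-! # A minimum principle for `cos α f' - i sin α f / z` -/

namespace Pool.Agent.R250.GN

open Complex Metric Set Filter Topology

/-- Pointwise algebra at a minimum. -/
theorem alg1 {p g P : ℂ} {c s a₀ : ℝ} (hcs : c ^ 2 + s ^ 2 = 1) {u v N : ℂ}
    (hu : u = c * p - I * s * g) (hv : v = s * p + I * c * g)
    (hN : N = c * (p * (P - 1)) - I * s * (p - g))
    (h1 : ((starRingEnd ℂ) u * N).im = 0) (h2 : ((starRingEnd ℂ) u * v).re = 0)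
    (h3 : ‖u‖ ≤ ‖v‖) (h4 : 0 < (p * (starRingEnd ℂ) g).re) (h5 : 0 < P.re) (h6 : a₀ ≤ P.re)
    (h7 : a₀ ≤ 1) : (a₀ - 1) * ‖u‖ ^ 2 ≤ ((starRingEnd ℂ) u * N).re := by
  have hcs' : (c : ℂ) ^ 2 + (s : ℂ) ^ 2 = 1 := by exact_mod_cast hcs
  obtain ⟨U, hU⟩ : ∃ U, U = ‖u‖ ^ 2 := ⟨_, rfl⟩
  obtain ⟨β, hβ⟩ : ∃ β, β = ((starRingEnd ℂ) u * v).im := ⟨_, rfl⟩
  obtain ⟨a, ha⟩ : ∃ a, a = P.re := ⟨_, rfl⟩
  obtain ⟨b, hb⟩ : ∃ b, b = P.im := ⟨_, rfl⟩
  have e1 : (starRingEnd ℂ) u * u = (U : ℂ) := by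
    rw [hU, Complex.conj_mul']
    push_cast
    rfl
  have e2 : (starRingEnd ℂ) u * v = I * β := by
    apply Complex.ext
    · rw [h2]; simp
    · rw [← hβ]; simp
  have e3 : (starRingEnd ℂ) u * N = -U + (c * U + s * (I * β)) * (c * P - s * I) := by
    have hp : p = c * u + s * v := by
      rw [hu, hv]
      linear_combination (-p) * hcs'
    have hN' : N = -u + (c * u + s * v) * (c * P - s * I) := by
      rw [← hp, hN, hu]
      ring
    rw [hN', ← e1, ← e2]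
    ring
  have hU0 : 0 ≤ U := by rw [hU]; positivity
  have hβ2 : β ^ 2 = U * ‖v‖ ^ 2 := by
    have h := congrArg norm e2
    rw [norm_mul, norm_mul, RCLike.norm_conj, Complex.norm_I, one_mul, Complex.norm_real,
      Real.norm_eq_abs] at h
    rw [← sq_abs, ← h, hU]
    ring
  have hβU : U ^ 2 ≤ β ^ 2 := by
    rw [hβ2, sq]
    apply mul_le_mul_of_nonneg_left _ hU0
    rw [hU]
    exact pow_le_pow_left₀ (norm_nonneg _) h3 2
  have hre : ((starRingEnd ℂ) u * N).re = -U + c ^ 2 * U * a - c * s * β * b + s ^ 2 * β := by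
    rw [e3, ha, hb]
    simp only [add_re, neg_re, mul_re, sub_re, ofReal_re, ofReal_im, add_im, mul_im, sub_im, I_re,
      I_im]
    ring
  have him : ((starRingEnd ℂ) u * N).im = c * (U * (c * b - s) + s * a * β) := by
    rw [e3, ha, hb]
    simp only [add_im, neg_im, mul_im, sub_im, ofReal_re, ofReal_im, add_re, mul_re, sub_re, I_re,
      I_im]
    ring
  rw [hre, ← hU]
  rcases hU0.lt_or_eq with hU1 | hU1
  · by_cases hc : c = 0
    · have hs : s ^ 2 = 1 := by rw [hc] at hcs; linarith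
      have hs' : (s : ℂ) ^ 2 = 1 := by exact_mod_cast hs
      have h8 : (starRingEnd ℂ) u * v = I * (p * (starRingEnd ℂ) g) := by
        rw [hu, hv, hc]
        simp only [ofReal_zero, zero_mul, zero_sub, map_neg, map_mul, conj_I, conj_ofReal, mul_zero,
          add_zero]
        linear_combination (I * p * (starRingEnd ℂ) g) * hs'
      have h9 : β = (p * (starRingEnd ℂ) g).re := by
        rw [hβ, h8]
        simp
      have h10 : U ≤ β := by
        rw [← h9] at h4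
        exact le_of_sq_le_sq hβU h4.le
      rw [hc, hs]
      nlinarith
    · have h8 : U * (c * b - s) + s * a * β = 0 := by
        rw [him] at h1
        rcases mul_eq_zero.1 h1 with h | h
        · exact absurd h hc
        · exact h
      have h9 : U * (-U + c ^ 2 * U * a - c * s * β * b + s ^ 2 * β) =
          -U ^ 2 + c ^ 2 * U ^ 2 * a + s ^ 2 * a * β ^ 2 := by
        linear_combination (-s * β) * h8
      have h10 : a₀ * U ^ 2 ≤ a * (c ^ 2 * U ^ 2 + s ^ 2 * β ^ 2) := by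
        have h11 : U ^ 2 ≤ c ^ 2 * U ^ 2 + s ^ 2 * β ^ 2 := by
          have h12 : s ^ 2 * U ^ 2 ≤ s ^ 2 * β ^ 2 := mul_le_mul_of_nonneg_left hβU (sq_nonneg s)
          have h13 : c ^ 2 * U ^ 2 + s ^ 2 * U ^ 2 = U ^ 2 := by rw [← add_mul, hcs, one_mul]
          linarith
        rw [← ha] at h5 h6
        calc a₀ * U ^ 2 ≤ a * U ^ 2 := mul_le_mul_of_nonneg_right h6 (sq_nonneg U)
          _ ≤ _ := mul_le_mul_of_nonneg_left h11 h5.le
      have h11 : U * ((a₀ - 1) * U) ≤ U * (-U + c ^ 2 * U * a - c * s * β * b + s ^ 2 * β) := by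
        rw [h9]
        linarith
      exact le_of_mul_le_mul_left h11 hU1
  · have hβ0 : β = 0 := by
      rw [← hU1, zero_mul] at hβ2
      exact pow_eq_zero_iff (two_ne_zero) |>.1 hβ2
    rw [← hU1, hβ0]
    simp

/-- Values of `(1 + A ω) / (1 + B ω)`. -/
theorem subord {A B r : ℝ} (hB : -1 ≤ B) (hBA : B < A) (hA : A ≤ 1) (hr1 : r < 1)
    {w : ℂ} (hw : ‖w‖ ≤ r) : (1 - A * r) / (1 - B * r) ≤ ((1 + A * w) / (1 + B * w)).re := by
  have hr0 : 0 ≤ r := (norm_nonneg w).trans hw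
  have hB1 : B < 1 := by linarith
  have hBr : 0 < 1 - B * r := by nlinarith
  obtain ⟨ρ, hρ⟩ : ∃ ρ, ρ = ‖w‖ := ⟨_, rfl⟩
  obtain ⟨x, hx⟩ : ∃ x, x = w.re := ⟨_, rfl⟩
  rw [← hρ] at hw
  have hρ0 : 0 ≤ ρ := hρ ▸ norm_nonneg w
  have hxρ : -ρ ≤ x ∧ x ≤ ρ := by
    have := abs_re_le_norm w
    rw [← hx, ← hρ, abs_le] at this
    exact this
  have hw2 : w.re ^ 2 + w.im ^ 2 = ρ ^ 2 := by
    rw [hρ, ← Complex.normSq_eq_norm_sq, Complex.normSq_apply]
    ring
  have hden : 0 < 1 + 2 * B * x + B ^ 2 * ρ ^ 2 := by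
    have h1 : |B * ρ| < 1 := by
      rw [abs_lt]
      constructor <;> nlinarith
    have h2 : (1 - |B * ρ|) ^ 2 ≤ 1 + 2 * B * x + B ^ 2 * ρ ^ 2 := by
      have h3 : -|B * ρ| ≤ B * x := by
        rw [abs_mul, abs_of_nonneg hρ0]
        rcases abs_cases B with ⟨h, h'⟩ | ⟨h, h'⟩ <;> rw [h] <;> nlinarith
      have h4 : |B * ρ| ^ 2 = B ^ 2 * ρ ^ 2 := by rw [sq_abs]; ring
      nlinarith
    have h5 : 0 < (1 - |B * ρ|) ^ 2 := by
      have : 0 < 1 - |B * ρ| := by linarith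
      positivity
    linarith
  have hns : Complex.normSq (1 + B * w) = 1 + 2 * B * x + B ^ 2 * ρ ^ 2 := by
    rw [Complex.normSq_apply]
    simp only [add_re, one_re, mul_re, ofReal_re, ofReal_im, add_im, one_im, mul_im]
    rw [← hw2, hx]
    ring
  have hre : ((1 + A * w) / (1 + B * w)).re = (1 + (A + B) * x + A * B * ρ ^ 2) /
      (1 + 2 * B * x + B ^ 2 * ρ ^ 2) := by
    rw [Complex.div_re, hns, ← add_div]
    congr 1
    simp only [add_re, one_re, mul_re, ofReal_re, ofReal_im, add_im, one_im, mul_im]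
    rw [← hw2, hx]
    ring
  rw [hre, div_le_div_iff₀ hBr hden]
  have key : (1 + (A + B) * x + A * B * ρ ^ 2) * (1 - B * r) -
      (1 - A * r) * (1 + 2 * B * x + B ^ 2 * ρ ^ 2) =
      (A - B) * ((x + r) + B * (ρ ^ 2 + r * x)) := by ring
  have h1 : 0 ≤ (x + r) + B * (ρ ^ 2 + r * x) := by
    rcases le_or_gt 0 (ρ ^ 2 + r * x) with h | h
    · have h2 : -(ρ ^ 2 + r * x) ≤ B * (ρ ^ 2 + r * x) := by nlinarith
      nlinarith [mul_nonneg (sub_nonneg.2 hw) (by linarith : (0 : ℝ) ≤ 1 + ρ),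
        mul_nonneg (by linarith [hxρ.1] : 0 ≤ x + ρ) (by linarith : 0 ≤ 1 - r)]
    · have h2 : (ρ ^ 2 + r * x) ≤ B * (ρ ^ 2 + r * x) := by nlinarith
      nlinarith [mul_nonneg (sub_nonneg.2 hw) (by linarith : (0 : ℝ) ≤ 1 - ρ),
        mul_nonneg (by linarith [hxρ.1] : 0 ≤ x + ρ) (by linarith : 0 ≤ 1 + r)]
  have h2 := mul_nonneg (by linarith : 0 ≤ A - B) h1
  linarith

/-- `cos α p - i sin α g`, `a = cos α + i sin α` -/
noncomputable def uu (p g : ℂ → ℂ) (a z : ℂ) : ℂ := (a.re : ℂ) * p z - I * (a.im : ℂ) * g z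

theorem uu_ne {p g : ℂ → ℂ} {a z : ℂ} (ha : a ≠ 0) (h : 0 < (p z * (starRingEnd ℂ) (g z)).re) :
    uu p g a z ≠ 0 := by
  intro h0
  have h1 : uu p g a z * (starRingEnd ℂ) (g z) = (a.re : ℂ) * (p z * (starRingEnd ℂ) (g z)) -
      I * ((a.im * ‖g z‖ ^ 2 : ℝ) : ℂ) := by
    unfold uu
    have := Complex.mul_conj' (g z)
    push_cast
    linear_combination (-I * a.im) * this
  rw [h0, zero_mul] at h1
  have h2 := congrArg Complex.re h1
  rw [zero_re, sub_re, Complex.re_ofReal_mul, Complex.re_mul_ofReal, I_re, zero_mul, sub_zero] at h2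
  have h3 : a.re = 0 := by
    rcases mul_eq_zero.1 h2.symm with h | h'
    · exact h
    · linarith
  have h4 : a.im ≠ 0 := by
    intro h4
    exact ha (Complex.ext h3 h4)
  have h5 : g z = 0 := by
    unfold uu at h0
    rw [h3, ofReal_zero, zero_mul, zero_sub, neg_eq_zero] at h0
    rcases mul_eq_zero.1 h0 with h | h'
    · rcases mul_eq_zero.1 h with h | h
      · exact absurd h I_ne_zero
      · exact absurd (by exact_mod_cast h) h4
    · exact h'
  rw [h5] at h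
  simp at h

theorem deriv_nonpos_of_min {φ : ℝ → ℝ} {φ' : ℝ} (h : HasDerivAt φ φ' 1)
    (hle : ∀ s ∈ Set.Icc (0 : ℝ) 1, φ 1 ≤ φ s) : φ' ≤ 0 := by
  have h1 := (hasDerivAt_iff_tendsto_slope.mp h).mono_left
    (nhdsWithin_mono 1 (show Set.Iio (1 : ℝ) ⊆ {1}ᶜ from fun x hx => ne_of_lt hx))
  refine le_of_tendsto h1 ?_
  have h2 : ∀ᶠ s in 𝓝[<] (1 : ℝ), s ∈ Set.Ioo (0 : ℝ) 1 :=
    Ioo_mem_nhdsLT zero_lt_one
  filter_upwards [h2] with s hs
  rw [slope_def_field]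
  apply div_nonpos_of_nonneg_of_nonpos
  · linarith [hle s ⟨hs.1.le, hs.2.le⟩]
  · linarith [hs.2]

theorem normSq_deriv {w : ℝ → ℂ} {w' : ℂ} {t : ℝ} (h : HasDerivAt w w' t) :
    HasDerivAt (fun t => ‖w t‖ ^ 2) (2 * ((starRingEnd ℂ) (w t) * w').re) t := by
  have h1 := h.norm_sq
  refine h1.congr_deriv ?_
  rw [Complex.inner]
  congr 1
  rw [mul_comm]

/-- The data of the problem: `p = f'`, `g = f / z`, `P = 1 + z f'' / f'`. -/
structure Dat (A B : ℝ) (p g P : ℂ → ℂ) (M : ℝ → ℝ) : Prop where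
  hB : -1 ≤ B
  hBA : B < A
  hA : A ≤ 1
  dp : DifferentiableOn ℂ p (ball 0 1)
  dg : DifferentiableOn ℂ g (ball 0 1)
  p0 : p 0 = 1
  g0 : g 0 = 1
  ep : ∀ z ∈ ball (0 : ℂ) 1, z * deriv p z = p z * (P z - 1)
  eg : ∀ z ∈ ball (0 : ℂ) 1, z * deriv g z = p z - g z
  hP : ∀ z ∈ ball (0 : ℂ) 1, (1 - A * ‖z‖) / (1 - B * ‖z‖) ≤ (P z).re
  M0 : M 0 = 0
  dM : ∀ r : ℝ, 0 ≤ r → r < 1 → HasDerivAt M (-(A - B) / (1 - B * r)) r

section

variable {A B : ℝ} {p g P : ℂ → ℂ} {M : ℝ → ℝ}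

theorem Dat.local (D : Dat A B p g P M) {ρ : ℝ} (hρ0 : 0 ≤ ρ) (hρ1 : ρ < 1)
    (hpos : ∀ z ∈ closedBall (0 : ℂ) ρ, 0 < (p z * (starRingEnd ℂ) (g z)).re) {ε : ℝ} (hε : 0 < ε)
    {z a : ℂ} (hz : z ∈ closedBall (0 : ℂ) ρ) (ha : ‖a‖ = 1) :
    1 ≤ ‖uu p g a z‖ ^ 2 * Real.exp (2 * (ε * ‖z‖ - M ‖z‖)) := by
  have hsub : closedBall (0 : ℂ) ρ ⊆ ball 0 1 := closedBall_subset_ball hρ1
  set F : ℂ × ℂ → ℝ := fun q => ‖uu p g q.2 q.1‖ ^ 2 * Real.exp (2 * (ε * ‖q.1‖ - M ‖q.1‖)) with hF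
  set K : Set (ℂ × ℂ) := closedBall (0 : ℂ) ρ ×ˢ sphere (0 : ℂ) 1 with hK
  have hKc : IsCompact K := (isCompact_closedBall _ _).prod (isCompact_sphere _ _)
  have hMc : ContinuousOn (fun q : ℂ × ℂ => M ‖q.1‖) K := by
    intro q hq
    have h1 : ‖q.1‖ < 1 := (mem_closedBall_zero_iff.1 hq.1).trans_lt hρ1
    have h2 : ContinuousAt M ‖q.1‖ := (D.dM _ (norm_nonneg _) h1).continuousAt
    exact (ContinuousAt.comp (f := fun q : ℂ × ℂ => ‖q.1‖) h2
      continuous_fst.norm.continuousAt).continuousWithinAt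
  have hFc : ContinuousOn F K := by
    have c1 : ContinuousOn (fun q : ℂ × ℂ => p q.1) K :=
      (D.dp.continuousOn.mono hsub).comp continuous_fst.continuousOn (fun q hq => hq.1)
    have c2 : ContinuousOn (fun q : ℂ × ℂ => g q.1) K :=
      (D.dg.continuousOn.mono hsub).comp continuous_fst.continuousOn (fun q hq => hq.1)
    have c3 : ContinuousOn (fun q : ℂ × ℂ => ((q.2.re : ℝ) : ℂ)) K := by fun_prop
    have c4 : ContinuousOn (fun q : ℂ × ℂ => ((q.2.im : ℝ) : ℂ)) K := by fun_prop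
    have c5 : ContinuousOn (fun q : ℂ × ℂ => uu p g q.2 q.1) K :=
      (c3.mul c1).sub ((continuousOn_const.mul c4).mul c2)
    have c6 : ContinuousOn (fun q : ℂ × ℂ => ‖q.1‖) K := by fun_prop
    exact (c5.norm.pow 2).mul (((continuousOn_const.mul c6).sub hMc).const_smul (2 : ℝ)).rexp
  obtain ⟨q0, hq0, hmin⟩ := hKc.exists_isMinOn ⟨(0, 1), by simp [hK, hρ0]⟩ hFc
  have hmin' : ∀ z ∈ closedBall (0 : ℂ) ρ, ∀ a : ℂ, ‖a‖ = 1 → F q0 ≤ F (z, a) := by
    intro z hz a ha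
    exact hmin (show (z, a) ∈ K from ⟨hz, by rw [mem_sphere_zero_iff_norm]; exact ha⟩)
  refine le_trans ?_ (hmin' z hz a ha)
  obtain ⟨z0, a0⟩ := q0
  have hz0 : z0 ∈ closedBall (0 : ℂ) ρ := hq0.1
  have ha0 : ‖a0‖ = 1 := by
    have := hq0.2
    rwa [mem_sphere_zero_iff_norm] at this
  have hz0b := hsub hz0
  by_contra hcon
  push Not at hcon
  have hane : a0 ≠ 0 := by
    intro h
    rw [h, norm_zero] at ha0
    norm_num at ha0
  have hcs : a0.re ^ 2 + a0.im ^ 2 = 1 := by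
    have := Complex.normSq_eq_norm_sq a0
    rw [ha0, Complex.normSq_apply] at this
    linarith
  have hzne : z0 ≠ 0 := by
    intro h
    rw [h] at hcon
    simp only [hF, norm_zero, mul_zero, D.M0, sub_zero, Real.exp_zero, mul_one] at hcon
    have : ‖uu p g a0 0‖ ^ 2 = 1 := by
      unfold uu
      rw [D.p0, D.g0, ← Complex.normSq_eq_norm_sq, Complex.normSq_apply]
      simp
      nlinarith
    rw [this] at hcon
    exact lt_irrefl _ hcon
  obtain ⟨r, hr⟩ : ∃ r, r = ‖z0‖ := ⟨_, rfl⟩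
  have hr0 : 0 < r := by rw [hr]; exact norm_pos_iff.2 hzne
  have hr1 : r < 1 := by rw [hr]; exact (mem_closedBall_zero_iff.1 hz0).trans_lt hρ1
  obtain ⟨u, hu⟩ : ∃ u, u = uu p g a0 z0 := ⟨_, rfl⟩
  obtain ⟨v, hv⟩ : ∃ v : ℂ, v = (a0.im : ℂ) * p z0 + I * (a0.re : ℂ) * g z0 := ⟨_, rfl⟩
  obtain ⟨N, hN⟩ : ∃ N : ℂ, N = (a0.re : ℂ) * (p z0 * (P z0 - 1)) - I * (a0.im : ℂ) * (p z0 - g z0) :=
    ⟨_, rfl⟩
  have hune : u ≠ 0 := by rw [hu]; exact uu_ne hane (hpos z0 hz0)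
  -- minimality in `a`
  have hq : ∀ c s : ℝ, (c ^ 2 + s ^ 2) * ‖u‖ ^ 2 ≤ ‖(c : ℂ) * p z0 - I * s * g z0‖ ^ 2 := by
    intro c s
    by_cases h0 : c ^ 2 + s ^ 2 = 0
    · rw [h0, zero_mul]
      positivity
    have hp : 0 < c ^ 2 + s ^ 2 := lt_of_le_of_ne (by positivity) (Ne.symm h0)
    obtain ⟨n, hn⟩ : ∃ n, n = Real.sqrt (c ^ 2 + s ^ 2) := ⟨_, rfl⟩
    have hn0 : 0 < n := by rw [hn]; exact Real.sqrt_pos.2 hp
    have hn2 : n ^ 2 = c ^ 2 + s ^ 2 := by rw [hn]; exact Real.sq_sqrt hp.le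
    have h1 : ‖(⟨c / n, s / n⟩ : ℂ)‖ = 1 := by
      have : ‖(⟨c / n, s / n⟩ : ℂ)‖ ^ 2 = 1 := by
        rw [← Complex.normSq_eq_norm_sq, Complex.normSq_mk]
        field_simp
        linarith
      nlinarith [norm_nonneg (⟨c / n, s / n⟩ : ℂ)]
    have h2 := hmin' z0 hz0 _ h1
    simp only [hF] at h2
    have h3 := le_of_mul_le_mul_right h2 (Real.exp_pos _)
    rw [← hu] at h3
    have h4 : (c : ℂ) * p z0 - I * s * g z0 = (n : ℂ) * uu p g ⟨c / n, s / n⟩ z0 := by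
      have : (n : ℂ) ≠ 0 := by exact_mod_cast hn0.ne'
      unfold uu
      push_cast
      field_simp
    rw [h4, norm_mul, Complex.norm_real, Real.norm_of_nonneg hn0.le, mul_pow, hn2]
    exact mul_le_mul_of_nonneg_left h3 hp.le
  have huv : ∀ t : ℝ, (1 + t ^ 2) * ‖u‖ ^ 2 ≤ ‖u - t * v‖ ^ 2 := by
    intro t
    have h1 := hq (a0.re - t * a0.im) (a0.im + t * a0.re)
    have e1 : (a0.re - t * a0.im) ^ 2 + (a0.im + t * a0.re) ^ 2 = 1 + t ^ 2 := by
      linear_combination (1 + t ^ 2) * hcs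
    have e2 : ((a0.re - t * a0.im : ℝ) : ℂ) * p z0 - I * ((a0.im + t * a0.re : ℝ) : ℂ) * g z0 =
        u - t * v := by
      rw [hu, hv]
      unfold uu
      push_cast
      ring
    rw [e1, e2] at h1
    exact h1
  have hvu : ‖u‖ ≤ ‖v‖ := by
    have h1 := hq (-a0.im) a0.re
    have e1 : (-a0.im) ^ 2 + a0.re ^ 2 = 1 := by linarith
    have e2 : ((-a0.im : ℝ) : ℂ) * p z0 - I * ((a0.re : ℝ) : ℂ) * g z0 = -v := by
      rw [hv]
      push_cast
      ring
    rw [e1, e2, norm_neg, one_mul] at h1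
    exact le_of_sq_le_sq h1 (norm_nonneg _)
  have hX : ((starRingEnd ℂ) u * v).re = 0 := by
    obtain ⟨X, hX⟩ : ∃ X, X = ((starRingEnd ℂ) u * v).re := ⟨_, rfl⟩
    obtain ⟨W, hW⟩ : ∃ W, W = ‖v‖ ^ 2 - ‖u‖ ^ 2 := ⟨_, rfl⟩
    have hW0 : 0 ≤ W := by
      rw [hW]
      have := pow_le_pow_left₀ (norm_nonneg _) hvu 2
      linarith
    have h1 : ∀ t : ℝ, 0 ≤ t ^ 2 * W - 2 * t * X := by
      intro t
      have h2 := huv t
      have e1 : ‖u - t * v‖ ^ 2 = ‖u‖ ^ 2 - 2 * t * X + t ^ 2 * ‖v‖ ^ 2 := by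
        rw [hX, ← Complex.normSq_eq_norm_sq, ← Complex.normSq_eq_norm_sq,
          ← Complex.normSq_eq_norm_sq, Complex.normSq_apply, Complex.normSq_apply,
          Complex.normSq_apply]
        simp only [sub_re, sub_im, mul_re, mul_im, conj_re, conj_im, ofReal_re, ofReal_im]
        ring
      rw [e1] at h2
      rw [hW]
      linarith
    rw [← hX]
    by_contra hne
    have h2 := h1 (X / (W + 1))
    have hX2 : 0 < X ^ 2 := by positivity
    have e1 : (X / (W + 1)) ^ 2 * W - 2 * (X / (W + 1)) * X = -(X ^ 2 * (W + 2) / (W + 1) ^ 2) := by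
      field_simp
      ring
    rw [e1] at h2
    have h3 : 0 < X ^ 2 * (W + 2) / (W + 1) ^ 2 := by positivity
    linarith
  -- derivative of `u` along paths
  have dpz : HasDerivAt p (deriv p z0) z0 := (D.dp.differentiableAt (isOpen_ball.mem_nhds hz0b)).hasDerivAt
  have dgz : HasDerivAt g (deriv g z0) z0 := (D.dg.differentiableAt (isOpen_ball.mem_nhds hz0b)).hasDerivAt
  have duz : HasDerivAt (uu p g a0) ((a0.re : ℂ) * deriv p z0 - I * (a0.im : ℂ) * deriv g z0) z0 :=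
    (dpz.const_mul _).sub (dgz.const_mul _)
  have hNz : z0 * ((a0.re : ℂ) * deriv p z0 - I * (a0.im : ℂ) * deriv g z0) = N := by
    rw [hN, ← D.ep z0 hz0b, ← D.eg z0 hz0b]
    ring
  have hIm : ((starRingEnd ℂ) u * N).im = 0 := by
    set w : ℝ → ℂ := fun t => uu p g a0 (z0 * Complex.exp (t * I)) with hw
    have h1 : HasDerivAt (fun t : ℝ => z0 * Complex.exp (t * I)) (z0 * I) 0 := by
      have h2 : HasDerivAt (fun t : ℝ => (t : ℂ) * I) (1 * I) 0 :=
        (Complex.ofRealCLM.hasDerivAt (x := (0 : ℝ))).mul_const I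
      have h3 := (h2.cexp).const_mul z0
      refine h3.congr_deriv ?_
      simp
    have h2 : HasDerivAt w (((a0.re : ℂ) * deriv p z0 - I * (a0.im : ℂ) * deriv g z0) * (z0 * I)) 0 := by
      apply HasDerivAt.comp (h₂ := uu p g a0) (h := fun t : ℝ => z0 * Complex.exp (t * I)) (0 : ℝ) _ h1
      simpa using duz
    have h3 := normSq_deriv h2
    have h4 : IsLocalMin (fun t => ‖w t‖ ^ 2) 0 := by
      apply Eventually.of_forall
      intro t
      have hn : ‖z0 * Complex.exp (t * I)‖ = ‖z0‖ := by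
        rw [norm_mul, Complex.norm_exp_ofReal_mul_I, mul_one]
      have h5 := hmin' (z0 * Complex.exp (t * I)) (by
        rw [mem_closedBall_zero_iff, hn]; exact mem_closedBall_zero_iff.1 hz0) a0 ha0
      simp only [hF, hn] at h5
      have h6 := le_of_mul_le_mul_right h5 (Real.exp_pos _)
      simpa [hw] using h6
    have h5 := h4.hasDerivAt_eq_zero h3
    have e1 : w 0 = u := by simp [hw, hu]
    have e2 : ((a0.re : ℂ) * deriv p z0 - I * (a0.im : ℂ) * deriv g z0) * (z0 * I) = N * I := by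
      rw [← hNz]; ring
    rw [e1, e2, ← mul_assoc, mul_I_re] at h5
    linarith
  have hRe : ((starRingEnd ℂ) u * N).re + ‖u‖ ^ 2 * (ε * r - r * (-(A - B) / (1 - B * r))) ≤ 0 := by
    set w : ℝ → ℂ := fun t => uu p g a0 ((t : ℂ) * z0) with hw
    have h1 : HasDerivAt (fun t : ℝ => (t : ℂ) * z0) (1 * z0) 1 :=
      (Complex.ofRealCLM.hasDerivAt (x := (1 : ℝ))).mul_const z0
    have h2 : HasDerivAt w (((a0.re : ℂ) * deriv p z0 - I * (a0.im : ℂ) * deriv g z0) * (1 * z0)) 1 := by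
      apply HasDerivAt.comp (h₂ := uu p g a0) (h := fun t : ℝ => (t : ℂ) * z0) (1 : ℝ) _ h1
      simpa using duz
    have h3 := normSq_deriv h2
    have h4 : HasDerivAt (fun t : ℝ => 2 * (ε * (t * r) - M (t * r)))
        (2 * (ε * r - (-(A - B) / (1 - B * r)) * r)) 1 := by
      have h5 : HasDerivAt (fun t : ℝ => t * r) r 1 := by
        simpa using (hasDerivAt_id (1 : ℝ)).mul_const r
      have h6 : HasDerivAt (fun t : ℝ => M (t * r)) ((-(A - B) / (1 - B * r)) * r) 1 := by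
        apply HasDerivAt.comp (h₂ := M) (h := fun t : ℝ => t * r) (1 : ℝ) _ h5
        rw [one_mul]
        exact D.dM r hr0.le hr1
      exact ((h5.const_mul ε).sub h6).const_mul 2
    have h5 := h3.mul h4.exp
    have h6 := deriv_nonpos_of_min h5 (by
      intro t ht
      have hn : ‖(t : ℂ) * z0‖ = t * r := by
        rw [norm_mul, Complex.norm_real, Real.norm_of_nonneg ht.1, ← hr]
      have h7 := hmin' ((t : ℂ) * z0) (by
        rw [mem_closedBall_zero_iff, hn]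
        have := mem_closedBall_zero_iff.1 hz0
        rw [← hr] at this
        nlinarith [ht.2]) a0 ha0
      simp only [hF, hn] at h7
      simp only [Pi.mul_apply, hw, ofReal_one, one_mul, hr]
      rw [← hr]
      rw [← hr] at h7
      exact h7)
    have e1 : w 1 = u := by simp [hw, hu]
    have e2 : ((a0.re : ℂ) * deriv p z0 - I * (a0.im : ℂ) * deriv g z0) * (1 * z0) = N := by
      rw [← hNz]; ring
    rw [e1, e2] at h6
    have h7 : (((starRingEnd ℂ) u * N).re + ‖u‖ ^ 2 * (ε * r - r * (-(A - B) / (1 - B * r)))) *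
        (2 * Real.exp (2 * (ε * (1 * r) - M (1 * r)))) ≤ 0 := by
      refine le_trans (le_of_eq ?_) h6
      ring
    by_contra hc
    push Not at hc
    have := mul_pos hc (by positivity : 0 < 2 * Real.exp (2 * (ε * (1 * r) - M (1 * r))))
    linarith
  have hBr : 0 < 1 - B * r := by
    have := D.hB; have := D.hBA; have := D.hA
    nlinarith
  have hPr : (1 - A * r) / (1 - B * r) ≤ (P z0).re := by
    have := D.hP z0 hz0b
    rwa [← hr] at this
  have hPpos : 0 < (1 - A * r) / (1 - B * r) := by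
    apply div_pos _ hBr
    have := D.hA
    nlinarith
  have hle1 : (1 - A * r) / (1 - B * r) ≤ 1 := by
    rw [div_le_one hBr]
    have := D.hBA
    nlinarith
  have h := alg1 hcs (u := u) (v := v) (N := N) hu hv hN hIm hX hvu (hpos z0 hz0) (hPpos.trans_le hPr)
    hPr hle1
  have e1 : (1 - A * r) / (1 - B * r) - 1 = r * (-(A - B) / (1 - B * r)) := by
    have hBr' : 1 - B * r ≠ 0 := hBr.ne'
    rw [div_sub_one hBr', mul_div_assoc']
    congr 1
    ring
  rw [e1] at h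
  have hU : 0 < ‖u‖ ^ 2 := by
    have := norm_pos_iff.2 hune
    positivity
  have h8 : 0 < ‖u‖ ^ 2 * (ε * r) := by positivity
  nlinarith

theorem Dat.le_local (D : Dat A B p g P M) {ρ : ℝ} (hρ0 : 0 ≤ ρ) (hρ1 : ρ < 1)
    (hpos : ∀ z ∈ closedBall (0 : ℂ) ρ, 0 < (p z * (starRingEnd ℂ) (g z)).re)
    {z a : ℂ} (hz : z ∈ closedBall (0 : ℂ) ρ) (ha : ‖a‖ = 1) :
    Real.exp (M ‖z‖) ≤ ‖uu p g a z‖ := by
  have h1 : Real.exp (2 * M ‖z‖) ≤ ‖uu p g a z‖ ^ 2 := by
    have hc : Tendsto (fun ε : ℝ => ‖uu p g a z‖ ^ 2 * Real.exp (2 * (ε * ‖z‖ - M ‖z‖))) (𝓝[>] 0)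
        (𝓝 (‖uu p g a z‖ ^ 2 * Real.exp (2 * (0 * ‖z‖ - M ‖z‖)))) := by
      apply Tendsto.mono_left _ nhdsWithin_le_nhds
      apply Continuous.tendsto
      fun_prop
    have h2 : 1 ≤ ‖uu p g a z‖ ^ 2 * Real.exp (2 * (0 * ‖z‖ - M ‖z‖)) := by
      apply ge_of_tendsto hc
      filter_upwards [self_mem_nhdsWithin] with ε hε
      exact D.local hρ0 hρ1 hpos hε hz ha
    have e1 : Real.exp (2 * (0 * ‖z‖ - M ‖z‖)) = (Real.exp (2 * M ‖z‖))⁻¹ := by
      rw [← Real.exp_neg]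
      congr 1
      ring
    rw [e1, ← div_eq_mul_inv, le_div_iff₀ (Real.exp_pos _), one_mul] at h2
    exact h2
  have e1 : Real.exp (2 * M ‖z‖) = Real.exp (M ‖z‖) ^ 2 := by
    rw [← Real.exp_nat_mul]
    norm_num
  rw [e1] at h1
  exact le_of_sq_le_sq h1 (norm_nonneg _)

/-- starlikeness -/
theorem Dat.pos (D : Dat A B p g P M) {z : ℂ} (hz : z ∈ ball (0 : ℂ) 1) :
    0 < (p z * (starRingEnd ℂ) (g z)).re := by
  by_contra hcon
  push Not at hcon
  have hz1 : ‖z‖ < 1 := mem_ball_zero_iff.1 hz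
  have hsub : closedBall (0 : ℂ) ‖z‖ ⊆ ball 0 1 := closedBall_subset_ball hz1
  set Φ : ℂ → ℝ := fun z => (p z * (starRingEnd ℂ) (g z)).re with hΦ
  have hΦc : ContinuousOn Φ (ball 0 1) :=
    continuous_re.comp_continuousOn (D.dp.continuousOn.mul
      (continuous_conj.comp_continuousOn D.dg.continuousOn))
  set C : Set ℂ := closedBall (0 : ℂ) ‖z‖ ∩ Φ ⁻¹' Iic 0 with hC
  have hCc : IsCompact C := by
    have h1 : IsClosed C := (hΦc.mono hsub).preimage_isClosed_of_isClosed isClosed_closedBall isClosed_Iic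
    exact (isCompact_closedBall (0 : ℂ) ‖z‖).of_isClosed_subset h1 inter_subset_left
  obtain ⟨w, hw, hmin⟩ := hCc.exists_isMinOn ⟨z, by simp, hcon⟩ continuous_norm.continuousOn
  have hwz : ‖w‖ ≤ ‖z‖ := mem_closedBall_zero_iff.1 hw.1
  have hwb : w ∈ ball (0 : ℂ) 1 := hsub hw.1
  have hwΦ : Φ w ≤ 0 := hw.2
  have hw0 : w ≠ 0 := by
    intro h
    rw [h] at hwΦ
    simp only [hΦ, D.p0, D.g0] at hwΦ
    norm_num at hwΦ
  have hr0 : 0 < ‖w‖ := norm_pos_iff.2 hw0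
  have hlt : ∀ x : ℂ, ‖x‖ < ‖w‖ → 0 < Φ x := by
    intro x hx
    by_contra h
    push Not at h
    have h1 : x ∈ C := ⟨by rw [mem_closedBall_zero_iff]; linarith, h⟩
    have h2 := hmin h1
    simp only [mem_ofPred_eq] at h2
    linarith
  -- the path towards `w`
  have hn : ∀ t : ℝ, 0 ≤ t → ‖(t : ℂ) * w‖ = t * ‖w‖ := by
    intro t ht
    rw [norm_mul, Complex.norm_real, Real.norm_of_nonneg ht]
  have hpath : Tendsto (fun t : ℝ => (t : ℂ) * w) (𝓝[<] 1) (𝓝 w) := by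
    have : Tendsto (fun t : ℝ => (t : ℂ) * w) (𝓝 1) (𝓝 (((1 : ℝ) : ℂ) * w)) := by
      apply Continuous.tendsto
      fun_prop
    rw [ofReal_one, one_mul] at this
    exact this.mono_left nhdsWithin_le_nhds
  have hev : ∀ᶠ t in 𝓝[<] (1 : ℝ), t ∈ Ioo (0 : ℝ) 1 := Ioo_mem_nhdsLT zero_lt_one
  have hΦw : Φ w = 0 := by
    apply le_antisymm hwΦ
    have h1 : Tendsto (fun t : ℝ => Φ ((t : ℂ) * w)) (𝓝[<] 1) (𝓝 (Φ w)) :=
      (hΦc.continuousAt (isOpen_ball.mem_nhds hwb)).tendsto.comp hpath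
    apply ge_of_tendsto h1
    filter_upwards [hev] with t ht
    apply (hlt _ _).le
    rw [hn t ht.1.le]
    nlinarith [ht.2]
  have hlow : ∀ a : ℂ, ‖a‖ = 1 → Real.exp (M ‖w‖) ≤ ‖uu p g a w‖ := by
    intro a ha
    have hwnb := isOpen_ball.mem_nhds hwb
    have c1 : ContinuousAt (uu p g a) w := by
      have h1 := (D.dp.differentiableAt hwnb).continuousAt
      have h2 := (D.dg.differentiableAt hwnb).continuousAt
      exact (continuousAt_const.mul h1).sub (continuousAt_const.mul h2)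
    have h1 : Tendsto (fun t : ℝ => ‖uu p g a ((t : ℂ) * w)‖) (𝓝[<] 1) (𝓝 ‖uu p g a w‖) :=
      (c1.tendsto.comp hpath).norm
    have h2 : Tendsto (fun t : ℝ => Real.exp (M ‖(t : ℂ) * w‖)) (𝓝[<] 1) (𝓝 (Real.exp (M ‖w‖))) := by
      have c2 : ContinuousAt M ‖w‖ := (D.dM _ (norm_nonneg _) (mem_ball_zero_iff.1 hwb)).continuousAt
      exact (Real.continuous_exp.tendsto _).comp (c2.tendsto.comp hpath.norm)
    apply le_of_tendsto_of_tendsto h2 h1
    filter_upwards [hev] with t ht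
    have htw : t * ‖w‖ < ‖w‖ := by nlinarith [ht.2]
    have ht0 : 0 ≤ t * ‖w‖ := by have := ht.1.le; positivity
    apply D.le_local (ρ := t * ‖w‖) ht0 (by linarith [mem_ball_zero_iff.1 hwb]) _ _ ha
    · intro x hx
      rw [mem_closedBall_zero_iff] at hx
      exact hlt x (by linarith)
    · rw [mem_closedBall_zero_iff, hn t ht.1.le]
  -- a zero of `uu`
  obtain ⟨η, hη⟩ : ∃ η, η = (p w * (starRingEnd ℂ) (g w)).im := ⟨_, rfl⟩
  have hpg : p w * (starRingEnd ℂ) (g w) = I * η := by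
    apply Complex.ext
    · rw [show (p w * (starRingEnd ℂ) (g w)).re = 0 from hΦw]; simp
    · rw [← hη]; simp
  by_cases hg : g w = 0
  · have h1 := hlow I (by simp)
    unfold uu at h1
    rw [hg] at h1
    simp at h1
    have := Real.exp_pos (M ‖w‖)
    linarith
  · have hgn : 0 < ‖g w‖ := norm_pos_iff.2 hg
    obtain ⟨b, hb⟩ : ∃ b : ℂ, b = ⟨‖g w‖ ^ 2, η⟩ := ⟨_, rfl⟩
    have hbne : b ≠ 0 := by
      intro h
      rw [hb] at h
      have := congrArg Complex.re h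
      simp only [zero_re] at this
      have h2 : 0 < ‖g w‖ ^ 2 := by positivity
      linarith
    have hbn : 0 < ‖b‖ := norm_pos_iff.2 hbne
    have hu0 : uu p g b w = 0 := by
      have h1 : uu p g b w * (starRingEnd ℂ) (g w) = 0 := by
        unfold uu
        rw [hb]
        have h2 := Complex.mul_conj' (g w)
        push_cast
        linear_combination ((‖g w‖ : ℂ) ^ 2) * hpg - (I * η) * h2
      rcases mul_eq_zero.1 h1 with h | h
      · exact h
      · exact absurd ((map_eq_zero _).1 h) hg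
    have h1 := hlow (((‖b‖⁻¹ : ℝ) : ℂ) * b) (by
      rw [norm_mul, Complex.norm_real, Real.norm_of_nonneg (by positivity)]
      field_simp)
    have h2 : uu p g (((‖b‖⁻¹ : ℝ) : ℂ) * b) w = ((‖b‖⁻¹ : ℝ) : ℂ) * uu p g b w := by
      unfold uu
      rw [Complex.re_ofReal_mul, Complex.im_ofReal_mul]
      push_cast
      ring
    rw [h2, hu0, mul_zero, norm_zero] at h1
    have := Real.exp_pos (M ‖w‖)
    linarith

/-- **The sharp lower bound.** -/
theorem Dat.le (D : Dat A B p g P M) {z a : ℂ} (hz : z ∈ ball (0 : ℂ) 1) (ha : ‖a‖ = 1) :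
    Real.exp (M ‖z‖) ≤ ‖uu p g a z‖ := by
  have hz1 : ‖z‖ < 1 := mem_ball_zero_iff.1 hz
  exact D.le_local (norm_nonneg z) hz1 (fun x hx => D.pos (closedBall_subset_ball hz1 hx))
    (by simp) ha

end

end Pool.Agent.R250.GN
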