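import Mathlib

set_option autoImplicit false

/-! # The analytic criterion for starlikeness -/

namespace Pool.Agent.R250.GN

open Complex Metric Set Filter Topology

theorem exp_mem {ζ : ℂ} (h : ζ.re < 0) : Complex.exp ζ ∈ ball (0 : ℂ) 1 := by
  rw [mem_ball_zero_iff, Complex.norm_exp]
  exact Real.exp_lt_one_iff.2 h

/-- A logarithm of `G` in the left half-plane. -/
theorem exists_L {G g : ℂ → ℂ} (hg : DifferentiableOn ℂ g (ball 0 1))
    (hGg : ∀ z ∈ ball (0 : ℂ) 1, G z = z * g z)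
    (hpos : ∀ z ∈ ball (0 : ℂ) 1, 0 < (deriv G z * (starRingEnd ℂ) (g z)).re) :
    ∃ L L' : ℂ → ℂ, (∀ ζ : ℂ, ζ.re < 0 → HasDerivAt L (L' ζ) ζ ∧ 0 < (L' ζ).re ∧
      Complex.exp (L ζ) = G (Complex.exp ζ)) ∧
      ∀ (ζ : ℂ) (n : ℤ), L (ζ + n * (2 * Real.pi * I)) = L ζ + n * (2 * Real.pi * I) := by
  have h00 : (0 : ℂ) ∈ ball (0 : ℂ) 1 := mem_ball_self one_pos
  have hgne : ∀ z ∈ ball (0 : ℂ) 1, g z ≠ 0 := by
    intro z hz h
    have := hpos z hz
    rw [h] at this
    simp at this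
  have hgd : ∀ z ∈ ball (0 : ℂ) 1, HasDerivAt g (deriv g z) z := fun z hz =>
    (hg.differentiableAt (isOpen_ball.mem_nhds hz)).hasDerivAt
  have hq : DifferentiableOn ℂ (fun z => deriv g z / g z) (ball 0 1) :=
    (hg.deriv isOpen_ball).div hg hgne
  obtain ⟨ℓ, hℓ0, hℓ⟩ := (hq.isExactOn_ball).with_val_at 0 (Complex.log (g 0))
  have hexp : ∀ z ∈ ball (0 : ℂ) 1, Complex.exp (ℓ z) = g z := by
    have h1 : ∀ z ∈ ball (0 : ℂ) 1, HasDerivAt (fun z => g z * Complex.exp (-ℓ z)) 0 z := by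
      intro z hz
      have h2 := (hgd z hz).mul (hℓ z hz).neg.cexp
      refine h2.congr_deriv ?_
      have := hgne z hz
      field_simp
      ring
    intro z hz
    have h2 := (convex_ball (0 : ℂ) 1).is_const_of_fderivWithin_eq_zero (𝕜 := ℂ)
      (f := fun z => g z * Complex.exp (-ℓ z))
      (fun x hx => (h1 x hx).differentiableAt.differentiableWithinAt) (fun x hx => by
        have h3 := (h1 x hx).hasFDerivAt.hasFDerivWithinAt (s := ball (0 : ℂ) 1)
        rw [h3.fderivWithin (isOpen_ball.uniqueDiffWithinAt hx)]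
        ext
        simp) hz h00
    simp only [hℓ0] at h2
    rw [Complex.exp_neg, Complex.exp_neg, Complex.exp_log (hgne 0 h00),
      mul_inv_cancel₀ (hgne 0 h00)] at h2
    have h3 := Complex.exp_ne_zero (ℓ z)
    field_simp at h2
    exact h2.symm
  refine ⟨fun ζ => ζ + ℓ (Complex.exp ζ), fun ζ => deriv G (Complex.exp ζ) / g (Complex.exp ζ), ?_, ?_⟩
  · intro ζ hζ
    have hz := exp_mem hζ
    obtain ⟨z, hzd⟩ : ∃ z, z = Complex.exp ζ := ⟨_, rfl⟩
    have h1 := hgne _ hz
    have hGd : deriv G z = g z + z * deriv g z := by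
      have h2 : G =ᶠ[𝓝 z] fun z => z * g z := by
        rw [hzd]
        filter_upwards [isOpen_ball.mem_nhds hz] with x hx using hGg x hx
      rw [h2.deriv_eq]
      have h3 := ((hasDerivAt_id z).mul (hgd z (hzd ▸ hz))).deriv
      have h4 : deriv (fun z => z * g z) z = 1 * g z + id z * deriv g z := h3
      rw [h4]
      simp
    refine ⟨?_, ?_, ?_⟩
    · have h2 := (hasDerivAt_id ζ).add ((hℓ _ hz).comp ζ (Complex.hasDerivAt_exp ζ))
      refine h2.congr_deriv ?_
      beta_reduce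
      rw [← hzd] at h1 ⊢
      rw [hGd]
      field_simp
    · have h2 := hpos _ hz
      beta_reduce
      rw [← hzd] at h1 h2 ⊢
      have h3 : deriv G z / g z = deriv G z * (starRingEnd ℂ) (g z) * ((‖g z‖ ^ 2)⁻¹ : ℝ) := by
        have h4 := Complex.mul_conj' (g z)
        have h5 : (‖g z‖ : ℂ) ≠ 0 := by exact_mod_cast (norm_pos_iff.2 h1).ne'
        push_cast
        field_simp
        linear_combination (-deriv G z) * h4
      rw [h3, Complex.re_mul_ofReal]
      have h4 := norm_pos_iff.2 h1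
      positivity
    · rw [Complex.exp_add, hexp _ hz, hGg _ hz]
  · intro ζ n
    simp only
    have h1 : Complex.exp (ζ + n * (2 * Real.pi * I)) = Complex.exp ζ := by
      rw [Complex.exp_add, Complex.exp_int_mul_two_pi_mul_I, mul_one]
    rw [h1]
    ring

/-- Two-point inequality -/
theorem two_point {L L' : ℂ → ℂ} (hL : ∀ ζ : ℂ, ζ.re < 0 → HasDerivAt L (L' ζ) ζ ∧ 0 < (L' ζ).re)
    {ζ₁ ζ₂ : ℂ} (h1 : ζ₁.re < 0) (h2 : ζ₂.re < 0) (hne : ζ₁ ≠ ζ₂) :
    0 < ((L ζ₁ - L ζ₂) * (starRingEnd ℂ) (ζ₁ - ζ₂)).re := by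
  obtain ⟨d, hd⟩ : ∃ d, d = ζ₁ - ζ₂ := ⟨_, rfl⟩
  have hd0 : d ≠ 0 := by rw [hd]; exact sub_ne_zero.2 hne
  set φ : ℝ → ℝ := fun t => (L (ζ₂ + t * d) * (starRingEnd ℂ) d).re with hφ
  have hre : ∀ t ∈ Icc (0 : ℝ) 1, (ζ₂ + t * d).re < 0 := by
    intro t ht
    rw [hd, add_re, Complex.re_ofReal_mul, sub_re]
    have e1 : (1 - t) * ζ₂.re ≤ (1 - t) * max ζ₁.re ζ₂.re :=
      mul_le_mul_of_nonneg_left (le_max_right _ _) (by linarith [ht.2])
    have e2 : t * ζ₁.re ≤ t * max ζ₁.re ζ₂.re := mul_le_mul_of_nonneg_left (le_max_left _ _) ht.1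
    have e3 : max ζ₁.re ζ₂.re < 0 := max_lt h1 h2
    nlinarith
  have hder : ∀ t ∈ Icc (0 : ℝ) 1, HasDerivAt φ ((L' (ζ₂ + t * d) * d * (starRingEnd ℂ) d).re) t := by
    intro t ht
    have e1 : HasDerivAt (fun t : ℝ => ζ₂ + (t : ℂ) * d) (1 * d) t :=
      ((Complex.ofRealCLM.hasDerivAt (x := t)).mul_const d).const_add ζ₂
    have e2 : HasDerivAt (fun t : ℝ => L (ζ₂ + (t : ℂ) * d)) (L' (ζ₂ + t * d) * (1 * d)) t :=
      ((hL _ (hre t ht)).1).comp t e1
    rw [one_mul] at e2
    have e3 := e2.mul_const ((starRingEnd ℂ) d)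
    exact Complex.reCLM.hasFDerivAt.comp_hasDerivAt t e3
  have hmono : StrictMonoOn φ (Icc 0 1) := by
    apply strictMonoOn_of_deriv_pos (convex_Icc 0 1)
    · intro t ht
      exact (hder t ht).continuousAt.continuousWithinAt
    · intro t ht
      have ht' := interior_subset ht
      rw [(hder t ht').deriv, mul_assoc, Complex.mul_conj', ← Complex.ofReal_pow,
        Complex.re_mul_ofReal]
      have := (hL _ (hre t ht')).2
      have := norm_pos_iff.2 hd0
      positivity
  have h3 := hmono (left_mem_Icc.2 zero_le_one) (right_mem_Icc.2 zero_le_one) zero_lt_one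
  simp only [hφ, ofReal_zero, zero_mul, add_zero, ofReal_one, one_mul] at h3
  have e1 : ζ₂ + d = ζ₁ := by rw [hd]; ring
  rw [e1] at h3
  rw [← hd, sub_mul, sub_re]
  linarith

/-- **The criterion.** -/
theorem starlike_of_pos {G g : ℂ → ℂ} (hG : DifferentiableOn ℂ G (ball 0 1))
    (hg : DifferentiableOn ℂ g (ball 0 1)) (hGg : ∀ z ∈ ball (0 : ℂ) 1, G z = z * g z)
    (hpos : ∀ z ∈ ball (0 : ℂ) 1, 0 < (deriv G z * (starRingEnd ℂ) (g z)).re) :
    InjOn G (ball 0 1) ∧ StarConvex ℝ 0 (G '' ball 0 1) := by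
  have h00 : (0 : ℂ) ∈ ball (0 : ℂ) 1 := mem_ball_self one_pos
  have hgne : ∀ z ∈ ball (0 : ℂ) 1, g z ≠ 0 := by
    intro z hz h
    have := hpos z hz
    rw [h] at this
    simp at this
  obtain ⟨L, L', hL, hLn⟩ := exists_L hg hGg hpos
  have hL2 : ∀ ζ : ℂ, ζ.re < 0 → HasDerivAt L (L' ζ) ζ ∧ 0 < (L' ζ).re := fun ζ hζ =>
    ⟨(hL ζ hζ).1, (hL ζ hζ).2.1⟩
  have hlog : ∀ z ∈ ball (0 : ℂ) 1, z ≠ 0 → (Complex.log z).re < 0 := by
    intro z hz hz0
    rw [Complex.log_re]
    exact Real.log_neg (norm_pos_iff.2 hz0) (mem_ball_zero_iff.1 hz)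
  constructor
  · intro z hz w hw hzw
    by_cases hz0 : z = 0
    · rw [hz0, hGg 0 h00, zero_mul, hGg w hw] at hzw
      rcases mul_eq_zero.1 hzw.symm with h | h
      · rw [hz0, h]
      · exact absurd h (hgne w hw)
    by_cases hw0 : w = 0
    · rw [hw0, hGg 0 h00, zero_mul, hGg z hz] at hzw
      rcases mul_eq_zero.1 hzw with h | h
      · exact absurd h hz0
      · exact absurd h (hgne z hz)
    have hz1 := hlog z hz hz0
    have hw1 := hlog w hw hw0
    have e1 := (hL _ hz1).2.2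
    have e2 := (hL _ hw1).2.2
    rw [Complex.exp_log hz0] at e1
    rw [Complex.exp_log hw0] at e2
    rw [← e1, ← e2, Complex.exp_eq_exp_iff_exists_int] at hzw
    obtain ⟨n, hn⟩ := hzw
    rw [← hLn] at hn
    have hre : (Complex.log w + n * (2 * Real.pi * I)).re < 0 := by
      have : (Complex.log w + n * (2 * Real.pi * I)).re = (Complex.log w).re := by
        simp
      rw [this]
      exact hw1
    have h3 : Complex.log z = Complex.log w + n * (2 * Real.pi * I) := by
      by_contra hne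
      have := two_point hL2 hz1 hre hne
      rw [hn, sub_self, zero_mul, zero_re] at this
      exact lt_irrefl _ this
    rw [← Complex.exp_log hz0, h3, Complex.exp_add, Complex.exp_int_mul_two_pi_mul_I, mul_one,
      Complex.exp_log hw0]
  · rw [starConvex_zero_iff]
    rintro w ⟨z0, hz0, rfl⟩ t ht0 ht1
    by_cases hz00 : z0 = 0
    · rw [hz00, hGg 0 h00, zero_mul, smul_zero]
      exact ⟨0, h00, by rw [hGg 0 h00, zero_mul]⟩
    rcases ht0.lt_or_eq with htp | htp
    swap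
    · rw [← htp, zero_smul]
      exact ⟨0, h00, by rw [hGg 0 h00, zero_mul]⟩
    have hsub : closedBall (0 : ℂ) ‖z0‖ ⊆ ball 0 1 :=
      closedBall_subset_ball (mem_ball_zero_iff.1 hz0)
    have hw0 : G z0 ≠ 0 := by
      rw [hGg z0 hz0]
      exact mul_ne_zero hz00 (hgne z0 hz0)
    set S : Set ℝ := {τ : ℝ | ∃ z ∈ closedBall (0 : ℂ) ‖z0‖, G z = (Real.exp (-τ) : ℂ) * G z0} with hS
    have hSc : IsClosed S := by
      have h1 : IsClosed (G '' closedBall (0 : ℂ) ‖z0‖) :=
        ((isCompact_closedBall _ _).image_of_continuousOn (hG.continuousOn.mono hsub)).isClosed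
      have h2 : Continuous fun τ : ℝ => ((Real.exp (-τ) : ℝ) : ℂ) * G z0 := by fun_prop
      have h3 : S = (fun τ : ℝ => ((Real.exp (-τ) : ℝ) : ℂ) * G z0) ⁻¹' (G '' closedBall (0 : ℂ) ‖z0‖) := by
        ext τ
        simp only [hS, mem_preimage, mem_image]
        rfl
      rw [h3]
      exact h1.preimage h2
    have h0S : (0 : ℝ) ∈ S := ⟨z0, by simp, by simp⟩
    have hopen : ∀ τ ∈ S, S ∈ 𝓝[>] τ := by
      rintro τ ⟨z, hz, hzG⟩
      have hzb := hsub hz
      have hzne : z ≠ 0 := by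
        intro h
        rw [h, hGg 0 h00, zero_mul] at hzG
        rcases mul_eq_zero.1 hzG.symm with h | h
        · exact absurd h (by exact_mod_cast (Real.exp_pos (-τ)).ne')
        · exact hw0 h
      have hζ := hlog z hzb hzne
      obtain ⟨ζ, hζd⟩ : ∃ ζ, ζ = Complex.log z := ⟨_, rfl⟩
      rw [← hζd] at hζ
      have hez : Complex.exp ζ = z := by rw [hζd]; exact Complex.exp_log hzne
      have hHo : IsOpen {ζ : ℂ | ζ.re < 0} := isOpen_lt continuous_re continuous_const
      have hana : AnalyticAt ℂ L ζ := by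
        have hd : DifferentiableOn ℂ L {ζ : ℂ | ζ.re < 0} := fun x hx =>
          (hL x hx).1.differentiableAt.differentiableWithinAt
        exact hd.analyticAt (hHo.mem_nhds hζ)
      have hsd : HasStrictDerivAt L (L' ζ) ζ := by
        have := hana.hasStrictDerivAt
        rwa [(hL ζ hζ).1.deriv] at this
      have hne : L' ζ ≠ 0 := by
        intro h
        have := (hL ζ hζ).2.1
        rw [h] at this
        simp at this
      have hmap := hsd.map_nhds_eq hne
      have himg : L '' {ζ : ℂ | ζ.re < 0} ∈ 𝓝 (L ζ) := by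
        rw [← hmap]
        exact image_mem_map (hHo.mem_nhds hζ)
      have hpath : Tendsto (fun τ' : ℝ => L ζ - ((τ' - τ : ℝ) : ℂ)) (𝓝[>] τ) (𝓝 (L ζ)) := by
        have h1 : Tendsto (fun τ' : ℝ => L ζ - ((τ' - τ : ℝ) : ℂ)) (𝓝 τ)
            (𝓝 (L ζ - ((τ - τ : ℝ) : ℂ))) := by
          apply Continuous.tendsto
          fun_prop
        rw [sub_self, ofReal_zero, sub_zero] at h1
        exact h1.mono_left nhdsWithin_le_nhds
      filter_upwards [hpath himg, self_mem_nhdsWithin] with τ' hτ' hgt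
      obtain ⟨ζ', hζ', hLζ'⟩ := hτ'
      have hgt' : τ < τ' := hgt
      have hζζ' : ζ' ≠ ζ := by
        intro h
        rw [h] at hLζ'
        have h1 : ((τ' - τ : ℝ) : ℂ) = 0 := by linear_combination hLζ'
        have h2 : τ' - τ = 0 := by exact_mod_cast h1
        linarith
      have h2 := two_point hL2 hζ' hζ hζζ'
      have e1 : L ζ' - L ζ = ((-(τ' - τ) : ℝ) : ℂ) := by
        rw [hLζ']
        push_cast
        ring
      rw [e1, Complex.re_ofReal_mul, conj_re, sub_re] at h2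
      have h3 : ζ'.re < ζ.re := by nlinarith
      refine ⟨Complex.exp ζ', ?_, ?_⟩
      · rw [mem_closedBall_zero_iff, Complex.norm_exp]
        have h4 : ‖z‖ = Real.exp ζ.re := by rw [← hez, Complex.norm_exp]
        have h5 := mem_closedBall_zero_iff.1 hz
        rw [h4] at h5
        exact (Real.exp_le_exp.2 h3.le).trans h5
      · have h4 := (hL ζ' hζ').2.2
        have h5 := (hL ζ hζ).2.2
        rw [hez, hzG] at h5
        rw [← h4, hLζ']
        beta_reduce
        rw [sub_eq_add_neg, Complex.exp_add, h5, ← ofReal_neg, ← Complex.ofReal_exp,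
          mul_comm, ← mul_assoc, ← Complex.ofReal_mul, ← Real.exp_add]
        congr 3
        ring
    have hT : 0 ≤ -Real.log t := by
      have := Real.log_nonpos ht0 ht1
      linarith
    have hsubS := (hSc.inter isClosed_Icc).Icc_subset_of_forall_mem_nhdsWithin (a := 0)
      (b := -Real.log t) h0S (fun x hx => hopen x hx.1)
    obtain ⟨z, hz, hzG⟩ := hsubS (right_mem_Icc.2 hT)
    refine ⟨z, hsub hz, ?_⟩
    rw [hzG, neg_neg, Real.exp_log htp]
    simp

end Pool.Agent.R250.GN
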