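import Pool.Agent.R250.GN1
import Pool.Agent.R250.GN2
import Pool.Agent.Helper240.ZFM.ConvA

set_option autoImplicit false

/-! # Neighbourhoods: the inclusion and the sharpness -/

namespace Pool.Agent.R250.GN

open Complex Metric Set Filter Topology

/-- The exponent `log δ(A, B; r)`. -/
noncomputable def Mf (A B r : ℝ) : ℝ := if B = 0 then -(A * r) else (A - B) / B * Real.log (1 - B * r)

theorem Mf_zero (A B : ℝ) : Mf A B 0 = 0 := by
  unfold Mf
  split_ifs <;> simp

theorem Mf_deriv {A B r : ℝ} (h : 0 < 1 - B * r) : HasDerivAt (Mf A B) (-(A - B) / (1 - B * r)) r := by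
  by_cases hB : B = 0
  · have e : Mf A B = fun r => -(A * r) := by
      funext r
      simp [Mf, hB]
    rw [e, hB]
    have := ((hasDerivAt_id r).const_mul A).neg
    refine this.congr_deriv ?_
    simp
  · have e : Mf A B = fun r => (A - B) / B * Real.log (1 - B * r) := by
      funext r
      simp [Mf, hB]
    rw [e]
    have h1 : HasDerivAt (fun r : ℝ => 1 - B * r) (-(B * 1)) r :=
      ((hasDerivAt_id r).const_mul B).const_sub 1
    have h2 := (h1.log h.ne').const_mul ((A - B) / B)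
    refine h2.congr_deriv ?_
    field_simp

theorem Bpos {A B r : ℝ} (hB : -1 ≤ B) (hBA : B < A) (hA : A ≤ 1) (h0 : 0 ≤ r) (h1 : r ≤ 1) :
    0 < 1 - B * r := by
  rcases le_or_gt B 0 with h | h
  · nlinarith
  · nlinarith

theorem Mf_anti {A B r : ℝ} (hB : -1 ≤ B) (hBA : B < A) (hA : A ≤ 1) (h0 : 0 ≤ r) (h1 : r ≤ 1) :
    Mf A B 1 ≤ Mf A B r := by
  have hmono : AntitoneOn (Mf A B) (Icc 0 1) := by
    apply antitoneOn_of_deriv_nonpos (convex_Icc 0 1)
    · intro x hx
      exact (Mf_deriv (Bpos hB hBA hA hx.1 hx.2)).continuousAt.continuousWithinAt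
    · intro x hx
      have hx' := interior_subset hx
      exact (Mf_deriv (Bpos hB hBA hA hx'.1 hx'.2)).differentiableAt.differentiableWithinAt
    · intro x hx
      have hx' := interior_subset hx
      have hp := Bpos hB hBA hA hx'.1 hx'.2
      rw [(Mf_deriv hp).deriv]
      apply div_nonpos_of_nonpos_of_nonneg (by linarith) hp.le
  exact hmono ⟨h0, h1⟩ ⟨zero_le_one, le_rfl⟩ h1

/-- The data of a function. -/
theorem dat_of {A B : ℝ} (hB : -1 ≤ B) (hBA : B < A) (hA : A ≤ 1) {f ω : ℂ → ℂ}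
    (hf : DifferentiableOn ℂ f (ball 0 1)) (f0 : f 0 = 0) (f1 : deriv f 0 = 1)
    (hne : ∀ z ∈ ball (0 : ℂ) 1, deriv f z ≠ 0) (hω : DifferentiableOn ℂ ω (ball 0 1))
    (hωm : MapsTo ω (ball 0 1) (ball 0 1)) (ω0 : ω 0 = 0)
    (h : ∀ z ∈ ball (0 : ℂ) 1, 1 + z * deriv (deriv f) z / deriv f z = (1 + A * ω z) / (1 + B * ω z)) :
    Dat A B (deriv f) (dslope f 0) (fun z => (1 + A * ω z) / (1 + B * ω z)) (Mf A B) where
  hB := hB
  hBA := hBA
  hA := hA
  dp := hf.deriv isOpen_ball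
  dg := (Complex.differentiableOn_dslope (isOpen_ball.mem_nhds (mem_ball_self one_pos))).2 hf
  p0 := f1
  g0 := by rw [dslope_same, f1]
  ep := by
    intro z hz
    have h1 := h z hz
    have h2 := hne z hz
    rw [← h1]
    field_simp
    ring
  eg := by
    intro z hz
    have hg : DifferentiableOn ℂ (dslope f 0) (ball 0 1) :=
      (Complex.differentiableOn_dslope (isOpen_ball.mem_nhds (mem_ball_self one_pos))).2 hf
    have h1 : HasDerivAt (dslope f 0) (deriv (dslope f 0) z) z :=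
      (hg.differentiableAt (isOpen_ball.mem_nhds hz)).hasDerivAt
    have h2 : f = fun z => z * dslope f 0 z := by
      funext z
      have := sub_smul_dslope f 0 z
      rw [f0, sub_zero, sub_zero, smul_eq_mul] at this
      exact this.symm
    have h3 : HasDerivAt f (1 * dslope f 0 z + z * deriv (dslope f 0) z) z := by
      have := (hasDerivAt_id z).fun_mul h1
      rw [← show f = fun z => id z * dslope f 0 z from h2] at this
      exact this
    rw [h3.deriv]
    ring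
  hP := by
    intro z hz
    have h1 : ‖ω z‖ ≤ ‖z‖ := norm_le_norm_of_mapsTo_ball hω
      (hωm.mono_right ball_subset_closedBall) ω0 (mem_ball_zero_iff.1 hz)
    exact subord hB hBA hA (mem_ball_zero_iff.1 hz) h1
  M0 := Mf_zero A B
  dM := fun r h0 h1 => Mf_deriv (Bpos hB hBA hA h0 h1.le)

theorem exists_zero {p g : ℂ → ℂ} {w : ℂ} (hw : (p w * (starRingEnd ℂ) (g w)).re = 0) :
    ∃ a : ℂ, ‖a‖ = 1 ∧ uu p g a w = 0 := by
  obtain ⟨η, hη⟩ : ∃ η, η = (p w * (starRingEnd ℂ) (g w)).im := ⟨_, rfl⟩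
  have hpg : p w * (starRingEnd ℂ) (g w) = I * η := by
    apply Complex.ext
    · rw [hw]; simp
    · rw [← hη]; simp
  by_cases hg : g w = 0
  · refine ⟨I, by simp, ?_⟩
    unfold uu
    rw [hg]
    simp
  · have hgn : 0 < ‖g w‖ := norm_pos_iff.2 hg
    obtain ⟨b, hb⟩ : ∃ b : ℂ, b = ⟨‖g w‖ ^ 2, η⟩ := ⟨_, rfl⟩
    have hbne : b ≠ 0 := by
      intro h
      rw [hb] at h
      have := congrArg Complex.re h
      simp only [zero_re] at this
      have h2 : 0 < ‖g w‖ ^ 2 := by positivity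
      linarith
    have hbn : 0 < ‖b‖ := norm_pos_iff.2 hbne
    have hu0 : uu p g b w = 0 := by
      have h1 : uu p g b w * (starRingEnd ℂ) (g w) = 0 := by
        unfold uu
        rw [hb]
        have h2 := Complex.mul_conj' (g w)
        push_cast
        linear_combination ((‖g w‖ : ℂ) ^ 2) * hpg - (I * η) * h2
      rcases mul_eq_zero.1 h1 with h | h
      · exact h
      · exact absurd ((map_eq_zero _).1 h) hg
    refine ⟨((‖b‖⁻¹ : ℝ) : ℂ) * b, ?_, ?_⟩
    · rw [norm_mul, Complex.norm_real, Real.norm_of_nonneg (by positivity)]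
      field_simp
    · have h2 : uu p g (((‖b‖⁻¹ : ℝ) : ℂ) * b) w = ((‖b‖⁻¹ : ℝ) : ℂ) * uu p g b w := by
        unfold uu
        rw [Complex.re_ofReal_mul, Complex.im_ofReal_mul]
        push_cast
        ring
      rw [h2, hu0, mul_zero]

/-- Taylor coefficients -/
noncomputable def tc (f : ℂ → ℂ) (k : ℕ) : ℂ := iteratedDeriv k f 0 / (Nat.factorial k : ℂ)

theorem tc_hasSum {f : ℂ → ℂ} (hf : DifferentiableOn ℂ f (ball 0 1)) {z : ℂ} (hz : z ∈ ball (0 : ℂ) 1) :
    HasSum (fun k : ℕ => tc f k * z ^ k) (f z) := by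
  have h := Complex.hasSum_taylorSeries_on_ball hf hz
  refine h.congr_fun ?_ |> fun h => h
  intro k
  simp only [tc, sub_zero, smul_eq_mul]
  field_simp

/-- **The inclusion.** -/
theorem incl {A B : ℝ} (hB : -1 ≤ B) (hBA : B < A) (hA : A ≤ 1) {f P G : ℂ → ℂ}
    (D : Dat A B (deriv f) (dslope f 0) P (Mf A B)) (hf : DifferentiableOn ℂ f (ball 0 1))
    (f0 : f 0 = 0) (f1 : deriv f 0 = 1) (hG : DifferentiableOn ℂ G (ball 0 1)) (G0 : G 0 = 0)
    (G1 : deriv G 0 = 1)
    (hs : Summable fun k : ℕ => ((k : ℝ) + 2) * ‖tc f (k + 2) - tc G (k + 2)‖)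
    (hsum : ∑' k : ℕ, ((k : ℝ) + 2) * ‖tc f (k + 2) - tc G (k + 2)‖ ≤ Real.exp (Mf A B 1)) :
    InjOn G (ball 0 1) ∧ StarConvex ℝ 0 (G '' ball 0 1) := by
  have h00 : (0 : ℂ) ∈ ball (0 : ℂ) 1 := mem_ball_self one_pos
  have hnb : ball (0 : ℂ) 1 ∈ 𝓝 (0 : ℂ) := isOpen_ball.mem_nhds h00
  have hgG : DifferentiableOn ℂ (dslope G 0) (ball 0 1) := (Complex.differentiableOn_dslope hnb).2 hG
  obtain ⟨e, he⟩ : ∃ e : ℕ → ℂ, e = fun k => tc G (k + 2) - tc f (k + 2) := ⟨_, rfl⟩
  have hse : Summable fun k : ℕ => ((k : ℝ) + 2) * ‖e k‖ := by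
    refine hs.congr fun k => ?_
    rw [he, norm_sub_rev]
  have hsume : ∑' k : ℕ, ((k : ℝ) + 2) * ‖e k‖ ≤ Real.exp (Mf A B 1) := by
    refine le_trans (le_of_eq (tsum_congr fun k => ?_)) hsum
    rw [he, norm_sub_rev]
  have htc0 : ∀ F : ℂ → ℂ, tc F 0 = F 0 := by intro F; simp [tc]
  have htc1 : ∀ F : ℂ → ℂ, tc F 1 = deriv F 0 := by intro F; simp [tc, iteratedDeriv_one]
  -- the difference
  have hdiff : ∀ z ∈ ball (0 : ℂ) 1, HasSum (fun k : ℕ => e k * z ^ (k + 2)) (G z - f z) := by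
    intro z hz
    have h1 := (tc_hasSum hG hz).sub (tc_hasSum hf hz)
    have h2 := (hasSum_nat_add_iff' 2).2 h1
    rw [Finset.sum_range_succ, Finset.sum_range_one, htc0, htc0, htc1, htc1, G0, f0, G1, f1] at h2
    simp only [sub_self, sub_zero, zero_mul, add_zero] at h2
    refine h2.congr_fun ?_ |> fun h => h
    intro k
    rw [he]
    ring
  have hder : ∀ z ∈ ball (0 : ℂ) 1, HasSum (fun k : ℕ => e k * (((k : ℂ) + 2) * z ^ (k + 1)))
      (deriv G z - deriv f z) := by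
    intro z hz
    have hb : ∀ (k : ℕ) (y : ℂ), y ∈ ball (0 : ℂ) 1 → ‖e k * (((k : ℂ) + 2) * y ^ (k + 1))‖ ≤
        ((k : ℝ) + 2) * ‖e k‖ := by
      intro k y hy
      have hy1 : ‖y‖ ≤ 1 := (mem_ball_zero_iff.1 hy).le
      have e1 : ‖(k : ℂ) + 2‖ = (k : ℝ) + 2 := by
        have : ((k : ℂ) + 2) = (((k : ℝ) + 2 : ℝ) : ℂ) := by push_cast; ring
        rw [this, Complex.norm_real, Real.norm_of_nonneg (by positivity)]
      rw [norm_mul, norm_mul, norm_pow, e1]
      have h2 : ‖y‖ ^ (k + 1) ≤ 1 := pow_le_one₀ (norm_nonneg y) hy1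
      have h3 := norm_nonneg (e k)
      have h4 : (0 : ℝ) ≤ (k : ℝ) + 2 := by positivity
      calc ‖e k‖ * (((k : ℝ) + 2) * ‖y‖ ^ (k + 1)) = (((k : ℝ) + 2) * ‖e k‖) * ‖y‖ ^ (k + 1) := by ring
        _ ≤ (((k : ℝ) + 2) * ‖e k‖) * 1 := mul_le_mul_of_nonneg_left h2 (by positivity)
        _ = _ := mul_one _
    have h1 := hasDerivAt_tsum_of_isPreconnected (g := fun (k : ℕ) (z : ℂ) => e k * z ^ (k + 2))
      (g' := fun (k : ℕ) (z : ℂ) => e k * (((k : ℂ) + 2) * z ^ (k + 1))) hse isOpen_ball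
      (convex_ball (0 : ℂ) 1).isPreconnected (fun k y _ => by
        have := (hasDerivAt_pow (k + 2) y).const_mul (e k)
        refine this.congr_deriv ?_
        push_cast
        simp) hb h00 (hdiff 0 h00).summable hz
    have h2 : (fun z => G z - f z) =ᶠ[𝓝 z] fun z => ∑' k : ℕ, e k * z ^ (k + 2) := by
      filter_upwards [isOpen_ball.mem_nhds hz] with x hx using (hdiff x hx).tsum_eq.symm
    have h3 := (h1.congr_of_eventuallyEq h2).deriv
    have dG : DifferentiableAt ℂ G z := hG.differentiableAt (isOpen_ball.mem_nhds hz)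
    have df : DifferentiableAt ℂ f z := hf.differentiableAt (isOpen_ball.mem_nhds hz)
    have h4 : deriv (fun z => G z - f z) z = deriv G z - deriv f z := deriv_fun_sub dG df
    rw [h4] at h3
    rw [h3]
    have hs2 : Summable fun k : ℕ => e k * (((k : ℂ) + 2) * z ^ (k + 1)) :=
      Summable.of_norm_bounded hse (fun k => hb k z hz)
    exact hs2.hasSum
  have hsl : ∀ z ∈ ball (0 : ℂ) 1, HasSum (fun k : ℕ => e k * z ^ (k + 1))
      (dslope G 0 z - dslope f 0 z) := by
    intro z hz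
    by_cases hz0 : z = 0
    · rw [hz0, dslope_same, dslope_same, G1, f1, sub_self]
      have : (fun k : ℕ => e k * (0 : ℂ) ^ (k + 1)) = fun _ => 0 := by
        funext k
        simp
      rw [this]
      exact hasSum_zero
    · have h1 := (hdiff z hz).mul_left z⁻¹
      rw [dslope_of_ne _ hz0, dslope_of_ne _ hz0, slope_def_field, slope_def_field, G0, f0, sub_zero,
        sub_zero, sub_zero]
      have e1 : z⁻¹ * (G z - f z) = G z / z - f z / z := by field_simp
      rw [e1] at h1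
      refine h1.congr_fun ?_ |> fun h => h
      intro k
      field_simp
      ring
  -- the lower bound
  have hlow : ∀ z ∈ ball (0 : ℂ) 1, ∀ a : ℂ, ‖a‖ = 1 → uu (deriv G) (dslope G 0) a z ≠ 0 := by
    intro z hz a ha h0
    have h1 := D.le hz ha
    have h2 : HasSum (fun k : ℕ => (a.re : ℂ) * (e k * (((k : ℂ) + 2) * z ^ (k + 1))) -
        I * (a.im : ℂ) * (e k * z ^ (k + 1)))
        ((a.re : ℂ) * (deriv G z - deriv f z) - I * (a.im : ℂ) * (dslope G 0 z - dslope f 0 z)) :=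
      ((hder z hz).mul_left _).sub ((hsl z hz).mul_left _)
    have h3 : (a.re : ℂ) * (deriv G z - deriv f z) - I * (a.im : ℂ) * (dslope G 0 z - dslope f 0 z) =
        -uu (deriv f) (dslope f 0) a z := by
      unfold uu at h0 ⊢
      linear_combination h0
    rw [h3] at h2
    have h4 : HasSum (fun k : ℕ => ‖z‖ * (((k : ℝ) + 2) * ‖e k‖)) (‖z‖ * ∑' k : ℕ, ((k : ℝ) + 2) * ‖e k‖) :=
      hse.hasSum.mul_left _
    have hz1 : ‖z‖ < 1 := mem_ball_zero_iff.1 hz
    have h5 : ‖-uu (deriv f) (dslope f 0) a z‖ ≤ ‖z‖ * ∑' k : ℕ, ((k : ℝ) + 2) * ‖e k‖ := by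
      rw [← h2.tsum_eq]
      apply tsum_of_norm_bounded h4
      intro k
      have e1 : (a.re : ℂ) * (e k * (((k : ℂ) + 2) * z ^ (k + 1))) - I * (a.im : ℂ) * (e k * z ^ (k + 1)) =
          (e k * z ^ (k + 1)) * (((a.re * ((k : ℝ) + 2) : ℝ) : ℂ) - (a.im : ℂ) * I) := by
        push_cast
        ring
      have e2 : ‖((a.re * ((k : ℝ) + 2) : ℝ) : ℂ) - (a.im : ℂ) * I‖ ≤ (k : ℝ) + 2 := by
        apply le_of_sq_le_sq _ (by positivity)
        have hcs : a.re ^ 2 + a.im ^ 2 = 1 := by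
          have := Complex.normSq_eq_norm_sq a
          rw [ha, Complex.normSq_apply] at this
          linarith
        rw [← Complex.normSq_eq_norm_sq, Complex.normSq_apply]
        simp only [sub_re, ofReal_re, mul_re, ofReal_im, I_re, I_im, sub_im, mul_im]
        have hk : (1 : ℝ) ≤ ((k : ℝ) + 2) ^ 2 := by
          have : (0 : ℝ) ≤ k := Nat.cast_nonneg k
          nlinarith
        nlinarith [mul_nonneg (sq_nonneg a.im) (by linarith : (0 : ℝ) ≤ ((k : ℝ) + 2) ^ 2 - 1)]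
      rw [e1, norm_mul, norm_mul, norm_pow]
      have h6 : ‖z‖ ^ (k + 1) ≤ ‖z‖ := by
        rw [pow_succ]
        have := pow_le_one₀ (n := k) (norm_nonneg z) hz1.le
        nlinarith [norm_nonneg z]
      calc ‖e k‖ * ‖z‖ ^ (k + 1) * ‖((a.re * ((k : ℝ) + 2) : ℝ) : ℂ) - (a.im : ℂ) * I‖
          ≤ ‖e k‖ * ‖z‖ * ((k : ℝ) + 2) := by
            apply mul_le_mul _ e2 (norm_nonneg _) (by positivity)
            exact mul_le_mul_of_nonneg_left h6 (norm_nonneg _)
        _ = _ := by ring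
    rw [norm_neg] at h5
    have h6 : Real.exp (Mf A B 1) ≤ Real.exp (Mf A B ‖z‖) :=
      Real.exp_le_exp.2 (Mf_anti hB hBA hA (norm_nonneg z) hz1.le)
    have h7 : ‖z‖ * ∑' k : ℕ, ((k : ℝ) + 2) * ‖e k‖ ≤ ‖z‖ * Real.exp (Mf A B 1) :=
      mul_le_mul_of_nonneg_left hsume (norm_nonneg z)
    have h8 := Real.exp_pos (Mf A B 1)
    nlinarith
  -- positivity
  have hpos : ∀ z ∈ ball (0 : ℂ) 1, 0 < (deriv G z * (starRingEnd ℂ) (dslope G 0 z)).re := by
    intro z hz
    by_contra hcon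
    push Not at hcon
    have hz1 : ‖z‖ < 1 := mem_ball_zero_iff.1 hz
    set Ψ : ℝ → ℝ := fun t => (deriv G ((t : ℂ) * z) * (starRingEnd ℂ) (dslope G 0 ((t : ℂ) * z))).re with hΨ
    have hmem : ∀ t ∈ Icc (0 : ℝ) 1, (t : ℂ) * z ∈ ball (0 : ℂ) 1 := by
      intro t ht
      rw [mem_ball_zero_iff, norm_mul, Complex.norm_real, Real.norm_of_nonneg ht.1]
      nlinarith [ht.2, norm_nonneg z]
    have hc : ContinuousOn Ψ (Icc 0 1) := by
      have c0 : ContinuousOn (fun t : ℝ => (t : ℂ) * z) (Icc 0 1) := by fun_prop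
      have c1 : ContinuousOn (fun t : ℝ => deriv G ((t : ℂ) * z)) (Icc 0 1) :=
        (hG.deriv isOpen_ball).continuousOn.comp c0 hmem
      have c2 : ContinuousOn (fun t : ℝ => dslope G 0 ((t : ℂ) * z)) (Icc 0 1) :=
        hgG.continuousOn.comp c0 hmem
      exact continuous_re.comp_continuousOn (c1.mul (continuous_conj.comp_continuousOn c2))
    have h1 : (0 : ℝ) ∈ Icc (Ψ 1) (Ψ 0) := by
      constructor
      · simpa [hΨ] using hcon
      · simp [hΨ, G1]
    obtain ⟨t, ht, htz⟩ := intermediate_value_Icc' zero_le_one hc h1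
    obtain ⟨a, ha, ha0⟩ := exists_zero (p := deriv G) (g := dslope G 0) htz
    exact hlow _ (hmem t ht) a ha ha0
  refine starlike_of_pos hG hgG (fun z _ => ?_) hpos
  have := sub_smul_dslope G 0 z
  rw [G0, sub_zero, sub_zero, smul_eq_mul] at this
  exact this.symm

/-- **The extremal function.** -/
theorem extremal {A B : ℝ} (hB : -1 ≤ B) (hBA : B < A) (hA : A ≤ 1) :
    ∃ f : ℂ → ℂ, DifferentiableOn ℂ f (ball 0 1) ∧ f 0 = 0 ∧ deriv f 0 = 1 ∧
      (∀ z ∈ ball (0 : ℂ) 1, deriv f z ≠ 0) ∧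
      (∀ z ∈ ball (0 : ℂ) 1, 1 + z * deriv (deriv f) z / deriv f z = (1 + A * z) / (1 + B * z)) ∧
      ∀ r : ℝ, 0 < r → r < 1 → deriv f (-(r : ℂ)) = (Real.exp (Mf A B r) : ℝ) := by
  have h00 : (0 : ℂ) ∈ ball (0 : ℂ) 1 := mem_ball_self one_pos
  have hB1 : |B| ≤ 1 := by rw [abs_le]; constructor <;> linarith
  have hre : ∀ z ∈ ball (0 : ℂ) 1, 0 < (1 + B * z).re := by
    intro z hz
    have hz1 : ‖z‖ < 1 := mem_ball_zero_iff.1 hz
    have h1 : ‖(B : ℂ) * z‖ < 1 := by
      rw [norm_mul, Complex.norm_real, Real.norm_eq_abs]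
      nlinarith [norm_nonneg z, abs_nonneg B]
    have h2 := (abs_le.1 (abs_re_le_norm ((B : ℂ) * z))).1
    rw [add_re, one_re]
    linarith
  have hne1 : ∀ z ∈ ball (0 : ℂ) 1, (1 + B * z : ℂ) ≠ 0 := by
    intro z hz h
    have := hre z hz
    rw [h] at this
    simp at this
  -- the derivative
  obtain ⟨T, hT0, hT, hTr⟩ : ∃ T : ℂ → ℂ, T 0 = 0 ∧
      (∀ z ∈ ball (0 : ℂ) 1, HasDerivAt T ((A - B) / (1 + B * z)) z) ∧
      ∀ r : ℝ, 0 < r → r < 1 → T (-(r : ℂ)) = (Mf A B r : ℝ) := by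
    by_cases hB0 : B = 0
    · refine ⟨fun z => A * z, by simp, ?_, ?_⟩
      · intro z _
        have := (hasDerivAt_id z).const_mul (A : ℂ)
        refine this.congr_deriv ?_
        simp [hB0]
      · intro r _ _
        simp [Mf, hB0]
    · have hBc : (B : ℂ) ≠ 0 := by exact_mod_cast hB0
      refine ⟨fun z => (A - B) / B * Complex.log (1 + B * z), by simp, ?_, ?_⟩
      · intro z hz
        have h1 : HasDerivAt (fun z : ℂ => 1 + (B : ℂ) * z) ((B : ℂ) * 1) z :=
          ((hasDerivAt_id z).const_mul (B : ℂ)).const_add 1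
        have h2 := (h1.clog (Or.inl (hre z hz))).const_mul (((A : ℂ) - B) / B)
        refine h2.congr_deriv ?_
        have := hne1 z hz
        field_simp
      · intro r hr0 hr1
        have hp := Bpos hB hBA hA hr0.le hr1.le
        have e1 : (1 + (B : ℂ) * -(r : ℂ)) = ((1 - B * r : ℝ) : ℂ) := by push_cast; ring
        simp only [Mf, if_neg hB0]
        rw [e1, ← Complex.ofReal_log hp.le]
        push_cast
        ring
  have hTd : DifferentiableOn ℂ T (ball 0 1) := fun z hz =>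
    (hT z hz).differentiableAt.differentiableWithinAt
  obtain ⟨f, f0, hf⟩ := (hTd.cexp.isExactOn_ball).with_val_at 0 0
  have hfd : ∀ z ∈ ball (0 : ℂ) 1, deriv f z = Complex.exp (T z) := fun z hz => (hf z hz).deriv
  refine ⟨f, fun z hz => (hf z hz).differentiableAt.differentiableWithinAt, f0, ?_, ?_, ?_, ?_⟩
  · rw [hfd 0 h00, hT0, Complex.exp_zero]
  · intro z hz
    rw [hfd z hz]
    exact Complex.exp_ne_zero _
  · intro z hz
    have h1 : deriv f =ᶠ[𝓝 z] fun z => Complex.exp (T z) := by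
      filter_upwards [isOpen_ball.mem_nhds hz] with x hx using hfd x hx
    rw [h1.deriv_eq, hfd z hz, (hT z hz).cexp.deriv]
    have h2 := Complex.exp_ne_zero (T z)
    have h3 := hne1 z hz
    have e : z * (Complex.exp (T z) * ((A - B) / (1 + B * z))) / Complex.exp (T z) =
        z * ((A - B) / (1 + B * z)) := by
      rw [mul_left_comm, mul_div_assoc, mul_comm (Complex.exp (T z)), div_mul_cancel₀ _ h2]
    rw [e, eq_div_iff h3, add_mul, mul_assoc z, div_mul_cancel₀ _ h3]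
    ring
  · intro r hr0 hr1
    have hm : -(r : ℂ) ∈ ball (0 : ℂ) 1 := by
      rw [mem_ball_zero_iff, norm_neg, Complex.norm_real, Real.norm_of_nonneg hr0.le]
      exact hr1
    rw [hfd _ hm, hTr r hr0 hr1, Complex.ofReal_exp]

theorem tc_add_sq {f : ℂ → ℂ} (hf : DifferentiableOn ℂ f (ball 0 1)) (c : ℂ) (k : ℕ) :
    tc (fun z => f z + c * z ^ 2) k = tc f k + if k = 2 then c else 0 := by
  have h00 : (0 : ℂ) ∈ ball (0 : ℂ) 1 := mem_ball_self one_pos
  have h1 : ContDiffAt ℂ k f 0 := (hf.analyticAt (isOpen_ball.mem_nhds h00)).contDiffAt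
  have h2 : ContDiffAt ℂ k (fun z : ℂ => c * z ^ 2) 0 := by fun_prop
  have h3 : iteratedDeriv k (fun z => f z + c * z ^ 2) 0 =
      iteratedDeriv k f 0 + iteratedDeriv k (fun z : ℂ => c * z ^ 2) 0 :=
    iteratedDeriv_fun_add h1 h2
  have h4 : iteratedDeriv k (fun z : ℂ => c * z ^ 2) 0 = if k = 2 then 2 * c else 0 := by
    have h5 : iteratedDeriv k (fun z : ℂ => c * z ^ 2) 0 = c * iteratedDeriv k (fun z : ℂ => z ^ 2) 0 := by
      rw [iteratedDeriv_const_mul_field]
    rw [h5, iteratedDeriv_eq_iterate, iter_deriv_pow]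
    rcases k with _ | _ | _ | k
    · simp
    · simp
    · simp [Finset.prod_range_succ]
      ring
    · simp
      right
      apply Finset.prod_eq_zero (i := 2) (by simp)
      simp
  unfold tc
  rw [h3, h4]
  by_cases hk : k = 2
  · rw [if_pos hk, if_pos hk, hk]
    simp [Nat.factorial]
    ring
  · rw [if_neg hk, if_neg hk, add_zero, add_zero]

end Pool.Agent.R250.GN
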