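import Pool.Agent.W677.MarE
import Pool.Agent.W677.MarM
import Pool.Agent.W677.MarGa

set_option autoImplicit false

/-! # Exponential moments of holomorphic functions at Bloch distance `ρ` from a radial drift -/

namespace Pool.Agent.R250.MC

open Complex Metric Set Filter Topology MeasureTheory
open Pool.Agent.W677.Mar

/-- the bounded corrector `(1 - x) log (1 - x) + 2 x` -/
noncomputable def Wf (x : ℝ) : ℝ := -((1 - x) * lam x) + 2 * x

theorem Wf_le {x : ℝ} (h0 : 0 ≤ x) (h1 : x < 1) : Wf x ≤ 2 := by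
  have := mul_nonneg (by linarith : 0 ≤ 1 - x) (lam_nonneg h0 h1)
  unfold Wf
  linarith

/-- The condition `|P - 2 c₀ x|² ≤ (4 κ + 4 c (1 - x)) x`, `x = |v|²`, `P = (1 - x) v H'(v)`. -/
def Drift (c₀ : ℂ) (κ c : ℝ) (H : ℂ → ℂ) : Prop :=
  ∀ v ∈ ball (0 : ℂ) 1, ∀ P : ℂ, P = ((1 - ‖v‖ ^ 2 : ℝ) : ℂ) * (v * deriv H v) →
    ‖P - 2 * c₀ * ((‖v‖ ^ 2 : ℝ) : ℂ)‖ ^ 2 ≤ (4 * κ + 4 * c * (1 - ‖v‖ ^ 2)) * ‖v‖ ^ 2

theorem norm_sub_sq' (P c : ℂ) (x : ℝ) :
    ‖P - 2 * c * (x : ℂ)‖ ^ 2 = ‖P‖ ^ 2 - 4 * x * ((starRingEnd ℂ) c * P).re + 4 * ‖c‖ ^ 2 * x ^ 2 := by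
  rw [← Complex.normSq_eq_norm_sq, ← Complex.normSq_eq_norm_sq, ← Complex.normSq_eq_norm_sq,
    Complex.normSq_apply, Complex.normSq_apply, Complex.normSq_apply]
  simp only [sub_re, sub_im, mul_re, mul_im, conj_re, conj_im, ofReal_re, ofReal_im, re_ofNat, im_ofNat]
  ring

theorem x_d (s : ℝ) : HasDerivAt (fun s : ℝ => Real.exp s ^ 2) (2 * Real.exp s ^ 2) s := by
  have := (Real.hasDerivAt_exp s).pow 2
  refine this.congr_deriv ?_
  push_cast
  ring

theorem lamx_d {s : ℝ} (hx : Real.exp s ^ 2 < 1) :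
    HasDerivAt (fun s : ℝ => lam (Real.exp s ^ 2)) (2 * Real.exp s ^ 2 / (1 - Real.exp s ^ 2)) s := by
  have h4 := (lam_deriv hx).comp s (x_d s)
  refine h4.congr_deriv ?_
  ring

theorem xx_d {s : ℝ} (hx : Real.exp s ^ 2 < 1) :
    HasDerivAt (fun s : ℝ => 2 * Real.exp s ^ 2 / (1 - Real.exp s ^ 2))
      (4 * Real.exp s ^ 2 / (1 - Real.exp s ^ 2) ^ 2) s := by
  have hx' : 1 - Real.exp s ^ 2 ≠ 0 := by linarith
  have h4 := ((x_d s).const_mul 2).div ((x_d s).const_sub 1) hx'
  refine h4.congr_deriv ?_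
  field_simp
  ring

theorem Wfx_d {s : ℝ} (hx : Real.exp s ^ 2 < 1) :
    HasDerivAt (fun s : ℝ => Wf (Real.exp s ^ 2)) (2 * Real.exp s ^ 2 * (1 + lam (Real.exp s ^ 2))) s := by
  have hx' : 1 - Real.exp s ^ 2 ≠ 0 := by linarith
  have h := ((((x_d s).const_sub 1).fun_mul (lamx_d hx)).fun_neg).fun_add ((x_d s).const_mul 2)
  refine h.congr_deriv ?_
  field_simp
  ring

theorem Wfxx_d {s : ℝ} (hx : Real.exp s ^ 2 < 1) :
    HasDerivAt (fun s : ℝ => 2 * Real.exp s ^ 2 * (1 + lam (Real.exp s ^ 2)))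
      (4 * Real.exp s ^ 2 * (lam (Real.exp s ^ 2) + 1 / (1 - Real.exp s ^ 2))) s := by
  have hx' : 1 - Real.exp s ^ 2 ≠ 0 := by linarith
  have h := ((x_d s).const_mul 2).fun_mul ((lamx_d hx).const_add 1)
  refine h.congr_deriv ?_
  field_simp
  ring

theorem wd_one : WD (fun _ => 1) (fun _ => 0) (fun _ => 0) :=
  ⟨fun θ => hasDerivAt_const θ _, fun θ => hasDerivAt_const θ _, continuous_const, fun _ => rfl,
    fun _ => rfl⟩

/-- **Exponential moments.** -/
theorem moments {H : ℂ → ℂ} (hH : DifferentiableOn ℂ H (ball 0 1)) (h0 : H 0 = 0) {cc₀ : ℂ} {κ c : ℝ}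
    (hκ : 0 ≤ κ) (hc : 0 ≤ c) (hD : Drift cc₀ κ c H) (t : ℂ) {r : ℝ} (hr0 : 0 < r)
    (hr1 : r < 1) :
    ∫ θ in (0 : ℝ)..(2 * Real.pi), Real.exp ((starRingEnd ℂ) t * H (pt r θ)).re ≤
      2 * Real.pi * Real.exp (‖t‖ ^ 2 * (κ * lam (r ^ 2) + c * Wf (r ^ 2))) := by
  have hpi := Real.pi_pos
  obtain ⟨c₀, hc₀d⟩ : ∃ c₀, c₀ = ‖cc₀‖ := ⟨_, rfl⟩
  have hc₀ : 0 ≤ c₀ := hc₀d ▸ norm_nonneg cc₀
  obtain ⟨τ, hτ⟩ : ∃ τ, τ = ‖t‖ := ⟨_, rfl⟩
  have hτ0 : 0 ≤ τ := hτ ▸ norm_nonneg t
  rw [← hτ]
  set k : ℂ → ℂ := fun z => (starRingEnd ℂ) t * H z with hk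
  have hkD : DifferentiableOn ℂ k (ball 0 1) := hH.const_mul _
  have hkd : ∀ z ∈ ball (0 : ℂ) 1, deriv k z = (starRingEnd ℂ) t * deriv H z := by
    intro z hz
    exact ((hH.differentiableAt (isOpen_ball.mem_nhds hz)).hasDerivAt.const_mul _).deriv
  have hK := kd_of (R₁ := 1) one_pos hkD
  rw [Real.log_one] at hK
  set K : ℂ → ℂ := fun ζ => k (Complex.exp ζ) with hKd
  set K1 : ℂ → ℂ := fun ζ => Complex.exp ζ * deriv k (Complex.exp ζ) with hK1d
  set G : ℝ → ℝ := fun s => ∫ θ in (0 : ℝ)..(2 * Real.pi), (1 : ℝ) * Real.exp (K (zt s θ)).re with hG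
  set G1 : ℝ → ℝ := fun s => ∫ θ in (0 : ℝ)..(2 * Real.pi),
    (1 : ℝ) * (Real.exp (K (zt s θ)).re * (K1 (zt s θ)).re) with hG1
  set G2 : ℝ → ℝ := fun s => (∫ θ in (0 : ℝ)..(2 * Real.pi),
    (1 : ℝ) * (Real.exp (K (zt s θ)).re * ‖K1 (zt s θ)‖ ^ 2)) -
    ∫ θ in (0 : ℝ)..(2 * Real.pi), (0 : ℝ) * Real.exp (K (zt s θ)).re with hG2
  have dG : ∀ s < 0, HasDerivAt G (G1 s) s := fun s hs => en1 hK wd_one hs
  have dG1 : ∀ s < 0, HasDerivAt G1 (G2 s) s := fun s hs => en2 hK wd_one hs
  have hGn : ∀ s, 0 ≤ G s := by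
    intro s
    apply intervalIntegral.integral_nonneg (by positivity)
    intro θ _
    positivity
  have cc : ∀ {f : ℂ → ℂ} {s : ℝ}, s < 0 → ContinuousOn f {ζ : ℂ | ζ.re < 0} →
      Continuous fun θ : ℝ => f (zt s θ) := by
    intro f s hs hf
    apply hf.comp_continuous (zt_cont.comp (continuous_const.prodMk continuous_id))
    intro θ
    show (zt s θ).re < 0
    rw [zt_re]
    exact hs
  have hG2n : ∀ s < 0, 0 ≤ G2 s := by
    intro s hs
    simp only [hG2, zero_mul, intervalIntegral.integral_zero, sub_zero]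
    apply intervalIntegral.integral_nonneg (by positivity)
    intro θ _
    positivity
  -- smallness of `G1` near `-∞`
  have hsmall : ∀ ε : ℝ, 0 < ε → ∀ s < 0, ∃ a < s, |G1 a| ≤ ε := by
    intro ε hε s hs
    have hcomp : IsCompact (closedBall (0 : ℂ) (1 / 2)) := isCompact_closedBall _ _
    have hsub : closedBall (0 : ℂ) (1 / 2) ⊆ ball 0 1 := closedBall_subset_ball (by norm_num)
    obtain ⟨M, hM⟩ := hcomp.exists_bound_of_continuousOn (hkD.continuousOn.mono hsub)
    obtain ⟨M', hM'⟩ := hcomp.exists_bound_of_continuousOn ((hkD.deriv isOpen_ball).continuousOn.mono hsub)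
    have hM0 : 0 ≤ M := (norm_nonneg _).trans (hM 0 (by simp))
    have hM'0 : 0 ≤ M' := (norm_nonneg _).trans (hM' 0 (by simp))
    obtain ⟨A, hA⟩ : ∃ A, A = 2 * Real.pi * (Real.exp M * M') + 1 := ⟨_, rfl⟩
    have hA0 : 0 < A := by rw [hA]; positivity
    obtain ⟨a, ha⟩ : ∃ a, a = min (s - 1) (min (-1) (Real.log (ε / A))) := ⟨_, rfl⟩
    have ha1 : a < s := by
      have := min_le_left (s - 1) (min (-1) (Real.log (ε / A)))
      rw [ha]; linarith
    have ha2 : a ≤ -1 := by rw [ha]; exact (min_le_right _ _).trans (min_le_left _ _)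
    have ha3 : Real.exp a ≤ ε / A := by
      rw [← Real.exp_log (show 0 < ε / A by positivity)]
      apply Real.exp_le_exp.2
      rw [ha]
      exact (min_le_right _ _).trans (min_le_right _ _)
    have he : Real.exp a ≤ 1 / 2 := by
      have h1 := Real.exp_le_exp.2 ha2
      have h2 := Real.exp_neg_one_lt_d9
      linarith
    refine ⟨a, ha1, ?_⟩
    have hb : ∀ θ ∈ uIoc (0 : ℝ) (2 * Real.pi),
        ‖(1 : ℝ) * (Real.exp (K (zt a θ)).re * (K1 (zt a θ)).re)‖ ≤ Real.exp M * (Real.exp a * M') := by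
      intro θ _
      have hz : Complex.exp (zt a θ) ∈ closedBall (0 : ℂ) (1 / 2) := by
        rw [mem_closedBall_zero_iff, Complex.norm_exp, zt_re]; exact he
      rw [one_mul, norm_mul, Real.norm_of_nonneg (Real.exp_pos _).le]
      apply mul_le_mul _ _ (norm_nonneg _) (Real.exp_pos _).le
      · apply Real.exp_le_exp.2
        exact (re_le_norm _).trans (hM _ hz)
      · rw [Real.norm_eq_abs]
        refine (abs_re_le_norm _).trans ?_
        simp only [hK1d]
        rw [norm_mul, Complex.norm_exp, zt_re]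
        exact mul_le_mul_of_nonneg_left (hM' _ hz) (Real.exp_pos _).le
    have h1 := intervalIntegral.norm_integral_le_of_norm_le_const hb
    rw [sub_zero, abs_of_pos (by positivity)] at h1
    rw [← Real.norm_eq_abs]
    refine h1.trans ?_
    calc Real.exp M * (Real.exp a * M') * (2 * Real.pi) = (2 * Real.pi * (Real.exp M * M')) * Real.exp a := by
          ring
      _ ≤ A * (ε / A) := by
          apply mul_le_mul _ ha3 (Real.exp_pos _).le hA0.le
          rw [hA]; linarith
      _ = ε := by field_simp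
  have hG1n : ∀ s < 0, 0 ≤ G1 s := by
    intro s hs
    apply le_of_forall_pos_le_add
    intro ε hε
    obtain ⟨a, ha, hae⟩ := hsmall ε hε s hs
    have hmono : MonotoneOn G1 (Icc a s) := by
      apply monotoneOn_of_deriv_nonneg (convex_Icc a s)
      · intro u hu
        exact (dG1 u (hu.2.trans_lt hs)).continuousAt.continuousWithinAt
      · intro u hu
        exact (dG1 u ((interior_subset hu).2.trans_lt hs)).differentiableAt.differentiableWithinAt
      · intro u hu
        have hu' : u < 0 := (interior_subset hu).2.trans_lt hs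
        rw [(dG1 u hu').deriv]
        exact hG2n u hu'
    have h1 := hmono ⟨le_rfl, ha.le⟩ ⟨ha.le, le_rfl⟩ ha.le
    rw [abs_le] at hae
    linarith [hae.1]
  -- the comparison function
  set x : ℝ → ℝ := fun s => Real.exp s ^ 2 with hx
  have hxI : ∀ s < 0, 0 < x s ∧ x s < 1 := by
    intro s hs
    have h1 : Real.exp s < 1 := Real.exp_lt_one_iff.2 hs
    have h2 := Real.exp_pos s
    simp only [hx]
    constructor
    · positivity
    · nlinarith
  set Φ1 : ℝ → ℝ := fun s => κ * (2 * x s / (1 - x s)) + c * (2 * x s * (1 + lam (x s))) with hΦ1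
  set Φ2 : ℝ → ℝ := fun s => κ * (4 * x s / (1 - x s) ^ 2) +
    c * (4 * x s * (lam (x s) + 1 / (1 - x s))) with hΦ2
  set S : ℝ → ℝ := fun s => Real.exp (τ ^ 2 * (κ * lam (x s) + c * Wf (x s))) with hS
  set S1 : ℝ → ℝ := fun s => S s * (τ ^ 2 * Φ1 s) with hS1
  set S2 : ℝ → ℝ := fun s => S s * (τ ^ 2 * Φ1 s) * (τ ^ 2 * Φ1 s) + S s * (τ ^ 2 * Φ2 s) with hS2
  set E : ℝ → ℝ := fun s => Real.exp (-(2 * c₀ * τ * lam (x s))) with hE
  set p : ℝ → ℝ := fun s => 4 * c₀ * τ * x s / (1 - x s) with hp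
  set q : ℝ → ℝ := fun s => τ ^ 2 * ((4 * κ + 4 * c * (1 - x s)) * x s - 4 * c₀ ^ 2 * x s ^ 2) /
    (1 - x s) ^ 2 with hq
  have hS0 : ∀ s, 0 < S s := fun s => Real.exp_pos _
  have hE0 : ∀ s, 0 < E s := fun s => Real.exp_pos _
  have dS : ∀ s < 0, HasDerivAt S (S1 s) s := by
    intro s hs
    have h1 := ((((lamx_d (hxI s hs).2).const_mul κ).fun_add
      ((Wfx_d (hxI s hs).2).const_mul c)).const_mul (τ ^ 2)).exp
    exact h1
  have dS1 : ∀ s < 0, HasDerivAt S1 (S2 s) s := by
    intro s hs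
    exact (dS s hs).fun_mul ((((xx_d (hxI s hs).2).const_mul κ).fun_add
      ((Wfxx_d (hxI s hs).2).const_mul c)).const_mul (τ ^ 2))
  have dE : ∀ s < 0, HasDerivAt E (-(p s * E s)) s := by
    intro s hs
    have h1 := (((lamx_d (hxI s hs).2).const_mul (2 * c₀ * τ)).fun_neg).exp
    refine h1.congr_deriv ?_
    simp only [hp, hE, hx]
    ring
  have hΦ1n : ∀ s < 0, 0 ≤ Φ1 s := by
    intro s hs
    obtain ⟨h1, h2⟩ := hxI s hs
    have h3 := lam_nonneg h1.le h2
    have h4 : 0 < 1 - x s := by linarith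
    simp only [hΦ1]
    positivity
  have hS1n : ∀ s < 0, 0 ≤ S1 s := by
    intro s hs
    have := hΦ1n s hs
    have := (hS0 s).le
    simp only [hS1]
    positivity
  -- the differential inequality for `G`
  have hGi : ∀ s < 0, G2 s ≤ p s * G1 s + q s * G s := by
    intro s hs
    obtain ⟨h3, h4⟩ := hxI s hs
    have hy : 0 < 1 - x s := by linarith
    have c0 := cc hs (kcK hK)
    have c1 := cc hs (kcK1 hK)
    have ce : Continuous fun θ : ℝ => Real.exp (K (zt s θ)).re :=
      Real.continuous_exp.comp (continuous_re.comp c0)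
    have i1 : IntervalIntegrable (fun θ : ℝ => Real.exp (K (zt s θ)).re * (K1 (zt s θ)).re)
        volume 0 (2 * Real.pi) := (ce.mul (continuous_re.comp c1)).intervalIntegrable _ _
    have i2 : IntervalIntegrable (fun θ : ℝ => Real.exp (K (zt s θ)).re * (K1 (zt s θ)).im)
        volume 0 (2 * Real.pi) := (ce.mul (continuous_im.comp c1)).intervalIntegrable _ _
    have i3 : IntervalIntegrable (fun θ : ℝ => Real.exp (K (zt s θ)).re)
        volume 0 (2 * Real.pi) := ce.intervalIntegrable _ _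
    have i4 : IntervalIntegrable (fun θ : ℝ => Real.exp (K (zt s θ)).re * ‖K1 (zt s θ)‖ ^ 2)
        volume 0 (2 * Real.pi) := (ce.mul (c1.norm.pow 2)).intervalIntegrable _ _
    set A : ℝ := 4 * x s / (1 - x s) with hA
    have hA0 : 0 ≤ A := by positivity
    obtain ⟨ω, hω⟩ : ∃ ω : ℂ, ω = (starRingEnd ℂ) cc₀ * t := ⟨_, rfl⟩
    have hpt : ∀ θ : ℝ, ‖K1 (zt s θ)‖ ^ 2 ≤
        A * (ω.re * (K1 (zt s θ)).re - ω.im * (K1 (zt s θ)).im) + q s := by
      intro θ
      obtain ⟨v, hv⟩ : ∃ v, v = Complex.exp (zt s θ) := ⟨_, rfl⟩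
      have hvn : ‖v‖ = Real.exp s := by rw [hv, Complex.norm_exp, zt_re]
      have hv1 : v ∈ ball (0 : ℂ) 1 := by
        rw [mem_ball_zero_iff, hvn]; exact Real.exp_lt_one_iff.2 hs
      have hvx : ‖v‖ ^ 2 = x s := by rw [hvn]
      have hK1e : K1 (zt s θ) = (starRingEnd ℂ) t * (v * deriv H v) := by
        simp only [hK1d]
        rw [← hv, hkd v hv1]
        ring
      obtain ⟨J, hJ⟩ : ∃ J, J = v * deriv H v := ⟨_, rfl⟩
      have hDv := hD v hv1 _ rfl
      rw [hvx, ← hJ, norm_sub_sq'] at hDv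
      have e0 : (starRingEnd ℂ) cc₀ * (((1 - x s : ℝ) : ℂ) * J) =
          ((1 - x s : ℝ) : ℂ) * ((starRingEnd ℂ) cc₀ * J) := by ring
      rw [e0, norm_mul, Complex.norm_real, Real.norm_of_nonneg hy.le, Complex.re_ofReal_mul,
        ← hc₀d] at hDv
      rw [hK1e, ← hJ]
      have e1 : ω.re * ((starRingEnd ℂ) t * J).re - ω.im * ((starRingEnd ℂ) t * J).im =
          τ ^ 2 * ((starRingEnd ℂ) cc₀ * J).re := by
        rw [hτ, ← Complex.normSq_eq_norm_sq, Complex.normSq_apply, hω]
        simp only [mul_re, mul_im, conj_re, conj_im]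
        ring
      rw [e1, norm_mul, RCLike.norm_conj, ← hτ, mul_pow]
      obtain ⟨J', hJ'⟩ : ∃ J', J' = ((starRingEnd ℂ) cc₀ * J).re := ⟨_, rfl⟩
      rw [← hJ'] at hDv ⊢
      have e2 : A * (τ ^ 2 * J') + q s = τ ^ 2 * ((4 * x s * ((1 - x s) * J') +
          (4 * κ + 4 * c * (1 - x s)) * x s - 4 * c₀ ^ 2 * x s ^ 2) / (1 - x s) ^ 2) := by
        simp only [hA, hq]
        field_simp
        ring
      rw [e2]
      apply mul_le_mul_of_nonneg_left _ (sq_nonneg τ)
      rw [le_div_iff₀ (by positivity)]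
      calc ‖J‖ ^ 2 * (1 - x s) ^ 2 = ((1 - x s) * ‖J‖) ^ 2 := by ring
        _ ≤ _ := by linarith
    have hint : G2 s ≤ A * (ω.re * G1 s) + q s * G s := by
      simp only [hG2, hG1, hG, zero_mul, one_mul, intervalIntegral.integral_zero, sub_zero]
      have h5 : ∫ θ in (0 : ℝ)..(2 * Real.pi), Real.exp (K (zt s θ)).re * ‖K1 (zt s θ)‖ ^ 2 ≤
          ∫ θ in (0 : ℝ)..(2 * Real.pi), (A * (ω.re * (Real.exp (K (zt s θ)).re * (K1 (zt s θ)).re)) -
            A * (ω.im * (Real.exp (K (zt s θ)).re * (K1 (zt s θ)).im)) +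
            q s * Real.exp (K (zt s θ)).re) := by
        apply intervalIntegral.integral_mono_on (by positivity) i4
        · exact (((i1.const_mul _).const_mul _).sub ((i2.const_mul _).const_mul _)).add (i3.const_mul _)
        · intro θ _
          have h6 := mul_le_mul_of_nonneg_left (hpt θ) (Real.exp_pos (K (zt s θ)).re).le
          linarith
      rw [intervalIntegral.integral_add
          (((i1.const_mul _).const_mul _).sub ((i2.const_mul _).const_mul _)) (i3.const_mul _),
        intervalIntegral.integral_sub ((i1.const_mul _).const_mul _) ((i2.const_mul _).const_mul _),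
        intervalIntegral.integral_const_mul, intervalIntegral.integral_const_mul,
        intervalIntegral.integral_const_mul, intervalIntegral.integral_const_mul,
        intervalIntegral.integral_const_mul, en3 hK hs, mul_zero, mul_zero, sub_zero] at h5
      exact h5
    refine hint.trans ?_
    have h7 : A * (ω.re * G1 s) ≤ p s * G1 s := by
      have h8 : ω.re ≤ c₀ * τ := by
        refine (re_le_norm ω).trans ?_
        rw [hω, norm_mul, RCLike.norm_conj, hτ, hc₀d]
      have h9 := mul_le_mul_of_nonneg_right h8 (hG1n s hs)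
      have h10 := mul_le_mul_of_nonneg_left h9 hA0
      refine h10.trans (le_of_eq ?_)
      simp only [hA, hp]
      ring
    linarith
  -- the comparison function is a supersolution
  have hSi : ∀ s < 0, p s * S1 s + q s * S s ≤ S2 s := by
    intro s hs
    obtain ⟨h3, h4⟩ := hxI s hs
    have hy : 0 < 1 - x s := by linarith
    have hl := lam_nonneg h3.le h4
    have key : p s * (τ ^ 2 * Φ1 s) + q s ≤ (τ ^ 2 * Φ1 s) * (τ ^ 2 * Φ1 s) + τ ^ 2 * Φ2 s := by
      have e1 : (τ ^ 2 * Φ1 s) * (τ ^ 2 * Φ1 s) + τ ^ 2 * Φ2 s - (p s * (τ ^ 2 * Φ1 s) + q s) =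
          (τ ^ 2 * Φ1 s - τ * (2 * c₀ * x s) / (1 - x s)) ^ 2 +
          τ ^ 2 * (c * (4 * x s * lam (x s))) := by
        simp only [hΦ2, hp, hq]
        generalize Φ1 s = φ
        generalize lam (x s) = l
        generalize x s = X at *
        have hy' : 1 - X ≠ 0 := hy.ne'
        field_simp
        ring
      have e2 : 0 ≤ τ ^ 2 * (c * (4 * x s * lam (x s))) := by positivity
      nlinarith [sq_nonneg (τ ^ 2 * Φ1 s - τ * (2 * c₀ * x s) / (1 - x s))]
    have := mul_le_mul_of_nonneg_right key (hS0 s).le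
    simp only [hS2, hS1]
    linarith
  -- the comparison
  have hw : ∀ s < 0, G1 s * S s - G s * S1 s ≤ 0 := by
    intro s hs
    have hES := hE0 s
    have h1 : (G1 s * S s - G s * S1 s) * E s ≤ 0 := by
      apply le_of_forall_pos_le_add
      intro ε hε
      rw [zero_add]
      obtain ⟨B, hB⟩ : ∃ B, B = S s + 1 := ⟨_, rfl⟩
      have hB0 : 0 < B := by rw [hB]; have := hS0 s; linarith
      obtain ⟨a, ha, hae⟩ := hsmall (ε / B) (by positivity) s hs
      have ha0 : a < 0 := ha.trans hs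
      have h2 := ode1 (G := G) (G1 := G1) (G2 := G2) (S := S) (S1 := S1) (S2 := S2) (E := E)
        (p := p) (q := q) (a := a) (b := s) (fun u hu => dG u (hu.2.trans_lt hs))
        (fun u hu => dG1 u (hu.2.trans_lt hs)) (fun u hu => dS u (hu.2.trans_lt hs))
        (fun u hu => dS1 u (hu.2.trans_lt hs)) (fun u hu => dE u (hu.2.trans_lt hs))
        (fun u _ => hE0 u) (fun u _ => hGn u) (fun u _ => hS0 u)
        (fun u hu => hGi u (hu.2.trans_lt hs)) (fun u hu => hSi u (hu.2.trans_lt hs))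
        ⟨ha.le, le_rfl⟩
      refine h2.trans ?_
      have h3 : G1 a * S a - G a * S1 a ≤ ε := by
        have h4 : 0 ≤ G a * S1 a := mul_nonneg (hGn a) (hS1n a ha0)
        have h5 : S a ≤ B := by
          have hm : MonotoneOn S (Icc a s) := by
            apply monotoneOn_of_deriv_nonneg (convex_Icc a s)
            · intro u hu
              exact (dS u (hu.2.trans_lt hs)).continuousAt.continuousWithinAt
            · intro u hu
              exact (dS u ((interior_subset hu).2.trans_lt hs)).differentiableAt.differentiableWithinAt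
            · intro u hu
              have hu' : u < 0 := (interior_subset hu).2.trans_lt hs
              rw [(dS u hu').deriv]
              exact hS1n u hu'
          have := hm ⟨le_rfl, ha.le⟩ ⟨ha.le, le_rfl⟩ ha.le
          rw [hB]; linarith
        have h6 : G1 a ≤ ε / B := (le_abs_self _).trans hae
        have h7 : G1 a * S a ≤ ε / B * B :=
          mul_le_mul h6 h5 (hS0 a).le (by positivity)
        have h8 : ε / B * B = ε := by field_simp
        linarith
      have h9 : E a ≤ 1 := by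
        simp only [hE]
        apply Real.exp_le_one_iff.2
        have := lam_nonneg (hxI a ha0).1.le (hxI a ha0).2
        have : 0 ≤ 2 * c₀ * τ * lam (x a) := by positivity
        linarith
      rcases le_or_gt (G1 a * S a - G a * S1 a) 0 with h10 | h10
      · exact (mul_nonpos_of_nonpos_of_nonneg h10 (hE0 a).le).trans hε.le
      · calc (G1 a * S a - G a * S1 a) * E a ≤ (G1 a * S a - G a * S1 a) * 1 :=
              mul_le_mul_of_nonneg_left h9 h10.le
          _ ≤ ε := by rw [mul_one]; exact h3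
    by_contra hcon
    push Not at hcon
    have := mul_pos hcon hES
    linarith
  -- the limit at the centre
  obtain ⟨s₁, hs₁⟩ : ∃ s₁, s₁ = Real.log r := ⟨_, rfl⟩
  have hs₁0 : s₁ < 0 := by rw [hs₁]; exact Real.log_neg hr0 hr1
  have hes₁ : Real.exp s₁ = r := by rw [hs₁]; exact Real.exp_log hr0
  have hmain : G s₁ / S s₁ ≤ 2 * Real.pi := by
    apply le_of_forall_pos_le_add
    intro ε hε
    have hcont : ContinuousAt (fun z : ℂ => k z) 0 :=
      (hkD.differentiableAt (isOpen_ball.mem_nhds (mem_ball_self one_pos))).continuousAt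
    have hk0 : k 0 = 0 := by simp only [hk]; rw [h0, mul_zero]
    obtain ⟨η, hη, hηe⟩ : ∃ η : ℝ, 0 < η ∧ 2 * Real.pi * Real.exp η ≤ 2 * Real.pi + ε := by
      refine ⟨Real.log (1 + ε / (2 * Real.pi)), ?_, ?_⟩
      · apply Real.log_pos
        have : 0 < ε / (2 * Real.pi) := by positivity
        linarith
      · rw [Real.exp_log (by positivity)]
        apply le_of_eq
        field_simp
    rw [Metric.continuousAt_iff] at hcont
    obtain ⟨δ, hδ, hδk⟩ := hcont η hη
    obtain ⟨a, ha⟩ : ∃ a, a = min s₁ (Real.log (δ / 2)) := ⟨_, rfl⟩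
    have ha1 : a ≤ s₁ := by rw [ha]; exact min_le_left _ _
    have ha0 : a < 0 := ha1.trans_lt hs₁0
    have hea : Real.exp a < δ := by
      have h1 : Real.exp a ≤ δ / 2 := by
        rw [← Real.exp_log (show 0 < δ / 2 by positivity)]
        apply Real.exp_le_exp.2
        rw [ha]; exact min_le_right _ _
      linarith
    have h2 := ode2 (G := G) (G1 := G1) (S := S) (S1 := S1) ha1
      (fun u hu => dG u (hu.2.trans_lt hs₁0)) (fun u hu => dS u (hu.2.trans_lt hs₁0))
      (fun u _ => hS0 u) (fun u hu => hw u (hu.2.trans_lt hs₁0))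
    refine h2.trans ?_
    have hSa : 1 ≤ S a := by
      simp only [hS]
      apply Real.one_le_exp
      have h3 := lam_nonneg (hxI a ha0).1.le (hxI a ha0).2
      have h4 : 0 ≤ Wf (x a) := by
        have hx0 := (hxI a ha0).1
        have hx1 := (hxI a ha0).2
        unfold Wf
        have h5 : (1 - x a) * lam (x a) ≤ x a := by
          unfold lam
          have h6 := Real.one_sub_inv_le_log_of_pos (show 0 < 1 - x a by linarith)
          have h7 : (1 - x a) * (1 - (1 - x a)⁻¹) ≤ (1 - x a) * Real.log (1 - x a) :=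
            mul_le_mul_of_nonneg_left h6 (by linarith)
          have h8 : (1 - x a) * (1 - (1 - x a)⁻¹) = -x a := by
            have : 1 - x a ≠ 0 := by linarith
            field_simp
            ring
          linarith
        linarith
      positivity
    have hGa : G a ≤ 2 * Real.pi * Real.exp η := by
      have c0 := cc ha0 (kcK hK)
      have ce : Continuous fun θ : ℝ => Real.exp (K (zt a θ)).re :=
        Real.continuous_exp.comp (continuous_re.comp c0)
      simp only [hG, one_mul]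
      calc ∫ θ in (0 : ℝ)..(2 * Real.pi), Real.exp (K (zt a θ)).re
          ≤ ∫ _θ in (0 : ℝ)..(2 * Real.pi), Real.exp η := by
            apply intervalIntegral.integral_mono_on (by positivity) (ce.intervalIntegrable _ _)
              intervalIntegrable_const
            intro θ _
            apply Real.exp_le_exp.2
            refine (re_le_norm _).trans ?_
            have h3 := hδk (x := Complex.exp (zt a θ)) (by
              rw [dist_zero_right, Complex.norm_exp, zt_re]; exact hea)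
            rw [hk0, dist_zero_right] at h3
            exact h3.le
        _ = 2 * Real.pi * Real.exp η := by simp
    rw [div_le_iff₀ (hS0 a)]
    calc G a ≤ 2 * Real.pi + ε := hGa.trans hηe
      _ ≤ (2 * Real.pi + ε) * S a := le_mul_of_one_le_right (by positivity) hSa
  rw [div_le_iff₀ (hS0 s₁)] at hmain
  have e0 : G s₁ = ∫ θ in (0 : ℝ)..(2 * Real.pi), Real.exp ((starRingEnd ℂ) t * H (pt r θ)).re := by
    simp only [hG, hKd, hk, one_mul]
    refine intervalIntegral.integral_congr fun θ _ => ?_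
    rw [exp_zt, hes₁]
  rw [← e0]
  refine hmain.trans (le_of_eq ?_)
  simp only [hS, hx]
  rw [hes₁]

end Pool.Agent.R250.MC
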