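import Pool.Agent.R250.MC1
import Pool.Agent.W677.MarK
import Pool.Agent.W677.MarF3

set_option autoImplicit false

/-! # Exponential integrability on circles -/

namespace Pool.Agent.R250.MC

open Complex Metric Set Filter Topology MeasureTheory
open Pool.Agent.W677.Mar

/-- The class `Σ` satisfies the drift condition with `c₀ = 1`, `κ = 4`. -/
theorem drift_sigma {Y H : ℂ → ℂ} (S : Sg Y H) : Drift 1 4 0 H := by
  intro v hv P hP
  have hk := kbound S hv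
  rw [← hP] at hk
  have h0 := norm_nonneg v
  have e0 : P - 2 * 1 * ((‖v‖ ^ 2 : ℝ) : ℂ) = P - 2 * (‖v‖ : ℂ) ^ 2 := by push_cast; ring
  rw [e0]
  nlinarith [norm_nonneg (P - 2 * (‖v‖ : ℂ) ^ 2)]

theorem circ_int (h : ℂ → ℂ) {R : ℝ} (hR : 1 < R) (Φ : ℂ → ℝ) :
    ∫ θ in (0 : ℝ)..(2 * Real.pi), Φ (h ((R : ℂ) * Complex.exp ((θ : ℂ) * Complex.I))) =
      ∫ θ in (0 : ℝ)..(2 * Real.pi), Φ (hat h 0 (pt R⁻¹ θ)) := by
  have hr0 : 0 < R⁻¹ := by positivity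
  set F : ℝ → ℝ := fun θ => Φ (hat h 0 (pt R⁻¹ θ)) with hF
  have hper : Function.Periodic F (2 * Real.pi) := by
    intro θ
    simp only [hF, pt_periodic R⁻¹ θ]
  have h2 : ∀ θ : ℝ, Φ (h ((R : ℂ) * Complex.exp ((θ : ℂ) * Complex.I))) = F (-θ) := by
    intro θ
    simp only [hF]
    have hne : pt R⁻¹ (-θ) ≠ 0 := by
      rw [← norm_pos_iff, norm_pt R⁻¹ _ hr0.le]
      exact hr0
    rw [hat_ne _ _ hne]
    have e1 : (pt R⁻¹ (-θ))⁻¹ = (R : ℂ) * Complex.exp ((θ : ℂ) * Complex.I) := by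
      simp only [pt, circleMap, zero_add]
      rw [mul_inv, ← Complex.exp_neg]
      push_cast
      rw [inv_inv]
      congr 2
      ring
    rw [e1]
  simp only [h2]
  rw [intervalIntegral.integral_comp_neg F]
  have h3 := hper.intervalIntegral_add_eq (-(2 * Real.pi)) 0
  rw [neg_add_cancel, zero_add] at h3
  rw [neg_zero]
  exact h3

theorem lam_R {R : ℝ} (hR : 1 < R) : lam (R⁻¹ ^ 2) = Real.log (R ^ 2 / (R ^ 2 - 1)) := by
  have hR0 : 0 < R := by linarith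
  have hR2 : 0 < R ^ 2 - 1 := by nlinarith
  have : 1 - R⁻¹ ^ 2 = (R ^ 2 / (R ^ 2 - 1))⁻¹ := by
    field_simp
  rw [lam, this, Real.log_inv, neg_neg]

theorem L_pos {R : ℝ} (hR : 1 < R) : 0 < Real.log (R ^ 2 / (R ^ 2 - 1)) := by
  have hR2 : 0 < R ^ 2 - 1 := by nlinarith
  apply Real.log_pos
  rw [one_lt_div hR2]
  linarith

/-- Exponential moments in the exterior. -/
theorem moments_ext {h : ℂ → ℂ} (hH : Hol h 0) {c₀ : ℂ} {κ c : ℝ} (hκ : 0 ≤ κ) (hc : 0 ≤ c)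
    (hD : Drift c₀ κ c (hat h 0)) (t : ℂ) {R : ℝ} (hR : 1 < R) :
    ∫ θ in (0 : ℝ)..(2 * Real.pi), Real.exp ((starRingEnd ℂ) t *
        h ((R : ℂ) * Complex.exp ((θ : ℂ) * Complex.I))).re ≤
      2 * Real.pi * Real.exp (‖t‖ ^ 2 * (κ * Real.log (R ^ 2 / (R ^ 2 - 1)) + c * Wf (R⁻¹ ^ 2))) := by
  have hR0 : 0 < R := by linarith
  have h1 := moments (hat_diff hH) (hat_zero h 0) hκ hc hD t (r := R⁻¹) (by positivity)
    (inv_lt_one_of_one_lt₀ hR)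
  rw [lam_R hR] at h1
  exact (circ_int h hR (fun w => Real.exp ((starRingEnd ℂ) t * w).re)).trans_le h1

/-- Exponential square integrability in the exterior. -/
theorem square_ext {h : ℂ → ℂ} (hH : Hol h 0) {c₀ : ℂ} {κ c : ℝ} (hκ : 0 ≤ κ) (hc : 0 ≤ c)
    (hD : Drift c₀ κ c (hat h 0)) {R a : ℝ} (hR : 1 < R) (ha : 0 < a)
    (haκ : 4 * a * (κ + c * Wf (R⁻¹ ^ 2) / Real.log (R ^ 2 / (R ^ 2 - 1))) < 1) :
    (1 / (2 * Real.pi)) * ∫ θ in (0 : ℝ)..(2 * Real.pi),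
        Real.exp (a * ‖h ((R : ℂ) * Complex.exp ((θ : ℂ) * Complex.I))‖ ^ 2
          / Real.log (R ^ 2 / (R ^ 2 - 1))) ≤
      1 / (1 - 4 * a * (κ + c * Wf (R⁻¹ ^ 2) / Real.log (R ^ 2 / (R ^ 2 - 1)))) := by
  have hpi := Real.pi_pos
  have hR0 : 0 < R := by linarith
  have hL := L_pos hR
  obtain ⟨L, hLd⟩ : ∃ L, L = Real.log (R ^ 2 / (R ^ 2 - 1)) := ⟨_, rfl⟩
  obtain ⟨W, hW⟩ : ∃ W, W = Wf (R⁻¹ ^ 2) := ⟨_, rfl⟩
  rw [← hLd] at hL haκ ⊢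
  rw [← hW] at haκ ⊢
  obtain ⟨b, hb⟩ : ∃ b, b = L / (4 * a) := ⟨_, rfl⟩
  have hb0 : 0 < b := by rw [hb]; positivity
  obtain ⟨m, hm⟩ : ∃ m, m = κ * L + c * W := ⟨_, rfl⟩
  have hbm : m < b := by
    have h1 := mul_lt_mul_of_pos_right haκ hb0
    have h2 : 4 * a * (κ + c * W / L) * b = m := by
      rw [hb, hm]
      field_simp
    rw [h2, one_mul] at h1
    exact h1
  set g : ℝ → ℂ := fun θ => h ((R : ℂ) * Complex.exp ((θ : ℂ) * Complex.I)) with hg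
  have hmem : ∀ θ : ℝ, 1 < ‖(R : ℂ) * Complex.exp ((θ : ℂ) * Complex.I)‖ := by
    intro θ
    rw [norm_mul, Complex.norm_exp_ofReal_mul_I, Complex.norm_real, Real.norm_of_nonneg hR0.le,
      mul_one]
    exact hR
  have hgc : Continuous g := by
    apply hH.1.continuousOn.comp_continuous (by fun_prop) hmem
  have hcomp : IsCompact (sphere (0 : ℂ) R) := isCompact_sphere _ _
  obtain ⟨M, hM⟩ := hcomp.exists_bound_of_continuousOn (f := h) (hH.1.continuousOn.mono (by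
    intro z hz
    rw [mem_sphere_zero_iff_norm] at hz
    show 1 < ‖z‖
    rw [hz]
    exact hR))
  have hgM : ∀ θ, ‖g θ‖ ≤ M := by
    intro θ
    apply hM
    rw [mem_sphere_zero_iff_norm, norm_mul, Complex.norm_exp_ofReal_mul_I, Complex.norm_real,
      Real.norm_of_nonneg hR0.le, mul_one]
  have hB : ∀ t : ℂ, ∫ θ in (0 : ℝ)..(2 * Real.pi), Real.exp ((starRingEnd ℂ) t * g θ).re ≤
      2 * Real.pi * Real.exp (‖t‖ ^ 2 * m) := by
    intro t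
    have := moments_ext hH hκ hc hD t hR
    rw [← hLd, ← hW, ← hm] at this
    exact this
  have hbm0 : 0 < b - m := by linarith
  obtain ⟨g1, g2⟩ := gauss0 hbm0
  have e1 : (fun t : ℂ => Real.exp (-b * ‖t‖ ^ 2) * (2 * Real.pi * Real.exp (‖t‖ ^ 2 * m))) =
      fun t : ℂ => 2 * Real.pi * Real.exp (-(b - m) * ‖t‖ ^ 2) := by
    funext t
    have : Real.exp (-(b - m) * ‖t‖ ^ 2) = Real.exp (-b * ‖t‖ ^ 2) * Real.exp (‖t‖ ^ 2 * m) := by
      rw [← Real.exp_add]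
      congr 1
      ring
    rw [this]
    ring
  have h1 := gauss_avg hgc hgM hb0 hB (by rw [e1]; exact g1.const_mul _)
  rw [e1, integral_const_mul, g2] at h1
  have e2 : ∀ θ, Real.exp (a * ‖g θ‖ ^ 2 / L) = Real.exp (‖g θ‖ ^ 2 / (4 * b)) := by
    intro θ
    congr 1
    rw [hb]
    field_simp
  simp only [hg] at e2 h1
  simp only [e2]
  calc (1 / (2 * Real.pi)) * ∫ θ in (0 : ℝ)..(2 * Real.pi),
        Real.exp (‖h ((R : ℂ) * Complex.exp ((θ : ℂ) * Complex.I))‖ ^ 2 / (4 * b))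
      ≤ (1 / (2 * Real.pi)) * (b / Real.pi * (2 * Real.pi * (Real.pi / (b - m)))) :=
        mul_le_mul_of_nonneg_left h1 (by positivity)
    _ = b / (b - m) := by field_simp
    _ = 1 / (1 - 4 * a * (κ + c * W / L)) := by
        have h2 : b - m = b * (1 - 4 * a * (κ + c * W / L)) := by
          rw [hb, hm]
          field_simp
        have h3 : 0 < 1 - 4 * a * (κ + c * W / L) := by linarith
        rw [h2]
        field_simp

/-- Goluzin's bound on a circle. -/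
theorem goluzin_ext {Y h : ℂ → ℂ} (S : Sg Y (hat h 0)) {R : ℝ} (hR : 1 < R) {z : ℂ} (hz : ‖z‖ = R) :
    ‖h z‖ ≤ Real.log (R ^ 2 / (R ^ 2 - 1)) := by
  have hR0 : 0 < R := by linarith
  have hz0 : z ≠ 0 := by rw [← norm_pos_iff, hz]; exact hR0
  have h1 : z⁻¹ ∈ ball (0 : ℂ) 1 := by
    rw [mem_ball_zero_iff, norm_inv, hz]
    exact inv_lt_one_of_one_lt₀ hR
  have h2 := goluzin S h1
  rw [hat_ne _ _ (inv_ne_zero hz0), inv_inv, norm_inv, hz] at h2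
  rw [← lam_R hR]
  exact h2

/-- the full statement for one function -/
theorem marshall_of_drift {a κ c : ℝ} (ha : 0 < a) (hκ : 0 ≤ κ) (hc : 0 ≤ c) (haκ : 4 * a * κ < 1) :
    ∃ C : ℝ, ∀ (R : ℝ) (c₀ : ℂ) (Y h : ℂ → ℂ), 1 < R → Hol h 0 → Sg Y (hat h 0) →
      Drift c₀ κ c (hat h 0) →
      (1 / (2 * Real.pi)) * ∫ θ in (0 : ℝ)..(2 * Real.pi),
        Real.exp (a * ‖h ((R : ℂ) * Complex.exp ((θ : ℂ) * Complex.I))‖ ^ 2
          / Real.log (R ^ 2 / (R ^ 2 - 1))) ≤ C := by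
  have hpi := Real.pi_pos
  obtain ⟨δ, hδ⟩ : ∃ δ, δ = 1 - 4 * a * κ := ⟨_, rfl⟩
  have hδ0 : 0 < δ := by rw [hδ]; linarith
  obtain ⟨Λ, hΛ⟩ : ∃ Λ, Λ = 16 * a * c / δ := ⟨_, rfl⟩
  have hΛ0 : 0 ≤ Λ := by rw [hΛ]; positivity
  refine ⟨max (2 / δ) (Real.exp (a * Λ)), ?_⟩
  intro R c₀ Y h hR hH S hD
  have hR0 : 0 < R := by linarith
  have hL := L_pos hR
  rcases le_or_gt Λ (Real.log (R ^ 2 / (R ^ 2 - 1))) with h1 | h1
  · apply le_trans _ (le_max_left _ _)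
    have hW : Wf (R⁻¹ ^ 2) ≤ 2 := by
      apply Wf_le (by positivity)
      have : R⁻¹ < 1 := inv_lt_one_of_one_lt₀ hR
      have : 0 < R⁻¹ := by positivity
      nlinarith
    have h2 : 4 * a * (κ + c * Wf (R⁻¹ ^ 2) / Real.log (R ^ 2 / (R ^ 2 - 1))) ≤ 1 - δ / 2 := by
      have h3 : c * Wf (R⁻¹ ^ 2) / Real.log (R ^ 2 / (R ^ 2 - 1)) ≤ δ / (8 * a) := by
        rw [div_le_iff₀ hL]
        calc c * Wf (R⁻¹ ^ 2) ≤ c * 2 := mul_le_mul_of_nonneg_left hW hc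
          _ = δ / (8 * a) * Λ := by rw [hΛ]; field_simp; ring
          _ ≤ _ := mul_le_mul_of_nonneg_left h1 (by positivity)
      have h4 : 4 * a * (δ / (8 * a)) = δ / 2 := by field_simp; norm_num
      have h5 := mul_le_mul_of_nonneg_left h3 (by positivity : 0 ≤ 4 * a)
      rw [h4] at h5
      rw [hδ] at h5 ⊢
      linarith
    refine (square_ext hH hκ hc hD hR ha (by linarith)).trans ?_
    rw [div_le_div_iff₀ (by linarith) hδ0]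
    linarith
  · apply le_trans _ (le_max_right _ _)
    have hb : ∀ θ : ℝ, Real.exp (a * ‖h ((R : ℂ) * Complex.exp ((θ : ℂ) * Complex.I))‖ ^ 2
          / Real.log (R ^ 2 / (R ^ 2 - 1))) ≤ Real.exp (a * Λ) := by
      intro θ
      apply Real.exp_le_exp.2
      have hz : ‖(R : ℂ) * Complex.exp ((θ : ℂ) * Complex.I)‖ = R := by
        rw [norm_mul, Complex.norm_exp_ofReal_mul_I, Complex.norm_real, Real.norm_of_nonneg hR0.le,
          mul_one]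
      have h2 := goluzin_ext S hR hz
      rw [div_le_iff₀ hL]
      have h3 := norm_nonneg (h ((R : ℂ) * Complex.exp ((θ : ℂ) * Complex.I)))
      calc a * ‖h ((R : ℂ) * Complex.exp ((θ : ℂ) * Complex.I))‖ ^ 2
          ≤ a * (Real.log (R ^ 2 / (R ^ 2 - 1))) ^ 2 := by
            apply mul_le_mul_of_nonneg_left _ ha.le
            exact pow_le_pow_left₀ h3 h2 2
        _ ≤ a * Λ * Real.log (R ^ 2 / (R ^ 2 - 1)) := by
            rw [sq, ← mul_assoc]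
            apply mul_le_mul_of_nonneg_right _ hL.le
            exact mul_le_mul_of_nonneg_left h1.le ha.le
    have hmem : ∀ θ : ℝ, 1 < ‖(R : ℂ) * Complex.exp ((θ : ℂ) * Complex.I)‖ := by
      intro θ
      rw [norm_mul, Complex.norm_exp_ofReal_mul_I, Complex.norm_real, Real.norm_of_nonneg hR0.le,
        mul_one]
      exact hR
    have hgc : Continuous fun θ : ℝ => h ((R : ℂ) * Complex.exp ((θ : ℂ) * Complex.I)) := by
      apply hH.1.continuousOn.comp_continuous (by fun_prop) hmem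
    have h3 : ∫ θ in (0 : ℝ)..(2 * Real.pi),
        Real.exp (a * ‖h ((R : ℂ) * Complex.exp ((θ : ℂ) * Complex.I))‖ ^ 2
          / Real.log (R ^ 2 / (R ^ 2 - 1))) ≤ ∫ _θ in (0 : ℝ)..(2 * Real.pi), Real.exp (a * Λ) := by
      apply intervalIntegral.integral_mono_on (by positivity)
      · apply Continuous.intervalIntegrable
        exact ((continuous_const.mul (hgc.norm.pow 2)).div_const _).rexp
      · exact intervalIntegrable_const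
      · intro θ _
        exact hb θ
    rw [intervalIntegral.integral_const, smul_eq_mul, sub_zero] at h3
    calc (1 / (2 * Real.pi)) * ∫ θ in (0 : ℝ)..(2 * Real.pi),
        Real.exp (a * ‖h ((R : ℂ) * Complex.exp ((θ : ℂ) * Complex.I))‖ ^ 2
          / Real.log (R ^ 2 / (R ^ 2 - 1)))
        ≤ (1 / (2 * Real.pi)) * (2 * Real.pi * Real.exp (a * Λ)) :=
          mul_le_mul_of_nonneg_left h3 (by positivity)
      _ = Real.exp (a * Λ) := by field_simp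

theorem deriv_bound {Y H : ℂ → ℂ} (S : Sg Y H) {v : ℂ} (hv : v ∈ ball (0 : ℂ) 1) :
    ‖((1 - ‖v‖ ^ 2 : ℝ) : ℂ) * (v * deriv H v)‖ ≤ 6 * ‖v‖ := by
  have hk := kbound S hv
  have h0 := norm_nonneg v
  have hn : ‖v‖ < 1 := mem_ball_zero_iff.1 hv
  have h3 := norm_sub_norm_le (((1 - ‖v‖ ^ 2 : ℝ) : ℂ) * (v * deriv H v)) (2 * (‖v‖ : ℂ) ^ 2)
  have h4 : ‖(2 : ℂ) * (‖v‖ : ℂ) ^ 2‖ = 2 * ‖v‖ ^ 2 := by
    rw [norm_mul, norm_pow, Complex.norm_real, norm_norm, Complex.norm_ofNat]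
  nlinarith

/-- **Values in a disc near the boundary.** -/
theorem marshall_disc {a σ δ : ℝ} (ha : 0 < a) (hσ : 0 ≤ σ) (haσ : a * σ ^ 2 < 1) (hδ : 0 < δ) :
    ∃ C : ℝ, ∀ (R : ℝ) (c : ℂ) (Y h : ℂ → ℂ), 1 < R → Hol h 0 → Sg Y (hat h 0) →
      (∀ z : ℂ, 1 < ‖z‖ → ‖z‖ < 1 + δ →
        ‖((‖z‖ ^ 2 - 1 : ℝ) : ℂ) * (z * deriv h z) - c‖ ≤ σ * ‖z‖) →
      (1 / (2 * Real.pi)) * ∫ θ in (0 : ℝ)..(2 * Real.pi),
        Real.exp (a * ‖h ((R : ℂ) * Complex.exp ((θ : ℂ) * Complex.I))‖ ^ 2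
          / Real.log (R ^ 2 / (R ^ 2 - 1))) ≤ C := by
  obtain ⟨M, hM⟩ : ∃ M, M = (σ + 6) * (1 + δ) := ⟨_, rfl⟩
  have hM0 : 0 ≤ M := by rw [hM]; positivity
  obtain ⟨κ, hκ⟩ : ∃ κ, κ = σ ^ 2 / 4 := ⟨_, rfl⟩
  obtain ⟨ρ, hρ⟩ : ∃ ρ, ρ = (1 + δ)⁻¹ := ⟨_, rfl⟩
  have hρ0 : 0 < ρ := by rw [hρ]; positivity
  have hρ1 : ρ < 1 := by rw [hρ]; exact inv_lt_one_of_one_lt₀ (by linarith)
  have hρ2 : 0 < 1 - ρ ^ 2 := by nlinarith
  obtain ⟨c', hc'⟩ : ∃ c', c' = (6 + M) ^ 2 / (4 * (1 - ρ ^ 2)) := ⟨_, rfl⟩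
  have hc'0 : 0 ≤ c' := by rw [hc']; positivity
  obtain ⟨C, hC⟩ := marshall_of_drift (a := a) (κ := κ) (c := c') ha (by rw [hκ]; positivity) hc'0
    (by rw [hκ]; linarith)
  refine ⟨C, fun R c Y h hR hH S hD => ?_⟩
  -- the centre is bounded
  have hP : ∀ v ∈ ball (0 : ℂ) 1, v ≠ 0 → ((‖v⁻¹‖ ^ 2 - 1 : ℝ) : ℂ) * (v⁻¹ * deriv h v⁻¹) * ((‖v‖ ^ 2 : ℝ) : ℂ)
      = -(((1 - ‖v‖ ^ 2 : ℝ) : ℂ) * (v * deriv (hat h 0) v)) := by
    intro v hv hv0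
    have h1 := hat_deriv hH hv hv0
    rw [h1]
    have hn : (‖v‖ : ℂ) ≠ 0 := by exact_mod_cast (norm_pos_iff.2 hv0).ne'
    rw [norm_inv]
    push_cast
    field_simp
  have hcb : ‖c‖ ≤ M := by
    obtain ⟨r, hr⟩ : ∃ r : ℝ, r = 1 + δ / 2 := ⟨_, rfl⟩
    have hr1 : 1 < r := by rw [hr]; linarith
    have hrn : ‖(r : ℂ)‖ = r := by rw [Complex.norm_real, Real.norm_of_nonneg (by linarith)]
    have h1 := hD (r : ℂ) (by rw [hrn]; exact hr1) (by rw [hrn, hr]; linarith)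
    have hrc : (r : ℂ) ≠ 0 := by
      have : r ≠ 0 := by linarith
      exact_mod_cast this
    have hv0 : (r : ℂ)⁻¹ ≠ 0 := inv_ne_zero hrc
    have hv : (r : ℂ)⁻¹ ∈ ball (0 : ℂ) 1 := by
      rw [mem_ball_zero_iff, norm_inv, hrn]
      exact inv_lt_one_of_one_lt₀ hr1
    have h2 := hP _ hv hv0
    have h3 := deriv_bound S hv
    rw [← norm_neg, ← h2, inv_inv, norm_inv, hrn, norm_mul, Complex.norm_real,
      Real.norm_of_nonneg (by positivity)] at h3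
    rw [hrn] at h1
    have h4 : ‖((r ^ 2 - 1 : ℝ) : ℂ) * (r * deriv h r)‖ ≤ 6 * r := by
      have h5 : ‖((r ^ 2 - 1 : ℝ) : ℂ) * (r * deriv h r)‖ * r⁻¹ ^ 2 * r ^ 2 ≤ 6 * r⁻¹ * r ^ 2 :=
        mul_le_mul_of_nonneg_right h3 (by positivity)
      have h6 : r ≠ 0 := by linarith
      have e1 : ‖((r ^ 2 - 1 : ℝ) : ℂ) * (r * deriv h r)‖ * r⁻¹ ^ 2 * r ^ 2 =
          ‖((r ^ 2 - 1 : ℝ) : ℂ) * (r * deriv h r)‖ := by field_simp
      have e2 : 6 * r⁻¹ * r ^ 2 = 6 * r := by field_simp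
      rw [e1, e2] at h5
      exact h5
    have h5 := norm_sub_norm_le c (c - ((r ^ 2 - 1 : ℝ) : ℂ) * (r * deriv h r))
    rw [sub_sub_cancel, norm_sub_rev c] at h5
    rw [hM]
    nlinarith
  apply hC R (-c / 2) Y h hR hH S
  intro v hv P hPd
  have hn : ‖v‖ < 1 := mem_ball_zero_iff.1 hv
  by_cases hv0 : v = 0
  · rw [hPd, hv0]
    simp
  have hvn : 0 < ‖v‖ := norm_pos_iff.2 hv0
  have h1 := hP v hv hv0
  rw [← hPd] at h1
  have e0 : P - 2 * (-c / 2) * ((‖v‖ ^ 2 : ℝ) : ℂ) = -((((‖v⁻¹‖ ^ 2 - 1 : ℝ) : ℂ) *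
      (v⁻¹ * deriv h v⁻¹) - c) * ((‖v‖ ^ 2 : ℝ) : ℂ)) := by
    rw [sub_mul, h1]
    ring
  rcases lt_or_ge ρ ‖v‖ with h2 | h2
  · have h3 : ‖v⁻¹‖ < 1 + δ := by
      rw [norm_inv]
      rw [hρ] at h2
      exact inv_lt_of_inv_lt₀ (by positivity) h2
    have h4 := hD v⁻¹ (inv_ext hv hv0) h3
    rw [e0, norm_neg, norm_mul, Complex.norm_real, Real.norm_of_nonneg (by positivity)]
    have h5 : ‖((‖v⁻¹‖ ^ 2 - 1 : ℝ) : ℂ) * (v⁻¹ * deriv h v⁻¹) - c‖ * ‖v‖ ^ 2 ≤ σ * ‖v‖ := by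
      calc ‖((‖v⁻¹‖ ^ 2 - 1 : ℝ) : ℂ) * (v⁻¹ * deriv h v⁻¹) - c‖ * ‖v‖ ^ 2 ≤ σ * ‖v⁻¹‖ * ‖v‖ ^ 2 :=
            mul_le_mul_of_nonneg_right h4 (by positivity)
        _ = σ * ‖v‖ := by rw [norm_inv]; field_simp
    have h6 := pow_le_pow_left₀ (by positivity) h5 2
    refine h6.trans ?_
    rw [hκ]
    have h7 : 0 ≤ 4 * c' * (1 - ‖v‖ ^ 2) * ‖v‖ ^ 2 := by
      have : 0 ≤ 1 - ‖v‖ ^ 2 := by nlinarith
      positivity
    nlinarith
  · have h3 := deriv_bound S hv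
    rw [← hPd] at h3
    have h4 : ‖P - 2 * (-c / 2) * ((‖v‖ ^ 2 : ℝ) : ℂ)‖ ≤ (6 + M) * ‖v‖ := by
      have e1 : P - 2 * (-c / 2) * ((‖v‖ ^ 2 : ℝ) : ℂ) = P + c * ((‖v‖ ^ 2 : ℝ) : ℂ) := by ring
      rw [e1]
      refine (norm_add_le _ _).trans ?_
      rw [norm_mul, Complex.norm_real, Real.norm_of_nonneg (by positivity)]
      have h5 : ‖c‖ * ‖v‖ ^ 2 ≤ M * ‖v‖ ^ 2 := mul_le_mul_of_nonneg_right hcb (by positivity)
      have h6 : M * ‖v‖ ^ 2 ≤ M * ‖v‖ := by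
        apply mul_le_mul_of_nonneg_left _ hM0
        nlinarith
      linarith
    have h5 := pow_le_pow_left₀ (norm_nonneg _) h4 2
    refine h5.trans ?_
    have h6 : (6 + M) ^ 2 ≤ 4 * c' * (1 - ‖v‖ ^ 2) := by
      have h7 : 1 - ρ ^ 2 ≤ 1 - ‖v‖ ^ 2 := by nlinarith
      calc (6 + M) ^ 2 = 4 * c' * (1 - ρ ^ 2) := by rw [hc']; field_simp
        _ ≤ _ := mul_le_mul_of_nonneg_left h7 (by positivity)
    have h8 : 0 ≤ κ := by rw [hκ]; positivity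
    rw [mul_pow]
    apply mul_le_mul_of_nonneg_right _ (sq_nonneg _)
    linarith

end Pool.Agent.R250.MC
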