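import Mathlib
import Pool.Agent.H803R2.KakLine

set_option autoImplicit false

/-!
One-dimensional estimate: a function that is almost constant at scale `δ`, with a polynomial
weight.
-/

open MeasureTheory Set Filter Topology ENNReal NNReal

namespace Pool.Agent.R250.PF

open Pool.Agent.H803R2.Kak

/-- Hölder with the exponents `(m+2)/2` and `(m+2)/m`, raised to the power `m+2`. -/
theorem holder2 {α : Type*} [MeasurableSpace α] (ν : Measure α) {m : ℕ} (hm : 1 ≤ m)
    {f g : α → ℝ≥0∞} (hf : AEMeasurable f ν) (hg : AEMeasurable g ν) :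
    (∫⁻ a, f a * g a ∂ν) ^ (m + 2)
      ≤ (∫⁻ a, f a ^ (((m:ℝ) + 2) / 2) ∂ν) ^ 2 * (∫⁻ a, g a ^ (((m:ℝ) + 2) / m) ∂ν) ^ m := by
  have hm' : (1:ℝ) ≤ m := by exact_mod_cast hm
  have hm0 : (0:ℝ) < m := by linarith
  have hpq : (((m:ℝ) + 2) / 2).HolderConjugate (((m:ℝ) + 2) / m) := by
    rw [Real.holderConjugate_iff]
    refine ⟨by linarith, ?_⟩
    field_simp
    ring
  have h := ENNReal.lintegral_mul_le_Lp_mul_Lq ν hpq hf hg
  have h2 : (∫⁻ a, f a * g a ∂ν) ^ (m + 2)
      ≤ ((∫⁻ a, f a ^ (((m:ℝ) + 2) / 2) ∂ν) ^ (1 / (((m:ℝ) + 2) / 2))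
        * (∫⁻ a, g a ^ (((m:ℝ) + 2) / m) ∂ν) ^ (1 / (((m:ℝ) + 2) / m))) ^ (m + 2) :=
    pow_le_pow_left' (by simpa using h) _
  refine h2.trans (le_of_eq ?_)
  rw [mul_pow]
  congr 1
  · rw [← ENNReal.rpow_natCast, ← ENNReal.rpow_mul, ← ENNReal.rpow_natCast]
    congr 1
    push_cast
    field_simp
  · rw [← ENNReal.rpow_natCast, ← ENNReal.rpow_mul, ← ENNReal.rpow_natCast]
    congr 1
    push_cast
    field_simp

/-- `J ^ (-1/m)` is at most the sum of the inverse distances. -/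
theorem inv_rpow_le {μ : Multiset ℝ} {m : ℕ} (hm : 1 ≤ m) (hμ : μ.card = m) {t δ : ℝ}
    (hδ : 0 < δ) (ht : ∀ c ∈ μ, δ ≤ |t - c|) {J : ℝ≥0∞}
    (hJ : ENNReal.ofReal (μ.map (fun c => |t - c|)).prod ≤ J) :
    (J ^ (-(1 / ((m:ℝ) + 2)))) ^ (((m:ℝ) + 2) / m) ≤ (μ.map (fun c => (ENNReal.ofReal |t - c|)⁻¹)).sum := by
  have hm' : (1:ℝ) ≤ m := by exact_mod_cast hm
  have hm0 : (0:ℝ) < m := by linarith
  have h := prod_inv_rpow_le hm hμ hδ ht hJ
  refine le_trans (le_of_eq ?_) h
  rw [← ENNReal.rpow_mul, ← ENNReal.rpow_mul]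
  congr 1
  field_simp

/-- The good set. -/
def good (μ : Multiset ℝ) (δ : ℝ) : Set ℝ := {t | t ∈ Icc (-1 : ℝ) 1 ∧ ∀ c ∈ μ, δ ≤ |t - c|}

theorem measurableSet_good (μ : Multiset ℝ) (δ : ℝ) : MeasurableSet (good μ δ) := by
  classical
  have : good μ δ = Icc (-1) 1 ∩ ⋂ c ∈ μ.toFinset, {t | δ ≤ |t - c|} := by
    ext t; simp [good]
  rw [this]
  apply measurableSet_Icc.inter
  apply Finset.measurableSet_biInter
  intro c _
  exact measurableSet_le measurable_const ((measurable_id.sub_const c).abs)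

theorem good_int {μ : Multiset ℝ} {m : ℕ} (hm : 1 ≤ m) (hμ : μ.card = m) {δ : ℝ} (hδ : 0 < δ)
    {J : ℝ → ℝ≥0∞} (hJm : Measurable J) (hJtop : ∀ t, J t ≠ ∞)
    (hJ : ∀ t, ENNReal.ofReal (μ.map (fun c => |t - c|)).prod ≤ J t)
    {G : ℝ → ℝ≥0∞} (hG : Measurable G) :
    (∫⁻ t in good μ δ, G t) ^ (m + 2)
      ≤ (2 * m * ENNReal.ofReal (Real.log (1 + 3 / δ))) ^ m *
        (∫⁻ t in Icc (-1 : ℝ) 1, G t ^ (((m:ℝ) + 2) / 2) * J t ^ ((1:ℝ) / 2)) ^ 2 := by
  classical
  have hm' : (1:ℝ) ≤ m := by exact_mod_cast hm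
  have hm0 : (0:ℝ) < m := by linarith
  set A := good μ δ with hA
  have hAm : MeasurableSet A := measurableSet_good μ δ
  have hJpos : ∀ t ∈ A, J t ≠ 0 := by
    intro t ht h0
    have h1 := hJ t
    rw [h0] at h1
    have h2 : (μ.map (fun c => |t - c|)).prod ≤ 0 := ENNReal.ofReal_eq_zero.1 (le_antisymm h1 zero_le)
    have h3 : 0 < (μ.map (fun c => |t - c|)).prod := by
      have : ∀ (ν : Multiset ℝ), (∀ c ∈ ν, δ ≤ |t - c|) → 0 < (ν.map (fun c => |t - c|)).prod := by
        intro ν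
        induction ν using Multiset.induction_on with
        | empty => intro _; simp
        | cons a ν ih =>
          intro h
          rw [Multiset.map_cons, Multiset.prod_cons]
          exact mul_pos (lt_of_lt_of_le hδ (h a (Multiset.mem_cons_self a ν)))
            (ih (fun c hc => h c (Multiset.mem_cons_of_mem hc)))
      exact this μ ht.2
    linarith
  have hfac : ∫⁻ t in A, G t = ∫⁻ t in A, (G t * J t ^ (1 / ((m:ℝ) + 2))) * J t ^ (-(1 / ((m:ℝ) + 2))) := by
    apply setLIntegral_congr_fun hAm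
    intro t ht
    show G t = G t * J t ^ (1 / ((m:ℝ) + 2)) * J t ^ (-(1 / ((m:ℝ) + 2)))
    rw [mul_assoc, ← ENNReal.rpow_add _ _ (hJpos t ht) (hJtop t)]
    simp
  rw [hfac]
  refine (holder2 (volume.restrict A) hm
    ((hG.mul (hJm.pow_const _)).aemeasurable) ((hJm.pow_const _).aemeasurable)).trans ?_
  rw [mul_comm]
  apply mul_le_mul'
  · gcongr
    calc ∫⁻ a in A, (J a ^ (-(1 / ((m:ℝ) + 2)))) ^ (((m:ℝ) + 2) / m)
        ≤ ∫⁻ a in A, (μ.map (fun c => (ENNReal.ofReal |a - c|)⁻¹)).sum := by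
          apply setLIntegral_mono' hAm
          intro t ht
          exact inv_rpow_le hm hμ hδ ht.2 (hJ t)
      _ ≤ (μ.map (fun c => 2 * ENNReal.ofReal (Real.log (1 + 3 / δ)))).sum := by
          have : ∀ (ν : Multiset ℝ), (∀ c ∈ ν, c ∈ μ) →
              ∫⁻ a in A, (ν.map (fun c => (ENNReal.ofReal |a - c|)⁻¹)).sum
              ≤ (ν.map (fun c => 2 * ENNReal.ofReal (Real.log (1 + 3 / δ)))).sum := by
            intro ν
            induction ν using Multiset.induction_on with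
            | empty => intro _; simp
            | cons a ν ih =>
              intro hν
              simp only [Multiset.map_cons, Multiset.sum_cons]
              rw [lintegral_add_left]
              · apply add_le_add _ (ih (fun c hc => hν c (Multiset.mem_cons_of_mem hc)))
                refine le_trans (lintegral_mono_set ?_) (lint_away (h := -1) hδ)
                intro t ht
                refine ⟨⟨ht.1.1, by linarith [ht.1.2]⟩, ht.2 a (hν a (Multiset.mem_cons_self a ν))⟩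
              · exact (((measurable_id.sub_const a).abs).ennreal_ofReal).inv
          exact this μ (fun c hc => hc)
      _ = 2 * m * ENNReal.ofReal (Real.log (1 + 3 / δ)) := by
          rw [Multiset.map_const', Multiset.sum_replicate, hμ, nsmul_eq_mul]; ring
  · apply pow_le_pow_left'
    refine (lintegral_mono_set (show A ⊆ Icc (-1:ℝ) 1 from fun t ht => ht.1) : _ ≤ ∫⁻ a in Icc (-1:ℝ) 1, (G a * J a ^ (1 / ((m:ℝ) + 2))) ^ (((m:ℝ) + 2) / 2)).trans ?_
    apply le_of_eq
    apply lintegral_congr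
    intro a
    rw [ENNReal.mul_rpow_of_nonneg _ _ (by positivity), ← ENNReal.rpow_mul]
    congr 2
    field_simp

/-- The measure of the good part of an interval of length `2δ`. -/
theorem good_part {μ : Multiset ℝ} {m : ℕ} (hm : 1 ≤ m) (hμ : μ.card = m) {δ s : ℝ} (hδ : 0 < δ)
    (hδ1 : δ ≤ 1 / 2) (hs : s ∈ Icc (-(1/2) : ℝ) (1/2)) :
    ENNReal.ofReal δ ≤ volume (Icc (s - δ) (s + δ) ∩ good μ (δ / (4 * m))) := by
  classical
  have hm' : (1:ℝ) ≤ m := by exact_mod_cast hm
  have hm0 : (0:ℝ) < m := by linarith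
  set η := δ / (4 * m) with hη
  set A' : Set ℝ := ⋃ c ∈ μ.toFinset, Icc (c - η) (c + η) with hA'
  have hvol : volume A' ≤ ENNReal.ofReal (δ / 2) := by
    calc volume A' ≤ ∑ c ∈ μ.toFinset, volume (Icc (c - η) (c + η)) := measure_biUnion_finset_le _ _
      _ = ∑ c ∈ μ.toFinset, ENNReal.ofReal (2 * η) := by
          apply Finset.sum_congr rfl
          intro c _
          rw [Real.volume_Icc]; congr 1; ring
      _ = (μ.toFinset.card : ℝ≥0∞) * ENNReal.ofReal (2 * η) := by
          rw [Finset.sum_const, nsmul_eq_mul]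
      _ ≤ (m : ℝ≥0∞) * ENNReal.ofReal (2 * η) := by
          gcongr
          have := Multiset.toFinset_card_le μ
          rw [hμ] at this
          exact_mod_cast this
      _ = ENNReal.ofReal (δ / 2) := by
          rw [← ENNReal.ofReal_natCast, ← ENNReal.ofReal_mul (by positivity)]
          congr 1
          rw [hη]; field_simp; ring
  have hcov : Icc (s - δ) (s + δ) ⊆ (Icc (s - δ) (s + δ) ∩ good μ η) ∪ A' := by
    intro t ht
    by_cases hc : ∀ c ∈ μ, η ≤ |t - c|
    · left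
      refine ⟨ht, ⟨?_, ?_⟩, hc⟩
      · linarith [ht.1, hs.1]
      · linarith [ht.2, hs.2]
    · push Not at hc
      obtain ⟨c, hc, hlt⟩ := hc
      right
      rw [hA']
      simp only [mem_iUnion]
      refine ⟨c, Multiset.mem_toFinset.2 hc, ?_⟩
      have := abs_lt.1 hlt
      exact ⟨by linarith [this.1], by linarith [this.2]⟩
  have h1 : ENNReal.ofReal (2 * δ) ≤ volume (Icc (s - δ) (s + δ) ∩ good μ η) + ENNReal.ofReal (δ / 2) := by
    calc ENNReal.ofReal (2 * δ) = volume (Icc (s - δ) (s + δ)) := by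
          rw [Real.volume_Icc]; congr 1; ring
      _ ≤ volume ((Icc (s - δ) (s + δ) ∩ good μ η) ∪ A') := measure_mono hcov
      _ ≤ _ := (measure_union_le _ _).trans (by gcongr)
  have h2 : ENNReal.ofReal (2 * δ) = ENNReal.ofReal (3 / 2 * δ) + ENNReal.ofReal (δ / 2) := by
    rw [← ENNReal.ofReal_add (by positivity) (by positivity)]; congr 1; ring
  rw [h2] at h1
  have h3 := (ENNReal.add_le_add_iff_right ENNReal.ofReal_ne_top).1 h1
  exact (ENNReal.ofReal_le_ofReal (by linarith)).trans h3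

/-- The one-dimensional estimate. -/
theorem one_dim {μ : Multiset ℝ} {m : ℕ} (hm : 1 ≤ m) (hμ : μ.card = m) {δ : ℝ} (hδ : 0 < δ)
    (hδ1 : δ ≤ 1 / 2)
    {J : ℝ → ℝ≥0∞} (hJm : Measurable J) (hJtop : ∀ t, J t ≠ ∞)
    (hJ : ∀ t, ENNReal.ofReal (μ.map (fun c => |t - c|)).prod ≤ J t)
    {g G : ℝ → ℝ≥0∞} (hG : Measurable G) (hgG : ∀ s t, |s - t| ≤ δ → g s ≤ G t) :
    (∫⁻ s in Icc (-(1/2) : ℝ) (1/2), g s) ^ (m + 2)
      ≤ 2 ^ (m + 2) * (2 * m * ENNReal.ofReal (Real.log (1 + 3 / (δ / (4 * m))))) ^ m *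
        (∫⁻ t in Icc (-1 : ℝ) 1, G t ^ (((m:ℝ) + 2) / 2) * J t ^ ((1:ℝ) / 2)) ^ 2 := by
  have hm' : (1:ℝ) ≤ m := by exact_mod_cast hm
  have hm0 : (0:ℝ) < m := by linarith
  set η := δ / (4 * m) with hη
  have hη0 : 0 < η := by positivity
  have hδ0 : ENNReal.ofReal δ ≠ 0 := by simpa using hδ
  have hδt : ENNReal.ofReal δ ≠ ∞ := ENNReal.ofReal_ne_top
  have hgm := measurableSet_good μ η
  -- pointwise
  have hpt : ∀ s ∈ Icc (-(1/2) : ℝ) (1/2), ENNReal.ofReal δ * g s ≤
      ∫⁻ t in good μ η, ({q : ℝ × ℝ | |q.1 - q.2| ≤ δ}).indicator (fun q => G q.2) (s, t) := by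
    intro s hs
    have h1 : ∫⁻ t in good μ η, ({q : ℝ × ℝ | |q.1 - q.2| ≤ δ}).indicator (fun q => G q.2) (s, t)
        ≥ ∫⁻ t in Icc (s - δ) (s + δ) ∩ good μ η, g s := by
      calc ∫⁻ t in Icc (s - δ) (s + δ) ∩ good μ η, g s
          ≤ ∫⁻ t in Icc (s - δ) (s + δ) ∩ good μ η,
            ({q : ℝ × ℝ | |q.1 - q.2| ≤ δ}).indicator (fun q => G q.2) (s, t) := by
            apply setLIntegral_mono' (measurableSet_Icc.inter hgm)
            intro t ht
            have h2 : |s - t| ≤ δ := abs_le.2 ⟨by linarith [ht.1.2], by linarith [ht.1.1]⟩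
            rw [indicator_of_mem (by exact h2)]
            exact hgG s t h2
        _ ≤ _ := lintegral_mono_set inter_subset_right
    refine le_trans ?_ h1
    rw [setLIntegral_const, mul_comm]
    gcongr
    exact good_part hm hμ hδ hδ1 hs
  have hmeas : Measurable (({q : ℝ × ℝ | |q.1 - q.2| ≤ δ}).indicator (fun q => G q.2)) :=
    (hG.comp measurable_snd).indicator (measurableSet_le (by fun_prop) measurable_const)
  have hint : ∫⁻ s in Icc (-(1/2) : ℝ) (1/2), g s ≤ 2 * ∫⁻ t in good μ η, G t := by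
    have h1 : ENNReal.ofReal δ * ∫⁻ s in Icc (-(1/2) : ℝ) (1/2), g s ≤
        ENNReal.ofReal δ * (2 * ∫⁻ t in good μ η, G t) := by
      rw [← lintegral_const_mul' _ _ hδt]
      calc ∫⁻ s in Icc (-(1/2) : ℝ) (1/2), ENNReal.ofReal δ * g s
          ≤ ∫⁻ s in Icc (-(1/2) : ℝ) (1/2), ∫⁻ t in good μ η,
            ({q : ℝ × ℝ | |q.1 - q.2| ≤ δ}).indicator (fun q => G q.2) (s, t) :=
            setLIntegral_mono' measurableSet_Icc hpt
        _ = ∫⁻ t in good μ η, ∫⁻ s in Icc (-(1/2) : ℝ) (1/2),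
            ({q : ℝ × ℝ | |q.1 - q.2| ≤ δ}).indicator (fun q => G q.2) (s, t) :=
            lintegral_lintegral_swap (f := fun s t =>
              ({q : ℝ × ℝ | |q.1 - q.2| ≤ δ}).indicator (fun q => G q.2) (s, t)) hmeas.aemeasurable
        _ ≤ ∫⁻ t in good μ η, ENNReal.ofReal δ * (2 * G t) := by
            apply setLIntegral_mono' hgm
            intro t _
            calc ∫⁻ s in Icc (-(1/2) : ℝ) (1/2),
                ({q : ℝ × ℝ | |q.1 - q.2| ≤ δ}).indicator (fun q => G q.2) (s, t)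
                ≤ ∫⁻ s, (Icc (t - δ) (t + δ)).indicator (fun _ => G t) s := by
                  refine (setLIntegral_le_lintegral _ _).trans (lintegral_mono ?_)
                  intro s
                  by_cases h : |s - t| ≤ δ
                  · have h2 : s ∈ Icc (t - δ) (t + δ) := by
                      have := abs_le.1 h
                      exact ⟨by linarith [this.1], by linarith [this.2]⟩
                    show ({q : ℝ × ℝ | |q.1 - q.2| ≤ δ}).indicator (fun q => G q.2) (s, t) ≤ _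
                    rw [indicator_of_mem h2, indicator_of_mem (by exact h)]
                  · show ({q : ℝ × ℝ | |q.1 - q.2| ≤ δ}).indicator (fun q => G q.2) (s, t) ≤ _
                    rw [indicator_of_notMem (by exact h)]
                    exact zero_le
              _ = ENNReal.ofReal δ * (2 * G t) := by
                  rw [lintegral_indicator measurableSet_Icc, setLIntegral_const, Real.volume_Icc]
                  have : t + δ - (t - δ) = δ * 2 := by ring
                  rw [this, ENNReal.ofReal_mul hδ.le]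
                  simp only [ENNReal.ofReal_ofNat]
                  ring
        _ = _ := by
            rw [lintegral_const_mul' _ _ hδt, lintegral_const_mul' _ _ (by norm_num)]
    exact (ENNReal.mul_le_mul_iff_right hδ0 hδt).1 h1
  calc (∫⁻ s in Icc (-(1/2) : ℝ) (1/2), g s) ^ (m + 2)
      ≤ (2 * ∫⁻ t in good μ η, G t) ^ (m + 2) := by gcongr
    _ = 2 ^ (m + 2) * (∫⁻ t in good μ η, G t) ^ (m + 2) := by rw [mul_pow]
    _ ≤ 2 ^ (m + 2) * ((2 * m * ENNReal.ofReal (Real.log (1 + 3 / η))) ^ m *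
        (∫⁻ t in Icc (-1 : ℝ) 1, G t ^ (((m:ℝ) + 2) / 2) * J t ^ ((1:ℝ) / 2)) ^ 2) := by
        gcongr
        exact good_int hm hμ hη0 hJm hJtop hJ hG
    _ = _ := by ring

end Pool.Agent.R250.PF
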