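import Mathlib
import Pool.Agent.H803R2.KakDet

set_option autoImplicit false

/-!
Determinants along a line of the maps `(σ, η) ↦ A σ + B η`.
-/

open MeasureTheory Set Filter Topology ENNReal NNReal

namespace Pool.Agent.R250.PF

open Pool.Agent.H803R2.Kak

section block

variable {V W : Type*} [AddCommGroup V] [Module ℝ V] [FiniteDimensional ℝ V]
  [AddCommGroup W] [Module ℝ W] [FiniteDimensional ℝ W]

theorem det_block (X : V →ₗ[ℝ] V) (Y : V →ₗ[ℝ] W) :
    LinearMap.det ((X.comp (LinearMap.fst ℝ V W)).prod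
      (Y.comp (LinearMap.fst ℝ V W) + LinearMap.snd ℝ V W)) = LinearMap.det X := by
  classical
  set b := Module.finBasis ℝ V
  set b' := Module.finBasis ℝ W
  rw [← LinearMap.det_toMatrix (b.prod b'), ← LinearMap.det_toMatrix b]
  have h : LinearMap.toMatrix (b.prod b') (b.prod b') ((X.comp (LinearMap.fst ℝ V W)).prod
      (Y.comp (LinearMap.fst ℝ V W) + LinearMap.snd ℝ V W)) =
      Matrix.fromBlocks (LinearMap.toMatrix b b X) 0 (LinearMap.toMatrix b b' Y) 1 := by
    ext i j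
    rcases i with i | i <;> rcases j with j | j
    · simp [LinearMap.toMatrix_apply]
    · simp [LinearMap.toMatrix_apply]
    · simp [LinearMap.toMatrix_apply]
    · simp [LinearMap.toMatrix_apply, Matrix.one_apply, Module.Basis.repr_self, Finsupp.single_apply, eq_comm]
  rw [h, Matrix.det_fromBlocks_zero₁₂, Matrix.det_one, mul_one]

end block

section pencil

variable {V W E : Type*} [NormedAddCommGroup V] [NormedSpace ℝ V] [FiniteDimensional ℝ V]
  [NormedAddCommGroup W] [NormedSpace ℝ W] [FiniteDimensional ℝ W]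
  [NormedAddCommGroup E] [NormedSpace ℝ E]

/-- The map `(σ, η) ↦ ι (A σ + B η)`. -/
noncomputable def cmb (ι : E →L[ℝ] V × W) (A : V →L[ℝ] E) (B : W →L[ℝ] E) : V × W →L[ℝ] V × W :=
  ι.comp (A.comp (ContinuousLinearMap.fst ℝ V W) + B.comp (ContinuousLinearMap.snd ℝ V W))

theorem det_pencil (ι : E →L[ℝ] V × W) (A A' : V →L[ℝ] E) (B : W →L[ℝ] E)
    (h0 : (cmb ι A' B).det ≠ 0) :
    ∃ μ : Multiset ℝ, μ.card = Module.finrank ℝ V ∧
      ∀ t : ℝ, (μ.map (fun c => |t - c|)).prod ≤ |(cmb ι (A + t • A') B).det| / |(cmb ι A' B).det| := by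
  set T : V × W →L[ℝ] V × W := cmb ι A' B with hT
  set e := T.toContinuousLinearEquivOfDetNeZero h0 with he
  have heT : ∀ x, e x = T x := fun x => by simp [he]
  set R : V →L[ℝ] V × W := (e.symm : V × W →L[ℝ] V × W).comp (ι.comp A) with hR
  set R1 : V →L[ℝ] V := (ContinuousLinearMap.fst ℝ V W).comp R with hR1
  set R2 : V →L[ℝ] W := (ContinuousLinearMap.snd ℝ V W).comp R with hR2
  obtain ⟨μ, hμ, hμt⟩ := det_centers R1
  refine ⟨μ, hμ, fun t => ?_⟩
  refine (hμt t).trans (le_of_eq ?_)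
  rw [eq_div_iff (abs_ne_zero.2 h0), ← abs_mul]
  congr 1
  -- the factorization
  have hfac : ((cmb ι (A + t • A') B : V × W →L[ℝ] V × W) : V × W →ₗ[ℝ] V × W) =
      (T : V × W →ₗ[ℝ] V × W).comp ((((R1 + t • ContinuousLinearMap.id ℝ V : V →L[ℝ] V) : V →ₗ[ℝ] V).comp
        (LinearMap.fst ℝ V W)).prod ((R2 : V →ₗ[ℝ] W).comp (LinearMap.fst ℝ V W) + LinearMap.snd ℝ V W)) := by
    apply LinearMap.ext
    rintro ⟨σ, η⟩
    have h1 : T (R σ) = ι (A σ) := by
      rw [← heT, hR]
      simp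
    have h2 : ∀ (a : V) (b : W), T (a, b) = ι (A' a) + ι (B b) := by
      intro a b
      simp [hT, cmb]
    have h3 : ((R1 σ + t • σ, R2 σ + η) : V × W) = R σ + (t • σ, η) := by
      ext <;> simp [hR1, hR2]
    show cmb ι (A + t • A') B (σ, η) = T (R1 σ + t • σ, R2 σ + η)
    rw [h3, map_add, h1, h2]
    simp [cmb]
    abel
  show LinearMap.det _ * LinearMap.det _ = LinearMap.det _
  rw [hfac, LinearMap.det_comp, det_block, mul_comm]

end pencil

end Pool.Agent.R250.PF
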