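import Mathlib

set_option autoImplicit false

/-!
Area inequality for suprema over fibres.
-/

open MeasureTheory Set Filter Topology ENNReal NNReal

namespace Pool.Agent.R250.PF

section area

variable {G : Type*} [NormedAddCommGroup G] [NormedSpace ℝ G] [FiniteDimensional ℝ G]
  [MeasurableSpace G] [BorelSpace G] (μ : Measure G) [μ.IsAddHaarMeasure]

theorem area_sup {φ : G → G} {φ' : G → G →L[ℝ] G} {s : Set G} (hs : MeasurableSet s)
    (hφ : ∀ x ∈ s, HasFDerivWithinAt φ (φ' x) s x) {H : G → ℝ≥0∞} (hH : Measurable H) :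
    ∃ M : G → ℝ≥0∞, Measurable M ∧ (∀ z ∈ s, H z ≤ M (φ z)) ∧
      ∫⁻ z, M z ∂μ ≤ ∫⁻ z in s, H z * ENNReal.ofReal |(φ' z).det| ∂μ := by
  refine Measurable.ennreal_induction (motive := fun H => ∃ M : G → ℝ≥0∞, Measurable M ∧
    (∀ z ∈ s, H z ≤ M (φ z)) ∧
      ∫⁻ z, M z ∂μ ≤ ∫⁻ z in s, H z * ENNReal.ofReal |(φ' z).det| ∂μ) ?_ ?_ ?_ hH
  · intro c A hA
    refine ⟨(toMeasurable μ (φ '' (s ∩ A))).indicator (fun _ => c),
      measurable_const.indicator (measurableSet_toMeasurable _ _), ?_, ?_⟩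
    · intro z hz
      by_cases hzA : z ∈ A
      · rw [indicator_of_mem hzA, indicator_of_mem]
        exact subset_toMeasurable _ _ ⟨z, ⟨hz, hzA⟩, rfl⟩
      · rw [indicator_of_notMem hzA]; exact zero_le
    · rw [lintegral_indicator (measurableSet_toMeasurable _ _), setLIntegral_const,
        measure_toMeasurable]
      have h1 : μ (φ '' (s ∩ A)) ≤ ∫⁻ x in s ∩ A, ENNReal.ofReal |(φ' x).det| ∂μ :=
        addHaar_image_le_lintegral_abs_det_fderiv μ (hs.inter hA)
          (fun x hx => (hφ x hx.1).mono inter_subset_left)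
      calc c * μ (φ '' (s ∩ A)) ≤ c * ∫⁻ x in s ∩ A, ENNReal.ofReal |(φ' x).det| ∂μ := by gcongr
        _ ≤ ∫⁻ x in s ∩ A, c * ENNReal.ofReal |(φ' x).det| ∂μ := lintegral_const_mul_le _ _
        _ ≤ ∫⁻ x in s ∩ A, A.indicator (fun _ => c) x * ENNReal.ofReal |(φ' x).det| ∂μ := by
            apply setLIntegral_mono' (hs.inter hA)
            intro x hx
            rw [indicator_of_mem hx.2]
        _ ≤ _ := lintegral_mono_set inter_subset_left
  · intro f g _ hf hg ⟨M, hM, hM1, hM2⟩ ⟨M', hM', hM1', hM2'⟩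
    refine ⟨M + M', hM.add hM', ?_, ?_⟩
    · intro z hz
      exact add_le_add (hM1 z hz) (hM1' z hz)
    · calc ∫⁻ z, (M + M') z ∂μ = ∫⁻ z, M z ∂μ + ∫⁻ z, M' z ∂μ := lintegral_add_left hM _
        _ ≤ ∫⁻ z in s, f z * ENNReal.ofReal |(φ' z).det| ∂μ
            + ∫⁻ z in s, g z * ENNReal.ofReal |(φ' z).det| ∂μ := add_le_add hM2 hM2'
        _ ≤ ∫⁻ z in s, (f z * ENNReal.ofReal |(φ' z).det| + g z * ENNReal.ofReal |(φ' z).det|) ∂μ :=
            le_lintegral_add _ _
        _ = _ := by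
            congr 1; ext z; simp only [Pi.add_apply]; ring
  · intro f hf hmono hM
    choose M hMm hM1 hM2 using hM
    refine ⟨fun z => liminf (fun n => M n z) atTop, Measurable.liminf hMm, ?_, ?_⟩
    · intro z hz
      have h1 : Tendsto (fun n => f n z) atTop (𝓝 (⨆ n, f n z)) :=
        tendsto_atTop_iSup (fun i j hij => hmono hij z)
      have h2 : ⨆ n, f n z = liminf (fun n => f n z) atTop := h1.liminf_eq.symm
      show ⨆ n, f n z ≤ liminf (fun n => M n (φ z)) atTop
      rw [h2]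
      exact liminf_le_liminf (Eventually.of_forall (fun n => hM1 n z hz))
    · calc ∫⁻ z, liminf (fun n => M n z) atTop ∂μ ≤ liminf (fun n => ∫⁻ z, M n z ∂μ) atTop :=
            lintegral_liminf_le hMm
        _ ≤ liminf (fun _ : ℕ => ∫⁻ z in s, (⨆ n, f n z) * ENNReal.ofReal |(φ' z).det| ∂μ) atTop := by
            refine liminf_le_liminf (Eventually.of_forall (fun n => ?_))
            refine (hM2 n).trans ?_
            apply lintegral_mono
            intro z
            exact mul_le_mul' (le_iSup (fun n => f n z) n) le_rfl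
        _ = _ := liminf_const _

end area

end Pool.Agent.R250.PF
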