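import Pool.Agent.R250.PFa
import Pool.Agent.R250.PFb
import Pool.Agent.W767.Kc.Tube
import Pool.Agent.TH225.CK.F2

set_option autoImplicit false

/-!
The core estimate in one plane.
-/

open MeasureTheory Set Filter Topology ENNReal NNReal

namespace Pool.Agent.R250.PF

open Pool.Agent.H742R2.Kk (E)
open Pool.Agent.W767.Kc (Phi vB vB_eq vB_ne_top vB_ne_zero Av_mono_ball measurable_Phi)
open Pool.Agent.TH225.CK (NN Av_le_NN bx bx_prob un lintegral_un box bx_eq un_prob)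

/-- Coordinates in a plane. -/
abbrev Y : Type := Fin 2 → ℝ

/-- `y ↦ y 0 a + y 1 b`. -/
noncomputable def BB {n : ℕ} (a b : E n) : Y →L[ℝ] E n :=
  (ContinuousLinearMap.proj (R := ℝ) (φ := fun _ : Fin 2 => ℝ) 0).smulRight a +
    (ContinuousLinearMap.proj (R := ℝ) (φ := fun _ : Fin 2 => ℝ) 1).smulRight b

theorem BB_apply {n : ℕ} (a b : E n) (y : Y) : BB a b y = y 0 • a + y 1 • b := by
  simp [BB]

/-- `Dp + y 0 Da + y 1 Db`. -/
noncomputable def AA {m n : ℕ} (Dp Da Db : E m →L[ℝ] E n) (y : Y) : E m →L[ℝ] E n :=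
  Dp + (y 0 • Da + y 1 • Db)

theorem AA_line {m n : ℕ} (Dp Da Db : E m →L[ℝ] E n) (q v : Y) (t : ℝ) :
    AA Dp Da Db (q + t • v) = AA Dp Da Db q + t • AA 0 Da Db v := by
  ext x
  simp [AA]
  ring

/-- Jacobian of the map `(t, y) ↦ p t + y 0 a t + y 1 b t`. -/
noncomputable def jac {m n : ℕ} (ι : E n →L[ℝ] E m × Y) (Dp Da Db : E m →L[ℝ] E n) (a b : E n)
    (y : Y) : ℝ := |(cmb ι (AA Dp Da Db y) (BB a b)).det|

/-- The point with the coordinates `y`. -/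
noncomputable def pp {n : ℕ} (p a b : E n) (y : Y) : E n := p + BB a b y

theorem pp_dist {n : ℕ} {p a b : E n} (ha : ‖a‖ ≤ 1) (hb : ‖b‖ ≤ 1) {y y' : Y} {r : ℝ}
    (h : ∀ i, |y i - y' i| ≤ r) : ‖pp p a b y - pp p a b y'‖ ≤ 2 * r := by
  have e : pp p a b y - pp p a b y' = (y 0 - y' 0) • a + (y 1 - y' 1) • b := by
    simp only [pp, BB_apply, sub_smul]; abel
  rw [e]
  refine (norm_add_le _ _).trans ?_
  rw [norm_smul, norm_smul, Real.norm_eq_abs, Real.norm_eq_abs]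
  have h0 := h 0
  have h1 := h 1
  have h2 := abs_nonneg (y 0 - y' 0)
  have h3 := abs_nonneg (y 1 - y' 1)
  nlinarith [norm_nonneg a, norm_nonneg b]

theorem Phi_six {n : ℕ} {δ : ℝ} (hδ : 0 < δ) (F : E n → ℝ≥0∞) {x x' : E n}
    (h : ‖x - x'‖ ≤ 3 * δ) : Phi (3 * δ) F x ≤ 2 ^ n * Phi (6 * δ) F x' := by
  have h1 := Av_mono_ball (r := 3 * δ) F h
  have e : 3 * δ + 3 * δ = 6 * δ := by ring
  rw [e] at h1
  unfold Phi
  rw [← mul_assoc]
  have h3 : (vB n (3 * δ))⁻¹ = 2 ^ n * (vB n (6 * δ))⁻¹ := by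
    rw [vB_eq n (by positivity : (0:ℝ) ≤ 3 * δ), vB_eq n (by positivity : (0:ℝ) ≤ 6 * δ)]
    rw [ENNReal.mul_inv (Or.inl (by simp; positivity)) (Or.inl ENNReal.ofReal_ne_top),
      ENNReal.mul_inv (Or.inl (by simp; positivity)) (Or.inl ENNReal.ofReal_ne_top), ← mul_assoc]
    congr 1
    rw [← ENNReal.ofReal_inv_of_pos (by positivity), ← ENNReal.ofReal_inv_of_pos (by positivity)]
    rw [show (2 : ℝ≥0∞) ^ n = ENNReal.ofReal (2 ^ n) by
      rw [ENNReal.ofReal_pow (by norm_num)]; norm_num]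
    rw [← ENNReal.ofReal_mul (by positivity)]
    congr 1
    rw [mul_pow, mul_pow]
    have : (6:ℝ) ^ n = 2 ^ n * 3 ^ n := by rw [← mul_pow]; norm_num
    rw [this]
    field_simp
  rw [h3]
  gcongr

/-- The weighted function in the plane. -/
noncomputable def Gf {m : ℕ} (ι : E (m + 2) →L[ℝ] E m × Y) (Dp Da Db : E m →L[ℝ] E (m + 2))
    (p a b : E (m + 2)) (r : ℝ) (f : E (m + 2) → ℝ≥0∞) (y : Y) : ℝ≥0∞ :=
  Phi r f (pp p a b y) ^ (((m:ℝ) + 2) / 2) * ENNReal.ofReal (jac ι Dp Da Db a b y) ^ ((1:ℝ) / 2)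

theorem continuous_pp {n : ℕ} (p a b : E n) : Continuous (pp p a b) := by
  unfold pp; fun_prop

theorem continuous_jac {m n : ℕ} (ι : E n →L[ℝ] E m × Y) (Dp Da Db : E m →L[ℝ] E n) (a b : E n) :
    Continuous (jac ι Dp Da Db a b) := by
  unfold jac
  apply Continuous.abs
  apply ContinuousLinearMap.continuous_det.comp
  unfold cmb AA
  fun_prop

theorem measurable_Gf {m : ℕ} (ι : E (m + 2) →L[ℝ] E m × Y) (Dp Da Db : E m →L[ℝ] E (m + 2))
    (p a b : E (m + 2)) (r : ℝ) {f : E (m + 2) → ℝ≥0∞} (hf : Measurable f) :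
    Measurable (Gf ι Dp Da Db p a b r f) := by
  unfold Gf
  apply Measurable.mul
  · exact ((measurable_Phi r hf).comp (continuous_pp p a b).measurable).pow_const _
  · exact ((continuous_jac ι Dp Da Db a b).measurable.ennreal_ofReal).pow_const _

/-- Constant of the core estimate. -/
noncomputable def C1 (m : ℕ) (δ : ℝ) : ℝ≥0∞ :=
  2 ^ (m + 2) * (2 * m * ENNReal.ofReal (Real.log (1 + 3 / (δ / 2 / (4 * m))))) ^ m *
    ((2 ^ (m + 2)) ^ (m + 2) * 4)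

theorem core_line {m : ℕ} (hm : 1 ≤ m) (ι : E (m + 2) →L[ℝ] E m × Y)
    (Dp Da Db : E m →L[ℝ] E (m + 2)) {p a b : E (m + 2)} (ha : ‖a‖ ≤ 1) (hb : ‖b‖ ≤ 1) {δ : ℝ}
    (hδ : 0 < δ) (hδ1 : δ ≤ 1) {f : E (m + 2) → ℝ≥0∞} (hf : Measurable f) {v : Y}
    (hv : ∀ i, |v i| ≤ 1) (hJ0 : jac ι 0 Da Db a b v ≠ 0) (q q' z : Y)
    (hq : ∀ i, |q i - q' i| ≤ δ / 2) (hz : ∀ i, |z i| ≤ δ / 2) :
    ENNReal.ofReal (jac ι 0 Da Db a b v) *
      (∫⁻ s in Icc (-(1/2) : ℝ) (1/2), Phi (3 * δ) f (pp p a b (q + s • v))) ^ (m + 2)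
    ≤ 2 ^ (m + 2) * (2 * m * ENNReal.ofReal (Real.log (1 + 3 / (δ / 2 / (4 * m))))) ^ m *
      (2 ^ (m + 2)) ^ (m + 2) *
      (∫⁻ t in Icc (-1 : ℝ) 1, Gf ι Dp Da Db p a b (6 * δ) f (q' + t • v + z)) ^ 2 := by
  set J0 : ℝ := jac ι 0 Da Db a b v with hJ0d
  have hJ0pos : 0 < J0 := lt_of_le_of_ne (abs_nonneg _) (Ne.symm hJ0)
  have hJ0' : (cmb ι (AA 0 Da Db v) (BB a b)).det ≠ 0 := by
    intro h; apply hJ0; rw [hJ0d, jac, h, abs_zero]
  obtain ⟨μ, hμ, hμt⟩ := det_pencil ι (AA Dp Da Db (q' + z)) (AA 0 Da Db v) (BB a b) hJ0'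
  have hμ' : μ.card = m := by rw [hμ]; simp
  have hline : ∀ t : ℝ, q' + t • v + z = (q' + z) + t • v := fun t => by abel
  have hpl : ∀ t : ℝ, |(cmb ι (AA Dp Da Db (q' + z) + t • AA 0 Da Db v) (BB a b)).det| =
      jac ι Dp Da Db a b (q' + t • v + z) := by
    intro t
    rw [jac, hline t, AA_line]
  set K : ℝ≥0∞ := 2 ^ (m + 2) with hK
  have hKt : K ≠ ∞ := by rw [hK]; exact ENNReal.pow_ne_top (by norm_num)
  set c : ℝ≥0∞ := (ENNReal.ofReal J0)⁻¹ with hc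
  have hJ0e : ENNReal.ofReal J0 ≠ 0 := by simpa using hJ0pos
  have hJ0t : ENNReal.ofReal J0 ≠ ∞ := ENNReal.ofReal_ne_top
  have h1 := one_dim hm hμ' (δ := δ / 2) (by positivity) (by linarith)
    (J := fun t => ENNReal.ofReal (jac ι Dp Da Db a b (q' + t • v + z)) * c)
    (by
      apply Measurable.mul_const
      exact ((continuous_jac ι Dp Da Db a b).comp (by fun_prop)).measurable.ennreal_ofReal)
    (fun t => ENNReal.mul_ne_top ENNReal.ofReal_ne_top (ENNReal.inv_ne_top.2 hJ0e))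
    (by
      intro t
      rw [hc, ← ENNReal.ofReal_inv_of_pos hJ0pos,
        ← ENNReal.ofReal_mul (show 0 ≤ jac ι Dp Da Db a b (q' + t • v + z) from abs_nonneg _),
        ← div_eq_mul_inv, ← hpl t]
      exact ENNReal.ofReal_le_ofReal (hμt t))
    (g := fun s => Phi (3 * δ) f (pp p a b (q + s • v)))
    (G := fun t => K * Phi (6 * δ) f (pp p a b (q' + t • v + z)))
    (by
      apply Measurable.const_mul
      exact (measurable_Phi _ hf).comp ((continuous_pp p a b).comp (by fun_prop)).measurable)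
    (by
      intro s t hst
      apply Phi_six hδ
      have := pp_dist (p := p) ha hb (y := q + s • v) (y' := q' + t • v + z) (r := 3 / 2 * δ) (by
        intro i
        have e : (q + s • v) i - (q' + t • v + z) i = (q i - q' i) + (s - t) * v i - z i := by
          simp; ring
        rw [e]
        have h2 : |(s - t) * v i| ≤ δ / 2 := by
          rw [abs_mul]
          calc |s - t| * |v i| ≤ δ / 2 * 1 := by
                gcongr
                exact hv i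
            _ = _ := by ring
        calc |(q i - q' i) + (s - t) * v i - z i| ≤ |(q i - q' i) + (s - t) * v i| + |z i| := abs_sub _ _
          _ ≤ |q i - q' i| + |(s - t) * v i| + |z i| := by gcongr; exact abs_add_le _ _
          _ ≤ δ / 2 + δ / 2 + δ / 2 := by gcongr; exacts [hq i, hz i]
          _ = _ := by ring)
      linarith)
  have h2 : ∀ t : ℝ, (K * Phi (6 * δ) f (pp p a b (q' + t • v + z))) ^ (((m:ℝ) + 2) / 2) *
      (ENNReal.ofReal (jac ι Dp Da Db a b (q' + t • v + z)) * c) ^ ((1:ℝ) / 2) =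
      (K ^ (((m:ℝ) + 2) / 2) * c ^ ((1:ℝ) / 2)) * Gf ι Dp Da Db p a b (6 * δ) f (q' + t • v + z) := by
    intro t
    rw [ENNReal.mul_rpow_of_nonneg _ _ (by positivity), ENNReal.mul_rpow_of_nonneg _ _ (by positivity), Gf]
    ring
  simp only [h2] at h1
  have hcK : K ^ (((m:ℝ) + 2) / 2) * c ^ ((1:ℝ) / 2) ≠ ∞ := by
    apply ENNReal.mul_ne_top
    · exact ENNReal.rpow_ne_top_of_nonneg (by positivity) hKt
    · exact ENNReal.rpow_ne_top_of_nonneg (by positivity) (ENNReal.inv_ne_top.2 hJ0e)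
  rw [lintegral_const_mul' _ _ hcK] at h1
  have e1 : (K ^ (((m:ℝ) + 2) / 2)) ^ 2 = K ^ (m + 2) := by
    rw [← ENNReal.rpow_natCast, ← ENNReal.rpow_mul, ← ENNReal.rpow_natCast]
    congr 1
    push_cast
    ring
  have e2 : (c ^ ((1:ℝ) / 2)) ^ 2 = c := by
    rw [← ENNReal.rpow_natCast, ← ENNReal.rpow_mul]
    norm_num
  have e3 : (K ^ (((m:ℝ) + 2) / 2) * c ^ ((1:ℝ) / 2) *
      ∫⁻ t in Icc (-1 : ℝ) 1, Gf ι Dp Da Db p a b (6 * δ) f (q' + t • v + z)) ^ 2 =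
      (K ^ (m + 2) * c) * (∫⁻ t in Icc (-1 : ℝ) 1, Gf ι Dp Da Db p a b (6 * δ) f (q' + t • v + z)) ^ 2 := by
    rw [mul_pow, mul_pow, e1, e2]
  rw [e3] at h1
  calc _ ≤ ENNReal.ofReal J0 * _ := mul_le_mul' le_rfl h1
    _ = (ENNReal.ofReal J0 * c) * (2 ^ (m + 2) * (2 * m * ENNReal.ofReal (Real.log (1 + 3 / (δ / 2 / (4 * m))))) ^ m *
      K ^ (m + 2) *
      (∫⁻ t in Icc (-1 : ℝ) 1, Gf ι Dp Da Db p a b (6 * δ) f (q' + t • v + z)) ^ 2) := by ring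
    _ = _ := by rw [hc, ENNReal.mul_inv_cancel hJ0e hJ0t, one_mul]

theorem exists_rat (x : ℝ) {r : ℝ} (hr : 0 < r) : ∃ q : ℚ, |x - q| ≤ r := by
  obtain ⟨q, hq⟩ := exists_rat_near x hr
  exact ⟨q, hq.le⟩

theorem core {m : ℕ} (hm : 1 ≤ m) (ι : E (m + 2) →L[ℝ] E m × Y)
    (Dp Da Db : E m →L[ℝ] E (m + 2)) {p a b : E (m + 2)} (ha : ‖a‖ ≤ 1) (hb : ‖b‖ ≤ 1) {δ : ℝ}
    (hδ : 0 < δ) (hδ1 : δ ≤ 1) {f : E (m + 2) → ℝ≥0∞} (hf : Measurable f) {v : Y}
    (hv : ∀ i, |v i| ≤ 1) (q : Y) :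
    ENNReal.ofReal (jac ι 0 Da Db a b v) *
      (∫⁻ s in Icc (-(1/2) : ℝ) (1/2), Phi (3 * δ) f (pp p a b (q + s • v))) ^ (m + 2)
    ≤ C1 m δ * NN (δ / 2) (Gf ι Dp Da Db p a b (6 * δ) f) v ^ 2 := by
  by_cases hJ0 : jac ι 0 Da Db a b v = 0
  · rw [hJ0]; simp
  have hρ : 0 < δ / 2 := by positivity
  have hp1 := bx_prob (Fin 2) hρ
  choose qq hqq using fun i => exists_rat (q i) hρ
  set q' : Y := fun i => (qq i : ℝ) with hq'
  set X : ℝ≥0∞ := ENNReal.ofReal (jac ι 0 Da Db a b v) *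
      (∫⁻ s in Icc (-(1/2) : ℝ) (1/2), Phi (3 * δ) f (pp p a b (q + s • v))) ^ (m + 2) with hX
  set D : ℝ≥0∞ := 2 ^ (m + 2) * (2 * m * ENNReal.ofReal (Real.log (1 + 3 / (δ / 2 / (4 * m))))) ^ m *
      (2 ^ (m + 2)) ^ (m + 2) with hD
  set Gg := Gf ι Dp Da Db p a b (6 * δ) f with hGg
  have hGm : Measurable Gg := measurable_Gf ι Dp Da Db p a b _ hf
  have hDt : D ≠ ∞ := by
    rw [hD]
    apply ENNReal.mul_ne_top
    · apply ENNReal.mul_ne_top (ENNReal.pow_ne_top (by norm_num))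
      apply ENNReal.pow_ne_top
      exact ENNReal.mul_ne_top (ENNReal.mul_ne_top (by norm_num) (ENNReal.natCast_ne_top m)) ENNReal.ofReal_ne_top
    · exact ENNReal.pow_ne_top (ENNReal.pow_ne_top (by norm_num))
  have hz : ∀ z ∈ box (Fin 2) (δ / 2), X ^ ((1:ℝ)/2) ≤
      D ^ ((1:ℝ)/2) * ∫⁻ t in Icc (-1 : ℝ) 1, Gg (q' + t • v + z) := by
    intro z hz
    have h1 := core_line hm ι Dp Da Db (p := p) ha hb hδ hδ1 hf hv hJ0 q q' z hqq (fun i => abs_le.2 (hz i (mem_univ i)))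
    have h2 := ENNReal.rpow_le_rpow h1 (by norm_num : (0:ℝ) ≤ 1/2)
    refine h2.trans (le_of_eq ?_)
    rw [ENNReal.mul_rpow_of_nonneg _ _ (by norm_num)]
    congr 1
    rw [← ENNReal.rpow_natCast, ← ENNReal.rpow_mul]
    norm_num
    rfl
  have hmeas : Measurable (fun q : Y × ℝ => Gg (q' + q.2 • v + q.1)) := hGm.comp (by fun_prop)
  have hav : X ^ ((1:ℝ)/2) ≤ D ^ ((1:ℝ)/2) * (2 * NN (δ / 2) Gg v) := by
    calc X ^ ((1:ℝ)/2) = ∫⁻ _, X ^ ((1:ℝ)/2) ∂(bx (Fin 2) (δ / 2)) := by simp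
      _ ≤ ∫⁻ z, (D ^ ((1:ℝ)/2) * ∫⁻ t in Icc (-1 : ℝ) 1, Gg (q' + t • v + z)) ∂(bx (Fin 2) (δ / 2)) := by
          apply lintegral_mono_ae
          rw [bx_eq (Fin 2) hρ]
          apply Measure.ae_smul_measure
          filter_upwards [ae_restrict_mem (MeasurableSet.univ_pi fun _ => measurableSet_Icc)] with z hz1
          exact hz z hz1
      _ = D ^ ((1:ℝ)/2) * ∫⁻ z, (∫⁻ t in Icc (-1 : ℝ) 1, Gg (q' + t • v + z)) ∂(bx (Fin 2) (δ / 2)) := by
          rw [lintegral_const_mul']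
          exact ENNReal.rpow_ne_top_of_nonneg (by norm_num) hDt
      _ = D ^ ((1:ℝ)/2) * ∫⁻ t in Icc (-1 : ℝ) 1, (∫⁻ z, Gg (q' + t • v + z) ∂(bx (Fin 2) (δ / 2))) := by
          rw [lintegral_lintegral_swap (f := fun z t => Gg (q' + t • v + z)) hmeas.aemeasurable]
      _ = D ^ ((1:ℝ)/2) * (2 * Pool.Agent.TH225.CK.Av (δ / 2) Gg v q') := by
          congr 1
          unfold Pool.Agent.TH225.CK.Av
          rw [lintegral_un, ← mul_assoc]
          have : (2 : ℝ≥0∞) * (ENNReal.ofReal (2 * 1))⁻¹ = 1 := by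
            rw [mul_one, ENNReal.ofReal_ofNat]
            exact ENNReal.mul_inv_cancel (by norm_num) (by norm_num)
          rw [this, one_mul]
      _ ≤ _ := by
          gcongr
          exact Av_le_NN v qq
  calc X = (X ^ ((1:ℝ)/2)) ^ 2 := by
        rw [← ENNReal.rpow_natCast, ← ENNReal.rpow_mul]; norm_num
    _ ≤ (D ^ ((1:ℝ)/2) * (2 * NN (δ / 2) Gg v)) ^ 2 := by gcongr
    _ = (D ^ ((1:ℝ)/2)) ^ 2 * (2 ^ 2 * NN (δ / 2) Gg v ^ 2) := by rw [mul_pow, mul_pow]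
    _ = _ := by
        have : (D ^ ((1:ℝ)/2)) ^ 2 = D := by
          rw [← ENNReal.rpow_natCast, ← ENNReal.rpow_mul]; norm_num
        rw [this, C1, hD]
        ring

end Pool.Agent.R250.PF
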