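import Pool.Agent.R250.PFd
import Pool.Agent.R250.PFc
import Pool.Agent.H803R2.KakFub

set_option autoImplicit false

/-!
Integration over the family of planes.
-/

open MeasureTheory Set Filter Topology ENNReal NNReal

namespace Pool.Agent.R250.PF

open Pool.Agent.H742R2.Kk (E)
open Pool.Agent.W767.Kc (Phi vB vB_eq vB_ne_top vB_ne_zero Av_mono_ball measurable_Phi lintegral_Phi_pow)
open Pool.Agent.TH225.CK (NN Av_le_NN bx bx_prob un lintegral_un box bx_eq un_prob cu cu_eq base_two
  measurableSet_box)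

/-- A differentiable family of planes `p t + ℝ u t + ℝ w t`, `t ∈ U`. -/
structure Fam {m : ℕ} (U : Set (E m)) (p u w : E m → E (m + 2)) : Prop where
  hU : MeasurableSet U
  hp : ∀ t ∈ U, DifferentiableAt ℝ p t
  hu : ∀ t ∈ U, DifferentiableAt ℝ u t
  hw : ∀ t ∈ U, DifferentiableAt ℝ w t
  hu1 : ∀ t ∈ U, ‖u t‖ = 1
  hw1 : ∀ t ∈ U, ‖w t‖ = 1
  huw : ∀ t ∈ U, inner ℝ (u t) (w t) = 0

theorem meas_ind {m : ℕ} {U : Set (E m)} (hU : MeasurableSet U) {b : E m → E (m + 2)}
    (hb : ∀ v ∈ U, DifferentiableAt ℝ b v) : Measurable (U.indicator b) := by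
  classical
  have hc : ContinuousOn b U := fun v hv => (hb v hv).continuousAt.continuousWithinAt
  have := hc.measurable_piecewise (g := fun _ => (0 : E (m + 2))) continuousOn_const hU
  convert this using 1
  ext v
  by_cases hv : v ∈ U
  · simp [hv]
  · simp [hv]

section

variable {m : ℕ} {U : Set (E m)} {p u w : E m → E (m + 2)}

theorem meas_cmb {X : Type*} [MeasurableSpace X] (ι : E (m + 2) →L[ℝ] E m × Y)
    {A : X → E m →L[ℝ] E (m + 2)} {a b : X → E (m + 2)} (hA : Measurable A) (ha : Measurable a)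
    (hb : Measurable b) : Measurable (fun x => cmb ι (A x) (BB (a x) (b x))) := by
  have c1 : Continuous (fun T : E m →L[ℝ] E (m + 2) => T.comp (ContinuousLinearMap.fst ℝ (E m) Y)) := by
    fun_prop
  have c2 : Continuous (fun T : Y →L[ℝ] E (m + 2) => T.comp (ContinuousLinearMap.snd ℝ (E m) Y)) := by
    fun_prop
  have c3 : Continuous (fun T : E m × Y →L[ℝ] E (m + 2) => ι.comp T) := by fun_prop
  have d0 : Measurable (fun x => (ContinuousLinearMap.proj (R := ℝ) (φ := fun _ : Fin 2 => ℝ) 0).smulRight (a x)) :=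
    (ContinuousLinearMap.smulRightL ℝ Y (E (m + 2))
      (ContinuousLinearMap.proj (R := ℝ) (φ := fun _ : Fin 2 => ℝ) 0)).continuous.measurable.comp ha
  have d1 : Measurable (fun x => (ContinuousLinearMap.proj (R := ℝ) (φ := fun _ : Fin 2 => ℝ) 1).smulRight (b x)) :=
    (ContinuousLinearMap.smulRightL ℝ Y (E (m + 2))
      (ContinuousLinearMap.proj (R := ℝ) (φ := fun _ : Fin 2 => ℝ) 1)).continuous.measurable.comp hb
  have d2 : Measurable (fun x => BB (a x) (b x)) := d0.add d1
  have d3 := c1.measurable.comp hA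
  have d4 := c2.measurable.comp d2
  exact c3.measurable.comp (d3.add d4)

theorem meas_AA {X : Type*} [MeasurableSpace X] {A1 A2 A3 : X → E m →L[ℝ] E (m + 2)} {y : X → Y}
    (h1 : Measurable A1) (h2 : Measurable A2) (h3 : Measurable A3) (hy : Measurable y) :
    Measurable (fun x => AA (A1 x) (A2 x) (A3 x) (y x)) := by
  unfold AA
  have b0 : Measurable (fun x => y x 0) := (measurable_pi_apply 0).comp hy
  have b1 : Measurable (fun x => y x 1) := (measurable_pi_apply 1).comp hy
  exact h1.add ((b0.smul h2).add (b1.smul h3))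

/-- The derivative of the parametrisation, with the frames set to zero off `U`. -/
noncomputable def dP (ι : E (m + 2) →L[ℝ] E m × Y) (U : Set (E m)) (p u w : E m → E (m + 2))
    (x : E m × Y) : E m × Y →L[ℝ] E m × Y :=
  cmb ι (AA (fderiv ℝ p x.1) (fderiv ℝ u x.1) (fderiv ℝ w x.1) x.2)
    (BB (U.indicator u x.1) (U.indicator w x.1))

noncomputable def dD (ι : E (m + 2) →L[ℝ] E m × Y) (U : Set (E m)) (u w : E m → E (m + 2))
    (x : E m × Y) : E m × Y →L[ℝ] E m × Y :=
  cmb ι (AA 0 (fderiv ℝ u x.1) (fderiv ℝ w x.1) x.2)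
    (BB (U.indicator u x.1) (U.indicator w x.1))

theorem measurable_dP (ι : E (m + 2) →L[ℝ] E m × Y) (hF : Fam U p u w) :
    Measurable (dP ι U p u w) := by
  have a1 : Measurable (fun x : E m × Y => fderiv ℝ p x.1) := (measurable_fderiv ℝ p).comp measurable_fst
  have a2 : Measurable (fun x : E m × Y => fderiv ℝ u x.1) := (measurable_fderiv ℝ u).comp measurable_fst
  have a3 : Measurable (fun x : E m × Y => fderiv ℝ w x.1) := (measurable_fderiv ℝ w).comp measurable_fst
  have a4 : Measurable (fun x : E m × Y => U.indicator u x.1) := (meas_ind hF.hU hF.hu).comp measurable_fst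
  have a5 : Measurable (fun x : E m × Y => U.indicator w x.1) := (meas_ind hF.hU hF.hw).comp measurable_fst
  exact meas_cmb ι (meas_AA a1 a2 a3 measurable_snd) a4 a5

theorem measurable_dD (ι : E (m + 2) →L[ℝ] E m × Y) (hF : Fam U p u w) :
    Measurable (dD ι U u w) := by
  have a2 : Measurable (fun x : E m × Y => fderiv ℝ u x.1) := (measurable_fderiv ℝ u).comp measurable_fst
  have a3 : Measurable (fun x : E m × Y => fderiv ℝ w x.1) := (measurable_fderiv ℝ w).comp measurable_fst
  have a4 : Measurable (fun x : E m × Y => U.indicator u x.1) := (meas_ind hF.hU hF.hu).comp measurable_fst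
  have a5 : Measurable (fun x : E m × Y => U.indicator w x.1) := (meas_ind hF.hU hF.hw).comp measurable_fst
  exact meas_cmb ι (meas_AA (A1 := fun _ => 0) measurable_const a2 a3 measurable_snd) a4 a5

/-- The plane functions, with the frames set to zero off `U`. -/
noncomputable def GG (ι : E (m + 2) →L[ℝ] E m × Y) (U : Set (E m)) (p u w : E m → E (m + 2)) (r : ℝ)
    (f : E (m + 2) → ℝ≥0∞) (x : E m × Y) : ℝ≥0∞ :=
  Gf ι (fderiv ℝ p x.1) (fderiv ℝ u x.1) (fderiv ℝ w x.1) (U.indicator p x.1) (U.indicator u x.1)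
    (U.indicator w x.1) r f x.2

theorem GG_eq (ι : E (m + 2) →L[ℝ] E m × Y) (r : ℝ) (f : E (m + 2) → ℝ≥0∞) (x : E m × Y) :
    GG ι U p u w r f x = Phi r f (U.indicator p x.1 + (x.2 0 • U.indicator u x.1 + x.2 1 • U.indicator w x.1))
      ^ (((m:ℝ) + 2) / 2) * ENNReal.ofReal |(dP ι U p u w x).det| ^ ((1:ℝ) / 2) := by
  rw [GG, Gf, jac, pp, BB_apply]; rfl

theorem measurable_GG (ι : E (m + 2) →L[ℝ] E m × Y) (hF : Fam U p u w) (r : ℝ)
    {f : E (m + 2) → ℝ≥0∞} (hf : Measurable f) : Measurable (GG ι U p u w r f) := by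
  have h0 : GG ι U p u w r f = fun x => Phi r f (U.indicator p x.1 + (x.2 0 • U.indicator u x.1 + x.2 1 • U.indicator w x.1))
      ^ (((m:ℝ) + 2) / 2) * ENNReal.ofReal |(dP ι U p u w x).det| ^ ((1:ℝ) / 2) := by
    funext x; exact GG_eq ι r f x
  rw [h0]
  apply Measurable.mul
  · apply Measurable.pow_const
    apply (measurable_Phi r hf).comp
    have a3 : Measurable (fun x : E m × Y => U.indicator p x.1) := (meas_ind hF.hU hF.hp).comp measurable_fst
    have a4 : Measurable (fun x : E m × Y => U.indicator u x.1) := (meas_ind hF.hU hF.hu).comp measurable_fst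
    have a5 : Measurable (fun x : E m × Y => U.indicator w x.1) := (meas_ind hF.hU hF.hw).comp measurable_fst
    have b0 : Measurable (fun x : E m × Y => x.2 0) := by fun_prop
    have b1 : Measurable (fun x : E m × Y => x.2 1) := by fun_prop
    exact a3.add ((b0.smul a4).add (b1.smul a5))
  · apply Measurable.pow_const
    exact ((ContinuousLinearMap.continuous_det.measurable.comp (measurable_dP ι hF)).abs).ennreal_ofReal

theorem hasFDerivAt_plane (ι : E (m + 2) →L[ℝ] E m × Y) (hF : Fam U p u w) {x : E m × Y}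
    (hx : x.1 ∈ U) :
    HasFDerivAt (fun x : E m × Y => ι (p x.1 + (x.2 0 • u x.1 + x.2 1 • w x.1)))
      (dP ι U p u w x) x := by
  have hp := (hF.hp x.1 hx).hasFDerivAt.comp x (hasFDerivAt_fst (𝕜 := ℝ) (E := E m) (F := Y) (p := x))
  have hu := (hF.hu x.1 hx).hasFDerivAt.comp x (hasFDerivAt_fst (𝕜 := ℝ) (E := E m) (F := Y) (p := x))
  have hw := (hF.hw x.1 hx).hasFDerivAt.comp x (hasFDerivAt_fst (𝕜 := ℝ) (E := E m) (F := Y) (p := x))
  have c0 : HasFDerivAt (fun x : E m × Y => x.2 0) ((ContinuousLinearMap.proj (R := ℝ) (φ := fun _ : Fin 2 => ℝ) 0).comp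
      (ContinuousLinearMap.snd ℝ (E m) Y)) x :=
    ((ContinuousLinearMap.proj (R := ℝ) (φ := fun _ : Fin 2 => ℝ) 0).comp
      (ContinuousLinearMap.snd ℝ (E m) Y)).hasFDerivAt
  have c1 : HasFDerivAt (fun x : E m × Y => x.2 1) ((ContinuousLinearMap.proj (R := ℝ) (φ := fun _ : Fin 2 => ℝ) 1).comp
      (ContinuousLinearMap.snd ℝ (E m) Y)) x :=
    ((ContinuousLinearMap.proj (R := ℝ) (φ := fun _ : Fin 2 => ℝ) 1).comp
      (ContinuousLinearMap.snd ℝ (E m) Y)).hasFDerivAt
  have h := ι.hasFDerivAt.comp x (hp.add ((c0.smul hu).add (c1.smul hw)))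
  refine HasFDerivAt.congr_fderiv h ?_
  apply ContinuousLinearMap.ext
  rintro ⟨σ, η⟩
  simp only [dP, cmb, AA, BB_apply, ContinuousLinearMap.comp_apply, _root_.add_apply,
    _root_.smul_apply, ContinuousLinearMap.coe_fst', ContinuousLinearMap.coe_snd',
    ContinuousLinearMap.smulRight_apply, ContinuousLinearMap.proj_apply, indicator_of_mem hx, Function.comp]
  congr 1
  abel

theorem hasFDerivAt_dir (ι : E (m + 2) →L[ℝ] E m × Y) (hF : Fam U p u w) {x : E m × Y}
    (hx : x.1 ∈ U) :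
    HasFDerivAt (fun x : E m × Y => ι (x.2 0 • u x.1 + x.2 1 • w x.1))
      (dD ι U u w x) x := by
  have hu := (hF.hu x.1 hx).hasFDerivAt.comp x (hasFDerivAt_fst (𝕜 := ℝ) (E := E m) (F := Y) (p := x))
  have hw := (hF.hw x.1 hx).hasFDerivAt.comp x (hasFDerivAt_fst (𝕜 := ℝ) (E := E m) (F := Y) (p := x))
  have c0 : HasFDerivAt (fun x : E m × Y => x.2 0) ((ContinuousLinearMap.proj (R := ℝ) (φ := fun _ : Fin 2 => ℝ) 0).comp
      (ContinuousLinearMap.snd ℝ (E m) Y)) x :=
    ((ContinuousLinearMap.proj (R := ℝ) (φ := fun _ : Fin 2 => ℝ) 0).comp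
      (ContinuousLinearMap.snd ℝ (E m) Y)).hasFDerivAt
  have c1 : HasFDerivAt (fun x : E m × Y => x.2 1) ((ContinuousLinearMap.proj (R := ℝ) (φ := fun _ : Fin 2 => ℝ) 1).comp
      (ContinuousLinearMap.snd ℝ (E m) Y)) x :=
    ((ContinuousLinearMap.proj (R := ℝ) (φ := fun _ : Fin 2 => ℝ) 1).comp
      (ContinuousLinearMap.snd ℝ (E m) Y)).hasFDerivAt
  have h := ι.hasFDerivAt.comp x ((c0.smul hu).add (c1.smul hw))
  refine HasFDerivAt.congr_fderiv h ?_
  apply ContinuousLinearMap.ext
  rintro ⟨σ, η⟩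
  simp only [dD, cmb, AA, BB_apply, ContinuousLinearMap.comp_apply, _root_.add_apply,
    _root_.smul_apply, ContinuousLinearMap.coe_fst', ContinuousLinearMap.coe_snd',
    ContinuousLinearMap.smulRight_apply, ContinuousLinearMap.proj_apply, indicator_of_mem hx, Function.comp,
    zero_add]
  congr 1
  abel

end

end Pool.Agent.R250.PF
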