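import Pool.Agent.R250.PFe
import Pool.Agent.TH225.CK.H

set_option autoImplicit false

/-!
Integration over the family of planes: position and direction.
-/

open MeasureTheory Set Filter Topology ENNReal NNReal

namespace Pool.Agent.R250.PF

open Pool.Agent.H742R2.Kk (E)
open Pool.Agent.W767.Kc (Phi vB vB_eq vB_ne_top vB_ne_zero Av_mono_ball measurable_Phi lintegral_Phi_pow)
open Pool.Agent.TH225.CK (NN Av_le_NN bx bx_prob un lintegral_un box bx_eq un_prob cu cu_eq base_two
  measurableSet_box)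

instance instHaarProd (m : ℕ) : (volume : Measure (E m × Y)).IsAddHaarMeasure :=
  Measure.prod.instIsAddHaarMeasure _ _

theorem measurable_NN2 {X : Type*} [MeasurableSpace X] {ρ : ℝ} (hρ : 0 < ρ) {F : X × Y → ℝ≥0∞}
    (hF : Measurable F) : Measurable (fun x : X × Y => NN ρ (fun y => F (x.1, y)) x.2) := by
  unfold NN
  apply Measurable.iSup
  intro q
  unfold Pool.Agent.TH225.CK.Av
  have := bx_prob (Fin 2) hρ
  have := un_prob (one_pos)
  have h1 : Measurable (fun z : ((X × Y) × ℝ) × Y => F (z.1.1.1, (fun i => (q i : ℝ)) + z.1.2 • z.1.1.2 + z.2)) := by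
    apply hF.comp
    fun_prop
  have h2 := Measurable.lintegral_prod_right' (ν := bx (Fin 2) ρ) h1
  exact Measurable.lintegral_prod_right' (ν := un 1) h2

section

variable {m : ℕ} {U : Set (E m)} {p u w : E m → E (m + 2)}

/-- Number of planes through a point. -/
noncomputable def Mult (U : Set (E m)) (p u w : E m → E (m + 2)) (x : E (m + 2)) : ℕ∞ :=
  {t | t ∈ U ∧ ∃ y : Y, x = p t + (y 0 • u t + y 1 • w t)}.encard

theorem orth_unique {n : ℕ} {a b : E n} (ha : ‖a‖ = 1) (hb : ‖b‖ = 1) (hab : inner ℝ a b = 0) {y z : Y}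
    (h : y 0 • a + y 1 • b = z 0 • a + z 1 • b) : y = z := by
  have h0 : inner ℝ a (y 0 • a + y 1 • b) = y 0 := by
    rw [inner_add_right, inner_smul_right, inner_smul_right, real_inner_self_eq_norm_sq, ha, hab]; ring
  have h0' : inner ℝ a (z 0 • a + z 1 • b) = z 0 := by
    rw [inner_add_right, inner_smul_right, inner_smul_right, real_inner_self_eq_norm_sq, ha, hab]; ring
  have hba : inner ℝ b a = 0 := by rw [real_inner_comm]; exact hab
  have h1 : inner ℝ b (y 0 • a + y 1 • b) = y 1 := by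
    rw [inner_add_right, inner_smul_right, inner_smul_right, real_inner_self_eq_norm_sq, hb, hba]; ring
  have h1' : inner ℝ b (z 0 • a + z 1 • b) = z 1 := by
    rw [inner_add_right, inner_smul_right, inner_smul_right, real_inner_self_eq_norm_sq, hb, hba]; ring
  funext i
  fin_cases i
  · show y 0 = z 0
    rw [← h0, ← h0', h]
  · show y 1 = z 1
    rw [← h1, ← h1', h]

/-- The position integral. -/
theorem position (ι : E (m + 2) ≃L[ℝ] E m × Y) (hF : Fam U p u w) {N : ℕ}
    (hN : ∀ᵐ x : E (m + 2), Mult U p u w x ≤ N) {H : E (m + 2) → ℝ≥0∞} (hH : Measurable H) :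
    ∫⁻ x : E m × Y in U ×ˢ univ, H (p x.1 + (x.2 0 • u x.1 + x.2 1 • w x.1)) *
        ENNReal.ofReal |(dP (ι : E (m + 2) →L[ℝ] E m × Y) U p u w x).det|
      ≤ N * ∫⁻ z : E m × Y, H (ι.symm z) := by
  have hs : MeasurableSet (U ×ˢ (univ : Set Y)) := hF.hU.prod MeasurableSet.univ
  have hHm : Measurable (fun z : E m × Y => H (ι.symm z)) :=
    hH.comp ι.symm.continuous.measurable
  have hac : (volume : Measure (E m × Y)) ≪ Measure.map ι volume :=
    Measure.absolutelyContinuous_isAddHaarMeasure _ _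
  have hN2 : ∀ᵐ z : E m × Y, Mult U p u w (ι.symm z) ≤ N := by
    have hemb : MeasurableEmbedding (ι : E (m + 2) → E m × Y) := ι.toHomeomorph.measurableEmbedding
    have : ∀ᵐ z ∂(Measure.map ι (volume : Measure (E (m + 2)))), Mult U p u w (ι.symm z) ≤ N := by
      rw [hemb.ae_map_iff]
      filter_upwards [hN] with x hx
      rw [ContinuousLinearEquiv.symm_apply_apply]
      exact hx
    exact hac.ae_le this
  have h := Pool.Agent.H803R2.Kak.lintegral_comp_det_le (E := E m × Y) volume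
    (φ := fun x : E m × Y => ι (p x.1 + (x.2 0 • u x.1 + x.2 1 • w x.1)))
    (φ' := dP (ι : E (m + 2) →L[ℝ] E m × Y) U p u w) (N := N) hs
    (fun x hx => hasFDerivAt_plane (ι : E (m + 2) →L[ℝ] E m × Y) hF hx.1)
    (measurable_dP _ hF) (by
      filter_upwards [hN2] with z hz
      refine le_trans ?_ hz
      have hinj : InjOn (fun x : E m × Y => x.1) {x : E m × Y | x ∈ U ×ˢ (univ : Set Y) ∧
          ι (p x.1 + (x.2 0 • u x.1 + x.2 1 • w x.1)) = z ∧
          (dP (ι : E (m + 2) →L[ℝ] E m × Y) U p u w x).det ≠ 0} := by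
        rintro ⟨t, y⟩ ⟨h1, h2, _⟩ ⟨t', y'⟩ ⟨h1', h2', _⟩ heq
        simp only at heq h2 h2'
        subst heq
        have h3 : p t + (y 0 • u t + y 1 • w t) = p t + (y' 0 • u t + y' 1 • w t) := by
          apply ι.injective
          rw [h2, h2']
        have h4 := add_left_cancel h3
        have h5 := orth_unique (hF.hu1 t h1.1) (hF.hw1 t h1.1) (hF.huw t h1.1) h4
        rw [h5]
      rw [← hinj.encard_image]
      apply Set.encard_le_encard
      rintro t ⟨⟨t', y⟩, ⟨h1, h2, _⟩, rfl⟩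
      refine ⟨h1.1, y, ?_⟩
      rw [← h2, ContinuousLinearEquiv.symm_apply_apply]) hHm
  simpa only [ContinuousLinearEquiv.symm_apply_apply] using h

/-- The function to be majorised in the direction variable. -/
noncomputable def HH (ι : E (m + 2) →L[ℝ] E m × Y) (U : Set (E m)) (p u w : E m → E (m + 2)) (δ : ℝ)
    (f : E (m + 2) → ℝ≥0∞) (x : E m × Y) : ℝ≥0∞ :=
  (C1 m δ * NN (δ / 2) (fun y => GG ι U p u w (6 * δ) f (x.1, y)) x.2 ^ 2) *
    (ENNReal.ofReal |(dD ι U u w x).det|)⁻¹ + {x | (dD ι U u w x).det = 0}.indicator (fun _ => ∞) x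

theorem measurable_HH (ι : E (m + 2) →L[ℝ] E m × Y) (hF : Fam U p u w) {δ : ℝ} (hδ : 0 < δ)
    {f : E (m + 2) → ℝ≥0∞} (hf : Measurable f) : Measurable (HH ι U p u w δ f) := by
  have hd : Measurable (fun x => (dD ι U u w x).det) :=
    ContinuousLinearMap.continuous_det.measurable.comp (measurable_dD ι hF)
  unfold HH
  apply Measurable.add
  · apply Measurable.mul
    · apply Measurable.const_mul
      exact (measurable_NN2 (by positivity) (measurable_GG ι hF (6 * δ) hf)).pow_const 2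
    · exact (hd.abs.ennreal_ofReal).inv
  · exact measurable_const.indicator (hd (measurableSet_singleton (0:ℝ)))

theorem HH_mul_le (ι : E (m + 2) →L[ℝ] E m × Y) (δ : ℝ) (f : E (m + 2) → ℝ≥0∞) (x : E m × Y) :
    HH ι U p u w δ f x * ENNReal.ofReal |(dD ι U u w x).det| ≤
      C1 m δ * NN (δ / 2) (fun y => GG ι U p u w (6 * δ) f (x.1, y)) x.2 ^ 2 := by
  by_cases h : (dD ι U u w x).det = 0
  · rw [h]; simp
  · have h1 : x ∉ {x | (dD ι U u w x).det = 0} := h
    rw [HH, indicator_of_notMem h1, add_zero, mul_assoc, ENNReal.inv_mul_cancel, mul_one]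
    · simpa using h
    · exact ENNReal.ofReal_ne_top

theorem core_HH (hm : 1 ≤ m) (ι : E (m + 2) →L[ℝ] E m × Y) (hF : Fam U p u w) {δ : ℝ} (hδ : 0 < δ)
    (hδ1 : δ ≤ 1) {f : E (m + 2) → ℝ≥0∞} (hf : Measurable f) {t : E m} (ht : t ∈ U) {v : Y}
    (hv : ∀ i, |v i| ≤ 1) (q : Y) :
    (∫⁻ s in Icc (-(1/2) : ℝ) (1/2), Phi (3 * δ) f (pp (p t) (u t) (w t) (q + s • v))) ^ (m + 2)
      ≤ HH ι U p u w δ f (t, v) := by
  by_cases h : (dD ι U u w (t, v)).det = 0
  · have h1 : (t, v) ∈ {x | (dD ι U u w x).det = 0} := h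
    rw [HH, indicator_of_mem h1]
    simp
  · have hc := core hm ι (fderiv ℝ p t) (fderiv ℝ u t) (fderiv ℝ w t) (p := p t)
      (hF.hu1 t ht).le (hF.hw1 t ht).le hδ hδ1 hf hv q
    have e1 : jac ι 0 (fderiv ℝ u t) (fderiv ℝ w t) (u t) (w t) v = |(dD ι U u w (t, v)).det| := by
      simp only [jac, dD, indicator_of_mem ht]
    have e2 : Gf ι (fderiv ℝ p t) (fderiv ℝ u t) (fderiv ℝ w t) (p t) (u t) (w t) (6 * δ) f =
        fun y => GG ι U p u w (6 * δ) f (t, y) := by
      funext y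
      simp only [GG, indicator_of_mem ht]
    rw [e1, e2] at hc
    have h1 : (t, v) ∉ {x | (dD ι U u w x).det = 0} := h
    have hJ : ENNReal.ofReal |(dD ι U u w (t, v)).det| ≠ 0 := by simpa using h
    rw [HH, indicator_of_notMem h1, add_zero]
    set J := ENNReal.ofReal |(dD ι U u w (t, v)).det| with hJd
    set X := (∫⁻ s in Icc (-(1/2) : ℝ) (1/2), Phi (3 * δ) f (pp (p t) (u t) (w t) (q + s • v))) ^ (m + 2)
    calc X = J * X * J⁻¹ := by
          rw [mul_comm J X, mul_assoc, ENNReal.mul_inv_cancel hJ ENNReal.ofReal_ne_top, mul_one]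
      _ ≤ _ := by gcongr

end

end Pool.Agent.R250.PF
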