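import Pool.Agent.R250.PFf

set_option autoImplicit false

/-!
The total estimate.
-/

open MeasureTheory Set Filter Topology ENNReal NNReal

namespace Pool.Agent.R250.PF

open Pool.Agent.H742R2.Kk (E)
open Pool.Agent.W767.Kc (Phi vB vB_eq vB_ne_top vB_ne_zero Av_mono_ball measurable_Phi lintegral_Phi_pow)
open Pool.Agent.TH225.CK (NN Av_le_NN bx bx_prob un lintegral_un box bx_eq un_prob cu cu_eq base_two
  measurableSet_box)

section

variable {m : ℕ} {U : Set (E m)} {p u w : E m → E (m + 2)}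

theorem GG_sq (ι : E (m + 2) →L[ℝ] E m × Y) {r : ℝ} {f : E (m + 2) → ℝ≥0∞} {x : E m × Y}
    (hx : x.1 ∈ U) :
    GG ι U p u w r f x ^ 2 = Phi r f (p x.1 + (x.2 0 • u x.1 + x.2 1 • w x.1)) ^ (m + 2) *
      ENNReal.ofReal |(dP ι U p u w x).det| := by
  rw [GG_eq, indicator_of_mem hx, indicator_of_mem hx, indicator_of_mem hx, mul_pow]
  congr 1
  · rw [← ENNReal.rpow_natCast, ← ENNReal.rpow_mul, ← ENNReal.rpow_natCast]
    congr 1
    push_cast
    ring
  · rw [← ENNReal.rpow_natCast, ← ENNReal.rpow_mul]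
    norm_num

theorem total_bound : ∃ C : ℝ, 0 < C ∧ ∀ (m : ℕ), 1 ≤ m → ∀ (U : Set (E m)) (p u w : E m → E (m + 2)),
    Fam U p u w → ∀ N : ℕ, (∀ᵐ x : E (m + 2), Mult U p u w x ≤ N) →
    ∀ δ : ℝ, 0 < δ → δ ≤ 1 → ∀ f : E (m + 2) → ℝ≥0∞, Measurable f →
    ∃ M : E (m + 2) → ℝ≥0∞, Measurable M ∧
      (∀ t ∈ U, ∀ v : Y, (∀ i, |v i| ≤ 1) → ∀ q : Y,
        (∫⁻ s in Icc (-(1/2) : ℝ) (1/2), Phi (3 * δ) f (pp (p t) (u t) (w t) (q + s • v))) ^ (m + 2)
          ≤ M (v 0 • u t + v 1 • w t)) ∧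
      ∫⁻ x, M x ≤ C1 m δ * (ENNReal.ofReal (C * (1 + Real.log (1 / (δ / 2))) ^ 2) *
        (N * ∫⁻ y, f y ^ (m + 2))) := by
  obtain ⟨C, hC, hbase⟩ := base_two
  refine ⟨C, hC, ?_⟩
  intro m hm U p u w hF N hN δ hδ hδ1 f hf
  have hfr : Module.finrank ℝ (E (m + 2)) = Module.finrank ℝ (E m × Y) := by simp
  set ι : E (m + 2) ≃L[ℝ] E m × Y := ContinuousLinearEquiv.ofFinrankEq hfr with hι
  set ι' : E (m + 2) →L[ℝ] E m × Y := (ι : E (m + 2) →L[ℝ] E m × Y) with hι'
  set cube : Set Y := Set.univ.pi fun _ : Fin 2 => Icc (-1 : ℝ) 1 with hcube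
  have hcm : MeasurableSet cube := MeasurableSet.univ_pi fun _ => measurableSet_Icc
  have hs : MeasurableSet (U ×ˢ cube) := hF.hU.prod hcm
  obtain ⟨MG, hMG, hMG1, hMG2⟩ := area_sup (G := E m × Y) volume (s := U ×ˢ cube) hs
    (φ := fun x : E m × Y => ι (x.2 0 • u x.1 + x.2 1 • w x.1))
    (φ' := dD ι' U u w)
    (fun x hx => (hasFDerivAt_dir ι' hF hx.1).hasFDerivWithinAt)
    (measurable_HH ι' hF hδ hf)
  have hιm : Measurable (ι : E (m + 2) → E m × Y) := ι.continuous.measurable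
  obtain ⟨κ, hκ⟩ : ∃ κ : ℝ≥0, Measure.map ι (volume : Measure (E (m + 2))) =
      κ • (volume : Measure (E m × Y)) :=
    ⟨_, Measure.isAddLeftInvariant_eq_smul (Measure.map ι (volume : Measure (E (m + 2)))) volume⟩
  have hchg : ∀ K : E m × Y → ℝ≥0∞, Measurable K → ∫⁻ x : E (m + 2), K (ι x) = κ * ∫⁻ z, K z := by
    intro K hK
    rw [← lintegral_map hK hιm, hκ, lintegral_smul_measure]
    rfl
  set F : E (m + 2) → ℝ≥0∞ := fun x => Phi (6 * δ) f x ^ (m + 2) with hFd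
  have hFm : Measurable F := (measurable_Phi _ hf).pow_const _
  have hG := measurable_GG ι' hF (6 * δ) hf
  have h1 : ∫⁻ x in U ×ˢ (univ : Set Y), GG ι' U p u w (6 * δ) f x ^ 2 ≤
      N * ∫⁻ z : E m × Y, F (ι.symm z) := by
    refine le_trans (le_of_eq ?_) (position ι hF hN hFm)
    apply setLIntegral_congr_fun (hF.hU.prod MeasurableSet.univ)
    intro x hx
    exact GG_sq ι' hx.1
  have h2 : ∫⁻ x in U ×ˢ cube, NN (δ / 2) (fun y => GG ι' U p u w (6 * δ) f (x.1, y)) x.2 ^ 2 ≤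
      ENNReal.ofReal (C * (1 + Real.log (1 / (δ / 2))) ^ 2) *
        ∫⁻ x in U ×ˢ (univ : Set Y), GG ι' U p u w (6 * δ) f x ^ 2 := by
    have hNm := (measurable_NN2 (X := E m) (ρ := δ / 2) (by positivity) hG).pow_const 2
    rw [Measure.volume_eq_prod, setLIntegral_prod _ hNm.aemeasurable, ← Measure.volume_eq_prod]
    rw [Measure.volume_eq_prod, setLIntegral_prod _ (hG.pow_const 2).aemeasurable,
      ← lintegral_const_mul' _ _ ENNReal.ofReal_ne_top]
    apply lintegral_mono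
    intro t
    have := hbase (Fin 2) (by simp) (δ / 2) (by positivity) (by linarith)
      (fun y => GG ι' U p u w (6 * δ) f (t, y)) (hG.comp measurable_prodMk_left)
    rw [cu_eq] at this
    rw [Measure.restrict_univ]
    exact this
  refine ⟨fun x => MG (ι x), hMG.comp hιm, ?_, ?_⟩
  · intro t ht v hv q
    refine (core_HH hm ι' hF hδ hδ1 hf ht hv q).trans ?_
    exact hMG1 (t, v) ⟨ht, by
      rw [hcube, mem_univ_pi]
      intro i
      exact abs_le.1 (hv i)⟩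
  · rw [hchg MG hMG]
    have h3 : ∫⁻ z, MG z ≤ C1 m δ * ∫⁻ x in U ×ˢ cube,
        NN (δ / 2) (fun y => GG ι' U p u w (6 * δ) f (x.1, y)) x.2 ^ 2 := by
      refine hMG2.trans ?_
      rw [← lintegral_const_mul _ ((measurable_NN2 (X := E m) (ρ := δ / 2) (by positivity) hG).pow_const 2)]
      apply lintegral_mono
      intro x
      exact HH_mul_le ι' δ f x
    have h4 : κ * ∫⁻ z : E m × Y, F (ι.symm z) = ∫⁻ x, F x := by
      rw [← hchg (fun z => F (ι.symm z)) (hFm.comp ι.symm.continuous.measurable)]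
      simp only [ContinuousLinearEquiv.symm_apply_apply]
    calc κ * ∫⁻ z, MG z ≤ κ * (C1 m δ * (ENNReal.ofReal (C * (1 + Real.log (1 / (δ / 2))) ^ 2) *
          (N * ∫⁻ z : E m × Y, F (ι.symm z)))) := by
          gcongr
          refine h3.trans ?_
          gcongr
          refine h2.trans ?_
          gcongr
      _ = C1 m δ * (ENNReal.ofReal (C * (1 + Real.log (1 / (δ / 2))) ^ 2) *
          (N * (κ * ∫⁻ z : E m × Y, F (ι.symm z)))) := by ring
      _ ≤ _ := by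
          rw [h4]
          have h5 : ∫⁻ x, F x ≤ ∫⁻ y, f y ^ (m + 2) :=
            lintegral_Phi_pow (r := 6 * δ) (m := m + 2) (by positivity) hf (by omega)
          exact mul_le_mul' le_rfl (mul_le_mul' le_rfl (mul_le_mul' le_rfl h5))

end

end Pool.Agent.R250.PF
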