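import Pool.Agent.R250.PFg

set_option autoImplicit false

/-!
From planes to tubes.
-/

open MeasureTheory Set Filter Topology ENNReal NNReal Metric

namespace Pool.Agent.R250.PF

open Pool.Agent.H742R2.Kk (E)
open Pool.Agent.W767.Kc (Phi measurable_Phi tube tube_avg)

theorem piece_int {g : ℝ → ℝ≥0∞} {τ : ℝ} (hτ : 0 < τ) (hτ1 : τ ≤ 1) (c : ℝ) :
    ∫⁻ r in Icc (c - τ / 2) (c + τ / 2), g r ≤ ∫⁻ s in Icc (-(1/2) : ℝ) (1/2), g (c + τ * s) := by
  have h1 : Icc (c - τ / 2) (c + τ / 2) = (fun s : ℝ => τ * s + c) '' Icc (-(1/2) : ℝ) (1/2) := by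
    rw [Set.image_affine_Icc' hτ]
    congr 1 <;> ring
  rw [h1, lintegral_image_eq_lintegral_abs_deriv_mul (f' := fun _ => τ) measurableSet_Icc]
  · apply lintegral_mono
    intro s
    show ENNReal.ofReal |τ| * g (τ * s + c) ≤ g (c + τ * s)
    rw [add_comm (τ * s) c]
    calc ENNReal.ofReal |τ| * g (c + τ * s) ≤ 1 * g (c + τ * s) := by
          gcongr
          rw [abs_of_pos hτ, ENNReal.ofReal_le_one]
          exact hτ1
      _ = _ := one_mul _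
  · intro x _
    have : HasDerivAt (fun s : ℝ => τ * s + c) (τ * 1) x := ((hasDerivAt_id x).const_mul τ).add_const c
    rw [mul_one] at this
    exact this.hasDerivWithinAt
  · intro x _ y _ h
    simp only at h
    have : τ * x = τ * y := by linarith
    exact mul_left_cancel₀ hτ.ne' this

theorem cover_int {g : ℝ → ℝ≥0∞} {τ : ℝ} (hτ : 1 / 2 ≤ τ) (hτ1 : τ ≤ 1) (c : ℝ) {B : ℝ≥0∞}
    (hB : ∀ c' : ℝ, ∫⁻ s in Icc (-(1/2) : ℝ) (1/2), g (c' + τ * s) ≤ B) :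
    ∫⁻ r in Icc (c - 3/2) (c + 3/2), g r ≤ 6 * B := by
  have hsub : Icc (c - 3/2) (c + 3/2) ⊆ ⋃ k : Fin 6,
      Icc ((c - 3/2 + ((k : ℕ) + 1/2) * τ) - τ / 2) ((c - 3/2 + ((k : ℕ) + 1/2) * τ) + τ / 2) := by
    intro r hr
    rw [mem_iUnion]
    have h0 : 0 ≤ (r - (c - 3/2)) / τ := div_nonneg (by linarith [hr.1]) (by linarith)
    have h6 : (r - (c - 3/2)) / τ ≤ 6 := by
      rw [div_le_iff₀ (by linarith)]
      linarith [hr.2]
    rcases lt_or_ge ((r - (c - 3/2)) / τ) 6 with h | h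
    · have hlt : ⌊(r - (c - 3/2)) / τ⌋₊ < 6 := by
        rw [Nat.floor_lt h0]
        exact_mod_cast h
      refine ⟨⟨⌊(r - (c - 3/2)) / τ⌋₊, hlt⟩, ?_⟩
      have h1 := Nat.floor_le h0
      have h2 := Nat.lt_floor_add_one ((r - (c - 3/2)) / τ)
      rw [le_div_iff₀ (by linarith)] at h1
      rw [div_lt_iff₀ (by linarith)] at h2
      constructor
      · show c - 3/2 + ((⌊(r - (c - 3/2)) / τ⌋₊ : ℝ) + 1/2) * τ - τ / 2 ≤ r
        nlinarith
      · show r ≤ c - 3/2 + ((⌊(r - (c - 3/2)) / τ⌋₊ : ℝ) + 1/2) * τ + τ / 2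
        nlinarith
    · refine ⟨5, ?_⟩
      have h1 : (r - (c - 3/2)) / τ = 6 := le_antisymm h6 h
      rw [div_eq_iff (by linarith)] at h1
      have h5 : (((5 : Fin 6) : ℕ) : ℝ) = 5 := by norm_num
      rw [h5]
      constructor <;> linarith
  calc ∫⁻ r in Icc (c - 3/2) (c + 3/2), g r
      ≤ ∫⁻ r in ⋃ k : Fin 6,
        Icc ((c - 3/2 + ((k : ℕ) + 1/2) * τ) - τ / 2) ((c - 3/2 + ((k : ℕ) + 1/2) * τ) + τ / 2), g r :=
        lintegral_mono_set hsub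
    _ ≤ ∑' k : Fin 6, ∫⁻ r in
        Icc ((c - 3/2 + ((k : ℕ) + 1/2) * τ) - τ / 2) ((c - 3/2 + ((k : ℕ) + 1/2) * τ) + τ / 2), g r :=
        lintegral_iUnion_le _ g
    _ ≤ ∑' _k : Fin 6, B := by
        apply ENNReal.tsum_le_tsum
        intro k
        exact (piece_int (by linarith) hτ1 _).trans (hB _)
    _ = 6 * B := by simp

/-- Averages over a tube whose axis is close to a plane. -/
theorem tube_bound {m : ℕ} {C₀ : ℝ≥0∞} {δ : ℝ} (hδ : 0 < δ) (hδ1 : δ ≤ 1)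
    (hC₀ : ∀ (δ : ℝ), 0 < δ → δ ≤ 1 →
      ∀ (F : E (m + 1 + 1) → ℝ≥0∞), Measurable F → ∀ (e a p : E (m + 1 + 1)), ‖e‖ = 1 →
      ‖(a - p) - (inner ℝ (a - p) e : ℝ) • e‖ ≤ δ →
      (volume (tube δ e a))⁻¹ * ∫⁻ y in tube δ e a, F y
        ≤ C₀ * ∫⁻ s in Icc ((inner ℝ (a - p) e : ℝ) - 3 / 2) ((inner ℝ (a - p) e : ℝ) + 3 / 2),
            Phi (3 * δ) F (p + s • e))
    {f : E (m + 2) → ℝ≥0∞} (hf : Measurable f) {p u w : E (m + 2)} (hu : ‖u‖ = 1) (hw : ‖w‖ = 1)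
    (huw : inner ℝ u w = 0) {M : E (m + 2) → ℝ≥0∞}
    (hM : ∀ v : Y, (∀ i, |v i| ≤ 1) → ∀ q : Y,
      (∫⁻ s in Icc (-(1/2) : ℝ) (1/2), Phi (3 * δ) f (pp p u w (q + s • v))) ^ (m + 2)
        ≤ M (v 0 • u + v 1 • w)) {e a : E (m + 2)} (he : ‖e‖ = 1) {α β : ℝ}
    (hαβ : e = α • u + β • w) {y : Y}
    (ha : ‖(a - (p + (y 0 • u + y 1 • w))) - (inner ℝ (a - (p + (y 0 • u + y 1 • w))) e : ℝ) • e‖ ≤ δ)
    {τ : ℝ} (hτ : 1 / 2 ≤ τ) (hτ1 : τ ≤ 1) :
    ((volume (tube δ e a))⁻¹ * ∫⁻ z in tube δ e a, f z) ^ (m + 2) ≤ (C₀ * 6) ^ (m + 2) * M (τ • e) := by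
  have h1 := hC₀ δ hδ hδ1 f hf e a (p + (y 0 • u + y 1 • w)) he ha
  have hαβ1 : α ^ 2 + β ^ 2 = 1 := by
    have h2 : ‖e‖ ^ 2 = 1 := by rw [he]; norm_num
    rw [← real_inner_self_eq_norm_sq, hαβ] at h2
    have hwu : inner ℝ w u = 0 := by rw [real_inner_comm]; exact huw
    simp only [inner_add_left, inner_add_right, inner_smul_left, inner_smul_right,
      real_inner_self_eq_norm_sq, hu, hw, huw, hwu] at h2
    simp at h2
    nlinarith
  set v : Y := ![τ * α, τ * β] with hv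
  have hv0 : v 0 = τ * α := rfl
  have hv1 : v 1 = τ * β := rfl
  have hvb : ∀ i, |v i| ≤ 1 := by
    intro i
    have hα : |α| ≤ 1 := abs_le_one_iff_mul_self_le_one.2 (by nlinarith [sq_nonneg β])
    have hβ : |β| ≤ 1 := abs_le_one_iff_mul_self_le_one.2 (by nlinarith [sq_nonneg α])
    fin_cases i
    · show |τ * α| ≤ 1
      rw [abs_mul, abs_of_pos (by linarith)]
      nlinarith [abs_nonneg α]
    · show |τ * β| ≤ 1
      rw [abs_mul, abs_of_pos (by linarith)]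
      nlinarith [abs_nonneg β]
  have hve : v 0 • u + v 1 • w = τ • e := by
    rw [hv0, hv1, hαβ, smul_add, smul_smul, smul_smul]
  have hpos : (0:ℝ) < (m:ℝ) + 2 := by positivity
  set B : ℝ≥0∞ := M (τ • e) ^ (1 / ((m:ℝ) + 2)) with hB
  have hBM : B ^ (m + 2) = M (τ • e) := by
    rw [hB, ← ENNReal.rpow_natCast, ← ENNReal.rpow_mul]
    have : 1 / ((m:ℝ) + 2) * ((m + 2 : ℕ) : ℝ) = 1 := by
      push_cast
      field_simp
    rw [this, ENNReal.rpow_one]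
  have hcov := cover_int (g := fun r => Phi (3 * δ) f (p + (y 0 • u + y 1 • w) + r • e)) hτ hτ1
    (inner ℝ (a - (p + (y 0 • u + y 1 • w))) e : ℝ) (B := B) (by
      intro c'
      have h2 := hM v hvb (y + c' • ![α, β])
      have h3 : ∀ s : ℝ, pp p u w (y + c' • ![α, β] + s • v) =
          p + (y 0 • u + y 1 • w) + (c' + τ * s) • e := by
        intro s
        have e0 : (y + c' • ![α, β] + s • v) 0 = y 0 + (c' + τ * s) * α := by
          show y 0 + c' * α + s * (τ * α) = _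
          ring
        have e1 : (y + c' • ![α, β] + s • v) 1 = y 1 + (c' + τ * s) * β := by
          show y 1 + c' * β + s * (τ * β) = _
          ring
        rw [pp, BB_apply, e0, e1, hαβ]
        simp only [add_smul, smul_add, smul_smul]
        abel
      simp only [h3] at h2
      rw [hve] at h2
      rw [hB, one_div ((m:ℝ) + 2), ENNReal.le_rpow_inv_iff hpos]
      rw [← ENNReal.rpow_natCast] at h2
      push_cast at h2
      exact h2)
  calc ((volume (tube δ e a))⁻¹ * ∫⁻ z in tube δ e a, f z) ^ (m + 2)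
      ≤ (C₀ * (6 * B)) ^ (m + 2) := by
        apply pow_le_pow_left'
        exact h1.trans (mul_le_mul' le_rfl hcov)
    _ = (C₀ * 6) ^ (m + 2) * B ^ (m + 2) := by rw [← mul_assoc, mul_pow]
    _ = _ := by rw [hBM]

end Pool.Agent.R250.PF
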