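import Pool.Agent.H805R3.Kk.Final

set_option autoImplicit false

/-!
Weighted Kakeya maximal estimates for random families of lines that satisfy a spreading condition.
-/

open MeasureTheory Set Filter Topology ENNReal NNReal Metric

namespace Pool.Agent.R250.TW

open Pool.Agent.H803R2.Kak Pool.Agent.H803R2.KakFTO Pool.Agent.H805R3.Kk
open Pool.Agent.H805R3.Kk.Gen (ind JJ rad rad_pos measurable_ind_comp ind_of_le ind_of_not JJ_def'
  tube_weighted sum_ne_top)

variable {d : ℕ} {Ω : Type*} [MeasurableSpace Ω]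

/-- Spreading condition. -/
def SpreadE (P : Measure Ω) (b : Ω → Vec d → Vec d) (T : Set ℝ) (A s : ℝ) : Prop :=
  ∀ v ∈ closedBall (0:Vec d) 1, ∀ w ∈ closedBall (0:Vec d) 1, v ≠ w → ∀ r : ℝ, 0 < r →
    (P.prod (volume.restrict T)) {z | ‖(b z.1 v + z.2 • v) - (b z.1 w + z.2 • w)‖ ≤ r}
      ≤ ENNReal.ofReal (A * (r / ‖v - w‖) ^ s)

/-- The multiplicity on the line number `v`. -/
noncomputable def Phi (b : Ω → Vec d → Vec d) (k : ℕ) (ω : Ω) (v : Vec d) (t : ℝ) : ℝ≥0∞ :=
  JJ (rad k) (b ω) (closedBall 0 1) (b ω v + t • v) t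

theorem measurable_sec2 {b : Ω → Vec d → Vec d} (hb : Measurable (fun z : Ω × Vec d => b z.1 z.2))
    {α : Type*} [MeasurableSpace α] {f : α → Ω} {g : α → Vec d} {h : α → ℝ}
    (hf : Measurable f) (hg : Measurable g) (hh : Measurable h) :
    Measurable (fun x => b (f x) (g x) + h x • g x) :=
  (hb.comp (hf.prodMk hg)).add (hh.smul hg)

theorem measurable_Phi {b : Ω → Vec d → Vec d}
    (hb : Measurable (fun z : Ω × Vec d => b z.1 z.2)) (k : ℕ) :
    Measurable (fun z : Ω × (Vec d × ℝ) => Phi b k z.1 z.2.1 z.2.2) := by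
  unfold Phi
  simp only [JJ_def']
  apply Measurable.const_add
  apply Measurable.const_mul
  have : Measurable (fun q : (Ω × (Vec d × ℝ)) × Vec d =>
      ind (2 * rad k) ((b q.1.1 q.1.2.1 + q.1.2.2 • q.1.2.1)
        - (b q.1.1 q.2 + q.1.2.2 • q.2))) := by
    apply measurable_ind_comp
    have m1 : Measurable (fun q : (Ω × (Vec d × ℝ)) × Vec d => q.1.1) :=
      measurable_fst.comp measurable_fst
    have m2 : Measurable (fun q : (Ω × (Vec d × ℝ)) × Vec d => q.1.2.1) :=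
      measurable_fst.comp (measurable_snd.comp measurable_fst)
    have m3 : Measurable (fun q : (Ω × (Vec d × ℝ)) × Vec d => q.1.2.2) :=
      measurable_snd.comp (measurable_snd.comp measurable_fst)
    exact (measurable_sec2 hb m1 m2 m3).sub (measurable_sec2 hb m1 measurable_snd m3)
  exact this.lintegral_prod_right'

theorem rad_two (k : ℕ) : (2:ℝ) ^ k * rad k = 2 := by
  unfold rad
  rw [one_div, inv_pow]
  field_simp

/-- The bound for one pair of directions. -/
theorem pair_bound {P : Measure Ω} [SFinite P] {b : Ω → Vec d → Vec d} {T : Set ℝ} {A s : ℝ}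
    (hA : 0 ≤ A) (hs : 0 ≤ s) (hsp : SpreadE P b T A s) {v w : Vec d}
    (hv : v ∈ closedBall (0:Vec d) 1) (hw : w ∈ closedBall (0:Vec d) 1) (k : ℕ) :
    ∫⁻ z : Ω × ℝ, ind (2 * rad k) ((b z.1 v + z.2 • v) - (b z.1 w + z.2 • w))
        ∂(P.prod (volume.restrict T))
      ≤ (closedBall v (rad k)).indicator (fun _ => P univ * volume T) w +
        ∑ j ∈ Finset.range (k + 1), (closedBall v (2 ^ (j + 1) * rad k)).indicator
          (fun _ => ENNReal.ofReal (A * (2 / 2 ^ j) ^ s)) w := by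
  have hr := rad_pos k
  by_cases h1 : ‖w - v‖ ≤ rad k
  · have hmem : w ∈ closedBall v (rad k) := by rw [mem_closedBall, dist_eq_norm]; exact h1
    rw [indicator_of_mem hmem]
    refine le_add_right ?_
    calc ∫⁻ z : Ω × ℝ, ind (2 * rad k) ((b z.1 v + z.2 • v) - (b z.1 w + z.2 • w))
          ∂(P.prod (volume.restrict T)) ≤ ∫⁻ _z : Ω × ℝ, 1 ∂(P.prod (volume.restrict T)) := by
          apply lintegral_mono
          intro z
          show ind _ _ ≤ 1
          by_cases h : ‖(b z.1 v + z.2 • v) - (b z.1 w + z.2 • w)‖ ≤ 2 * rad k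
          · exact (ind_of_le h).le
          · exact (ind_of_not h).le.trans zero_le
      _ = P univ * volume T := by
          rw [lintegral_one, ← univ_prod_univ, Measure.prod_prod, Measure.restrict_apply_univ]
  · push Not at h1
    have hne : v ≠ w := by
      rintro rfl
      simp at h1
      linarith
    have hle2 : ‖w - v‖ ≤ 2 := by
      have h2 : ‖v‖ ≤ 1 := by simpa using hv
      have h3 : ‖w‖ ≤ 1 := by simpa using hw
      exact (norm_sub_le _ _).trans (by linarith)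
    have hex : ∃ j : ℕ, ‖w - v‖ ≤ 2 ^ (j + 1) * rad k := by
      refine ⟨k, hle2.trans ?_⟩
      rw [pow_succ]
      have := rad_two k
      nlinarith
    classical
    set j := Nat.find hex with hj
    have hj1 : ‖w - v‖ ≤ 2 ^ (j + 1) * rad k := Nat.find_spec hex
    have hjk : j ≤ k := by
      apply Nat.find_min' hex
      refine hle2.trans ?_
      rw [pow_succ]
      have := rad_two k
      nlinarith
    have hj2 : 2 ^ j * rad k < ‖w - v‖ := by
      rcases Nat.eq_zero_or_pos j with h0 | h0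
      · rw [h0]; simpa using h1
      · have h4 := Nat.find_min hex (m := j - 1) (by omega)
        push Not at h4
        have : j - 1 + 1 = j := by omega
        rwa [this] at h4
    have hmem : w ∈ closedBall v (2 ^ (j + 1) * rad k) := by
      rw [mem_closedBall, dist_eq_norm]; exact hj1
    have hvw : ‖v - w‖ = ‖w - v‖ := norm_sub_rev _ _
    have hpos : 0 < ‖v - w‖ := by rw [hvw]; exact (by positivity : 0 < 2 ^ j * rad k).trans hj2
    calc ∫⁻ z : Ω × ℝ, ind (2 * rad k) ((b z.1 v + z.2 • v) - (b z.1 w + z.2 • w))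
          ∂(P.prod (volume.restrict T))
        ≤ ∫⁻ z : Ω × ℝ, (toMeasurable (P.prod (volume.restrict T))
          {z | ‖(b z.1 v + z.2 • v) - (b z.1 w + z.2 • w)‖ ≤ 2 * rad k}).indicator
            (fun _ => (1:ℝ≥0∞)) z ∂(P.prod (volume.restrict T)) := by
          apply lintegral_mono
          intro z
          show ind _ _ ≤ _
          by_cases h : ‖(b z.1 v + z.2 • v) - (b z.1 w + z.2 • w)‖ ≤ 2 * rad k
          · have hz : z ∈ toMeasurable (P.prod (volume.restrict T))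
                {z | ‖(b z.1 v + z.2 • v) - (b z.1 w + z.2 • w)‖ ≤ 2 * rad k} :=
              subset_toMeasurable _ _ (show z ∈ {z : Ω × ℝ | _} from h)
            rw [indicator_of_mem hz]
            exact (ind_of_le h).le
          · exact (ind_of_not h).le.trans zero_le
      _ = (P.prod (volume.restrict T))
          {z | ‖(b z.1 v + z.2 • v) - (b z.1 w + z.2 • w)‖ ≤ 2 * rad k} := by
          rw [lintegral_indicator_const (measurableSet_toMeasurable _ _), one_mul,
            measure_toMeasurable]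
      _ ≤ ENNReal.ofReal (A * (2 * rad k / ‖v - w‖) ^ s) :=
          hsp v hv w hw hne (2 * rad k) (by positivity)
      _ ≤ ENNReal.ofReal (A * (2 / 2 ^ j) ^ s) := by
          apply ENNReal.ofReal_le_ofReal
          apply mul_le_mul_of_nonneg_left _ hA
          apply Real.rpow_le_rpow (by positivity) _ hs
          rw [div_le_div_iff₀ hpos (by positivity), hvw]
          have h5 : 2 * (2 ^ j * rad k) ≤ 2 * ‖w - v‖ := by linarith
          calc 2 * rad k * 2 ^ j = 2 * (2 ^ j * rad k) := by ring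
            _ ≤ 2 * ‖w - v‖ := h5
      _ = (closedBall v (2 ^ (j + 1) * rad k)).indicator
          (fun _ => ENNReal.ofReal (A * (2 / 2 ^ j) ^ s)) w := by
          rw [indicator_of_mem hmem]
      _ ≤ ∑ j ∈ Finset.range (k + 1), (closedBall v (2 ^ (j + 1) * rad k)).indicator
          (fun _ => ENNReal.ofReal (A * (2 / 2 ^ j) ^ s)) w :=
          Finset.single_le_sum (f := fun j : ℕ => (closedBall v (2 ^ (j + 1) * rad k)).indicator
          (fun _ => ENNReal.ofReal (A * (2 / 2 ^ j) ^ s)) w) (fun _ _ => zero_le)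
            (Finset.mem_range.2 (by omega))
      _ ≤ _ := le_add_self

/-- the loss at the scale `2 ^ (-k)` -/
noncomputable def gk (d : ℕ) (s : ℝ) (k : ℕ) : ℝ := ((2:ℝ) ^ k) ^ ((d:ℝ) - s)

theorem one_le_gk {s : ℝ} (hs : s ≤ d) (k : ℕ) : 1 ≤ gk d s k :=
  Real.one_le_rpow (one_le_pow₀ (by norm_num)) (by linarith)

theorem term_bound {A s : ℝ} (hA : 0 ≤ A) (hsd : s ≤ d) {j k : ℕ} (hjk : j ≤ k) :
    A * (2 / 2 ^ j) ^ s * (2 ^ (j + 1)) ^ d ≤ A * 2 ^ (s + d) * gk d s k := by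
  have h2 : (0:ℝ) < 2 := by norm_num
  have e1 : ((2:ℝ) / 2 ^ j) ^ s * (2 ^ (j + 1)) ^ d = 2 ^ (s + d) * ((2:ℝ) ^ j) ^ ((d:ℝ) - s) := by
    rw [Real.div_rpow h2.le (by positivity), Real.rpow_sub (by positivity) (d:ℝ) s,
      Real.rpow_natCast, Real.rpow_add h2, Real.rpow_natCast, pow_succ, mul_pow]
    ring
  have e2 : ((2:ℝ) ^ j) ^ ((d:ℝ) - s) ≤ gk d s k := by
    unfold gk
    exact Real.rpow_le_rpow (by positivity) (pow_le_pow_right₀ (by norm_num) hjk) (by linarith)
  calc A * (2 / 2 ^ j) ^ s * (2 ^ (j + 1)) ^ d = A * (((2:ℝ) / 2 ^ j) ^ s * (2 ^ (j + 1)) ^ d) := by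
        ring
    _ = A * 2 ^ (s + d) * ((2:ℝ) ^ j) ^ ((d:ℝ) - s) := by rw [e1]; ring
    _ ≤ _ := by gcongr

theorem vol_closedBall_center (v : Vec d) (r : ℝ) :
    volume (closedBall v r) = volume (closedBall (0 : Vec d) r) :=
  Measure.addHaar_closedBall_center _ _ _

/-- The expected multiplicity. -/
theorem Phi_expect {P : Measure Ω} [IsFiniteMeasure P] {b : Ω → Vec d → Vec d}
    (hb : Measurable (fun z : Ω × Vec d => b z.1 z.2)) {T : Set ℝ} {A s : ℝ}
    (hA : 0 ≤ A) (hs : 0 ≤ s) (hsd : s ≤ d) (hsp : SpreadE P b T A s) {v : Vec d}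
    (hv : v ∈ closedBall (0:Vec d) 1) (k : ℕ) :
    ∫⁻ z : Ω × ℝ, Phi b k z.1 v z.2 ∂(P.prod (volume.restrict T))
      ≤ (2 * (P univ * volume T) + ENNReal.ofReal (A * 2 ^ (s + d))) *
        (((k:ℝ≥0∞) + 1) * ENNReal.ofReal (gk d s k)) := by
  have hr := rad_pos k
  have hV0 := (vol_pos (d := d) hr).ne'
  have hVt := (vol_lt_top (d := d) (r := rad k)).ne
  have hω0 := (vol_pos (d := d) one_pos).ne'
  have hωt := (vol_lt_top (d := d) (r := 1)).ne
  set M := P univ * volume T with hM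
  set V := volume (closedBall (0:Vec d) (rad k)) with hV
  have hmeas : Measurable (fun q : (Ω × ℝ) × Vec d =>
      ind (2 * rad k) ((b q.1.1 v + q.1.2 • v) - (b q.1.1 q.2 + q.1.2 • q.2))) := by
    apply measurable_ind_comp
    have m1 : Measurable (fun q : (Ω × ℝ) × Vec d => q.1.1) := measurable_fst.comp measurable_fst
    have m3 : Measurable (fun q : (Ω × ℝ) × Vec d => q.1.2) := measurable_snd.comp measurable_fst
    exact (measurable_sec2 hb m1 measurable_const m3).sub (measurable_sec2 hb m1 measurable_snd m3)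
  have hin : ∫⁻ z : Ω × ℝ, (∫⁻ w in closedBall (0:Vec d) 1,
      ind (2 * rad k) ((b z.1 v + z.2 • v) - (b z.1 w + z.2 • w))) ∂(P.prod (volume.restrict T))
      ≤ M * V + ∑ j ∈ Finset.range (k + 1), ENNReal.ofReal (A * (2 / 2 ^ j) ^ s) *
        (ENNReal.ofReal ((2 ^ (j + 1)) ^ d) * V) := by
    rw [lintegral_lintegral_swap hmeas.aemeasurable]
    calc ∫⁻ w in closedBall (0:Vec d) 1, ∫⁻ z : Ω × ℝ,
          ind (2 * rad k) ((b z.1 v + z.2 • v) - (b z.1 w + z.2 • w)) ∂(P.prod (volume.restrict T))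
        ≤ ∫⁻ w in closedBall (0:Vec d) 1,
          ((closedBall v (rad k)).indicator (fun _ => P univ * volume T) w +
          ∑ j ∈ Finset.range (k + 1), (closedBall v (2 ^ (j + 1) * rad k)).indicator
          (fun _ => ENNReal.ofReal (A * (2 / 2 ^ j) ^ s)) w) :=
          setLIntegral_mono' measurableSet_closedBall
            (fun w hw => pair_bound hA hs hsp hv hw k)
      _ ≤ ∫⁻ w, ((closedBall v (rad k)).indicator (fun _ => P univ * volume T) w +
          ∑ j ∈ Finset.range (k + 1), (closedBall v (2 ^ (j + 1) * rad k)).indicator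
          (fun _ => ENNReal.ofReal (A * (2 / 2 ^ j) ^ s)) w) := setLIntegral_le_lintegral _ _
      _ = M * V + ∑ j ∈ Finset.range (k + 1), ENNReal.ofReal (A * (2 / 2 ^ j) ^ s) *
          volume (closedBall (0:Vec d) (2 ^ (j + 1) * rad k)) := by
          rw [lintegral_add_left (measurable_const.indicator measurableSet_closedBall),
            lintegral_finsetSum _ (fun j _ => measurable_const.indicator measurableSet_closedBall),
            lintegral_indicator_const measurableSet_closedBall, vol_closedBall_center]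
          congr 1
          apply Finset.sum_congr rfl
          intro j _
          rw [lintegral_indicator_const measurableSet_closedBall, vol_closedBall_center]
      _ = _ := by
          congr 1
          apply Finset.sum_congr rfl
          intro j _
          rw [hV, vol_ball_scale (d := d) (r := 2 ^ (j + 1) * rad k) (by positivity),
            vol_ball_scale (d := d) hr, ENNReal.ofReal_mul (p := 2 ^ (j + 1)) (by positivity),
            mul_pow,
            ENNReal.ofReal_pow (p := 2 ^ (j + 1)) (by positivity)]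
          ring
  have hk1 : (1:ℝ≥0∞) ≤ ((k:ℝ≥0∞) + 1) * ENNReal.ofReal (gk d s k) := by
    calc (1:ℝ≥0∞) = 1 * 1 := by ring
      _ ≤ ((k:ℝ≥0∞) + 1) * ENNReal.ofReal (gk d s k) := by
        gcongr
        · exact le_add_self
        · rw [← ENNReal.ofReal_one]
          exact ENNReal.ofReal_le_ofReal (one_le_gk hsd k)
  have hsum : ∑ j ∈ Finset.range (k + 1), ENNReal.ofReal (A * (2 / 2 ^ j) ^ s) *
        (ENNReal.ofReal ((2 ^ (j + 1)) ^ d) * V) ≤
        ENNReal.ofReal (A * 2 ^ (s + d)) * (((k:ℝ≥0∞) + 1) * ENNReal.ofReal (gk d s k)) * V := by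
    calc ∑ j ∈ Finset.range (k + 1), ENNReal.ofReal (A * (2 / 2 ^ j) ^ s) *
        (ENNReal.ofReal ((2 ^ (j + 1)) ^ d) * V)
        ≤ ∑ _j ∈ Finset.range (k + 1), ENNReal.ofReal (A * 2 ^ (s + d) * gk d s k) * V := by
          apply Finset.sum_le_sum
          intro j hj
          have hjk : j ≤ k := Nat.lt_succ_iff.1 (Finset.mem_range.1 hj)
          have h9 := term_bound hA hsd hjk
          rw [← mul_assoc, ← ENNReal.ofReal_mul (by positivity)]
          exact mul_le_mul_left (ENNReal.ofReal_le_ofReal h9) _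
      _ = _ := by
          rw [Finset.sum_const, Finset.card_range, nsmul_eq_mul,
            ENNReal.ofReal_mul (p := A * 2 ^ (s + (d:ℝ))) (by positivity)]
          push_cast
          ring
  unfold Phi
  simp only [JJ_def']
  rw [lintegral_add_left measurable_const, lintegral_const_mul' _ _ (ENNReal.inv_ne_top.2 hV0),
    lintegral_one, ← univ_prod_univ, Measure.prod_prod, Measure.restrict_apply_univ]
  calc P univ * volume T + V⁻¹ * ∫⁻ z : Ω × ℝ, (∫⁻ w in closedBall (0:Vec d) 1,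
      ind (2 * rad k) ((b z.1 v + z.2 • v) - (b z.1 w + z.2 • w))) ∂(P.prod (volume.restrict T))
      ≤ M + V⁻¹ * (M * V + ENNReal.ofReal (A * 2 ^ (s + d)) *
        (((k:ℝ≥0∞) + 1) * ENNReal.ofReal (gk d s k)) * V) := by
        gcongr
        exact hin.trans (by gcongr)
    _ = M + (V⁻¹ * V) * (M + ENNReal.ofReal (A * 2 ^ (s + d)) *
        (((k:ℝ≥0∞) + 1) * ENNReal.ofReal (gk d s k))) := by ring
    _ = 2 * M * 1 + ENNReal.ofReal (A * 2 ^ (s + d)) *
        (((k:ℝ≥0∞) + 1) * ENNReal.ofReal (gk d s k)) := by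
        rw [ENNReal.inv_mul_cancel hV0 hVt]
        ring
    _ ≤ 2 * M * (((k:ℝ≥0∞) + 1) * ENNReal.ofReal (gk d s k)) +
        ENNReal.ofReal (A * 2 ^ (s + d)) * (((k:ℝ≥0∞) + 1) * ENNReal.ofReal (gk d s k)) := by
        gcongr
    _ = _ := by ring

/-- Weights of the dyadic scales. -/
noncomputable def cc (d : ℕ) (s : ℝ) (k : ℕ) : ℝ≥0∞ :=
  (((k:ℝ≥0∞)+1)^3 * ENNReal.ofReal (gk d s k))⁻¹

/-- Weighted total multiplicity. -/
noncomputable def Sig (b : Ω → Vec d → Vec d) (s : ℝ) (T : Set ℝ) (ω : Ω) (v : Vec d) : ℝ≥0∞ :=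
  ∑' k, cc d s k * ∫⁻ t in T, Phi b k ω v t

theorem measurable_inner {b : Ω → Vec d → Vec d}
    (hb : Measurable (fun z : Ω × Vec d => b z.1 z.2)) (T : Set ℝ) (k : ℕ) :
    Measurable (fun z : Ω × Vec d => ∫⁻ t in T, Phi b k z.1 z.2 t) := by
  have h := (measurable_Phi hb k).comp (show Measurable
    (fun q : (Ω × Vec d) × ℝ => (q.1.1, (q.1.2, q.2))) from
      (measurable_fst.comp measurable_fst).prodMk
        ((measurable_snd.comp measurable_fst).prodMk measurable_snd))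
  exact h.lintegral_prod_right'

theorem measurable_Sig {b : Ω → Vec d → Vec d}
    (hb : Measurable (fun z : Ω × Vec d => b z.1 z.2)) (s : ℝ) (T : Set ℝ) :
    Measurable (fun z : Ω × Vec d => Sig b s T z.1 z.2) := by
  unfold Sig
  exact Measurable.tsum (fun k => (measurable_inner hb T k).const_mul _)

theorem int_Sig {P : Measure Ω} [IsFiniteMeasure P] {b : Ω → Vec d → Vec d}
    (hb : Measurable (fun z : Ω × Vec d => b z.1 z.2)) {T : Set ℝ} (hTf : volume T ≠ ∞) {A s : ℝ}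
    (hA : 0 ≤ A) (hs : 0 ≤ s) (hsd : s ≤ d) (hsp : SpreadE P b T A s) :
    ∫⁻ ω, (∫⁻ v in closedBall (0:Vec d) 1, Sig b s T ω v) ∂P ≠ ∞ := by
  have hωt := (vol_lt_top (d := d) (r := 1)).ne
  set K : ℝ≥0∞ := 2 * (P univ * volume T) + ENNReal.ofReal (A * 2 ^ (s + d)) with hK
  have hKt : K ≠ ∞ := ENNReal.add_ne_top.2 ⟨ENNReal.mul_ne_top (by simp)
    (ENNReal.mul_ne_top (measure_ne_top _ _) hTf), ENNReal.ofReal_ne_top⟩
  set D : ℝ≥0∞ := volume (closedBall (0:Vec d) 1) with hD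
  have hm := fun k => measurable_inner hb T k
  have hone : ∀ k, ∫⁻ ω, (∫⁻ v in closedBall (0:Vec d) 1, ∫⁻ t in T, Phi b k ω v t) ∂P
      ≤ K * (((k:ℝ≥0∞) + 1) * ENNReal.ofReal (gk d s k)) * D := by
    intro k
    rw [lintegral_lintegral_swap (hm k).aemeasurable]
    calc ∫⁻ v in closedBall (0:Vec d) 1, ∫⁻ ω, (∫⁻ t in T, Phi b k ω v t) ∂P
        ≤ ∫⁻ _v in closedBall (0:Vec d) 1, K * (((k:ℝ≥0∞) + 1) * ENNReal.ofReal (gk d s k)) := by
          apply setLIntegral_mono' measurableSet_closedBall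
          intro v hv
          have hmv : Measurable (fun z : Ω × ℝ => Phi b k z.1 v z.2) :=
            (measurable_Phi hb k).comp (measurable_fst.prodMk
              (measurable_const.prodMk measurable_snd))
          rw [← lintegral_prod (fun z : Ω × ℝ => Phi b k z.1 v z.2) hmv.aemeasurable]
          exact Phi_expect hb hA hs hsd hsp hv k
      _ = _ := by
          rw [lintegral_const, Measure.restrict_apply_univ]
  have h2 : ∫⁻ ω, (∫⁻ v in closedBall (0:Vec d) 1, Sig b s T ω v) ∂P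
      = ∑' k, cc d s k * ∫⁻ ω, (∫⁻ v in closedBall (0:Vec d) 1, ∫⁻ t in T, Phi b k ω v t) ∂P := by
    unfold Sig
    have e1 : ∀ ω, ∫⁻ v in closedBall (0:Vec d) 1, ∑' k, cc d s k * ∫⁻ t in T, Phi b k ω v t
        = ∑' k, cc d s k * ∫⁻ v in closedBall (0:Vec d) 1, ∫⁻ t in T, Phi b k ω v t := by
      intro ω
      have hml : ∀ k, Measurable (fun v : Vec d => ∫⁻ t in T, Phi b k ω v t) :=
        fun k => (hm k).comp measurable_prodMk_left
      rw [lintegral_tsum (fun k => ((hml k).const_mul _).aemeasurable)]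
      congr 1
      ext k
      exact lintegral_const_mul _ (hml k)
    have hml : ∀ k, Measurable (fun ω : Ω =>
        ∫⁻ v in closedBall (0:Vec d) 1, ∫⁻ t in T, Phi b k ω v t) :=
      fun k => (hm k).lintegral_prod_right'
    simp_rw [e1]
    rw [lintegral_tsum (fun k => ((hml k).const_mul _).aemeasurable)]
    congr 1
    ext k
    exact lintegral_const_mul _ (hml k)
  rw [h2]
  refine ne_top_of_le_ne_top ?_ (ENNReal.tsum_le_tsum (fun k =>
    (mul_le_mul_right (hone k) (cc d s k))))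
  have h3 : ∀ k : ℕ, cc d s k * (K * (((k:ℝ≥0∞) + 1) * ENNReal.ofReal (gk d s k)) * D) =
      (K * D) * (((k:ℝ≥0∞)+1)^2)⁻¹ := by
    intro k
    unfold cc
    have hg0 : ENNReal.ofReal (gk d s k) ≠ 0 := by
      have := one_le_gk (d := d) hsd k
      rw [Ne, ENNReal.ofReal_eq_zero, not_le]
      linarith
    have hx0 : ((k:ℝ≥0∞) + 1) * ENNReal.ofReal (gk d s k) ≠ 0 :=
      mul_ne_zero (by positivity) hg0
    have hxt : ((k:ℝ≥0∞) + 1) * ENNReal.ofReal (gk d s k) ≠ ∞ :=
      ENNReal.mul_ne_top (by simp) ENNReal.ofReal_ne_top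
    have e : ((k:ℝ≥0∞)+1)^3 * ENNReal.ofReal (gk d s k) =
        ((k:ℝ≥0∞)+1)^2 * (((k:ℝ≥0∞) + 1) * ENNReal.ofReal (gk d s k)) := by ring
    rw [e, ENNReal.mul_inv (Or.inr hxt) (Or.inr hx0)]
    calc (((k:ℝ≥0∞)+1)^2)⁻¹ * (((k:ℝ≥0∞) + 1) * ENNReal.ofReal (gk d s k))⁻¹ *
          (K * (((k:ℝ≥0∞) + 1) * ENNReal.ofReal (gk d s k)) * D)
        = ((((k:ℝ≥0∞) + 1) * ENNReal.ofReal (gk d s k))⁻¹ *
          (((k:ℝ≥0∞) + 1) * ENNReal.ofReal (gk d s k))) * ((K * D) * (((k:ℝ≥0∞)+1)^2)⁻¹) := by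
          ring
      _ = _ := by rw [ENNReal.inv_mul_cancel hx0 hxt, one_mul]
  simp only [h3]
  rw [ENNReal.tsum_mul_left]
  exact ENNReal.mul_ne_top (ENNReal.mul_ne_top hKt hωt) sum_ne_top

/-- The constant. -/
noncomputable def cpr (d : ℕ) (p : ℝ) : ℝ := (4 * 16 ^ d) ^ p * 3 ^ (p - 2) * 8

theorem main_est {b : Ω → Vec d → Vec d}
    (hb : Measurable (fun z : Ω × Vec d => b z.1 z.2)) {T : Set ℝ} (hT : MeasurableSet T)
    {s : ℝ} (hsd : s ≤ d) (ω : Ω) {p : ℝ}
    (hp : 2 ≤ p) {δ : ℝ} (hδ : 0 < δ) (hδ1 : δ < 1) {f : Space d → ℝ} (hf : Measurable f)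
    (hfT : ∀ (y : Vec d) (t : ℝ), t ∉ T → f (WithLp.toLp 2 (y, t)) = 0) :
    ∫⁻ v in closedBall (0:Vec d) 1, (Sig b s T ω v)⁻¹ * lineMax δ (b ω) f v ^ p
      ≤ ENNReal.ofReal (cpr d p * (1 + Real.log (1/δ)) ^ 3 * δ ^ (-((d:ℝ) - s))) *
        ∫⁻ y, ‖f y‖ₑ ^ p := by
  obtain ⟨k, hk1, hk2⟩ := exists_nat_pow_near_of_lt_one hδ hδ1.le (by norm_num : (0:ℝ) < 1/2)
    (by norm_num)
  have hr1 : 2 * δ ≤ rad k := by unfold rad; linarith
  have hr2 : rad k ≤ 4 * δ := by
    unfold rad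
    rw [pow_succ] at hk1
    linarith
  have hb' : Measurable (b ω) := hb.comp measurable_prodMk_left
  have hlog0 : 0 ≤ Real.log (1/δ) := Real.log_nonneg (by rw [le_div_iff₀ hδ]; linarith)
  have h2k : (2:ℝ)^k ≤ 1/δ := by
    rw [le_div_iff₀ hδ]
    have : δ ≤ ((2:ℝ)^k)⁻¹ := by
      rw [← inv_pow]; simpa [one_div] using hk2
    calc (2:ℝ)^k * δ ≤ 2^k * ((2:ℝ)^k)⁻¹ := by gcongr
      _ = 1 := mul_inv_cancel₀ (by positivity)
  have hklog : (k:ℝ) + 1 ≤ 2 * (1 + Real.log (1/δ)) := by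
    have h2 := Real.log_le_log (by positivity) h2k
    rw [Real.log_pow] at h2
    have h3 := Real.log_two_gt_d9
    have h4 : (k:ℝ) * (1/2) ≤ k * Real.log 2 := by
      apply mul_le_mul_of_nonneg_left _ (Nat.cast_nonneg k)
      linarith
    linarith
  have hgk : gk d s k ≤ δ ^ (-((d:ℝ) - s)) := by
    unfold gk
    rw [Real.rpow_neg hδ.le, ← Real.inv_rpow hδ.le]
    apply Real.rpow_le_rpow (by positivity) _ (by linarith)
    rwa [one_div] at h2k
  have hg1 := one_le_gk (d := d) hsd k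
  have hg0 : ENNReal.ofReal (gk d s k) ≠ 0 := by
    rw [Ne, ENNReal.ofReal_eq_zero, not_le]
    linarith
  have hcc0 : cc d s k ≠ 0 := ENNReal.inv_ne_zero.2
    (ENNReal.mul_ne_top (ENNReal.pow_ne_top (by simp)) ENNReal.ofReal_ne_top)
  have hcct : cc d s k ≠ ∞ := ENNReal.inv_ne_top.2
    (mul_ne_zero (pow_ne_zero _ (by simp : ((k:ℝ≥0∞)+1) ≠ 0)) hg0)
  have hω : ∀ v ∈ closedBall (0:Vec d) 1, (cc d s k * (Sig b s T ω v)⁻¹) *
      ∫⁻ t in T, JJ (rad k) (b ω) (closedBall 0 1) (b ω v + t • v) t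
        ≤ 1 := by
    intro v _
    have h1 : cc d s k * ∫⁻ t in T, Phi b k ω v t ≤ Sig b s T ω v := by
      unfold Sig
      exact ENNReal.le_tsum (f := fun k => cc d s k * ∫⁻ t in T, Phi b k ω v t) k
    calc (cc d s k * (Sig b s T ω v)⁻¹) *
        ∫⁻ t in T, JJ (rad k) (b ω) (closedBall 0 1) (b ω v + t • v) t
        = (Sig b s T ω v)⁻¹ * (cc d s k * ∫⁻ t in T, Phi b k ω v t) := by
          unfold Phi
          ring
      _ ≤ (Sig b s T ω v)⁻¹ * Sig b s T ω v := by gcongr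
      _ ≤ 1 := ENNReal.inv_mul_le_one _
  have h := tube_weighted hδ hδ1 hr1 hr2 hb' hT hω hp hf hfT
  have h2 : cc d s k * ∫⁻ v in closedBall (0:Vec d) 1, (Sig b s T ω v)⁻¹
      * lineMax δ (b ω) f v ^ p
      ≤ (4 * 16 ^ d) ^ p * 3 ^ (p - 2) * ∫⁻ y, ‖f y‖ₑ ^ p := by
    rw [← lintegral_const_mul' _ _ hcct]
    refine le_trans (le_of_eq ?_) h
    congr 1
    ext v
    ring
  have h3 : ∫⁻ v in closedBall (0:Vec d) 1, (Sig b s T ω v)⁻¹ * lineMax δ (b ω) f v ^ p
      = (cc d s k)⁻¹ * (cc d s k * ∫⁻ v in closedBall (0:Vec d) 1, (Sig b s T ω v)⁻¹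
      * lineMax δ (b ω) f v ^ p) := by
    rw [← mul_assoc, ENNReal.inv_mul_cancel hcc0 hcct, one_mul]
  rw [h3]
  have h4 : (cc d s k)⁻¹ ≤ ENNReal.ofReal ((2 * (1 + Real.log (1/δ))) ^ 3 *
      δ ^ (-((d:ℝ) - s))) := by
    unfold cc
    rw [inv_inv]
    have e : ((k:ℝ≥0∞)+1) = ENNReal.ofReal ((k:ℝ)+1) := by
      rw [ENNReal.ofReal_add (by positivity) (by norm_num)]
      simp
    rw [e, ← ENNReal.ofReal_pow (by positivity), ← ENNReal.ofReal_mul (by positivity)]
    apply ENNReal.ofReal_le_ofReal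
    gcongr
  have e5 : ((4 * 16 ^ d : ℝ≥0∞)) ^ p * 3 ^ (p - 2)
      = ENNReal.ofReal ((4 * 16 ^ d) ^ p * 3 ^ (p - 2)) := by
    rw [ENNReal.ofReal_mul (by positivity), ← ENNReal.ofReal_rpow_of_pos (by positivity),
      ← ENNReal.ofReal_rpow_of_pos (by norm_num), ENNReal.ofReal_mul (by norm_num),
      ENNReal.ofReal_pow (by norm_num)]
    simp
  calc (cc d s k)⁻¹ * (cc d s k * ∫⁻ v in closedBall (0:Vec d) 1, (Sig b s T ω v)⁻¹
      * lineMax δ (b ω) f v ^ p)
      ≤ ENNReal.ofReal ((2 * (1 + Real.log (1/δ))) ^ 3 * δ ^ (-((d:ℝ) - s)))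
        * ((4 * 16 ^ d) ^ p * 3 ^ (p - 2) * ∫⁻ y, ‖f y‖ₑ ^ p) := by gcongr
    _ = _ := by
        rw [e5, ← mul_assoc, ← ENNReal.ofReal_mul (by positivity)]
        congr 2
        unfold cpr
        rw [mul_pow]
        ring

/-- **The general estimate.** -/
theorem main {P : Measure Ω} [IsFiniteMeasure P] {b : Ω → Vec d → Vec d}
    (hb : Measurable (fun z : Ω × Vec d => b z.1 z.2)) {T : Set ℝ} (hT : MeasurableSet T)
    (hTf : volume T ≠ ∞) {A s : ℝ}
    (hA : 0 ≤ A) (hs : 0 ≤ s) (hsd : s ≤ d) (hsp : SpreadE P b T A s) :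
    ∀ᵐ ω ∂P, ∃ U : Vec d → ℝ≥0∞, Measurable U ∧
      ∫⁻ v in closedBall (0:Vec d) 1, (U v)⁻¹ < ∞ ∧
      ∀ (p δ : ℝ) (f : Space d → ℝ), 2 ≤ p → 0 < δ → δ < 1 → AEMeasurable f volume →
        (∀ (y : Vec d) (t : ℝ), t ∉ T → f (WithLp.toLp 2 (y, t)) = 0) →
        ∫⁻ v in closedBall (0:Vec d) 1, U v * lineMax δ (b ω) f v ^ p
          ≤ ENNReal.ofReal (cpr d p * (1 + Real.log (1/δ)) ^ 3 * δ ^ (-((d:ℝ) - s))) *
            ∫⁻ y, ‖f y‖ₑ ^ p := by
  have hae : ∀ᵐ ω ∂P, ∫⁻ v in closedBall (0:Vec d) 1, Sig b s T ω v < ∞ :=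
    ae_lt_top ((measurable_Sig hb s T).lintegral_prod_right') (int_Sig hb hTf hA hs hsd hsp)
  filter_upwards [hae] with ω hω
  refine ⟨fun v => (Sig b s T ω v)⁻¹, ((measurable_Sig hb s T).comp measurable_prodMk_left).inv,
    ?_, ?_⟩
  · simp only [inv_inv]
    exact hω
  · intro p δ f hp hδ hδ1 hf hfT
    classical
    set F : Space d → ℝ := fun y => if (WithLp.ofLp y).2 ∈ T then hf.mk f y else 0 with hF
    have hFm : Measurable F := by
      apply Measurable.ite _ hf.measurable_mk measurable_const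
      have : Measurable (fun y : Space d => (WithLp.ofLp y).2) :=
        measurable_snd.comp (WithLp.volume_preserving_ofLp (Vec d) ℝ).measurable
      exact this hT
    have hFT : ∀ (y : Vec d) (t : ℝ), t ∉ T → F (WithLp.toLp 2 (y, t)) = 0 := by
      intro y t ht
      simp only [hF]
      rw [if_neg ht]
    have hfF : f =ᵐ[volume] F := by
      filter_upwards [hf.ae_eq_mk] with y hy
      simp only [hF]
      split_ifs with h
      · exact hy
      · exact hfT (WithLp.ofLp y).1 (WithLp.ofLp y).2 h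
    have e1 : ∀ v, lineMax δ (b ω) f v = lineMax δ (b ω) F v :=
      fun v => lineMax_congr (b ω) v hfF
    have e2 : ∫⁻ y, ‖f y‖ₑ ^ p = ∫⁻ y, ‖F y‖ₑ ^ p := by
      apply lintegral_congr_ae
      filter_upwards [hfF] with y hy
      rw [hy]
    simp only [e1]
    rw [e2]
    exact main_est hb hT hsd ω hp hδ hδ1 hFm hFT

/-- Transversality of a family of families of lines. -/
def TransE {Λ : Type*} [PseudoMetricSpace Λ] (κ : ℝ) (b : Λ → Vec d → Vec d) : Prop :=
  ∀ (l m : Λ) (t u : ℝ), ∀ v ∈ closedBall (0:Vec d) 1, ∀ w ∈ closedBall (0:Vec d) 1,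
    κ * max (dist l m) |t - u| * ‖v - w‖ ≤
      ‖((b l v - b l w) + t • (v - w)) - ((b m v - b m w) + u • (v - w))‖

theorem spread_of_trans {Λ : Type*} [PseudoMetricSpace Λ] [MeasurableSpace Λ] {μ : Measure Λ}
    [SFinite μ] {κ A α : ℝ} (hκ : 0 < κ) (hA : 0 ≤ A)
    (hμ : ∀ (x : Λ) (r : ℝ), 0 < r → μ (closedBall x r) ≤ ENNReal.ofReal (A * r ^ α))
    {b : Λ → Vec d → Vec d} (hb : TransE κ b) (T : Set ℝ) :
    SpreadE μ b T (2 * A * (2 / κ) ^ (1 + α)) (1 + α) := by
  intro v hv w hw hvw r hr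
  have hpos : 0 < ‖v - w‖ := norm_pos_iff.2 (sub_ne_zero.2 hvw)
  set S : Set (Λ × ℝ) := {z | ‖(b z.1 v + z.2 • v) - (b z.1 w + z.2 • w)‖ ≤ r} with hS
  rcases S.eq_empty_or_nonempty with h0 | ⟨z0, hz0⟩
  · rw [h0, measure_empty]; exact zero_le
  · set ρ : ℝ := 2 * r / (κ * ‖v - w‖) with hρ
    have hρ0 : 0 < ρ := by positivity
    have hsub : S ⊆ closedBall z0.1 ρ ×ˢ closedBall z0.2 ρ := by
      intro z hz
      have h1 := hb z.1 z0.1 z.2 z0.2 v hv w hw
      have e1 : ∀ y : Λ × ℝ, (b y.1 v - b y.1 w) + y.2 • (v - w) =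
          (b y.1 v + y.2 • v) - (b y.1 w + y.2 • w) := by
        intro y
        rw [smul_sub]
        abel
      rw [e1 z, e1 z0] at h1
      have h2 : κ * max (dist z.1 z0.1) |z.2 - z0.2| * ‖v - w‖ ≤ 2 * r := by
        refine h1.trans ((norm_sub_le _ _).trans ?_)
        have h3 : ‖(b z.1 v + z.2 • v) - (b z.1 w + z.2 • w)‖ ≤ r := hz
        have h4 : ‖(b z0.1 v + z0.2 • v) - (b z0.1 w + z0.2 • w)‖ ≤ r := hz0
        linarith
      have h5 : max (dist z.1 z0.1) |z.2 - z0.2| ≤ ρ := by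
        rw [hρ, le_div_iff₀ (by positivity)]
        calc max (dist z.1 z0.1) |z.2 - z0.2| * (κ * ‖v - w‖) =
            κ * max (dist z.1 z0.1) |z.2 - z0.2| * ‖v - w‖ := by ring
          _ ≤ 2 * r := h2
      refine ⟨?_, ?_⟩
      · rw [mem_closedBall]; exact (le_max_left _ _).trans h5
      · rw [mem_closedBall, Real.dist_eq]; exact (le_max_right _ _).trans h5
    calc (μ.prod (volume.restrict T)) S
        ≤ (μ.prod (volume.restrict T)) (closedBall z0.1 ρ ×ˢ closedBall z0.2 ρ) :=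
          measure_mono hsub
      _ = μ (closedBall z0.1 ρ) * (volume.restrict T) (closedBall z0.2 ρ) :=
          Measure.prod_prod _ _
      _ ≤ ENNReal.ofReal (A * ρ ^ α) * ENNReal.ofReal (2 * ρ) := by
          gcongr
          · exact hμ _ _ hρ0
          · refine (Measure.restrict_apply_le _ _).trans ?_
            rw [Real.volume_closedBall]
      _ = ENNReal.ofReal (A * ρ ^ α * (2 * ρ)) := by
          rw [← ENNReal.ofReal_mul (by positivity)]
      _ = _ := by
          congr 1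
          have e2 : ρ = 2 / κ * (r / ‖v - w‖) := by
            rw [hρ]; field_simp
          have e3 : ρ ^ α * ρ = ρ ^ (1 + α) := by
            rw [Real.rpow_add hρ0, Real.rpow_one]; ring
          calc A * ρ ^ α * (2 * ρ) = 2 * A * (ρ ^ α * ρ) := by ring
            _ = 2 * A * ((2 / κ) ^ (1 + α) * (r / ‖v - w‖) ^ (1 + α)) := by
                rw [e3, e2, Real.mul_rpow (by positivity) (by positivity)]
            _ = _ := by ring

end Pool.Agent.R250.TW
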