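import Mathlib

/-!
Definitions for the three-balls problem with the Hadamard exponent.
-/

open Metric Set InnerProductSpace

namespace Pool.Agent.R250.ThreeBalls

noncomputable section

/-- Euclidean space of dimension `n`. -/
abbrev EE (n : ℕ) := EuclideanSpace ℝ (Fin n)

variable {n : ℕ}

/-- `‖u‖_s = sup_{B(0,s)} |u|`, the supremum of `|u|` over the open ball of radius `s`. -/
def supNorm (u : EE n → ℂ) (s : ℝ) : ℝ :=
  sSup ((fun x => ‖u x‖) '' ball (0 : EE n) s)

/-- The class `H`: harmonic functions on the open unit ball with `sup_B |u| = 1`. -/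
structure IsH (u : EE n → ℂ) : Prop where
  harm : HarmonicOnNhd u (ball 0 1)
  bdd : BddAbove ((fun x => ‖u x‖) '' ball (0 : EE n) 1)
  norm_one : supNorm u 1 = 1

end

end Pool.Agent.R250.ThreeBalls
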