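import Mathlib
import Pool.Agent.R250.ThreeBallsDefs

open Metric Set InnerProductSpace

namespace Pool.Agent.R250.ThreeBalls

noncomputable section


/-- a real-linear form `ℓ : ℝⁿ → ℂ` with `Σ ℓ(e_i)² = 0`, composed with a holomorphic `P`,
is harmonic. -/
theorem harmonic_comp_null {n : ℕ} (l : EE n →L[ℝ] ℂ)
    (hl : ∑ i, l (EuclideanSpace.basisFun (Fin n) ℝ i) * l (EuclideanSpace.basisFun (Fin n) ℝ i) = 0)
    (k : ℕ) (x : EE n) : HarmonicAt (fun y => (l y) ^ k) x := by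
  have h1 : ∀ y : EE n, HasFDerivAt (fun y => (l y) ^ k) (((k : ℂ) * (l y) ^ (k - 1)) • l) y := by
    intro y
    have := HasDerivAt.comp_hasFDerivAt y (hasDerivAt_pow k (l y)) l.hasFDerivAt
    exact this
  have h2 : ∀ y : EE n, HasFDerivAt (fun y => ((k : ℂ) * (l y) ^ (k - 1)) • l)
      ((((k : ℂ) * (((k - 1 : ℕ) : ℂ) * (l y) ^ (k - 1 - 1))) • l).smulRight l) y := by
    intro y
    have h3 : HasFDerivAt (fun y => (k : ℂ) * (l y) ^ (k - 1))
        ((((k : ℂ) * (((k - 1 : ℕ) : ℂ) * (l y) ^ (k - 1 - 1))) • l)) y := by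
      have := HasDerivAt.comp_hasFDerivAt y ((hasDerivAt_pow (k-1) (l y)).const_mul (k : ℂ)) l.hasFDerivAt
      exact this
    exact h3.smul_const l
  refine ⟨?_, ?_⟩
  · have : ContDiff ℝ 2 (fun y => (l y) ^ k) := by fun_prop
    exact this.contDiffAt
  · refine Filter.Eventually.of_forall (fun y => ?_)
    rw [laplacian_eq_iteratedFDeriv_orthonormalBasis _ (EuclideanSpace.basisFun (Fin n) ℝ)]
    have hf : fderiv ℝ (fun y => (l y) ^ k) = fun y => (((k : ℂ) * (l y) ^ (k - 1)) • l) := by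
      funext z; exact (h1 z).fderiv
    simp only [iteratedFDeriv_two_apply, hf, (h2 y).fderiv]
    simp only [Matrix.cons_val_zero, Matrix.cons_val_one, Pi.zero_apply]
    calc _ = ∑ i, ((k : ℂ) * (((k - 1 : ℕ) : ℂ) * (l y) ^ (k - 1 - 1))) * (l (EuclideanSpace.basisFun (Fin n) ℝ i) * l (EuclideanSpace.basisFun (Fin n) ℝ i)) := by
          refine Finset.sum_congr rfl (fun i _ => ?_)
          simp only [ContinuousLinearMap.smulRight_apply, _root_.smul_apply, smul_eq_mul]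
          ring
      _ = 0 := by rw [← Finset.mul_sum, hl, mul_zero]

variable {n : ℕ}

def i0 (h : 3 ≤ n) : Fin n := ⟨0, by omega⟩
def i1 (h : 3 ≤ n) : Fin n := ⟨1, by omega⟩
def i2 (h : 3 ≤ n) : Fin n := ⟨2, by omega⟩

def zl (h : 3 ≤ n) (φ : ℝ) : EE n →L[ℝ] ℂ :=
  Complex.ofRealCLM.comp (EuclideanSpace.proj (i2 h)) +
    Complex.I • (Complex.ofRealCLM.comp
      ((Real.cos φ) • (EuclideanSpace.proj (i0 h) : EE n →L[ℝ] ℝ) + (Real.sin φ) • (EuclideanSpace.proj (i1 h) : EE n →L[ℝ] ℝ)))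

theorem zl_apply (h : 3 ≤ n) (φ : ℝ) (x : EE n) :
    zl h φ x = (x (i2 h) : ℂ) + Complex.I * ((Real.cos φ * x (i0 h) + Real.sin φ * x (i1 h) : ℝ) : ℂ) := by
  simp [zl]; ring

theorem zl_null (h : 3 ≤ n) (φ : ℝ) :
    ∑ i, zl h φ (EuclideanSpace.basisFun (Fin n) ℝ i) * zl h φ (EuclideanSpace.basisFun (Fin n) ℝ i) = 0 := by
  have hne1 : i0 h ≠ i1 h := by simp [i0, i1]
  have hne2 : i0 h ≠ i2 h := by simp [i0, i2]
  have hne3 : i1 h ≠ i2 h := by simp [i1, i2]
  have hsub : ({i0 h, i1 h, i2 h} : Finset (Fin n)) ⊆ Finset.univ := Finset.subset_univ _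
  rw [← Finset.sum_subset hsub]
  · rw [Finset.sum_insert (by simp [hne1, hne2]), Finset.sum_insert (by simp [hne3]), Finset.sum_singleton]
    simp only [zl_apply, EuclideanSpace.basisFun_apply]
    simp [hne1, hne2, hne3, hne1.symm, hne2.symm, hne3.symm]
    have := Complex.sin_sq_add_cos_sq (φ : ℂ)
    have hI := Complex.I_mul_I
    linear_combination (Complex.cos (φ:ℂ) ^ 2 + Complex.sin (φ : ℂ) ^2) * hI - this
  · intro i _ hi
    simp only [Finset.mem_insert, Finset.mem_singleton, not_or] at hi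
    simp only [zl_apply, EuclideanSpace.basisFun_apply]
    simp [Ne.symm hi.1, Ne.symm hi.2.1, Ne.symm hi.2.2]

def C0 : ℝ := Real.exp 5 * Real.sqrt Real.pi

theorem C0_pos : 0 < C0 := by unfold C0; positivity

theorem cell_le {a δ φ φ' : ℝ} (ha : 0 ≤ a) (hδ : |φ' - φ| ≤ δ) (haδ : a * δ ^ 2 ≤ 5) :
    Real.exp (-a * Real.sin φ ^ 2) ≤ Real.exp 5 * Real.exp (-(a / 2) * Real.sin φ' ^ 2) := by
  rw [← Real.exp_add]
  apply Real.exp_le_exp.mpr
  have h1 : |Real.sin φ'| ≤ |Real.sin φ| + |φ' - φ| := by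
    have h2 : |Real.sin φ' - Real.sin φ| ≤ |φ' - φ| := by
      exact Real.abs_sin_sub_sin_le _ _
    have := abs_sub_abs_le_abs_sub (Real.sin φ') (Real.sin φ)
    linarith
  have h3 : Real.sin φ' ^ 2 ≤ 2 * Real.sin φ ^ 2 + 2 * δ ^ 2 := by
    rw [← sq_abs (Real.sin φ'), ← sq_abs (Real.sin φ)]
    have h0 := abs_nonneg (Real.sin φ')
    have h0' := abs_nonneg (Real.sin φ)
    have h0'' := abs_nonneg (φ' - φ)
    nlinarith [sq_nonneg (|Real.sin φ| - δ)]
  nlinarith

theorem integral_le {b ψ : ℝ} (hb : 0 < b) :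
    ∫ φ in (0:ℝ)..Real.pi, Real.exp (-b * Real.sin (φ - ψ) ^ 2) ≤ Real.sqrt (Real.pi ^ 3 / (4 * b)) := by
  have hper : Function.Periodic (fun φ => Real.exp (-b * Real.sin φ ^ 2)) Real.pi := by
    intro φ
    simp [Real.sin_add_pi]
  have h1 : ∫ φ in (0:ℝ)..Real.pi, Real.exp (-b * Real.sin (φ - ψ) ^ 2)
      = ∫ φ in (-(Real.pi/2))..(Real.pi/2), Real.exp (-b * Real.sin φ ^ 2) := by
    rw [intervalIntegral.integral_comp_sub_right (fun φ => Real.exp (-b * Real.sin φ ^ 2)) ψ]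
    have := hper.intervalIntegral_add_eq (0 - ψ) (-(Real.pi/2))
    rw [show Real.pi - ψ = 0 - ψ + Real.pi by ring, this]
    congr 1; ring
  rw [h1]
  have hpi := Real.pi_pos
  have h2 : ∫ φ in (-(Real.pi/2))..(Real.pi/2), Real.exp (-b * Real.sin φ ^ 2)
      ≤ ∫ φ in (-(Real.pi/2))..(Real.pi/2), Real.exp (-(b * (4 / Real.pi ^ 2)) * φ ^ 2) := by
    apply intervalIntegral.integral_mono_on (by linarith)
    · apply Continuous.intervalIntegrable; fun_prop
    · apply Continuous.intervalIntegrable; fun_prop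
    · intro φ hφ
      apply Real.exp_le_exp.mpr
      have h3 : 2 / Real.pi * |φ| ≤ |Real.sin φ| := Real.mul_abs_le_abs_sin (abs_le.mpr hφ)
      have h4 : (2 / Real.pi * |φ|) ^ 2 ≤ |Real.sin φ| ^ 2 := by
        apply pow_le_pow_left₀ (by positivity) h3
      rw [mul_pow, sq_abs, sq_abs, div_pow] at h4
      have h5 : b * (2 ^ 2 / Real.pi ^ 2 * φ ^ 2) ≤ b * Real.sin φ ^ 2 :=
        mul_le_mul_of_nonneg_left h4 hb.le
      nlinarith
  refine h2.trans ?_
  rw [intervalIntegral.integral_of_le (by linarith)]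
  have h6 : ∫ φ in Ioc (-(Real.pi/2)) (Real.pi/2), Real.exp (-(b * (4 / Real.pi ^ 2)) * φ ^ 2)
      ≤ ∫ φ : ℝ, Real.exp (-(b * (4 / Real.pi ^ 2)) * φ ^ 2) := by
    apply MeasureTheory.setIntegral_le_integral
    · exact integrable_exp_neg_mul_sq (by positivity)
    · exact Filter.Eventually.of_forall (fun φ => (Real.exp_pos _).le)
  refine h6.trans ?_
  rw [integral_gaussian]
  apply Real.sqrt_le_sqrt
  apply le_of_eq
  field_simp

theorem sum_exp_le (N : ℕ) (hN : 1 ≤ N) (σ ψ : ℝ) (h0 : 0 ≤ σ) (h1 : σ ≤ 1) :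
    σ * ((1 / (N:ℝ)) * ∑ j ∈ Finset.range N,
      Real.exp (-(N * σ ^ 2 / 2) * Real.sin (Real.pi * j / N - ψ) ^ 2)) ≤ C0 / Real.sqrt N := by
  have hNpos : (0:ℝ) < N := by exact_mod_cast hN
  have hN1 : (1:ℝ) ≤ N := by exact_mod_cast hN
  have hpi := Real.pi_pos
  have hsN : 0 < Real.sqrt N := Real.sqrt_pos.mpr hNpos
  rcases h0.eq_or_lt with h0 | h0
  · rw [← h0, zero_mul]; exact (div_pos C0_pos hsN).le
  set a : ℝ := N * σ ^ 2 / 2 with ha
  have hapos : 0 < a := by positivity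
  have hδ : a * (Real.pi / N) ^ 2 ≤ 5 := by
    rw [ha, div_pow]
    have h3 : Real.pi < 3.15 := Real.pi_lt_d2
    have h4 : Real.pi ^ 2 ≤ 10 := by nlinarith
    have h5 : σ ^ 2 ≤ 1 := by nlinarith
    have h6 : (N:ℝ) * σ ^ 2 / 2 * (Real.pi ^ 2 / N ^ 2) = (σ ^ 2 * Real.pi ^ 2 / 2) / N := by
      field_simp
    rw [h6, div_le_iff₀ hNpos]
    nlinarith [sq_nonneg Real.pi, sq_nonneg σ]
  -- cells
  have hcell : ∀ j ∈ Finset.range N,
      (Real.pi / N) * Real.exp (-a * Real.sin (Real.pi * j / N - ψ) ^ 2) ≤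
      ∫ φ in (Real.pi * (j:ℝ) / N)..(Real.pi * ((j+1 : ℕ):ℝ) / N),
        Real.exp 5 * Real.exp (-(a / 2) * Real.sin (φ - ψ) ^ 2) := by
    intro j _
    have hlen : (Real.pi * ((j+1 : ℕ):ℝ) / N) - (Real.pi * (j:ℝ) / N) = Real.pi / N := by
      push_cast; ring
    have hle : Real.pi * (j:ℝ) / N ≤ Real.pi * ((j+1 : ℕ):ℝ) / N := by
      have : 0 ≤ Real.pi / N := by positivity
      linarith
    have : ∫ φ in (Real.pi * (j:ℝ) / N)..(Real.pi * ((j+1 : ℕ):ℝ) / N),
        Real.exp (-a * Real.sin (Real.pi * j / N - ψ) ^ 2)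
        = (Real.pi / N) * Real.exp (-a * Real.sin (Real.pi * j / N - ψ) ^ 2) := by
      rw [intervalIntegral.integral_const, hlen, smul_eq_mul]
    rw [← this]
    apply intervalIntegral.integral_mono_on hle
    · apply Continuous.intervalIntegrable; fun_prop
    · apply Continuous.intervalIntegrable; fun_prop
    · intro φ hφ
      apply cell_le hapos.le (δ := Real.pi / N) _ hδ
      rw [abs_le]; constructor
      · have := hφ.1
        have h0 : 0 ≤ Real.pi / N := by positivity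
        linarith
      · have := hφ.2
        linarith
  have hsum : (Real.pi / N) * ∑ j ∈ Finset.range N, Real.exp (-a * Real.sin (Real.pi * j / N - ψ) ^ 2)
      ≤ Real.exp 5 * Real.sqrt (Real.pi ^ 3 / (4 * (a / 2))) := by
    rw [Finset.mul_sum]
    refine (Finset.sum_le_sum hcell).trans ?_
    rw [intervalIntegral.sum_integral_adjacent_intervals]
    · rw [intervalIntegral.integral_const_mul]
      apply mul_le_mul_of_nonneg_left _ (Real.exp_pos _).le
      have : Real.pi * (N:ℝ) / N = Real.pi := by field_simp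
      rw [this]
      simp only [Nat.cast_zero, mul_zero, zero_div]
      exact integral_le (by positivity)
    · intro k _
      apply Continuous.intervalIntegrable; fun_prop
  -- final algebra
  have hfin : Real.sqrt (Real.pi ^ 3 / (4 * (a / 2))) = Real.pi * Real.sqrt Real.pi / (σ * Real.sqrt N) := by
    rw [ha]
    rw [show Real.pi ^ 3 / (4 * ((N:ℝ) * σ ^ 2 / 2 / 2)) = (Real.pi * Real.sqrt Real.pi / (σ * Real.sqrt N)) ^ 2 by
      rw [div_pow, mul_pow, mul_pow, Real.sq_sqrt hpi.le, Real.sq_sqrt hNpos.le]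
      field_simp
      ring]
    rw [Real.sqrt_sq (by positivity)]
  rw [hfin] at hsum
  have h7 : (1 / (N:ℝ)) * ∑ j ∈ Finset.range N, Real.exp (-a * Real.sin (Real.pi * j / N - ψ) ^ 2)
      ≤ C0 / (σ * Real.sqrt N) := by
    have h8 := mul_le_mul_of_nonneg_left hsum (inv_nonneg.mpr hpi.le)
    calc (1 / (N:ℝ)) * ∑ j ∈ Finset.range N, Real.exp (-a * Real.sin (Real.pi * j / N - ψ) ^ 2)
        = Real.pi⁻¹ * ((Real.pi / N) * ∑ j ∈ Finset.range N, Real.exp (-a * Real.sin (Real.pi * j / N - ψ) ^ 2)) := by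
          field_simp
      _ ≤ _ := h8
      _ = C0 / (σ * Real.sqrt N) := by
          unfold C0; field_simp
  calc _ ≤ σ * (C0 / (σ * Real.sqrt N)) := mul_le_mul_of_nonneg_left h7 h0.le
    _ = _ := by field_simp

end

end Pool.Agent.R250.ThreeBalls
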