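import Mathlib
import Pool.Agent.R250.ThreeBallsA

open Metric Set InnerProductSpace

namespace Pool.Agent.R250.ThreeBalls

noncomputable section

variable {n : ℕ}

theorem exists_polar (h : 3 ≤ n) (x : EE n) :
    ∃ q ψ t : ℝ, 0 ≤ q ∧ 0 ≤ t ∧ t ^ 2 = q ^ 2 + x (i2 h) ^ 2 ∧ t ≤ ‖x‖ ∧
      (∀ φ : ℝ, Real.cos φ * x (i0 h) + Real.sin φ * x (i1 h) = q * Real.cos (φ - ψ)) := by
  set z : ℂ := ⟨x (i0 h), x (i1 h)⟩ with hz
  refine ⟨‖z‖, Complex.arg z, Real.sqrt (‖z‖ ^ 2 + x (i2 h) ^ 2), norm_nonneg _, Real.sqrt_nonneg _, ?_, ?_, ?_⟩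
  · rw [Real.sq_sqrt (by positivity)]
  · have hq : ‖z‖ ^ 2 = x (i0 h) ^ 2 + x (i1 h) ^ 2 := by
      rw [Complex.sq_norm, Complex.normSq_apply]; simp [hz]; ring
    rw [EuclideanSpace.norm_eq]
    apply Real.sqrt_le_sqrt
    rw [hq]
    have hne1 : i0 h ≠ i1 h := by simp [i0, i1]
    have hne2 : i0 h ≠ i2 h := by simp [i0, i2]
    have hne3 : i1 h ≠ i2 h := by simp [i1, i2]
    have hsub : ({i0 h, i1 h, i2 h} : Finset (Fin n)) ⊆ Finset.univ := Finset.subset_univ _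
    have := Finset.sum_le_sum_of_subset_of_nonneg (f := fun i => ‖x i‖ ^ 2) hsub (fun i _ _ => by positivity)
    rw [Finset.sum_insert (by simp [hne1, hne2]), Finset.sum_insert (by simp [hne3]), Finset.sum_singleton] at this
    simp only [Real.norm_eq_abs, sq_abs] at this ⊢
    linarith
  · intro φ
    have h1 : ‖z‖ * Real.cos (Complex.arg z) = x (i0 h) := by
      rw [Complex.norm_mul_cos_arg]
    have h2 : ‖z‖ * Real.sin (Complex.arg z) = x (i1 h) := by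
      rw [Complex.norm_mul_sin_arg]
    rw [← h1, ← h2, Real.cos_sub]; ring

theorem pow_mul_one_sub_le (N : ℕ) {τ : ℝ} (h0 : 0 ≤ τ) (h1 : τ ≤ 1) :
    τ ^ N * (1 - τ) ≤ 1 / (N + 1) := by
  have hg := mul_neg_geom_sum τ (N + 1)
  have hs : ((N + 1 : ℕ) : ℝ) * τ ^ N ≤ ∑ i ∈ Finset.range (N + 1), τ ^ i := by
    have : ∑ i ∈ Finset.range (N + 1), τ ^ N ≤ ∑ i ∈ Finset.range (N + 1), τ ^ i := by
      apply Finset.sum_le_sum
      intro i hi
      exact pow_le_pow_of_le_one h0 h1 (by simpa [Nat.lt_succ_iff] using hi)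
    simpa using this
  rw [le_div_iff₀ (by positivity)]
  have h2 : (1 - τ) * (((N + 1 : ℕ) : ℝ) * τ ^ N) ≤ (1 - τ) * ∑ i ∈ Finset.range (N + 1), τ ^ i :=
    mul_le_mul_of_nonneg_left hs (by linarith)
  have h3 : 0 ≤ τ ^ (N + 1) := by positivity
  push_cast at h2
  nlinarith

theorem pow_mul_sq_sub_le (N : ℕ) {t R : ℝ} (h0 : 0 ≤ t) (h1 : t ≤ R) (hR0 : 0 < R) (hR1 : R ≤ 1) :
    t ^ N * (R ^ 2 - t ^ 2) ≤ 2 * R ^ N / (N + 1) := by
  obtain ⟨τ, hτ⟩ : ∃ τ, t = R * τ := ⟨t / R, by field_simp⟩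
  have hτ0 : 0 ≤ τ := by
    by_contra hc; push Not at hc
    nlinarith
  have hτ1 : τ ≤ 1 := by
    by_contra hc; push Not at hc
    nlinarith
  have h2 := pow_mul_one_sub_le N hτ0 hτ1
  have h3 : t ^ N * (R ^ 2 - t ^ 2) = R ^ N * (R ^ 2 * ((1 + τ) * (τ ^ N * (1 - τ)))) := by
    rw [hτ, mul_pow]; ring
  rw [h3]
  have h4 : 0 ≤ τ ^ N * (1 - τ) := mul_nonneg (by positivity) (by linarith)
  have h5 : R ^ 2 * ((1 + τ) * (τ ^ N * (1 - τ))) ≤ 2 * (1 / (N + 1)) := by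
    have h6 : (1 + τ) * (τ ^ N * (1 - τ)) ≤ 2 * (1 / (N + 1)) := by
      calc (1 + τ) * (τ ^ N * (1 - τ)) ≤ 2 * (τ ^ N * (1 - τ)) := by nlinarith
        _ ≤ _ := by linarith
    have h7 : R ^ 2 ≤ 1 := by nlinarith
    have h8 : 0 ≤ (1 + τ) * (τ ^ N * (1 - τ)) := by positivity
    nlinarith
  calc R ^ N * (R ^ 2 * ((1 + τ) * (τ ^ N * (1 - τ)))) ≤ R ^ N * (2 * (1 / (N + 1))) :=
        mul_le_mul_of_nonneg_left h5 (by positivity)
    _ = _ := by ring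

def C1 : ℝ := 2 + 4 * C0

theorem C1_pos : 0 < C1 := by have := C0_pos; unfold C1; positivity

theorem avg_bound (h : 3 ≤ n) (N : ℕ) (hN : 1 ≤ N) {R : ℝ} (hR0 : 0 < R) (hR1 : R ≤ 1)
    (x : EE n) (hx : ‖x‖ ≤ R) :
    (1 / (N:ℝ)) * ∑ j ∈ Finset.range N,
      ‖zl h (Real.pi * j / N) x‖ ^ N * ‖(R:ℂ) ^ 2 - (zl h (Real.pi * j / N) x) ^ 2‖
      ≤ C1 * R ^ N / Real.sqrt N := by
  have hNpos : (0:ℝ) < N := by exact_mod_cast hN
  have hN1 : (1:ℝ) ≤ N := by exact_mod_cast hN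
  have hsN : 0 < Real.sqrt N := Real.sqrt_pos.mpr hNpos
  obtain ⟨q, ψ, t, hq0, ht0, ht, htx, hpol⟩ := exists_polar h x
  have htR : t ≤ R := htx.trans hx
  have hqt : q ≤ t := by
    apply le_of_sq_le_sq _ ht0
    rw [ht]; nlinarith [sq_nonneg (x (i2 h))]
  have hyt : |x (i2 h)| ≤ t := by
    apply abs_le_of_sq_le_sq _ ht0
    rw [ht]; nlinarith [sq_nonneg q]
  -- σ
  obtain ⟨σ, hσ0, hσ1, hσ⟩ : ∃ σ : ℝ, 0 ≤ σ ∧ σ ≤ 1 ∧ q = σ * t := by
    rcases ht0.eq_or_lt with h0 | h0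
    · refine ⟨0, le_rfl, zero_le_one, ?_⟩
      rw [← h0] at hqt ⊢; linarith
    · exact ⟨q / t, by positivity, (div_le_one h0).mpr hqt, by field_simp⟩
  set e : ℕ → ℝ := fun j => Real.exp (-(N * σ ^ 2 / 2) * Real.sin (Real.pi * j / N - ψ) ^ 2) with he
  have hterm : ∀ j ∈ Finset.range N,
      ‖zl h (Real.pi * j / N) x‖ ^ N * ‖(R:ℂ) ^ 2 - (zl h (Real.pi * j / N) x) ^ 2‖
      ≤ (t ^ N * e j) * ((R ^ 2 - t ^ 2) + 4 * t ^ 2 * σ) := by
    intro j _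
    set φ : ℝ := Real.pi * j / N with hφ
    set c : ℝ := Real.cos (φ - ψ) with hc
    set s : ℝ := Real.sin (φ - ψ) with hs
    have hcs : s ^ 2 + c ^ 2 = 1 := Real.sin_sq_add_cos_sq _
    have hc1 : |c| ≤ 1 := Real.abs_cos_le_one _
    have hz : zl h φ x = (x (i2 h) : ℂ) + Complex.I * ((q * c : ℝ) : ℂ) := by
      rw [zl_apply, hpol]
    set y : ℝ := x (i2 h) with hy
    have hnorm : ‖zl h φ x‖ ^ 2 = t ^ 2 * (1 - σ ^ 2 * s ^ 2) := by
      rw [hz, Complex.sq_norm, Complex.normSq_apply]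
      simp only [Complex.add_re, Complex.ofReal_re, Complex.mul_re, Complex.I_re, Complex.I_im, Complex.ofReal_im,
        Complex.add_im, Complex.mul_im]
      have h1 : t ^ 2 * (σ ^ 2 * s ^ 2) = q ^ 2 * s ^ 2 := by rw [hσ]; ring
      have h2 : t ^ 2 * (1 - σ ^ 2 * s ^ 2) = q ^ 2 + y ^ 2 - q ^ 2 * s ^ 2 := by
        rw [mul_sub, h1, mul_one, ht]
      rw [h2]
      linear_combination (q ^ 2) * hcs
    have hexp : 1 - σ ^ 2 * s ^ 2 ≤ Real.exp (-(σ ^ 2 * s ^ 2)) := by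
      have := Real.add_one_le_exp (-(σ ^ 2 * s ^ 2)); linarith
    have hpow : ‖zl h φ x‖ ^ N ≤ t ^ N * e j := by
      apply le_of_sq_le_sq _ (by positivity)
      calc (‖zl h φ x‖ ^ N) ^ 2 = (‖zl h φ x‖ ^ 2) ^ N := by ring
        _ ≤ (t ^ 2 * Real.exp (-(σ ^ 2 * s ^ 2))) ^ N := by
            apply pow_le_pow_left₀ (by positivity)
            rw [hnorm]
            exact mul_le_mul_of_nonneg_left hexp (by positivity)
        _ = (t ^ N * e j) ^ 2 := by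
            rw [mul_pow, mul_pow, ← Real.exp_nat_mul, he]
            simp only
            rw [← Real.exp_nat_mul (-(N * σ ^ 2 / 2) * Real.sin (Real.pi * j / N - ψ) ^ 2) 2]
            rw [← hφ, ← hs]
            congr 1
            · ring
            · congr 1; push_cast; ring
    have hdiff : ‖(R:ℂ) ^ 2 - (zl h φ x) ^ 2‖ ≤ (R ^ 2 - t ^ 2) + 4 * t ^ 2 * σ := by
      have hzz : (R:ℂ) ^ 2 - (zl h φ x) ^ 2 =
          ((R ^ 2 - y ^ 2 + (q * c) ^ 2 : ℝ) : ℂ) - ((2 * y * (q * c) : ℝ) : ℂ) * Complex.I := by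
        rw [hz]; push_cast
        have hI := Complex.I_sq
        linear_combination (-((q : ℂ) * c) ^ 2) * hI
      rw [hzz]
      refine (norm_sub_le _ _).trans ?_
      rw [norm_mul, Complex.norm_I, mul_one, Complex.norm_real, Complex.norm_real, Real.norm_eq_abs,
        Real.norm_eq_abs]
      have hRt : 0 ≤ R ^ 2 - t ^ 2 := by nlinarith
      have hy2 : y ^ 2 = t ^ 2 - q ^ 2 := by rw [ht]; ring
      have hA : |R ^ 2 - y ^ 2 + (q * c) ^ 2| ≤ (R ^ 2 - t ^ 2) + 2 * (t * q) := by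
        rw [abs_of_nonneg (by rw [hy2]; nlinarith [sq_nonneg (q*c), sq_nonneg q])]
        rw [hy2]
        have : c ^ 2 ≤ 1 := by nlinarith [sq_nonneg s]
        nlinarith [mul_nonneg hq0 (sub_nonneg.mpr hqt), sq_nonneg q]
      have hB : |2 * y * (q * c)| ≤ 2 * (t * q) := by
        rw [abs_mul, abs_mul, abs_mul, abs_of_nonneg hq0, abs_of_pos (by norm_num : (0:ℝ) < 2)]
        calc 2 * |y| * (q * |c|) ≤ 2 * t * (q * 1) := by gcongr
          _ = _ := by ring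
      calc _ ≤ ((R ^ 2 - t ^ 2) + 2 * (t * q)) + 2 * (t * q) := add_le_add hA hB
        _ = _ := by rw [hσ]; ring
    exact mul_le_mul hpow hdiff (norm_nonneg _) (by positivity)
  have hRt : 0 ≤ R ^ 2 - t ^ 2 := by nlinarith
  have hE : (1 / (N:ℝ)) * ∑ j ∈ Finset.range N, e j ≤ 1 := by
    have : ∑ j ∈ Finset.range N, e j ≤ ∑ j ∈ Finset.range N, (1:ℝ) := by
      apply Finset.sum_le_sum
      intro j _
      rw [he]
      apply Real.exp_le_one_iff.mpr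
      have h1 : 0 ≤ (N:ℝ) * σ ^ 2 / 2 := by positivity
      have h2 := mul_nonneg h1 (sq_nonneg (Real.sin (Real.pi * j / N - ψ)))
      linarith
    rw [Finset.sum_const, Finset.card_range, nsmul_eq_mul, mul_one] at this
    rw [one_div, inv_mul_le_iff₀ hNpos, mul_one]
    exact this
  have hE2 : σ * ((1 / (N:ℝ)) * ∑ j ∈ Finset.range N, e j) ≤ C0 / Real.sqrt N := sum_exp_le N hN σ ψ hσ0 hσ1
  set A : ℝ := (1 / (N:ℝ)) * ∑ j ∈ Finset.range N, e j with hA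
  have hA0 : 0 ≤ A := by
    rw [hA]; apply mul_nonneg (by positivity); apply Finset.sum_nonneg; intro j _; exact (Real.exp_pos _).le
  calc _ ≤ (1 / (N:ℝ)) * ∑ j ∈ Finset.range N, (t ^ N * e j) * ((R ^ 2 - t ^ 2) + 4 * t ^ 2 * σ) :=
        mul_le_mul_of_nonneg_left (Finset.sum_le_sum hterm) (by positivity)
    _ = (t ^ N * (R ^ 2 - t ^ 2)) * A + (4 * t ^ N * t ^ 2) * (σ * A) := by
        rw [← Finset.sum_mul, ← Finset.mul_sum, hA]; ring
    _ ≤ (2 * R ^ N / (N + 1)) * 1 + (4 * R ^ N * 1) * (C0 / Real.sqrt N) := by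
        have h1 := pow_mul_sq_sub_le N ht0 htR hR0 hR1
        have h2 : t ^ N ≤ R ^ N := pow_le_pow_left₀ ht0 htR N
        have h3 : t ^ 2 ≤ 1 := by nlinarith
        gcongr
    _ ≤ C1 * R ^ N / Real.sqrt N := by
        have h1 : 2 * R ^ N / (N + 1) ≤ 2 * R ^ N / Real.sqrt N := by
          apply div_le_div_of_nonneg_left (by positivity) hsN
          have : Real.sqrt N ≤ N := by
            rw [Real.sqrt_le_left (by positivity)]; nlinarith
          linarith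
        unfold C1
        calc _ ≤ 2 * R ^ N / Real.sqrt N * 1 + (4 * R ^ N * 1) * (C0 / Real.sqrt N) := by gcongr
          _ = _ := by ring

end

end Pool.Agent.R250.ThreeBalls
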