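import Mathlib
import Pool.Agent.R250.ThreeBallsB

open Metric Set InnerProductSpace
open scoped Pointwise

namespace Pool.Agent.R250.ThreeBalls

noncomputable section

variable {n : ℕ}

/-- the summand `z^N (1-z²)(z²-ρ²)` -/
def PN (N : ℕ) (ρ : ℝ) (z : ℂ) : ℂ := z ^ N * (1 - z ^ 2) * (z ^ 2 - (ρ : ℂ) ^ 2)

def vN (h : 3 ≤ n) (N : ℕ) (ρ : ℝ) (x : EE n) : ℂ :=
  ((1 / (N : ℝ) : ℝ) : ℂ) * ∑ j ∈ Finset.range N, PN N ρ (zl h (Real.pi * j / N) x)

theorem harm_sum {ι : Type*} (s : Finset ι) (f : ι → EE n → ℂ) (x : EE n)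
    (hf : ∀ i ∈ s, HarmonicAt (f i) x) : HarmonicAt (fun y => ∑ i ∈ s, f i y) x := by
  classical
  induction s using Finset.induction_on with
  | empty => simp
  | insert a s ha ih =>
    have h1 := (hf a (Finset.mem_insert_self _ _)).add (ih (fun i hi => hf i (Finset.mem_insert_of_mem hi)))
    have : (fun y => ∑ i ∈ insert a s, f i y) = f a + fun y => ∑ i ∈ s, f i y := by
      funext y; simp [Finset.sum_insert ha]
    rw [this]; exact h1

theorem PN_harm (h : 3 ≤ n) (N : ℕ) (ρ φ : ℝ) (x : EE n) :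
    HarmonicAt (fun y => PN N ρ (zl h φ y)) x := by
  have h0 := harmonic_comp_null (zl h φ) (zl_null h φ) N x
  have h2 := harmonic_comp_null (zl h φ) (zl_null h φ) (N + 2) x
  have h4 := harmonic_comp_null (zl h φ) (zl_null h φ) (N + 4) x
  have h5 := (((h2.const_smul (c := 1 + ρ ^ 2)).sub h4).sub (h0.const_smul (c := ρ ^ 2)))
  have : (fun y => PN N ρ (zl h φ y)) =
      (((1 + ρ ^ 2) • (fun y => (zl h φ y) ^ (N + 2))) - (fun y => (zl h φ y) ^ (N + 4))) -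
        (ρ ^ 2) • (fun y => (zl h φ y) ^ N) := by
    funext y
    simp only [PN, Pi.sub_apply, Pi.smul_apply, Complex.real_smul]
    push_cast
    ring
  rw [this]
  exact h5

theorem vN_harm (h : 3 ≤ n) (N : ℕ) (ρ : ℝ) (x : EE n) : HarmonicAt (vN h N ρ) x := by
  have h1 := (harm_sum (Finset.range N) (fun j y => PN N ρ (zl h (Real.pi * j / N) y)) x
    (fun j _ => PN_harm h N ρ _ x)).const_smul (c := 1 / (N : ℝ))
  have : vN h N ρ = (1 / (N:ℝ)) • (fun y => ∑ j ∈ Finset.range N, PN N ρ (zl h (Real.pi * j / N) y)) := by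
    funext y
    simp only [vN, Pi.smul_apply, Complex.real_smul]
  rw [this]
  exact h1

theorem zl_norm_le (h : 3 ≤ n) (φ : ℝ) (x : EE n) : ‖zl h φ x‖ ≤ ‖x‖ := by
  obtain ⟨q, ψ, t, hq0, ht0, ht, htx, hpol⟩ := exists_polar h x
  refine le_trans ?_ htx
  apply le_of_sq_le_sq _ ht0
  rw [zl_apply, hpol, Complex.sq_norm, Complex.normSq_apply]
  simp only [Complex.add_re, Complex.ofReal_re, Complex.mul_re, Complex.I_re, Complex.I_im, Complex.ofReal_im,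
        Complex.add_im, Complex.mul_im]
  rw [ht]
  have h1 : Real.cos (φ - ψ) ^ 2 ≤ 1 := Real.cos_sq_le_one _
  nlinarith [sq_nonneg q]

theorem vN_bound_one (h : 3 ≤ n) (N : ℕ) (hN : 1 ≤ N) {ρ : ℝ} (hρ0 : 0 < ρ) (hρ1 : ρ < 1) {R : ℝ}
    (hR : R = 1 ∨ R = ρ)
    (x : EE n) (hx : ‖x‖ ≤ R) : ‖vN h N ρ x‖ ≤ 2 * (C1 * R ^ N / Real.sqrt N) := by
  have hNpos : (0:ℝ) < N := by exact_mod_cast hN
  have hR0 : 0 < R := by rcases hR with rfl | rfl <;> linarith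
  have hR1 : R ≤ 1 := by rcases hR with rfl | rfl <;> linarith
  have h1 := avg_bound h N hN hR0 hR1 x hx
  have h2 : ‖vN h N ρ x‖ ≤ (1 / (N:ℝ)) * ∑ j ∈ Finset.range N,
      2 * (‖zl h (Real.pi * j / N) x‖ ^ N * ‖(R:ℂ) ^ 2 - (zl h (Real.pi * j / N) x) ^ 2‖) := by
    unfold vN
    rw [norm_mul, Complex.norm_real, Real.norm_eq_abs, abs_of_nonneg (by positivity)]
    apply mul_le_mul_of_nonneg_left _ (by positivity)
    refine (norm_sum_le _ _).trans ?_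
    apply Finset.sum_le_sum
    intro j _
    set z := zl h (Real.pi * j / N) x with hz
    have hz1 : ‖z‖ ≤ 1 := (zl_norm_le h _ x).trans (hx.trans hR1)
    have hz2 : ‖z ^ 2‖ ≤ 1 := by rw [norm_pow]; exact pow_le_one₀ (norm_nonneg _) hz1
    unfold PN
    rw [norm_mul, norm_mul, norm_pow]
    rcases hR with rfl | rfl
    · have h3 : ‖z ^ 2 - (ρ:ℂ) ^ 2‖ ≤ 2 := by
        refine (norm_sub_le _ _).trans ?_
        have : ‖(ρ:ℂ) ^ 2‖ ≤ 1 := by
          rw [norm_pow, Complex.norm_real, Real.norm_eq_abs, abs_of_pos hρ0]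
          exact pow_le_one₀ hρ0.le hρ1.le
        linarith
      rw [Complex.ofReal_one, one_pow]
      have h4 : 0 ≤ ‖z‖ ^ N * ‖1 - z ^ 2‖ := by positivity
      nlinarith
    · have h3 : ‖1 - z ^ 2‖ ≤ 2 := by
        refine (norm_sub_le _ _).trans ?_
        rw [norm_one]; linarith
      rw [norm_sub_rev (z ^ 2) ((R:ℂ) ^ 2)]
      have h4 : 0 ≤ ‖z‖ ^ N * ‖(R:ℂ) ^ 2 - z ^ 2‖ := by positivity
      calc ‖z‖ ^ N * ‖1 - z ^ 2‖ * ‖(R:ℂ) ^ 2 - z ^ 2‖ = (‖z‖ ^ N * ‖(R:ℂ) ^ 2 - z ^ 2‖) * ‖1 - z ^ 2‖ := by ring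
        _ ≤ (‖z‖ ^ N * ‖(R:ℂ) ^ 2 - z ^ 2‖) * 2 := mul_le_mul_of_nonneg_left h3 h4
        _ = _ := by ring
  refine h2.trans ?_
  rw [← Finset.mul_sum]
  calc _ = 2 * ((1 / (N:ℝ)) * ∑ j ∈ Finset.range N,
      (‖zl h (Real.pi * j / N) x‖ ^ N * ‖(R:ℂ) ^ 2 - (zl h (Real.pi * j / N) x) ^ 2‖)) := by ring
    _ ≤ _ := by linarith

/-- value at the pole -/
theorem vN_pole (h : 3 ≤ n) (N : ℕ) (hN : 1 ≤ N) (ρ s : ℝ) :
    vN h N ρ (EuclideanSpace.single (i2 h) s) = ((s ^ N * (1 - s ^ 2) * (s ^ 2 - ρ ^ 2) : ℝ) : ℂ) := by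
  have hne2 : i0 h ≠ i2 h := by simp [i0, i2]
  have hne3 : i1 h ≠ i2 h := by simp [i1, i2]
  have hNpos : (N:ℂ) ≠ 0 := by exact_mod_cast (by omega : N ≠ 0)
  have hz : ∀ φ, zl h φ (EuclideanSpace.single (i2 h) s) = (s : ℂ) := by
    intro φ
    rw [zl_apply]
    simp [hne2, hne3]
  unfold vN
  simp only [hz, Finset.sum_const, Finset.card_range, nsmul_eq_mul, PN]
  push_cast
  field_simp

theorem le_supNorm {u : EE n → ℂ} {s : ℝ} (hb : BddAbove ((fun x => ‖u x‖) '' ball (0 : EE n) s))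
    {x : EE n} (hx : ‖x‖ < s) : ‖u x‖ ≤ supNorm u s :=
  le_csSup hb ⟨x, by simpa using hx, rfl⟩

theorem supNorm_le {u : EE n → ℂ} {s C : ℝ} (hs : 0 < s) (h : ∀ x, ‖x‖ < s → ‖u x‖ ≤ C) :
    supNorm u s ≤ C := by
  apply csSup_le
  · exact ⟨_, 0, by simpa using hs, rfl⟩
  · rintro _ ⟨x, hx, rfl⟩
    exact h x (by simpa using hx)

theorem supNorm_nonneg (u : EE n → ℂ) (s : ℝ) : 0 ≤ supNorm u s := by
  apply Real.sSup_nonneg
  rintro _ ⟨x, _, rfl⟩
  exact norm_nonneg _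

/-- For `n ≥ 3` there is no finite constant. -/
theorem no_const (h : 3 ≤ n) {ρ r : ℝ} (hρ0 : 0 < ρ) (hρr : ρ < r) (hr1 : r < 1) (K : ℝ) :
    ∃ u : EE n → ℂ, IsH u ∧ K * (supNorm u ρ) ^ (Real.log r / Real.log ρ) < supNorm u r := by
  set β : ℝ := Real.log r / Real.log ρ with hβ
  have hr0 : 0 < r := hρ0.trans hρr
  have hlr : Real.log r < 0 := Real.log_neg hr0 hr1
  have hlρ : Real.log ρ < 0 := Real.log_neg hρ0 (hρr.trans hr1)
  have hβ0 : 0 < β := div_pos_of_neg_of_neg hlr hlρ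
  have hβ1 : β ≤ 1 := by
    rw [hβ, div_le_one_of_neg hlρ]
    exact Real.log_le_log hρ0 hρr.le
  have hρβ : ρ ^ β = r := by
    rw [Real.rpow_def_of_pos hρ0, hβ, mul_div_cancel₀ _ hlρ.ne, Real.exp_log hr0]
  set c : ℝ := (1 - r ^ 2) * (r ^ 2 - ρ ^ 2) with hc
  have hc0 : 0 < c := by
    apply mul_pos <;> nlinarith
  -- choose N
  obtain ⟨N, hN⟩ := exists_nat_gt (((|K| + 1) * (2 * C1) / c) ^ 2 + 1)
  have hNpos : (0:ℝ) < N := lt_trans (by positivity) hN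
  have hN1 : 1 ≤ N := by exact_mod_cast hNpos
  have hsN : 0 < Real.sqrt N := Real.sqrt_pos.mpr hNpos
  have hC1 := C1_pos
  have hsqrt : (|K| + 1) * (2 * C1) / c < Real.sqrt N := by
    apply Real.lt_sqrt_of_sq_lt; linarith
  -- bounds
  have hb1 : ∀ x : EE n, ‖x‖ < 1 → ‖vN h N ρ x‖ ≤ 2 * (C1 / Real.sqrt N) := by
    intro x hx
    have := vN_bound_one h N hN1 hρ0 (hρr.trans hr1) (Or.inl rfl) x hx.le
    simpa using this
  have hbρ : ∀ x : EE n, ‖x‖ < ρ → ‖vN h N ρ x‖ ≤ 2 * (C1 * ρ ^ N / Real.sqrt N) := by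
    intro x hx
    exact vN_bound_one h N hN1 hρ0 (hρr.trans hr1) (Or.inr rfl) x hx.le
  have hpole : ∀ s, 0 < s → s < 1 → ‖vN h N ρ (EuclideanSpace.single (i2 h) s)‖ = |s ^ N * (1 - s ^ 2) * (s ^ 2 - ρ ^ 2)| := by
    intro s _ _
    rw [vN_pole h N hN1, Complex.norm_real, Real.norm_eq_abs]
  have hbdd : ∀ s ≤ (1:ℝ), BddAbove ((fun x => ‖vN h N ρ x‖) '' ball (0 : EE n) s) := by
    intro s hs
    refine ⟨2 * (C1 / Real.sqrt N), ?_⟩
    rintro _ ⟨x, hx, rfl⟩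
    exact hb1 x (lt_of_lt_of_le (by simpa using hx) hs)
  -- lower bound at r
  have hlow : r ^ N * c ≤ supNorm (vN h N ρ) r := by
    have hev : ∀ s ∈ Set.Ioo ρ r, s ^ N * (1 - s ^ 2) * (s ^ 2 - ρ ^ 2) ≤ supNorm (vN h N ρ) r := by
      intro s hs
      have hs0 : 0 < s := hρ0.trans hs.1
      have h1 := le_supNorm (hbdd r hr1.le) (x := EuclideanSpace.single (i2 h) s) (by
        simp [abs_of_pos hs0]; exact hs.2)
      rw [hpole s hs0 (hs.2.trans hr1)] at h1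
      exact (le_abs_self _).trans h1
    have hcont : Filter.Tendsto (fun s : ℝ => s ^ N * (1 - s ^ 2) * (s ^ 2 - ρ ^ 2)) (nhdsWithin r (Set.Iio r))
        (nhds (r ^ N * (1 - r ^ 2) * (r ^ 2 - ρ ^ 2))) := by
      apply tendsto_nhdsWithin_of_tendsto_nhds
      exact Continuous.tendsto (by fun_prop) r
    have := le_of_tendsto hcont (by
      filter_upwards [Ioo_mem_nhdsLT hρr] with s hs using hev s hs)
    calc r ^ N * c = r ^ N * (1 - r ^ 2) * (r ^ 2 - ρ ^ 2) := by rw [hc]; ring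
      _ ≤ _ := this
  -- normalisation
  set A : ℝ := supNorm (vN h N ρ) 1 with hA
  have hApos : 0 < A := by
    have h1 : 0 < ‖vN h N ρ (EuclideanSpace.single (i2 h) r)‖ := by
      rw [hpole r hr0 hr1, abs_pos]
      have : r ^ N * (1 - r ^ 2) * (r ^ 2 - ρ ^ 2) = r ^ N * c := by rw [hc]; ring
      rw [this]; positivity
    exact h1.trans_le (le_supNorm (hbdd 1 le_rfl) (by simp [abs_of_pos hr0]; exact hr1))
  have hAle : A ≤ 2 * (C1 / Real.sqrt N) := supNorm_le one_pos hb1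
  have hBle : supNorm (vN h N ρ) ρ ≤ 2 * (C1 * ρ ^ N / Real.sqrt N) := supNorm_le hρ0 hbρ
  set u : EE n → ℂ := A⁻¹ • vN h N ρ with hu
  have hscale : ∀ s, supNorm u s = A⁻¹ * supNorm (vN h N ρ) s := by
    intro s
    unfold supNorm
    have : (fun x => ‖u x‖) '' ball (0 : EE n) s = A⁻¹ • ((fun x => ‖vN h N ρ x‖) '' ball (0 : EE n) s) := by
      rw [← Set.image_smul, Set.image_image]
      apply Set.image_congr
      intro x _
      simp only [hu, Pi.smul_apply, norm_smul, Real.norm_eq_abs, abs_of_pos (inv_pos.mpr hApos), smul_eq_mul]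
    rw [this, Real.sSup_smul_of_nonneg (inv_pos.mpr hApos).le, smul_eq_mul]
  refine ⟨u, ⟨?_, ?_, ?_⟩, ?_⟩
  · intro x _
    exact (vN_harm h N ρ x).const_smul
  · obtain ⟨M, hM⟩ := hbdd 1 le_rfl
    refine ⟨A⁻¹ * M, ?_⟩
    rintro _ ⟨x, hx, rfl⟩
    simp only [hu, Pi.smul_apply, norm_smul, Real.norm_eq_abs, abs_of_pos (inv_pos.mpr hApos)]
    exact mul_le_mul_of_nonneg_left (hM ⟨x, hx, rfl⟩) (inv_pos.mpr hApos).le
  · rw [hscale, ← hA, inv_mul_cancel₀ hApos.ne']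
  · rw [hscale, hscale]
    have hB0 := supNorm_nonneg (vN h N ρ) ρ
    rw [Real.mul_rpow (inv_pos.mpr hApos).le hB0]
    -- K * (A⁻¹^β * B^β) < A⁻¹ * S
    have hkey : (|K| + 1) * (A ^ (1 - β) * (supNorm (vN h N ρ) ρ) ^ β) ≤ (|K| + 1) * (2 * C1 * r ^ N / Real.sqrt N) := by
      apply mul_le_mul_of_nonneg_left _ (by positivity)
      have h1 : A ^ (1 - β) ≤ (2 * C1 / Real.sqrt N) ^ (1 - β) := by
        apply Real.rpow_le_rpow hApos.le _ (by linarith)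
        calc A ≤ _ := hAle
          _ = _ := by ring
      have h2 : (supNorm (vN h N ρ) ρ) ^ β ≤ (2 * C1 / Real.sqrt N * ρ ^ N) ^ β := by
        apply Real.rpow_le_rpow hB0 _ hβ0.le
        calc _ ≤ _ := hBle
          _ = _ := by ring
      have h3 : (2 * C1 / Real.sqrt N * ρ ^ N) ^ β = (2 * C1 / Real.sqrt N) ^ β * r ^ N := by
        rw [Real.mul_rpow (by positivity) (by positivity)]
        congr 1
        rw [← Real.rpow_natCast, ← Real.rpow_mul hρ0.le, mul_comm, Real.rpow_mul hρ0.le, hρβ, Real.rpow_natCast]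
      calc A ^ (1 - β) * (supNorm (vN h N ρ) ρ) ^ β
          ≤ (2 * C1 / Real.sqrt N) ^ (1 - β) * ((2 * C1 / Real.sqrt N) ^ β * r ^ N) := by
            rw [← h3]; gcongr
        _ = (2 * C1 / Real.sqrt N) ^ ((1 - β) + β) * r ^ N := by
            rw [Real.rpow_add (by positivity)]; ring
        _ = _ := by
            rw [sub_add_cancel, Real.rpow_one]; ring
    have hlt : (|K| + 1) * (2 * C1 * r ^ N / Real.sqrt N) < r ^ N * c := by
      have h4 : (|K| + 1) * (2 * C1) < Real.sqrt N * c := by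
        rwa [div_lt_iff₀ hc0] at hsqrt
      have h5 : (|K| + 1) * (2 * C1 * r ^ N / Real.sqrt N) = ((|K| + 1) * (2 * C1)) * r ^ N / Real.sqrt N := by ring
      rw [h5, div_lt_iff₀ hsN]
      have hrN : 0 < r ^ N := by positivity
      nlinarith
    have hfin : |K| * (A ^ (1 - β) * (supNorm (vN h N ρ) ρ) ^ β) < supNorm (vN h N ρ) r := by
      have h6 : 0 ≤ A ^ (1 - β) * (supNorm (vN h N ρ) ρ) ^ β := by positivity
      nlinarith
    have hKK : K * (A⁻¹ ^ β * supNorm (vN h N ρ) ρ ^ β) ≤ A⁻¹ * (|K| * (A ^ (1 - β) * (supNorm (vN h N ρ) ρ) ^ β)) := by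
      have h7 : A⁻¹ * A ^ (1 - β) = A⁻¹ ^ β := by
        rw [Real.inv_rpow hApos.le, Real.rpow_sub hApos, Real.rpow_one]
        field_simp
      calc K * (A⁻¹ ^ β * supNorm (vN h N ρ) ρ ^ β) ≤ |K| * (A⁻¹ ^ β * supNorm (vN h N ρ) ρ ^ β) :=
            mul_le_mul_of_nonneg_right (le_abs_self K) (by positivity)
        _ = _ := by rw [← h7]; ring
    calc _ ≤ _ := hKK
      _ < _ := mul_lt_mul_of_pos_left hfin (inv_pos.mpr hApos)

end

end Pool.Agent.R250.ThreeBalls
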