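import Mathlib
import Pool.Agent.R250.ThreeBallsC

open Metric Set InnerProductSpace
open scoped ComplexConjugate Real

namespace Pool.Agent.R250.ThreeBalls

noncomputable section

/-! ### transfer to the complex plane -/

abbrev eC : ℂ ≃ₗᵢ[ℝ] EE 2 := Complex.orthonormalBasisOneI.repr

theorem harmonic_transfer (u : EE 2 → ℂ) (z : ℂ) (hu : HarmonicAt u (eC z)) :
    HarmonicAt (fun w => u (eC w)) z := by
  have hcont : ContDiffAt ℝ 2 (fun w => u (eC w)) z := by
    exact ContDiffAt.comp z hu.1 eC.toContinuousLinearEquiv.contDiff.contDiffAt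
  refine ⟨hcont, ?_⟩
  have hev : ∀ᶠ w in nhds z, HarmonicAt u (eC w) :=
    (eC.continuous.continuousAt (x := z)).eventually hu.eventually
  filter_upwards [hev] with w hw
  have hlap := hw.2.eq_of_nhds
  set b := Complex.orthonormalBasisOneI with hb
  rw [laplacian_eq_iteratedFDeriv_orthonormalBasis _ b]
  rw [laplacian_eq_iteratedFDeriv_orthonormalBasis _ (b.map eC)] at hlap
  simp only [Pi.zero_apply] at hlap ⊢
  refine Eq.trans ?_ hlap
  refine Finset.sum_congr rfl (fun i _ => ?_)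
  have hcomp : iteratedFDeriv ℝ 2 (fun w => u (eC w)) w =
      (iteratedFDeriv ℝ 2 u (eC w)).compContinuousLinearMap fun _ => (eC.toContinuousLinearEquiv : ℂ →L[ℝ] EE 2) := by
    rw [← iteratedFDerivWithin_univ, ← iteratedFDerivWithin_univ]
    have := ContinuousLinearEquiv.iteratedFDerivWithin_comp_right eC.toContinuousLinearEquiv u
      (s := (univ : Set (EE 2))) uniqueDiffOn_univ (x := w) (mem_univ _) 2
    simpa [Function.comp_def] using this
  rw [hcomp]
  rw [ContinuousMultilinearMap.compContinuousLinearMap_apply]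
  congr 1
  funext j
  fin_cases j <;> simp [OrthonormalBasis.map_apply]

/-! ### coefficients -/

theorem norm_circleAverage_le {f : ℂ → ℂ} {s M : ℝ} (hM : ∀ z, ‖z‖ = |s| → ‖f z‖ ≤ M) :
    ‖Real.circleAverage f 0 s‖ ≤ M := by
  rw [Real.circleAverage, norm_smul, Real.norm_eq_abs, abs_of_pos (inv_pos.2 Real.two_pi_pos)]
  have h1 : ‖∫ θ in (0:ℝ)..(2 * π), f (circleMap 0 s θ)‖ ≤ M * |2 * π - 0| := by
    apply intervalIntegral.norm_integral_le_of_norm_le_const
    intro θ _
    exact hM _ (by simp)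
  rw [sub_zero, abs_of_pos Real.two_pi_pos] at h1
  rw [inv_mul_le_iff₀ Real.two_pi_pos]
  linarith

theorem coeff_avg {g : ℂ → ℂ} (hg : DifferentiableOn ℂ g (ball 0 1)) {s : ℝ} (hs0 : 0 < s) (hs1 : s < 1)
    (k : ℕ) : Real.circleAverage (fun z => (z ^ k)⁻¹ * g z) 0 s = (1 / (k.factorial : ℂ)) * iteratedDeriv k g 0 := by
  rw [Real.circleAverage_eq_circleIntegral hs0.ne']
  have h1 := DifferentiableOn.circleIntegral_one_div_sub_center_pow_smul (c := (0:ℂ)) (f := g) hs0 k
    (hg.mono (closedBall_subset_ball hs1))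
  have h2 : (∮ z in C(0, s), (z - 0)⁻¹ • ((z ^ k)⁻¹ * g z)) = ∮ z in C(0, s), (1 / (z - 0) ^ (k + 1)) • g z := by
    apply circleIntegral.integral_congr hs0.le
    intro z _
    simp only [sub_zero, smul_eq_mul, one_div]
    rw [pow_succ, mul_inv]; ring
  rw [h2, h1, smul_eq_mul, smul_eq_mul]
  have : (2 * (π:ℂ) * Complex.I) ≠ 0 := by
    simp [Real.pi_ne_zero]
  field_simp

theorem coeff_conj {f : ℂ → ℂ} (hf : DifferentiableOn ℂ f (ball 0 1)) {s : ℝ} (hs0 : 0 < s) (hs1 : s < 1)
    {k : ℕ} (hk : k ≠ 0) : Real.circleAverage (fun z => (z ^ k)⁻¹ * conj (f z)) 0 s = 0 := by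
  have hd : DifferentiableOn ℂ (fun z => z ^ k * f z) (closedBall 0 s) := by
    apply DifferentiableOn.mul (by fun_prop) (hf.mono (closedBall_subset_ball hs1))
  have h1 : Real.circleAverage (fun z => z ^ k * f z) 0 s = 0 := by
    have hdc : DiffContOnCl ℂ (fun z => z ^ k * f z) (ball 0 |s|) := by
      rw [abs_of_pos hs0]
      exact (hd.mono closure_ball_subset_closedBall).diffContOnCl
    rw [DiffContOnCl.circleAverage hdc]
    simp [hk]
  have hint : CircleIntegrable (fun z => z ^ k * f z) 0 s := by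
    apply ContinuousOn.circleIntegrable hs0.le
    exact hd.continuousOn.mono sphere_subset_closedBall
  have h2 : Real.circleAverage (fun z => (z ^ k)⁻¹ * conj (f z)) 0 s =
      Real.circleAverage (fun z => ((s ^ (2 * k))⁻¹ : ℝ) • conj (z ^ k * f z)) 0 s := by
    apply Real.circleAverage_congr_sphere
    intro z hz
    simp only [mem_sphere_iff_norm, sub_zero, abs_of_pos hs0] at hz
    have hz0 : z ≠ 0 := by
      intro h0; rw [h0, norm_zero] at hz; linarith
    have h3 : z * conj z = ((s ^ 2 : ℝ) : ℂ) := by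
      rw [Complex.mul_conj, Complex.normSq_eq_norm_sq, hz]
    have h4 : conj z ^ k * z ^ k = ((s ^ (2 * k) : ℝ) : ℂ) := by
      rw [← mul_pow, mul_comm (conj z), h3]; push_cast; rw [← pow_mul]
    simp only [map_mul, map_pow, Complex.real_smul]
    have h5 : ((s ^ (2 * k) : ℝ) : ℂ) ≠ 0 := by
      exact_mod_cast (by positivity : s ^ (2 * k) ≠ 0)
    rw [Complex.ofReal_inv, ← h4]
    have h6 : conj z ≠ 0 := by simpa using hz0
    field_simp
  rw [h2, Real.circleAverage_fun_smul]
  have h3 := ContinuousLinearMap.circleAverage_comp_comm (Complex.conjCLE : ℂ →L[ℝ] ℂ) hint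
  have h4 : ((Complex.conjCLE : ℂ →L[ℝ] ℂ) ∘ fun z => z ^ k * f z) = fun z => conj (z ^ k * f z) := by
    funext z; simp
  rw [h4, h1] at h3
  rw [h3]; simp

theorem coeff_le {g f : ℂ → ℂ} (hg : DifferentiableOn ℂ g (ball 0 1)) (hf : DifferentiableOn ℂ f (ball 0 1))
    {s : ℝ} (hs0 : 0 < s) (hs1 : s < 1) {k : ℕ} (hk : k ≠ 0) {M : ℝ}
    (hM : ∀ z, ‖z‖ = s → ‖g z + conj (f z)‖ ≤ M) :
    ‖(1 / (k.factorial : ℂ)) * iteratedDeriv k g 0‖ * s ^ k ≤ M := by
  have hcg : ContinuousOn g (sphere 0 s) := hg.continuousOn.mono (fun z hz => by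
    simp only [mem_sphere_iff_norm, sub_zero] at hz; simp [hz, hs1])
  have hcf : ContinuousOn f (sphere 0 s) := hf.continuousOn.mono (fun z hz => by
    simp only [mem_sphere_iff_norm, sub_zero] at hz; simp [hz, hs1])
  have hinv : ContinuousOn (fun z : ℂ => (z ^ k)⁻¹) (sphere 0 s) := by
    apply ContinuousOn.inv₀ (by fun_prop)
    intro z hz
    simp only [mem_sphere_iff_norm, sub_zero] at hz
    have hz0 : z ≠ 0 := by
      intro h0; rw [h0, norm_zero] at hz; linarith
    positivity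
  have h1 : Real.circleAverage (fun z => (z ^ k)⁻¹ * (g z + conj (f z))) 0 s =
      (1 / (k.factorial : ℂ)) * iteratedDeriv k g 0 := by
    have h2 : (fun z => (z ^ k)⁻¹ * (g z + conj (f z))) =
        (fun z => (z ^ k)⁻¹ * g z) + (fun z => (z ^ k)⁻¹ * conj (f z)) := by
      funext z; simp only [Pi.add_apply]; ring
    rw [h2, Real.circleAverage_add, coeff_avg hg hs0 hs1, coeff_conj hf hs0 hs1 hk, add_zero]
    · apply ContinuousOn.circleIntegrable hs0.le
      exact hinv.mul hcg
    · apply ContinuousOn.circleIntegrable hs0.le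
      exact hinv.mul (Complex.continuous_conj.comp_continuousOn hcf)
  rw [← h1]
  have h3 : ‖Real.circleAverage (fun z => (z ^ k)⁻¹ * (g z + conj (f z))) 0 s‖ ≤ (s ^ k)⁻¹ * M := by
    apply norm_circleAverage_le
    intro z hz
    rw [abs_of_pos hs0] at hz
    rw [norm_mul, norm_inv, norm_pow, hz]
    exact mul_le_mul_of_nonneg_left (hM z hz) (by positivity)
  calc _ ≤ (s ^ k)⁻¹ * M * s ^ k := mul_le_mul_of_nonneg_right h3 (by positivity)
    _ = M := by field_simp

end

end Pool.Agent.R250.ThreeBalls
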