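import Mathlib
import Pool.Agent.R250.ThreeBallsD

open Metric Set InnerProductSpace
open scoped ComplexConjugate Real

namespace Pool.Agent.R250.ThreeBalls

noncomputable section

def S0 (ρ r : ℝ) : ℝ := 1 / (r - ρ) + 1 / (1 - r)

/-- `Σ min(1, ε ρ^{-k}) r^k ≤ S ε^β`. -/
theorem sum_min_le {ρ r ε : ℝ} (hρ0 : 0 < ρ) (hρr : ρ < r) (hr1 : r < 1) (hε0 : 0 < ε) (hε1 : ε ≤ 1)
    (a : ℕ → ℝ) (ha0 : ∀ k, 0 ≤ a k) (ha1 : ∀ k, a k ≤ 1) (haρ : ∀ k, a k * ρ ^ k ≤ ε) :
    Summable (fun k => a k * r ^ k) ∧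
    ∑' k, a k * r ^ k ≤ S0 ρ r * ε ^ (Real.log r / Real.log ρ) := by
  have hr0 : 0 < r := hρ0.trans hρr
  have hlr : Real.log r < 0 := Real.log_neg hr0 hr1
  have hlρ : Real.log ρ < 0 := Real.log_neg hρ0 (hρr.trans hr1)
  set β : ℝ := Real.log r / Real.log ρ with hβ
  have hβ0 : 0 < β := div_pos_of_neg_of_neg hlr hlρ
  have hρβ : ρ ^ β = r := by
    rw [Real.rpow_def_of_pos hρ0, hβ, mul_div_cancel₀ _ hlρ.ne, Real.exp_log hr0]
  have hgeo : Summable (fun k : ℕ => r ^ k) := summable_geometric_of_lt_one hr0.le hr1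
  have hsum : Summable (fun k => a k * r ^ k) := by
    apply Summable.of_nonneg_of_le (fun k => mul_nonneg (ha0 k) (by positivity)) (fun k => ?_) hgeo
    calc a k * r ^ k ≤ 1 * r ^ k := mul_le_mul_of_nonneg_right (ha1 k) (by positivity)
      _ = _ := one_mul _
  refine ⟨hsum, ?_⟩
  obtain ⟨m, hm1, hm2⟩ := exists_nat_pow_near_of_lt_one hε0 hε1 hρ0 (hρr.trans hr1)
  -- hm1 : ρ^(m+1) < ε, hm2 : ε ≤ ρ^m
  have hrm : r ^ (m + 1) ≤ ε ^ β := by
    have h1 : r ^ (m + 1) = (ρ ^ (m + 1)) ^ β := by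
      rw [← Real.rpow_natCast (ρ) (m+1), ← Real.rpow_mul hρ0.le, mul_comm, Real.rpow_mul hρ0.le, hρβ, Real.rpow_natCast]
    rw [h1]
    exact Real.rpow_le_rpow (by positivity) hm1.le hβ0.le
  rw [← hsum.sum_add_tsum_nat_add (m + 1)]
  have htail : ∑' k, a (k + (m + 1)) * r ^ (k + (m + 1)) ≤ r ^ (m + 1) * (1 / (1 - r)) := by
    have h2 : ∑' k, a (k + (m + 1)) * r ^ (k + (m + 1)) ≤ ∑' k : ℕ, r ^ (m + 1) * r ^ k := by
      apply Summable.tsum_le_tsum
      · intro k
        calc a (k + (m + 1)) * r ^ (k + (m + 1)) ≤ 1 * r ^ (k + (m + 1)) := mul_le_mul_of_nonneg_right (ha1 _) (by positivity)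
          _ = _ := by rw [one_mul, pow_add, mul_comm]
      · exact (summable_nat_add_iff (f := fun k => a k * r ^ k) (m + 1)).mpr hsum
      · exact hgeo.mul_left _
    rw [tsum_mul_left, tsum_geometric_of_lt_one hr0.le hr1] at h2
    rw [one_div]; exact h2
  have hhead : ∑ k ∈ Finset.range (m + 1), a k * r ^ k ≤ r ^ (m + 1) * (1 / (r - ρ)) := by
    have hq : 1 < r / ρ := (one_lt_div hρ0).mpr hρr
    have h3 : ∑ k ∈ Finset.range (m + 1), a k * r ^ k ≤ ∑ k ∈ Finset.range (m + 1), ε * (r / ρ) ^ k := by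
      apply Finset.sum_le_sum
      intro k _
      have := haρ k
      have hρk : 0 < ρ ^ k := by positivity
      have h4 : a k ≤ ε / ρ ^ k := by rw [le_div_iff₀ hρk]; exact this
      calc a k * r ^ k ≤ ε / ρ ^ k * r ^ k := mul_le_mul_of_nonneg_right h4 (by positivity)
        _ = _ := by rw [div_pow]; ring
    refine h3.trans ?_
    rw [← Finset.mul_sum, geom_sum_eq hq.ne']
    have h5 : ε * (((r / ρ) ^ (m + 1) - 1) / (r / ρ - 1)) ≤ ε * ((r / ρ) ^ (m + 1) / (r / ρ - 1)) := by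
      apply mul_le_mul_of_nonneg_left _ hε0.le
      apply div_le_div_of_nonneg_right _ (by linarith)
      linarith
    refine h5.trans ?_
    have h6 : r / ρ - 1 = (r - ρ) / ρ := by field_simp
    rw [h6]
    have hrρ : 0 < r - ρ := by linarith
    have h7 : ε * ((r / ρ) ^ (m + 1) / ((r - ρ) / ρ)) = (ε / ρ ^ m) * (r ^ (m + 1) * (1 / (r - ρ))) := by
      rw [div_pow]; field_simp; ring
    rw [h7]
    have h8 : ε / ρ ^ m ≤ 1 := (div_le_one (by positivity)).mpr hm2
    calc (ε / ρ ^ m) * (r ^ (m + 1) * (1 / (r - ρ))) ≤ 1 * (r ^ (m + 1) * (1 / (r - ρ))) :=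
          mul_le_mul_of_nonneg_right h8 (by positivity)
      _ = _ := one_mul _
  have hS : 0 ≤ S0 ρ r := by
    unfold S0
    have : 0 < r - ρ := by linarith
    have : 0 < 1 - r := by linarith
    positivity
  calc _ ≤ r ^ (m + 1) * (1 / (r - ρ)) + r ^ (m + 1) * (1 / (1 - r)) := add_le_add hhead htail
    _ = S0 ρ r * r ^ (m + 1) := by unfold S0; ring
    _ ≤ _ := mul_le_mul_of_nonneg_left hrm hS

theorem le_of_pow_limit {c M s0 : ℝ} (hs0 : 0 < s0) (k : ℕ) (h : ∀ s, 0 < s → s < s0 → c * s ^ k ≤ M) :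
    c * s0 ^ k ≤ M := by
  have hcont : Filter.Tendsto (fun s : ℝ => c * s ^ k) (nhdsWithin s0 (Set.Iio s0)) (nhds (c * s0 ^ k)) := by
    apply tendsto_nhdsWithin_of_tendsto_nhds
    exact Continuous.tendsto (by fun_prop) s0
  exact le_of_tendsto hcont (by
    filter_upwards [Ioo_mem_nhdsLT hs0] with s hs using h s hs.1 hs.2)

/-- holomorphic plus antiholomorphic: the basic estimate. -/
theorem planar_bound {g f : ℂ → ℂ} (hg : DifferentiableOn ℂ g (ball 0 1)) (hf : DifferentiableOn ℂ f (ball 0 1))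
    {ρ r ε : ℝ} (hρ0 : 0 < ρ) (hρr : ρ < r) (hr1 : r < 1) (hε0 : 0 < ε) (hε1 : ε ≤ 1)
    (h1 : ∀ z, ‖z‖ < 1 → ‖g z + conj (f z)‖ ≤ 1) (h2 : ∀ z, ‖z‖ < ρ → ‖g z + conj (f z)‖ ≤ ε)
    (w : ℂ) (hw : ‖w‖ < r) :
    ‖g w + conj (f w)‖ ≤ (1 + 2 * S0 ρ r) * ε ^ (Real.log r / Real.log ρ) := by
  have hρ1 : ρ < 1 := hρr.trans hr1
  have hr0 : 0 < r := hρ0.trans hρr
  have h1' : ∀ z, ‖z‖ < 1 → ‖f z + conj (g z)‖ ≤ 1 := by
    intro z hz
    have := h1 z hz
    rw [← Complex.norm_conj, map_add, Complex.conj_conj, add_comm] at this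
    exact this
  have h2' : ∀ z, ‖z‖ < ρ → ‖f z + conj (g z)‖ ≤ ε := by
    intro z hz
    have := h2 z hz
    rw [← Complex.norm_conj, map_add, Complex.conj_conj, add_comm] at this
    exact this
  have key : ∀ {g f : ℂ → ℂ}, DifferentiableOn ℂ g (ball 0 1) → DifferentiableOn ℂ f (ball 0 1) →
      (∀ z, ‖z‖ < 1 → ‖g z + conj (f z)‖ ≤ 1) → (∀ z, ‖z‖ < ρ → ‖g z + conj (f z)‖ ≤ ε) →
      ‖g w - g 0‖ ≤ S0 ρ r * ε ^ (Real.log r / Real.log ρ) := by
    intro g f hg hf h1 h2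
    set c : ℕ → ℂ := fun k => if k = 0 then 0 else (1 / (k.factorial : ℂ)) * iteratedDeriv k g 0 with hc
    have hc1 : ∀ k, ‖c k‖ ≤ 1 := by
      intro k
      by_cases hk : k = 0
      · simp [hc, hk]
      · have := le_of_pow_limit (c := ‖c k‖) (M := 1) one_pos k (by
          intro s hs0 hs1
          simp only [hc, if_neg hk]
          exact coeff_le hg hf hs0 hs1 hk (fun z hz => h1 z (by rw [hz]; exact hs1)))
        simpa using this
    have hcρ : ∀ k, ‖c k‖ * ρ ^ k ≤ ε := by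
      intro k
      by_cases hk : k = 0
      · simp [hc, hk, hε0.le]
      · exact le_of_pow_limit (c := ‖c k‖) (M := ε) hρ0 k (by
          intro s hs0 hs1
          simp only [hc, if_neg hk]
          exact coeff_le hg hf hs0 (hs1.trans hρ1) hk (fun z hz => h2 z (by rw [hz]; exact hs1)))
    obtain ⟨hsum, hle⟩ := sum_min_le hρ0 hρr hr1 hε0 hε1 (fun k => ‖c k‖) (fun k => norm_nonneg _) hc1 hcρ
    have hw1 : w ∈ ball (0:ℂ) 1 := by simpa using hw.trans hr1
    have hT := Complex.hasSum_taylorSeries_on_ball (c := 0) (r := 1) (by simpa using hg) (by simpa using hw1)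
    have hT2 : HasSum (fun k => c k * w ^ k) (g w - g 0) := by
      have h3 : HasSum (fun k : ℕ => if k = 0 then g 0 else 0) (g 0) := by
        have := hasSum_ite_eq (0:ℕ) (g 0)
        simpa using this
      have h4 := hT.sub h3
      have h5 : (fun k : ℕ => ((k.factorial : ℂ))⁻¹ • (w - 0) ^ k • iteratedDeriv k g 0 - (if k = 0 then g 0 else 0))
          = fun k => c k * w ^ k := by
        funext k
        by_cases hk : k = 0
        · simp [hc, hk]
        · simp only [hc, if_neg hk, sub_zero, smul_eq_mul, one_div]; ring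
      rw [h5] at h4
      exact h4
    rw [← hT2.tsum_eq]
    have hn : ∀ k, ‖c k * w ^ k‖ ≤ ‖c k‖ * r ^ k := by
      intro k
      rw [norm_mul, norm_pow]
      exact mul_le_mul_of_nonneg_left (pow_le_pow_left₀ (norm_nonneg _) hw.le k) (norm_nonneg _)
    refine (tsum_of_norm_bounded hsum.hasSum hn).trans hle
  have hA := key hg hf h1 h2
  have hB := key hf hg h1' h2'
  have h0 : ‖g 0 + conj (f 0)‖ ≤ ε := h2 0 (by simpa using hρ0)
  have hβ1 : ε ≤ ε ^ (Real.log r / Real.log ρ) := by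
    have hlr : Real.log r < 0 := Real.log_neg hr0 hr1
    have hlρ : Real.log ρ < 0 := Real.log_neg hρ0 hρ1
    have hβ1 : Real.log r / Real.log ρ ≤ 1 := by
      rw [div_le_one_of_neg hlρ]
      exact Real.log_le_log hρ0 hρr.le
    calc ε = ε ^ (1:ℝ) := (Real.rpow_one ε).symm
      _ ≤ _ := Real.rpow_le_rpow_of_exponent_ge hε0 hε1 hβ1
  have hdec : g w + conj (f w) = (g 0 + conj (f 0)) + (g w - g 0) + conj (f w - f 0) := by
    rw [map_sub]; ring
  rw [hdec]
  refine (norm_add_le _ _).trans ?_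
  refine (add_le_add (norm_add_le _ _) le_rfl).trans ?_
  rw [Complex.norm_conj]
  linarith

/-- a complex-valued harmonic function on the unit disc is `g + conj f`. -/
theorem harmonic_decomp (U : ℂ → ℂ) (hU : HarmonicOnNhd U (ball 0 1)) :
    ∃ g f : ℂ → ℂ, DifferentiableOn ℂ g (ball 0 1) ∧ DifferentiableOn ℂ f (ball 0 1) ∧
      ∀ z ∈ ball (0:ℂ) 1, U z = g z + conj (f z) := by
  have h1 : HarmonicOnNhd (Complex.reCLM ∘ U) (ball 0 1) := hU.comp_CLM Complex.reCLM
  have h2 : HarmonicOnNhd (Complex.imCLM ∘ U) (ball 0 1) := hU.comp_CLM Complex.imCLM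
  obtain ⟨F1, hF1, hF1e⟩ := InnerProductSpace.HarmonicOnNhd.exists_analyticOnNhd_ball_re_eq h1
  obtain ⟨F2, hF2, hF2e⟩ := InnerProductSpace.HarmonicOnNhd.exists_analyticOnNhd_ball_re_eq h2
  refine ⟨fun z => ((1 / 2 : ℝ) : ℂ) * (F1 z + Complex.I * F2 z),
    fun z => ((1 / 2 : ℝ) : ℂ) * (F1 z - Complex.I * F2 z), ?_, ?_, ?_⟩
  · exact (hF1.differentiableOn.add (hF2.differentiableOn.const_mul _)).const_mul _
  · exact (hF1.differentiableOn.sub (hF2.differentiableOn.const_mul _)).const_mul _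
  · intro z hz
    have e1 : (F1 z).re = (U z).re := hF1e hz
    have e2 : (F2 z).re = (U z).im := hF2e hz
    apply Complex.ext
    · simp only [map_mul, map_sub, Complex.conj_ofReal, Complex.conj_I, Complex.add_re, Complex.mul_re,
        Complex.ofReal_re, Complex.ofReal_im, Complex.I_re, Complex.I_im, Complex.sub_re, Complex.sub_im,
        Complex.conj_re, Complex.conj_im, Complex.neg_re, Complex.neg_im, Complex.mul_im, Complex.add_im, ← e1]
      ring
    · simp only [map_mul, map_sub, Complex.conj_ofReal, Complex.conj_I, Complex.add_re, Complex.mul_re,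
        Complex.ofReal_re, Complex.ofReal_im, Complex.I_re, Complex.I_im, Complex.sub_re, Complex.sub_im,
        Complex.conj_re, Complex.conj_im, Complex.neg_re, Complex.neg_im, Complex.mul_im, Complex.add_im, ← e2]
      ring

/-- finite constant in the plane -/
theorem planar_const {ρ r : ℝ} (hρ0 : 0 < ρ) (hρr : ρ < r) (hr1 : r < 1) (u : EE 2 → ℂ) (hu : IsH u) :
    supNorm u r ≤ (1 + 2 * S0 ρ r) * (supNorm u ρ) ^ (Real.log r / Real.log ρ) := by
  have hρ1 : ρ < 1 := hρr.trans hr1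
  have hr0 : 0 < r := hρ0.trans hρr
  have hlr : Real.log r < 0 := Real.log_neg hr0 hr1
  have hlρ : Real.log ρ < 0 := Real.log_neg hρ0 hρ1
  have hβ0 : 0 < Real.log r / Real.log ρ := div_pos_of_neg_of_neg hlr hlρ
  have hbρ : BddAbove ((fun x => ‖u x‖) '' ball (0 : EE 2) ρ) :=
    hu.bdd.mono (image_mono (ball_subset_ball hρ1.le))
  have hU : HarmonicOnNhd (fun z => u (eC z)) (ball 0 1) := by
    intro z hz
    apply harmonic_transfer
    apply hu.harm
    simpa using hz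
  obtain ⟨g, f, hg, hf, hgf⟩ := harmonic_decomp _ hU
  have h1 : ∀ z, ‖z‖ < 1 → ‖g z + conj (f z)‖ ≤ 1 := by
    intro z hz
    rw [← hgf z (by simpa using hz), ← hu.norm_one]
    exact le_supNorm hu.bdd (by simpa using hz)
  have h2 : ∀ z, ‖z‖ < ρ → ‖g z + conj (f z)‖ ≤ supNorm u ρ := by
    intro z hz
    rw [← hgf z (by simpa using hz.trans hρ1)]
    exact le_supNorm hbρ (by simpa using hz)
  have hle1 : supNorm u ρ ≤ 1 := by
    apply supNorm_le hρ0
    intro x hx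
    rw [← hu.norm_one]
    exact le_supNorm hu.bdd (hx.trans hρ1)
  have hmain : ∀ ε, 0 < ε → ε ≤ 1 → supNorm u ρ ≤ ε →
      supNorm u r ≤ (1 + 2 * S0 ρ r) * ε ^ (Real.log r / Real.log ρ) := by
    intro ε hε0 hε1 hε
    apply supNorm_le hr0
    intro x hx
    obtain ⟨z, rfl⟩ := eC.surjective x
    have hz : ‖z‖ < r := by simpa using hx
    have := planar_bound hg hf hρ0 hρr hr1 hε0 hε1 h1 (fun z hz => (h2 z hz).trans hε) z hz
    rw [← hgf z (by simpa using hz.trans hr1)] at this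
    exact this
  rcases (supNorm_nonneg u ρ).eq_or_lt with h0 | h0
  · rw [← h0]
    have hcont : Filter.Tendsto (fun ε : ℝ => (1 + 2 * S0 ρ r) * ε ^ (Real.log r / Real.log ρ))
        (nhdsWithin 0 (Set.Ioi 0)) (nhds ((1 + 2 * S0 ρ r) * (0:ℝ) ^ (Real.log r / Real.log ρ))) := by
      apply tendsto_nhdsWithin_of_tendsto_nhds
      apply Filter.Tendsto.const_mul
      exact (Real.continuousAt_rpow_const 0 _ (Or.inr hβ0.le)).tendsto
    exact ge_of_tendsto hcont (by
      filter_upwards [Ioo_mem_nhdsGT one_pos] with ε hε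
      exact hmain ε hε.1 hε.2.le (by rw [← h0]; exact hε.1.le))
  · exact hmain _ h0 hle1 le_rfl

end

end Pool.Agent.R250.ThreeBalls
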