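import Mathlib

/-! The operator on `l2` of the rooted binary tree (vertices are words) and its quadratic form. -/

open scoped ENNReal ComplexConjugate

noncomputable section

namespace Pool.Agent.R250.TR


abbrev H : Type := lp (fun _ : List Bool => ℂ) 2

lemma memlp_comp (k : Bool) (φ : H) : Memℓp (fun x : List Bool => φ (k :: x)) 2 := by
  have h := lp.memℓp φ
  rw [memℓp_gen_iff (by norm_num)] at h ⊢
  exact h.comp_injective (List.cons_injective)

lemma norm_sq_eq (φ : H) : ‖φ‖ ^ 2 = ∑' x, ‖φ x‖ ^ 2 := by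
  have := lp.norm_rpow_eq_tsum (p := 2) (by norm_num) φ
  simpa using this

lemma summable_sq (φ : H) : Summable fun x => ‖φ x‖ ^ 2 := by
  have h := lp.memℓp φ
  rw [memℓp_gen_iff (by norm_num)] at h
  simpa using h

/-- `φ ↦ φ (k :: ·)` as a function -/
def Cfun (k : Bool) (φ : H) : H := ⟨fun x => φ (k :: x), memlp_comp k φ⟩

@[simp] lemma Cfun_apply (k : Bool) (φ : H) (x : List Bool) : Cfun k φ x = φ (k :: x) := rfl

/-- words as a disjoint sum -/
def wordEquiv : Unit ⊕ (List Bool ⊕ List Bool) ≃ List Bool where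
  toFun z := match z with
    | Sum.inl _ => []
    | Sum.inr (Sum.inl x) => true :: x
    | Sum.inr (Sum.inr x) => false :: x
  invFun l := match l with
    | [] => Sum.inl ()
    | true :: x => Sum.inr (Sum.inl x)
    | false :: x => Sum.inr (Sum.inr x)
  left_inv := by
    intro z
    match z with
    | Sum.inl _ => rfl
    | Sum.inr (Sum.inl x) => rfl
    | Sum.inr (Sum.inr x) => rfl
  right_inv := by
    intro l
    match l with
    | [] => rfl
    | true :: x => rfl
    | false :: x => rfl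

/-- splitting of a sum over words -/
lemma tsum_split (f : List Bool → ℝ) (hf : Summable f) :
    ∑' x, f x = f [] + (∑' x, f (true :: x)) + ∑' x, f (false :: x) := by
  have hs : Summable (fun z => f (wordEquiv z)) := hf.comp_injective wordEquiv.injective
  have h1 : Summable (fun z : Unit => f (wordEquiv (Sum.inl z))) :=
    hs.comp_injective Sum.inl_injective
  have h2 : Summable (fun z : List Bool ⊕ List Bool => f (wordEquiv (Sum.inr z))) :=
    hs.comp_injective Sum.inr_injective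
  have h3 : Summable (fun z : List Bool => f (wordEquiv (Sum.inr (Sum.inl z)))) :=
    h2.comp_injective Sum.inl_injective
  have h4 : Summable (fun z : List Bool => f (wordEquiv (Sum.inr (Sum.inr z)))) :=
    h2.comp_injective Sum.inr_injective
  have e0 : ∑' x, f x = ∑' z, f (wordEquiv z) := (wordEquiv.tsum_eq f).symm
  have e1 : ∑' z, f (wordEquiv z) = ∑' z : Unit, f (wordEquiv (Sum.inl z)) +
      ∑' z : List Bool ⊕ List Bool, f (wordEquiv (Sum.inr z)) := Summable.tsum_sum h1 h2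
  have e2 : ∑' z, f (wordEquiv (Sum.inr z)) = ∑' z : List Bool, f (wordEquiv (Sum.inr (Sum.inl z))) +
      ∑' z : List Bool, f (wordEquiv (Sum.inr (Sum.inr z))) :=
    Summable.tsum_sum (f := fun z => f (wordEquiv (Sum.inr z))) h3 h4
  have e3 : ∑' z : Unit, f (wordEquiv (Sum.inl z)) = f [] := by
    rw [tsum_fintype, Fintype.sum_unique]
    rfl
  have e4 : ∑' z, f (wordEquiv (Sum.inr (Sum.inl z))) = ∑' x, f (true :: x) := rfl
  have e5 : ∑' z, f (wordEquiv (Sum.inr (Sum.inr z))) = ∑' x, f (false :: x) := rfl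
  linarith

lemma norm_split (φ : H) : ‖φ‖ ^ 2 = ‖φ []‖ ^ 2 + ‖Cfun true φ‖ ^ 2 + ‖Cfun false φ‖ ^ 2 := by
  rw [norm_sq_eq, norm_sq_eq, norm_sq_eq, tsum_split _ (summable_sq φ)]
  rfl

lemma Cfun_norm_le (k : Bool) (φ : H) : ‖Cfun k φ‖ ≤ ‖φ‖ := by
  have h := norm_split φ
  have h0 : 0 ≤ ‖φ []‖ ^ 2 := by positivity
  have h1 : 0 ≤ ‖Cfun true φ‖ ^ 2 := by positivity
  have h2 : 0 ≤ ‖Cfun false φ‖ ^ 2 := by positivity
  have h3 : ‖Cfun k φ‖ ^ 2 ≤ ‖φ‖ ^ 2 := by
    cases k
    · linarith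
    · linarith
  exact (sq_le_sq₀ (norm_nonneg _) (norm_nonneg _)).1 h3

/-- the operators `C k`, `(C k φ) x = φ (k :: x)` -/
def C (k : Bool) : H →L[ℂ] H :=
  LinearMap.mkContinuous
    { toFun := Cfun k
      map_add' := fun φ ψ => by ext x; rfl
      map_smul' := fun c φ => by ext x; rfl } 1
    (fun φ => by simpa using Cfun_norm_le k φ)

@[simp] lemma C_apply (k : Bool) (φ : H) (x : List Bool) : C k φ x = φ (k :: x) := rfl

lemma norm_split' (φ : H) : ‖φ‖ ^ 2 = ‖φ []‖ ^ 2 + ‖C true φ‖ ^ 2 + ‖C false φ‖ ^ 2 :=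
  norm_split φ

/-- the adjoint -/
def S (k : Bool) : H →L[ℂ] H := ContinuousLinearMap.adjoint (C k)

/-- unit vector -/
def δ (x : List Bool) : H := lp.single 2 x (1 : ℂ)

lemma inner_δ (x : List Bool) (φ : H) : inner ℂ (δ x) φ = φ x := by
  unfold δ
  rw [lp.inner_single_left]
  simp

lemma C_δ_nil (k : Bool) : C k (δ []) = 0 := by
  ext x
  simp [δ, lp.single_apply]

lemma C_δ_cons (k c : Bool) (x : List Bool) : C k (δ (c :: x)) = if c = k then δ x else 0 := by
  ext y
  by_cases h : c = k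
  · subst h
    by_cases h2 : y = x
    · subst h2; simp [δ, lp.single_apply]
    · simp [δ, lp.single_apply, h2]
  · simp [δ, lp.single_apply, h, Ne.symm h]

lemma S_nil (k : Bool) (φ : H) : S k φ [] = 0 := by
  rw [← inner_δ, S, ContinuousLinearMap.adjoint_inner_right, C_δ_nil, inner_zero_left]

lemma S_cons (k c : Bool) (φ : H) (x : List Bool) :
    S k φ (c :: x) = if c = k then φ x else 0 := by
  rw [← inner_δ, S, ContinuousLinearMap.adjoint_inner_right, C_δ_cons]
  split_ifs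
  · rw [inner_δ]
  · rw [inner_zero_left]

lemma C_S (k l : Bool) (φ : H) : C k (S l φ) = if k = l then φ else 0 := by
  ext x
  rw [C_apply, S_cons]
  split_ifs <;> rfl

lemma inner_S_left (k : Bool) (φ ψ : H) : inner ℂ (S k φ) ψ = inner ℂ φ (C k ψ) := by
  rw [S, ContinuousLinearMap.adjoint_inner_left]

lemma inner_S_right (k : Bool) (φ ψ : H) : inner ℂ φ (S k ψ) = inner ℂ (C k φ) ψ := by
  rw [S, ContinuousLinearMap.adjoint_inner_right]

/-- the operator, `r` the value of the potential at the root, `s` and `-s` the values at the other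
vertices -/
def Top (r s : ℝ) : H →L[ℂ] H :=
  (r : ℂ) • (1 - ∑ k, (S k) ∘L (C k)) +
    ∑ k : Bool, (((if k then s else -s : ℝ) : ℂ) • ((S k) ∘L (C k)) + C k + S k)

lemma Top_apply (r s : ℝ) (φ : H) : Top r s φ = (r : ℂ) • (φ - (S true (C true φ) + S false (C false φ))) +
    (((s : ℂ) • S true (C true φ) + C true φ + S true φ) +
    ((-s : ℂ) • S false (C false φ) + C false φ + S false φ)) := by
  simp only [Top, add_apply, smul_apply, Fintype.sum_bool,
    sub_apply, one_apply_eq_self, ContinuousLinearMap.comp_apply,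
    if_true, Bool.false_eq_true, if_false, Complex.ofReal_neg]

lemma cadd (f g : H) (x : List Bool) : (f + g : H) x = f x + g x := rfl
lemma csub (f g : H) (x : List Bool) : (f - g : H) x = f x - g x := rfl
lemma csmul (c : ℂ) (f : H) (x : List Bool) : (c • f : H) x = c * f x := rfl

lemma Top_nil (r s : ℝ) (φ : H) : Top r s φ [] = r * φ [] + (φ [true] + φ [false]) := by
  rw [Top_apply]
  simp only [cadd, csub, csmul, S_nil, C_apply]
  ring

lemma Top_cons_true (r s : ℝ) (φ : H) (x : List Bool) : Top r s φ (true :: x) =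
    s * φ (true :: x) + (φ (true :: true :: x) + φ (false :: true :: x) + φ x) := by
  rw [Top_apply]
  simp only [cadd, csub, csmul, S_cons, C_apply, if_true, Bool.true_eq_false, if_false]
  ring

lemma Top_cons_false (r s : ℝ) (φ : H) (x : List Bool) : Top r s φ (false :: x) =
    (-s) * φ (false :: x) + (φ (true :: false :: x) + φ (false :: false :: x) + φ x) := by
  rw [Top_apply]
  simp only [cadd, csub, csmul, S_cons, C_apply, if_true, Bool.false_eq_true, if_false]
  ring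

/-- the quadratic form -/
lemma form (r s : ℝ) (φ : H) : inner ℂ (Top r s φ) φ =
    ((r * ‖φ []‖ ^ 2 + s * ‖C true φ‖ ^ 2 - s * ‖C false φ‖ ^ 2 +
      2 * (inner ℂ (C true φ) φ : ℂ).re + 2 * (inner ℂ (C false φ) φ : ℂ).re : ℝ) : ℂ) := by
  have key : ∀ k : Bool, inner ℂ (S k φ) φ = conj (inner ℂ (C k φ) φ : ℂ) := by
    intro k
    rw [inner_S_left, inner_conj_symm]
  have h1 : ∀ k : Bool, inner ℂ (C k φ) φ + inner ℂ (S k φ) φ
      = ((2 * (inner ℂ (C k φ) φ : ℂ).re : ℝ) : ℂ) := by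
    intro k
    rw [key k, Complex.add_conj]
  have h2 : ∀ k : Bool, inner ℂ (S k (C k φ)) φ = ((‖C k φ‖ ^ 2 : ℝ) : ℂ) := by
    intro k
    rw [inner_S_left, inner_self_eq_norm_sq_to_K]
    norm_cast
  have h3 : (inner ℂ φ φ : ℂ) = ((‖φ []‖ ^ 2 + ‖C true φ‖ ^ 2 + ‖C false φ‖ ^ 2 : ℝ) : ℂ) := by
    rw [← norm_split', inner_self_eq_norm_sq_to_K]
    norm_cast
  rw [Top_apply]
  simp only [inner_add_left, inner_smul_left, inner_sub_left, h2, h3]
  have e1 := h1 true
  have e2 := h1 false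
  simp only [Complex.conj_ofReal, map_neg]
  push_cast at e1 e2 ⊢
  linear_combination e1 + e2

/-- main bound -/
lemma form_le (s q : ℝ) (hs : 0 < s) (hq : s < q) (hq2 : q ^ 2 = 3 * s ^ 2) (hs2 : s ^ 2 = 2) (r : ℝ) (hr : |r| ≤ s) (φ : H) :
    |r * ‖φ []‖ ^ 2 + s * ‖C true φ‖ ^ 2 - s * ‖C false φ‖ ^ 2 +
      2 * (inner ℂ (C true φ) φ : ℂ).re + 2 * (inner ℂ (C false φ) φ : ℂ).re| ≤
      3 / 2 * q * ‖φ‖ ^ 2 := by
  have hc : ∀ k : Bool, |(inner ℂ (C k φ) φ : ℂ).re| ≤ ‖C k φ‖ * ‖φ‖ := by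
    intro k
    exact (Complex.abs_re_le_norm _).trans (norm_inner_le_norm _ _)
  have hn := norm_split' φ
  set A := ‖C true φ‖ with hA
  set B := ‖C false φ‖ with hB
  set P := ‖φ‖ with hP
  set R := ‖φ []‖ with hR
  have a1 := abs_le.1 (hc true)
  have a2 := abs_le.1 (hc false)
  have a3 := abs_le.1 hr
  set u := (inner ℂ (C true φ) φ : ℂ).re
  set v := (inner ℂ (C false φ) φ : ℂ).re
  have hA0 : 0 ≤ A := norm_nonneg _
  have hB0 : 0 ≤ B := norm_nonneg _
  have hP0 : 0 ≤ P := norm_nonneg _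
  have hq0 : 0 < q := hs.trans hq
  have hqs : (q - s) * (q + s) = 4 := by linear_combination hq2 + 2 * hs2
  have hqm : 0 ≤ q - s := by linarith
  have hqp : 0 ≤ q + s := by linarith
  -- `2 X P ≤ (q - s) X ^ 2 + P ^ 2 / (q - s)`, `1 / (q - s) = (q + s) / 4`, and the same with `q + s`
  have w1 : ∀ X : ℝ, 2 * (X * P) ≤ (q - s) * X ^ 2 + (q + s) / 4 * P ^ 2 := by
    intro X
    have h0 : 0 ≤ (q - s) * (X - (q + s) / 4 * P) ^ 2 := mul_nonneg hqm (sq_nonneg _)
    have h1 : (q - s) * (X - (q + s) / 4 * P) ^ 2 =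
        (q - s) * X ^ 2 + (q + s) / 4 * P ^ 2 - 2 * (X * P) := by
      linear_combination (-(1 / 2) * (X * P) + (q + s) / 16 * P ^ 2) * hqs
    linarith
  have w2 : ∀ X : ℝ, 2 * (X * P) ≤ (q + s) * X ^ 2 + (q - s) / 4 * P ^ 2 := by
    intro X
    have h0 : 0 ≤ (q + s) * (X - (q - s) / 4 * P) ^ 2 := mul_nonneg hqp (sq_nonneg _)
    have h1 : (q + s) * (X - (q - s) / 4 * P) ^ 2 =
        (q + s) * X ^ 2 + (q - s) / 4 * P ^ 2 - 2 * (X * P) := by
      linear_combination (-(1 / 2) * (X * P) + (q - s) / 16 * P ^ 2) * hqs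
    linarith
  have y1 := w1 A
  have y2 := w2 B
  have y3 := w2 A
  have y4 := w1 B
  have hR2 : 0 ≤ R ^ 2 := sq_nonneg _
  have r1 : r * R ^ 2 ≤ q * R ^ 2 := mul_le_mul_of_nonneg_right (by linarith [a3.2]) hR2
  have r2 : -(q * R ^ 2) ≤ r * R ^ 2 := by
    rw [← neg_mul]
    exact mul_le_mul_of_nonneg_right (by linarith [a3.1]) hR2
  rw [abs_le]
  have hg : q * (R ^ 2 + A ^ 2 + B ^ 2) = q * P ^ 2 := by rw [hn]
  constructor
  · linarith [a1.1, a2.1]
  · linarith [a1.2, a2.2]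

end Pool.Agent.R250.TR
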