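import Mathlib
import Pool.Agent.R250.TreeOp

/-! The spectrum of the operator of `TreeOp`. -/

open scoped ENNReal ComplexConjugate

noncomputable section

namespace Pool.Agent.R250.TR

/-- upper bound of the spectrum -/
lemma spec_subset (r s q : ℝ) (hs : 0 < s) (hq : s < q) (hq2 : q ^ 2 = 3 * s ^ 2)
    (hs2 : s ^ 2 = 2) (hr : |r| ≤ s) (z : ℂ) (hz : z ∈ spectrum ℂ (Top r s)) :
    ∃ x : ℝ, x ∈ Set.Icc (-(3 / 2 * q)) (3 / 2 * q) ∧ (x : ℂ) = z := by
  by_contra hcon
  push Not at hcon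
  have hq0 : 0 < q := hs.trans hq
  have key : ∃ c : ℝ, 0 < c ∧ ∀ (n F : ℝ), 0 ≤ n → |F| ≤ 3 / 2 * q * n →
      n * c ≤ ‖conj z * n - F‖ := by
    by_cases him : z.im = 0
    · have hzr : (z.re : ℂ) = z := by
        apply Complex.ext <;> simp [him]
      have hx : ¬ z.re ∈ Set.Icc (-(3 / 2 * q)) (3 / 2 * q) := fun h => hcon _ h hzr
      have hx2 : 3 / 2 * q < |z.re| := by
        by_contra h
        push Not at h
        exact hx (abs_le.1 h)
      refine ⟨|z.re| - 3 / 2 * q, by linarith, ?_⟩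
      intro n F hn hF
      have e : conj z * n - F = ((z.re * n - F : ℝ) : ℂ) := by
        rw [← hzr]
        simp
      rw [e, Complex.norm_real, Real.norm_eq_abs]
      have h1 : |z.re * n| - |F| ≤ |z.re * n - F| := abs_sub_abs_le_abs_sub _ _
      rw [abs_mul, abs_of_nonneg hn] at h1
      nlinarith
    · refine ⟨|z.im|, abs_pos.2 him, ?_⟩
      intro n F hn _
      have h1 : |(conj z * n - F).im| ≤ ‖conj z * n - F‖ := Complex.abs_im_le_norm _
      have h2 : (conj z * n - F).im = -(z.im * n) := by simp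
      rw [h2, abs_neg, abs_mul, abs_of_nonneg hn] at h1
      linarith
  obtain ⟨c, hc, hkey⟩ := key
  apply hz
  rw [spectrum.mem_resolventSet_iff, Algebra.algebraMap_eq_smul_one]
  refine ContinuousLinearMap.isUnit_of_forall_le_norm_inner_map _ (c := ⟨c, hc.le⟩) hc ?_
  intro φ
  have h1 : inner ℂ ((z • (1 : H →L[ℂ] H) - Top r s) φ) φ = conj z * ((‖φ‖ ^ 2 : ℝ) : ℂ) -
      ((r * ‖φ []‖ ^ 2 + s * ‖C true φ‖ ^ 2 - s * ‖C false φ‖ ^ 2 +
      2 * (inner ℂ (C true φ) φ : ℂ).re + 2 * (inner ℂ (C false φ) φ : ℂ).re : ℝ) : ℂ) := by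
    rw [← form, sub_apply, inner_sub_left, smul_apply, one_apply_eq_self, inner_smul_left,
      inner_self_eq_norm_sq_to_K]
    norm_cast
  rw [h1]
  exact hkey _ _ (sq_nonneg _) (form_le s q hs hq hq2 hs2 r hr φ)

/-- the transfer operator -/
def K (c d : ℂ) (φ : H) : H := c • S true φ + d • S false φ

/-- generations -/
def v (c d : ℂ) : ℕ → H
  | 0 => δ []
  | n + 1 => K c d (v c d n)

/-- sums of the first generations -/
def ψ (c d : ℂ) : ℕ → H
  | 0 => δ []
  | n + 1 => δ [] + K c d (ψ c d n)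

lemma K_add (c d : ℂ) (φ χ : H) : K c d (φ + χ) = K c d φ + K c d χ := by
  simp only [K, map_add]
  module

lemma ψ_succ (c d : ℂ) (n : ℕ) : ψ c d (n + 1) = ψ c d n + v c d (n + 1) := by
  induction n with
  | zero => rfl
  | succ n ih =>
    have h1 : ψ c d (n + 1 + 1) = δ [] + K c d (ψ c d (n + 1)) := rfl
    have h2 : ψ c d (n + 1) = δ [] + K c d (ψ c d n) := rfl
    have h3 : v c d (n + 1 + 1) = K c d (v c d (n + 1)) := rfl
    rw [h1, ih, K_add, h3, ← add_assoc, ← h2, ih]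

lemma K_nil (c d : ℂ) (φ : H) : K c d φ [] = 0 := by
  rw [K, cadd, csmul, csmul, S_nil, S_nil]
  ring

lemma C_K_true (c d : ℂ) (φ : H) : C true (K c d φ) = c • φ := by
  rw [K, map_add, map_smul, map_smul, C_S, C_S]
  simp [-Complex.coe_smul]

lemma C_K_false (c d : ℂ) (φ : H) : C false (K c d φ) = d • φ := by
  rw [K, map_add, map_smul, map_smul, C_S, C_S]
  simp [-Complex.coe_smul]

lemma norm_S (k : Bool) (φ : H) : ‖S k φ‖ ≤ ‖φ‖ := by
  have h := norm_split' (S k φ)
  rw [S_nil, C_S, C_S] at h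
  have h3 : ‖S k φ‖ ^ 2 ≤ ‖φ‖ ^ 2 := by
    cases k
    · simp at h
      rw [h]
    · simp at h
      rw [h]
  exact (sq_le_sq₀ (norm_nonneg _) (norm_nonneg _)).1 h3

lemma δ_nil_nil : δ [] [] = 1 := by
  simp [δ]

lemma norm_v (c d : ℂ) (h : ‖c‖ ^ 2 + ‖d‖ ^ 2 = 1) (n : ℕ) : ‖v c d n‖ ^ 2 = 1 := by
  induction n with
  | zero =>
    have := norm_split' (v c d 0)
    rw [this]
    simp only [v, C_δ_nil, δ_nil_nil]
    simp
  | succ n ih =>
    have h1 : v c d (n + 1) = K c d (v c d n) := rfl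
    rw [h1, norm_split', K_nil, C_K_true, C_K_false, norm_smul, norm_smul, mul_pow, mul_pow, ih]
    simp [h]

lemma norm_ψ (c d : ℂ) (h : ‖c‖ ^ 2 + ‖d‖ ^ 2 = 1) (n : ℕ) : ‖ψ c d n‖ ^ 2 = n + 1 := by
  induction n with
  | zero =>
    have := norm_v c d h 0
    simpa [v, ψ] using this
  | succ n ih =>
    have h1 : ψ c d (n + 1) = δ [] + K c d (ψ c d n) := rfl
    have h2 : ‖c‖ ^ 2 * (n + 1) + ‖d‖ ^ 2 * (n + 1) = n + 1 := by
      rw [← add_mul, h, one_mul]
    rw [h1, norm_split', map_add, map_add, C_K_true, C_K_false, C_δ_nil, C_δ_nil, cadd, K_nil,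
      δ_nil_nil, zero_add, zero_add, norm_smul, norm_smul, mul_pow, mul_pow, ih]
    push_cast
    simp only [add_zero, norm_one, one_pow]
    linarith

/-- the defect is concentrated at the root and at the last generations -/
lemma Top_ψ (r s E : ℝ) (c d : ℂ) (h1 : c * (E - s - (c + d)) = 1) (h2 : d * (E + s - (c + d)) = 1)
    (n : ℕ) : Top r s (ψ c d n) = (E : ℂ) • ψ c d n + ((r : ℂ) - E + (c + d)) • δ [] -
      (c + d) • v c d n + S true (v c d n) + S false (v c d n) := by
  cases n with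
  | zero =>
    have hv : v c d 0 = δ [] := rfl
    have hp : ψ c d 0 = δ [] := rfl
    rw [hv, hp, Top_apply, C_δ_nil, C_δ_nil]
    simp only [map_zero, smul_zero]
    module
  | succ n =>
    have hp : ψ c d (n + 1) = δ [] + K c d (ψ c d n) := rfl
    have hw := ψ_succ c d n
    have hT : Top r s (ψ c d (n + 1)) = (r : ℂ) • δ [] + (S true (ψ c d (n + 1)) +
        S false (ψ c d (n + 1))) + (((s : ℂ) * c) • S true (ψ c d n) +
        (-(s : ℂ) * d) • S false (ψ c d n) + (c + d) • ψ c d n) := by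
      rw [hp, Top_apply]
      simp only [map_add, C_K_true, C_K_false, C_δ_nil, zero_add, map_smul]
      rw [K]
      simp only [map_add, map_smul]
      module
    have hK : K c d (ψ c d n) = c • S true (ψ c d n) + d • S false (ψ c d n) := rfl
    rw [hT]
    have e1 : S true (ψ c d (n + 1)) = S true (ψ c d n) + S true (v c d (n + 1)) := by
      rw [hw, map_add]
    have e2 : S false (ψ c d (n + 1)) = S false (ψ c d n) + S false (v c d (n + 1)) := by
      rw [hw, map_add]
    rw [e1, e2]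
    have f1 : (1 + (s : ℂ) * c) = c * (E - (c + d)) := by linear_combination -h1
    have f2 : (1 + -(s : ℂ) * d) = d * (E - (c + d)) := by linear_combination -h2
    have g : (S true (ψ c d n)) + (S false (ψ c d n)) + (((s : ℂ) * c) • S true (ψ c d n) +
        (-(s : ℂ) * d) • S false (ψ c d n)) = ((E : ℂ) - (c + d)) • K c d (ψ c d n) := by
      have : (S true (ψ c d n)) + (S false (ψ c d n)) + (((s : ℂ) * c) • S true (ψ c d n) +
        (-(s : ℂ) * d) • S false (ψ c d n)) = (1 + (s : ℂ) * c) • S true (ψ c d n) +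
        (1 + -(s : ℂ) * d) • S false (ψ c d n) := by module
      rw [this, f1, f2, hK]
      module
    have g2 : K c d (ψ c d n) = ψ c d (n + 1) - δ [] := by rw [hp]; abel
    have g3 : ψ c d n = ψ c d (n + 1) - v c d (n + 1) := by rw [hw]; abel
    rw [g2] at g
    calc _ = (r : ℂ) • δ [] + (S true (v c d (n + 1)) + S false (v c d (n + 1))) +
          ((S true (ψ c d n)) + (S false (ψ c d n)) + (((s : ℂ) * c) • S true (ψ c d n) +
        (-(s : ℂ) * d) • S false (ψ c d n))) + (c + d) • ψ c d n := by module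
      _ = (r : ℂ) • δ [] + (S true (v c d (n + 1)) + S false (v c d (n + 1))) +
          ((E : ℂ) - (c + d)) • (ψ c d (n + 1) - δ []) +
          (c + d) • (ψ c d (n + 1) - v c d (n + 1)) := by rw [g, ← g3]
      _ = _ := by module

/-- points of `Sigma_1` are in the spectrum -/
lemma mem_spec (r s E : ℝ) (c d : ℂ) (h1 : c * (E - s - (c + d)) = 1)
    (h2 : d * (E + s - (c + d)) = 1) (hn : ‖c‖ ^ 2 + ‖d‖ ^ 2 = 1) :
    (E : ℂ) ∈ spectrum ℂ (Top r s) := by
  intro hu
  rw [spectrum.mem_resolventSet_iff, Algebra.algebraMap_eq_smul_one] at hu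
  obtain ⟨U, hU⟩ := hu
  set T' : H →L[ℂ] H := (E : ℂ) • 1 - Top r s with hT'
  set V : H →L[ℂ] H := ↑U⁻¹ with hV
  have hVT : ∀ φ, V (T' φ) = φ := by
    intro φ
    have : (V * T') φ = φ := by
      rw [← hU, hV, Units.inv_mul]
      rfl
    simpa using this
  set M : ℝ := ‖(r : ℂ) - E + (c + d)‖ + ‖c + d‖ + 2 with hM
  have hv1 : ∀ n, ‖v c d n‖ = 1 := by
    intro n
    have := norm_v c d hn n
    nlinarith [norm_nonneg (v c d n)]
  have hbd : ∀ n, ‖T' (ψ c d n)‖ ≤ M := by
    intro n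
    have e : T' (ψ c d n) = -(((r : ℂ) - E + (c + d)) • δ []) + (c + d) • v c d n
        - S true (v c d n) - S false (v c d n) := by
      rw [hT', sub_apply, smul_apply, one_apply_eq_self, Top_ψ r s E c d h1 h2 n]
      module
    have hδ : ‖δ []‖ = 1 := by
      have := hv1 0
      simpa [v] using this
    rw [e]
    calc _ ≤ ‖-(((r : ℂ) - E + (c + d)) • δ [])‖ + ‖(c + d) • v c d n‖
        + ‖S true (v c d n)‖ + ‖S false (v c d n)‖ := by
          refine (norm_sub_le _ _).trans ?_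
          gcongr
          refine (norm_sub_le _ _).trans ?_
          gcongr
          exact norm_add_le _ _
      _ ≤ ‖(r : ℂ) - E + (c + d)‖ + ‖c + d‖ + 1 + 1 := by
          rw [norm_neg, norm_smul, norm_smul, hδ, hv1, mul_one, mul_one]
          have a1 := norm_S true (v c d n)
          have a2 := norm_S false (v c d n)
          rw [hv1] at a1 a2
          linarith
      _ = M := by rw [hM]; ring
  have hlow : ∀ n : ℕ, (n : ℝ) + 1 ≤ (‖V‖ * M) ^ 2 := by
    intro n
    rw [← norm_ψ c d hn n]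
    have h3 : ‖ψ c d n‖ ≤ ‖V‖ * M := by
      calc ‖ψ c d n‖ = ‖V (T' (ψ c d n))‖ := by rw [hVT]
        _ ≤ ‖V‖ * ‖T' (ψ c d n)‖ := V.le_opNorm _
        _ ≤ ‖V‖ * M := mul_le_mul_of_nonneg_left (hbd n) (norm_nonneg _)
    exact pow_le_pow_left₀ (norm_nonneg _) h3 2
  obtain ⟨n, hn'⟩ := exists_nat_gt ((‖V‖ * M) ^ 2)
  have := hlow n
  linarith

end Pool.Agent.R250.TR
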